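import Mathlib
import Pool.Agent.Work.MP_2dba45_nt.Sel

set_option autoImplicit false

namespace Pool.Agent.Work.MP_73869e_nt.AP

open Finset Filter Pool.Agent.Work.MP_2dba45_nt.Sel

/-- upper limit of the small sieving primes -/
def zN (N : ℕ) : ℕ := (Nat.log 2 N) ^ 20

/-- upper limit of the large sieving primes -/
noncomputable def yR (N : ℕ) : ℝ := (N : ℝ) ^ ((8 : ℝ) / 21)

/-- level of the Selberg weights -/
noncomputable def RR (N : ℕ) : ℝ := (N : ℝ) ^ ((1 : ℝ) / 21)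

/-- large primes that can divide a number n^2 + q j^2 -/
noncomputable def PP (q N : ℕ) : Finset ℕ :=
  (Ioc (zN N) ⌊yR N⌋₊).filter (fun p => p.Prime ∧ jacobiSym p q = 1)

noncomputable def g (p : ℕ) : ℝ := 2 / p

def prd (T : Finset ℕ) : ℕ := ∏ p ∈ T, p

noncomputable def DD (q N : ℕ) (x : ℝ) : Finset (Finset ℕ) :=
  (PP q N).powerset.filter (fun T => (prd T : ℝ) ≤ x)

noncomputable def G (q N : ℕ) (x : ℝ) : ℝ := GG g (DD q N x)

/-- number of residues x mod p with p dividing x^2 + k for some k in κ -/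
def nu (κ : Finset ℕ) (p : ℕ) : ℕ := #((range p).filter (fun x => ∃ k ∈ κ, p ∣ x ^ 2 + k))

/-- small primes -/
def SS (w N : ℕ) : Finset ℕ := (Ioc w (zN N)).filter Nat.Prime

noncomputable def VV (κ : Finset ℕ) (w N : ℕ) : ℝ := ∏ p ∈ SS w N, (1 - (nu κ p : ℝ) / p)

/-- integers of (N, 2N], in the class a modulo the product of the primes up to w, for which
no n^2 + k with k in κ has a small prime factor -/
def AA (κ : Finset ℕ) (w N a : ℕ) : Finset ℕ :=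
  (Ioc N (2 * N)).filter (fun n => n % primorial w = a ∧ ∀ p ∈ SS w N, ∀ k ∈ κ, ¬ p ∣ n ^ 2 + k)

noncomputable def FF (D : Finset (Finset ℕ)) (lam : Finset ℕ → ℝ) (E : Finset (Finset ℕ))
    (om : Finset ℕ → ℝ) (k n : ℕ) : ℝ :=
  (∑ T ∈ D, if (∀ p ∈ T, p ∣ n ^ 2 + k) then lam T else 0) ^ 2 *
    ∑ T ∈ E, if (∀ p ∈ T, p ∣ n ^ 2 + k) then om T else 0

noncomputable def MM (D : Finset (Finset ℕ)) (lam : Finset ℕ → ℝ) (E : Finset (Finset ℕ))
    (om : Finset ℕ → ℝ) : ℝ :=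
  ∑ T₁ ∈ D, ∑ T₂ ∈ D, ∑ T₃ ∈ E, lam T₁ * lam T₂ * om T₃ * gg g (T₁ ∪ T₂ ∪ T₃)

/-- the number of j is about sqrt(c/q) log N -/
noncomputable def JJ (c : ℝ) (q N : ℕ) : ℕ := ⌊√(c / q) * Real.log N⌋₊

/-- the family of j for the prime q -/
noncomputable def js (c : ℝ) (q N Q b : ℕ) : Finset ℕ := (Icc 1 (JJ c q N)).filter (fun j => j % Q = b % Q)

end Pool.Agent.Work.MP_73869e_nt.AP
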