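import Mathlib
import Pool.Agent.Work.MP_73869e_nt.AP.Defs

set_option autoImplicit false

namespace Pool.Agent.Work.MP_73869e_nt.AP

open Finset

noncomputable def GS (P : Finset ℕ) (h : ℕ → ℝ) (x : ℝ) : ℝ :=
  ∑ T ∈ P.powerset with (prd T : ℝ) ≤ x, ∏ p ∈ T, h p

noncomputable def TS (P : Finset ℕ) (h : ℕ → ℝ) (x : ℝ) : ℝ :=
  ∑ T ∈ P.powerset with (prd T : ℝ) ≤ x, (∏ p ∈ T, h p) * Real.log (x / prd T)

section
variable {P : Finset ℕ} {h : ℕ → ℝ}

theorem prd_pos (hP : ∀ p ∈ P, 2 ≤ p) {T : Finset ℕ} (hT : T ⊆ P) : 0 < prd T :=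
  Finset.prod_pos fun p hp => by have := hP p (hT hp); omega

theorem prd_ge_one (hP : ∀ p ∈ P, 2 ≤ p) {T : Finset ℕ} (hT : T ⊆ P) : (1 : ℝ) ≤ prd T := by
  exact_mod_cast prd_pos hP hT

theorem prod_h_nonneg (hh0 : ∀ p ∈ P, 0 ≤ h p) {T : Finset ℕ} (hT : T ⊆ P) : 0 ≤ ∏ p ∈ T, h p :=
  Finset.prod_nonneg fun p hp => hh0 p (hT hp)

theorem swap_sum (hP : ∀ p ∈ P, 2 ≤ p) (x : ℝ) :
    ∑ T ∈ P.powerset with (prd T : ℝ) ≤ x, (∏ p ∈ T, h p) * Real.log (prd T) =
      ∑ T ∈ P.powerset with (prd T : ℝ) ≤ x, (∏ p ∈ T, h p) *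
        ∑ p ∈ P with p ∉ T ∧ (p : ℝ) * prd T ≤ x, h p * Real.log p := by
  have h1 : ∀ T ∈ (P.powerset.filter fun T => (prd T : ℝ) ≤ x),
      (∏ p ∈ T, h p) * Real.log (prd T) = ∑ p ∈ T, (∏ p ∈ T, h p) * Real.log p := by
    intro T hT
    rw [Finset.mem_filter, Finset.mem_powerset] at hT
    rw [← Finset.mul_sum]
    congr 1
    unfold prd
    push_cast
    rw [Real.log_prod]
    intro p hp
    have := hP p (hT.1 hp)
    positivity
  rw [Finset.sum_congr rfl h1]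
  simp_rw [Finset.mul_sum]
  rw [Finset.sum_sigma', Finset.sum_sigma']
  refine Finset.sum_nbij' (fun x => ⟨x.1.erase x.2, x.2⟩) (fun x => ⟨insert x.2 x.1, x.2⟩)
    ?_ ?_ ?_ ?_ ?_
  · rintro ⟨T, p⟩ hx
    simp only [Finset.mem_sigma, Finset.mem_filter, Finset.mem_powerset] at hx ⊢
    obtain ⟨⟨hT, hTx⟩, hp⟩ := hx
    have h2 : (prd T : ℝ) = p * prd (T.erase p) := by
      unfold prd
      rw [← Finset.mul_prod_erase T (fun p => p) hp]
      push_cast
      rfl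
    have hp2 := hP p (hT hp)
    have hE : T.erase p ⊆ P := (Finset.erase_subset _ _).trans hT
    have h3 := prd_ge_one hP hE
    refine ⟨⟨hE, ?_⟩, hT hp, Finset.notMem_erase _ _, ?_⟩
    · refine le_trans ?_ hTx
      rw [h2]
      have : (1 : ℝ) ≤ p := by exact_mod_cast (by omega : 1 ≤ p)
      nlinarith
    · rw [← h2]; exact hTx
  · rintro ⟨T, p⟩ hx
    simp only [Finset.mem_sigma, Finset.mem_filter, Finset.mem_powerset] at hx ⊢
    obtain ⟨⟨hT, hTx⟩, hpP, hpT, hpx⟩ := hx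
    refine ⟨⟨Finset.insert_subset hpP hT, ?_⟩, Finset.mem_insert_self _ _⟩
    unfold prd
    rw [Finset.prod_insert hpT]
    push_cast
    unfold prd at hpx
    push_cast at hpx
    exact hpx
  · rintro ⟨T, p⟩ hx
    simp only [Finset.mem_sigma, Finset.mem_filter, Finset.mem_powerset] at hx
    simp [Finset.insert_erase hx.2]
  · rintro ⟨T, p⟩ hx
    simp only [Finset.mem_sigma, Finset.mem_filter, Finset.mem_powerset] at hx
    simp [Finset.erase_insert hx.2.2.1]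
  · rintro ⟨T, p⟩ hx
    simp only [Finset.mem_sigma, Finset.mem_filter, Finset.mem_powerset] at hx
    simp only
    rw [← Finset.mul_prod_erase T h hx.2]
    ring

theorem K1 (hP : ∀ p ∈ P, 2 ≤ p) (hh0 : ∀ p ∈ P, 0 ≤ h p)
    (L R : ℝ)
    (hM : ∀ x : ℝ, 1 ≤ x → x ≤ R →
      |∑ p ∈ P.filter (fun p : ℕ => (p : ℝ) ≤ x), h p * Real.log p - Real.log x| ≤ L)
    (hS : ∀ T ⊆ P, (prd T : ℝ) ≤ R → ∑ p ∈ T, h p * Real.log p ≤ 1)
    (x : ℝ) (hx1 : 1 ≤ x) (hxR : x ≤ R) :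
    |GS P h x * Real.log x - 2 * TS P h x| ≤ (L + 1) * GS P h x := by
  have e1 : GS P h x * Real.log x = (∑ T ∈ P.powerset with (prd T : ℝ) ≤ x,
      (∏ p ∈ T, h p) * Real.log (prd T)) + TS P h x := by
    unfold GS TS
    rw [Finset.sum_mul, ← Finset.sum_add_distrib]
    refine Finset.sum_congr rfl fun T hT => ?_
    rw [Finset.mem_filter, Finset.mem_powerset] at hT
    have := prd_ge_one hP hT.1
    rw [Real.log_div (by positivity) (by positivity)]
    ring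
  rw [e1, swap_sum hP x]
  have e2 : (∑ T ∈ P.powerset with (prd T : ℝ) ≤ x, (∏ p ∈ T, h p) *
        ∑ p ∈ P with p ∉ T ∧ (p : ℝ) * prd T ≤ x, h p * Real.log p) + TS P h x - 2 * TS P h x =
      ∑ T ∈ P.powerset with (prd T : ℝ) ≤ x, (∏ p ∈ T, h p) *
        ((∑ p ∈ P with p ∉ T ∧ (p : ℝ) * prd T ≤ x, h p * Real.log p) - Real.log (x / prd T)) := by
    have : TS P h x = ∑ T ∈ P.powerset with (prd T : ℝ) ≤ x,
      (∏ p ∈ T, h p) * Real.log (x / prd T) := rfl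
    rw [this]
    simp_rw [mul_sub]
    rw [Finset.sum_sub_distrib]
    ring
  rw [e2]
  refine (Finset.abs_sum_le_sum_abs _ _).trans ?_
  unfold GS
  rw [Finset.mul_sum]
  refine Finset.sum_le_sum fun T hT => ?_
  rw [Finset.mem_filter, Finset.mem_powerset] at hT
  have hT0 := prod_h_nonneg hh0 hT.1
  have hT1 := prd_ge_one hP hT.1
  have hTpos : (0 : ℝ) < prd T := by linarith
  rw [abs_mul, abs_of_nonneg hT0, mul_comm]
  apply mul_le_mul_of_nonneg_right _ hT0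
  have hu1 : 1 ≤ x / prd T := by rw [le_div_iff₀ hTpos]; linarith [hT.2]
  have huR : x / prd T ≤ R := by
    refine le_trans ?_ hxR
    exact div_le_self (by linarith) hT1
  have h1 := hM _ hu1 huR
  have h2 : ∑ p ∈ P.filter (fun p : ℕ => (p : ℝ) ≤ x / prd T), h p * Real.log p =
      (∑ p ∈ P with p ∉ T ∧ (p : ℝ) * prd T ≤ x, h p * Real.log p) +
      ∑ p ∈ T.filter (fun p : ℕ => (p : ℝ) ≤ x / prd T), h p * Real.log p := by
    rw [← Finset.sum_filter_add_sum_filter_not (P.filter (fun p : ℕ => (p : ℝ) ≤ x / prd T))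
      (fun p => p ∉ T)]
    congr 1
    · apply Finset.sum_congr _ (fun _ _ => rfl)
      ext p
      simp only [Finset.mem_filter, le_div_iff₀ hTpos]
      tauto
    · apply Finset.sum_congr _ (fun _ _ => rfl)
      ext p
      simp only [Finset.mem_filter, not_not]
      constructor
      · rintro ⟨⟨h1, h2⟩, h3⟩; exact ⟨h3, h2⟩
      · rintro ⟨h1, h2⟩; exact ⟨⟨hT.1 h1, h2⟩, h1⟩
  have hlog : ∀ p ∈ P, 0 ≤ h p * Real.log p := by
    intro p hp
    apply mul_nonneg (hh0 p hp)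
    apply Real.log_nonneg
    exact_mod_cast (by have := hP p hp; omega : 1 ≤ p)
  have h3 : 0 ≤ ∑ p ∈ T.filter (fun p : ℕ => (p : ℝ) ≤ x / prd T), h p * Real.log p :=
    Finset.sum_nonneg fun p hp => hlog p (hT.1 (Finset.mem_filter.1 hp).1)
  have h4 : ∑ p ∈ T.filter (fun p : ℕ => (p : ℝ) ≤ x / prd T), h p * Real.log p ≤ 1 := by
    refine le_trans ?_ (hS T hT.1 (hT.2.trans hxR))
    exact Finset.sum_le_sum_of_subset_of_nonneg (Finset.filter_subset _ _)
      fun p hp _ => hlog p (hT.1 hp)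
  rw [h2] at h1
  rw [abs_le] at h1 ⊢
  constructor <;> linarith [h1.1, h1.2]

theorem GS_mono (hh0 : ∀ p ∈ P, 0 ≤ h p) {x y : ℝ} (hxy : x ≤ y) : GS P h x ≤ GS P h y := by
  unfold GS
  apply Finset.sum_le_sum_of_subset_of_nonneg
  · intro T hT
    rw [Finset.mem_filter] at hT ⊢
    exact ⟨hT.1, hT.2.trans hxy⟩
  · intro T hT _
    exact prod_h_nonneg hh0 (Finset.mem_powerset.1 (Finset.mem_filter.1 hT).1)

theorem GS_nonneg (hh0 : ∀ p ∈ P, 0 ≤ h p) (x : ℝ) : 0 ≤ GS P h x :=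
  Finset.sum_nonneg fun T hT =>
    prod_h_nonneg hh0 (Finset.mem_powerset.1 (Finset.mem_filter.1 hT).1)

theorem TS_step (hP : ∀ p ∈ P, 2 ≤ p) (hh0 : ∀ p ∈ P, 0 ≤ h p) (R v : ℝ) (hR : 1 < R) (hv : 1 ≤ v) :
    TS P h R ≤ TS P h (R / v) + GS P h R * Real.log v := by
  have hv0 : 0 < v := by linarith
  have hlv : 0 ≤ Real.log v := Real.log_nonneg hv
  have hRv : R / v ≤ R := div_le_self (by linarith) hv
  have e1 : TS P h (R / v) = ∑ T ∈ P.powerset with (prd T : ℝ) ≤ R,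
      if (prd T : ℝ) ≤ R / v then (∏ p ∈ T, h p) * Real.log (R / v / prd T) else 0 := by
    unfold TS
    rw [← Finset.sum_filter, Finset.filter_filter]
    apply Finset.sum_congr _ (fun _ _ => rfl)
    ext T
    simp only [Finset.mem_filter]
    constructor
    · rintro ⟨h1, h2⟩; exact ⟨h1, h2.trans hRv, h2⟩
    · rintro ⟨h1, _, h2⟩; exact ⟨h1, h2⟩
  rw [e1]
  unfold TS GS
  rw [Finset.sum_mul, ← Finset.sum_add_distrib]
  refine Finset.sum_le_sum fun T hT => ?_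
  rw [Finset.mem_filter, Finset.mem_powerset] at hT
  have hT0 := prod_h_nonneg hh0 hT.1
  have hT1 := prd_ge_one hP hT.1
  have hTpos : (0 : ℝ) < prd T := by linarith
  split_ifs with hc
  · apply le_of_eq
    have hlg : Real.log (R / v / prd T) = Real.log (R / prd T) - Real.log v := by
      have hR0 : 0 < R := by linarith
      rw [Real.log_div (by positivity) hTpos.ne', Real.log_div hR0.ne' hv0.ne',
        Real.log_div hR0.ne' hTpos.ne']
      ring
    rw [hlg]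
    ring
  · rw [zero_add]
    apply mul_le_mul_of_nonneg_left _ hT0
    apply Real.log_le_log
    · exact div_pos (by linarith) hTpos
    · push Not at hc
      rw [div_lt_iff₀ hv0] at hc
      rw [div_le_iff₀ hTpos]
      linarith

end

theorem G_gap (P : Finset ℕ) (hP : ∀ p ∈ P, 2 ≤ p) (h : ℕ → ℝ) (hh0 : ∀ p ∈ P, 0 ≤ h p)
    (L R : ℝ) (hR : 1 < R)
    (hM : ∀ x : ℝ, 1 ≤ x → x ≤ R →
      |∑ p ∈ P.filter (fun p : ℕ => (p : ℝ) ≤ x), h p * Real.log p - Real.log x| ≤ L)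
    (hS : ∀ T ⊆ P, (prd T : ℝ) ≤ R → ∑ p ∈ T, h p * Real.log p ≤ 1)
    (v : ℝ) (hv : 1 ≤ v) (hvR : v ^ 2 ≤ R) :
    GS P h R - GS P h (R / v) ≤
      GS P h R * ((Real.log v + 2 * (L + 1)) / (Real.log R - Real.log v)) := by
  have hv0 : 0 < v := by linarith
  have hL : 0 ≤ L := (abs_nonneg _).trans (hM 1 le_rfl hR.le)
  have hvlt : v < R := by nlinarith
  have hlog : 0 < Real.log R - Real.log v := by
    have := Real.log_lt_log hv0 hvlt
    linarith
  have hx1 : 1 ≤ R / v := by rw [le_div_iff₀ hv0]; nlinarith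
  have hRv : R / v ≤ R := div_le_self (by linarith) hv
  have h1 := K1 hP hh0 L R hM hS R hR.le le_rfl
  have h2 := K1 hP hh0 L R hM hS (R / v) hx1 hRv
  have h3 := TS_step hP hh0 R v hR hv
  have h4 := GS_mono (P := P) hh0 hRv
  have h5 := GS_nonneg (P := P) hh0 (R / v)
  have hRR : Real.log (R / v) = Real.log R - Real.log v := Real.log_div (by linarith) hv0.ne'
  rw [hRR] at h2
  rw [abs_le] at h1 h2
  rw [← mul_div_assoc, le_div_iff₀ hlog]
  have h6 : (L + 1) * GS P h (R / v) ≤ (L + 1) * GS P h R := by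
    apply mul_le_mul_of_nonneg_left h4; linarith
  nlinarith [h1.1, h1.2, h2.1, h2.2]

end Pool.Agent.Work.MP_73869e_nt.AP
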