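import Mathlib
import Pool.Agent.Work.MP_2dba45_nt.Mert

set_option autoImplicit false

namespace Pool.Agent.Work.MP_73869e_nt.AP.MertQ

open Finset Filter ArithmeticFunction Pool.Agent.Work.MP_2dba45_nt.Mert

/-- a real character with partial sums bounded by B -/
structure GoodB (χ : ℕ → ℝ) (B : ℝ) : Prop where
  mul : ∀ m n, χ (m * n) = χ m * χ n
  le : ∀ n, |χ n| ≤ 1
  B1 : 1 ≤ B
  sum : ∀ a m, a ≤ m → |∑ j ∈ Ico a m, χ j| ≤ B

theorem abel_boundB (c f : ℕ → ℝ) (B : ℝ) (hB : 1 ≤ B) (a b : ℕ) (hab : a ≤ b)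
    (hc : ∀ m, a ≤ m → |∑ j ∈ Ico a m, c j| ≤ B)
    (hf0 : ∀ n, a ≤ n → 0 ≤ f n) (hf : ∀ n, a ≤ n → f (n + 1) ≤ f n) :
    |∑ n ∈ Ico a b, c n * f n| ≤ B * f a := by
  have hB0 : 0 < B := by linarith
  have h := abel_bound (fun n => c n / B) f a b hab (fun m hm => by
    rw [← Finset.sum_div, abs_div, abs_of_pos hB0, div_le_one hB0]
    exact hc m hm) hf0 hf
  have e : ∑ n ∈ Ico a b, c n / B * f n = (∑ n ∈ Ico a b, c n * f n) / B := by
    rw [Finset.sum_div]
    refine Finset.sum_congr rfl fun n _ => ?_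
    ring
  rw [e, abs_div, abs_of_pos hB0, div_le_iff₀ hB0] at h
  linarith

theorem conv_apply {χ : ℕ → ℝ} {B : ℝ} (h : GoodB χ B) {n : ℕ} (hn : 0 < n) :
    (wL χ * wC χ) n = χ n * (Real.log n / n) := by
  rw [ArithmeticFunction.mul_apply]
  have h1 : ∀ x ∈ n.divisorsAntidiagonal, wL χ x.1 * wC χ x.2 = χ n / n * Λ x.1 := by
    intro x hx
    rw [Nat.mem_divisorsAntidiagonal] at hx
    rw [wL_apply, wC_apply]
    have h1 : x.1 ≠ 0 := by rintro h0; rw [h0] at hx; simp at hx; omega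
    have h2 : x.2 ≠ 0 := by rintro h0; rw [h0] at hx; simp at hx; omega
    have h3 : χ n = χ x.1 * χ x.2 := by rw [← h.mul, hx.1]
    have h4 : (n : ℝ) = x.1 * x.2 := by exact_mod_cast hx.1.symm
    rw [h3, h4]
    have h1' : (x.1 : ℝ) ≠ 0 := by exact_mod_cast h1
    have h2' : (x.2 : ℝ) ≠ 0 := by exact_mod_cast h2
    field_simp
  have h2 : ∑ i ∈ n.divisorsAntidiagonal, Λ i.1 = ∑ i ∈ n.divisors, Λ i :=
    Nat.sum_divisorsAntidiagonal (fun i _ => Λ i)
  rw [Finset.sum_congr rfl h1, ← Finset.mul_sum, h2, vonMangoldt_sum]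
  ring

theorem sum_log_bound {χ : ℕ → ℝ} {B : ℝ} (h : GoodB χ B) (N : ℕ) :
    |∑ n ∈ Ioc 0 N, χ n * (Real.log n / n)| ≤ 1 + B := by
  have h1 : Ioc 0 N = Ico 1 (N + 1) := by ext; simp; omega
  have hB := h.B1
  rw [h1]
  rcases Nat.lt_or_ge N 2 with hN | hN
  · interval_cases N
    · simp; linarith
    · simp; linarith
  rw [← Finset.sum_Ico_consecutive _ (show 1 ≤ 3 by norm_num) (show 3 ≤ N + 1 by omega)]
  have h2 : |∑ n ∈ Ico 3 (N + 1), χ n * (Real.log n / n)| ≤ B * (Real.log (3 : ℕ) / (3 : ℕ)) := by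
    apply abel_boundB χ (fun n => Real.log n / n) B hB 3 (N + 1) (by omega)
    · intro m hm; exact h.sum 3 m hm
    · intro n hn
      have : (1 : ℝ) ≤ n := by exact_mod_cast (by omega : 1 ≤ n)
      exact div_nonneg (Real.log_nonneg this) (by positivity)
    · intro n hn
      apply Real.log_div_self_antitoneOn
      · have : (3 : ℝ) ≤ n := by exact_mod_cast hn
        show Real.exp 1 ≤ _
        linarith [Real.exp_one_lt_d9]
      · have : (3 : ℝ) ≤ n := by exact_mod_cast hn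
        show Real.exp 1 ≤ _
        push_cast
        linarith [Real.exp_one_lt_d9]
      · push_cast; linarith
  have h3 : ∑ n ∈ Ico 1 3, χ n * (Real.log n / n) = χ 2 * (Real.log 2 / 2) := by
    have : Ico 1 3 = {1, 2} := by decide
    rw [this]
    simp
  rw [h3]
  have h4 : |χ 2 * (Real.log 2 / 2)| ≤ 1 := by
    rw [abs_mul]
    have := h.le 2
    have h5 : |Real.log 2 / 2| ≤ 1 := by
      rw [abs_of_nonneg (by positivity)]
      linarith [Real.log_two_lt_d9]
    calc |χ 2| * |Real.log 2 / 2| ≤ 1 * 1 := by gcongr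
      _ = 1 := one_mul 1
  have h5 : Real.log (3 : ℕ) / (3 : ℕ) ≤ 1 := by
    rw [div_le_one (by norm_num)]
    have := Real.log_le_sub_one_of_pos (x := ((3 : ℕ) : ℝ)) (by norm_num)
    push_cast at this ⊢
    linarith
  have h6 : B * (Real.log (3 : ℕ) / (3 : ℕ)) ≤ B * 1 := by gcongr
  calc _ ≤ |χ 2 * (Real.log 2 / 2)| + |∑ n ∈ Ico 3 (N + 1), χ n * (Real.log n / n)| := abs_add_le _ _
    _ ≤ 1 + B := by linarith

theorem LL_sub {χ : ℕ → ℝ} {B : ℝ} (h : GoodB χ B) {y N : ℕ} (hyN : y ≤ N) :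
    |LL χ y - LL χ N| ≤ B / ((y : ℝ) + 1) := by
  unfold LL
  have h1 : ∀ N, Ioc 0 N = Ico 1 (N + 1) := by intro N; ext; simp; omega
  rw [h1, h1, ← Finset.sum_Ico_consecutive _ (show 1 ≤ y + 1 by omega)
    (show y + 1 ≤ N + 1 by omega)]
  have h2 : |∑ n ∈ Ico (y + 1) (N + 1), χ n * (1 / (n : ℝ))| ≤ B * (1 / (((y + 1 : ℕ)) : ℝ)) := by
    apply abel_boundB χ (fun n => 1 / (n : ℝ)) B h.B1 (y + 1) (N + 1) (by omega)
    · intro m hm; exact h.sum _ m hm
    · intro n hn; positivity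
    · intro n hn
      apply one_div_le_one_div_of_le
      · exact_mod_cast (by omega : 0 < n)
      · push_cast; linarith
  have h4 : ∑ n ∈ Ico (y + 1) (N + 1), χ n / (n : ℝ) =
      ∑ n ∈ Ico (y + 1) (N + 1), χ n * (1 / (n : ℝ)) := by
    refine Finset.sum_congr rfl fun n _ => ?_
    ring
  rw [h4]
  push_cast at h2
  rw [sub_add_cancel_left, abs_neg]
  calc _ ≤ _ := h2
    _ = _ := by ring

/-- the von Mangoldt sum, when the partial sum of the series for L(1, chi) is at least c0 -/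
theorem sum_chi_Lam {χ : ℕ → ℝ} {B : ℝ} (h : GoodB χ B) (c0 : ℝ) (hc0 : 0 < c0) (N : ℕ)
    (hL : c0 ≤ |LL χ N|) :
    |∑ k ∈ Ioc 0 N, χ k * Λ k / k| ≤ (1 + 7 * B) / c0 := by
  have hB := h.B1
  rcases Nat.eq_zero_or_pos N with rfl | hN
  · simp; positivity
  have hN' : (0 : ℝ) < N := by exact_mod_cast hN
  have h1 : ∑ n ∈ Ioc 0 N, χ n * (Real.log n / n) =
      ∑ k ∈ Ioc 0 N, (χ k * Λ k / k) * LL χ (N / k) := by
    rw [Finset.sum_congr rfl (fun n hn => (conv_apply h (Finset.mem_Ioc.1 hn).1).symm),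
      ArithmeticFunction.sum_Ioc_mul_eq_sum_sum]
    rfl
  have h2 : ∑ k ∈ Ioc 0 N, (χ k * Λ k / k) * LL χ (N / k) =
      LL χ N * ∑ k ∈ Ioc 0 N, χ k * Λ k / k +
      ∑ k ∈ Ioc 0 N, (χ k * Λ k / k) * (LL χ (N / k) - LL χ N) := by
    rw [Finset.mul_sum, ← Finset.sum_add_distrib]
    refine Finset.sum_congr rfl fun k _ => ?_
    ring
  have hlog4 : Real.log 4 ≤ 2 := by
    have : Real.log 4 = 2 * Real.log 2 := by
      rw [show (4 : ℝ) = 2 ^ 2 by norm_num, Real.log_pow]; norm_num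
    rw [this]; linarith [Real.log_two_lt_d9]
  have h3 : |∑ k ∈ Ioc 0 N, (χ k * Λ k / k) * (LL χ (N / k) - LL χ N)| ≤ 6 * B := by
    calc |∑ k ∈ Ioc 0 N, (χ k * Λ k / k) * (LL χ (N / k) - LL χ N)|
        ≤ ∑ k ∈ Ioc 0 N, |(χ k * Λ k / k) * (LL χ (N / k) - LL χ N)| :=
          Finset.abs_sum_le_sum_abs _ _
      _ ≤ ∑ k ∈ Ioc 0 N, B * (Λ k / N) := by
          refine Finset.sum_le_sum fun k hk => ?_
          rw [Finset.mem_Ioc] at hk
          have hk0 : (0 : ℝ) < k := by exact_mod_cast hk.1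
          rw [abs_mul]
          have e1 : |χ k * Λ k / k| ≤ Λ k / k := by
            rw [abs_div, abs_mul, abs_of_nonneg (vonMangoldt_nonneg (n := k)),
              abs_of_pos hk0]
            have := h.le k
            have h0 : 0 ≤ Λ k := vonMangoldt_nonneg
            gcongr
            calc |χ k| * Λ k ≤ 1 * Λ k := by gcongr
              _ = Λ k := one_mul _
          have e2 : |LL χ (N / k) - LL χ N| ≤ B * (k / N) := by
            refine (LL_sub h (Nat.div_le_self N k)).trans ?_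
            rw [div_eq_mul_one_div]
            refine mul_le_mul_of_nonneg_left ?_ (by linarith)
            rw [div_le_div_iff₀ (by positivity) hN', one_mul]
            have := Nat.lt_mul_div_succ N hk.1
            have : (N : ℝ) < k * ((N / k : ℕ) + 1) := by exact_mod_cast this
            linarith
          calc |χ k * Λ k / k| * |LL χ (N / k) - LL χ N| ≤ (Λ k / k) * (B * (k / N)) := by
                have h0 : 0 ≤ Λ k := vonMangoldt_nonneg
                gcongr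
            _ = B * (Λ k / N) := by field_simp
      _ = B * ((∑ k ∈ Ioc 0 N, Λ k) / N) := by rw [Finset.sum_div, Finset.mul_sum]
      _ ≤ B * 6 := by
          gcongr
          rw [div_le_iff₀ hN']
          exact (sum_Lam_le N).trans (by gcongr; linarith)
      _ = 6 * B := by ring
  have h4 := sum_log_bound h N
  rw [h1, h2] at h4
  set S := ∑ k ∈ Ioc 0 N, χ k * Λ k / k
  have h6 : |LL χ N * S| ≤ 1 + 7 * B := by
    have e := abs_sub_abs_le_abs_sub (LL χ N * S) (-(∑ k ∈ Ioc 0 N, (χ k * Λ k / k) * (LL χ (N / k) - LL χ N)))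
    rw [sub_neg_eq_add, abs_neg] at e
    linarith
  rw [abs_mul] at h6
  rw [le_div_iff₀ hc0]
  calc |S| * c0 = c0 * |S| := by ring
    _ ≤ |LL χ N| * |S| := by gcongr
    _ ≤ _ := h6

/-- the sum over primes, if the partial sums of the series for L(1, chi) stay away from 0 -/
theorem mertens_chiB (χ : ℕ → ℝ) (B : ℝ) (h : GoodB χ B) (c0 : ℝ) (hc0 : 0 < c0) (N₀ : ℕ)
    (hL : ∀ N, N₀ ≤ N → c0 ≤ |LL χ N|) : ∃ C : ℝ, ∀ N : ℕ,
    |∑ p ∈ (Ioc 0 N).filter Nat.Prime, χ p * Real.log p / p| ≤ C := by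
  obtain ⟨C, hC⟩ := nonprime_bound
  have hB := h.B1
  refine ⟨C + ((1 + 7 * B) / c0 + Real.log (N₀ + 1) + 6), fun N => ?_⟩
  have h1 := hC χ h.le N
  have h2 : |∑ k ∈ Ioc 0 N, χ k * Λ k / k| ≤ (1 + 7 * B) / c0 + Real.log (N₀ + 1) + 6 := by
    have hlog : 0 ≤ Real.log ((N₀ : ℝ) + 1) := Real.log_nonneg (by linarith [Nat.cast_nonneg (α := ℝ) N₀])
    have hq0 : 0 ≤ (1 + 7 * B) / c0 := by positivity
    rcases Nat.lt_or_ge N N₀ with hN | hN
    · rcases Nat.eq_zero_or_pos N with rfl | hN0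
      · simp; linarith
      have e : |∑ k ∈ Ioc 0 N, χ k * Λ k / k| ≤ ∑ k ∈ Ioc 0 N, Λ k / k := by
        refine (Finset.abs_sum_le_sum_abs _ _).trans (Finset.sum_le_sum fun k hk => ?_)
        rw [Finset.mem_Ioc] at hk
        have hk0 : (0 : ℝ) < k := by exact_mod_cast hk.1
        rw [abs_div, abs_mul, abs_of_nonneg (vonMangoldt_nonneg (n := k)), abs_of_pos hk0]
        have := h.le k
        have h0 : 0 ≤ Λ k := vonMangoldt_nonneg
        gcongr
        calc |χ k| * Λ k ≤ 1 * Λ k := by gcongr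
          _ = Λ k := one_mul _
      have e2 := (abs_le.1 (sum_Lam_div N hN0)).2
      have e3 : Real.log N ≤ Real.log ((N₀ : ℝ) + 1) := by
        apply Real.log_le_log (by exact_mod_cast hN0)
        have : (N : ℝ) < N₀ := by exact_mod_cast hN
        linarith
      linarith
    · have := sum_chi_Lam h c0 hc0 N (hL N hN)
      linarith
  set S := ∑ k ∈ Ioc 0 N, χ k * Λ k / k
  set T := ∑ p ∈ (Ioc 0 N).filter Nat.Prime, χ p * Real.log p / p
  have h3 := abs_sub_abs_le_abs_sub T S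
  rw [abs_sub_comm] at h3
  linarith

/-! the character -/

noncomputable def xq (q n : ℕ) : ℝ := (jacobiSym n q : ℝ)

theorem xq_mul (q m n : ℕ) : xq q (m * n) = xq q m * xq q n := by
  unfold xq
  rw [Nat.cast_mul, jacobiSym.mul_left]
  push_cast
  rfl

theorem xq_le (q n : ℕ) : |xq q n| ≤ 1 := by
  unfold xq
  rcases jacobiSym.trichotomy (n : ℤ) q with h | h | h <;> rw [h] <;> simp

theorem xq_period (q n : ℕ) : xq q (n + q) = xq q n := by
  unfold xq
  rw [jacobiSym.mod_left, jacobiSym.mod_left (n : ℤ)]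
  push_cast
  rw [Int.add_emod_right]

theorem xq_eq (q : ℕ) [Fact q.Prime] (n : ℕ) : xq q n = ((quadraticChar (ZMod q) (n : ZMod q) : ℤ) : ℝ) := by
  unfold xq
  rw [← jacobiSym.legendreSym.to_jacobiSym, legendreSym]
  push_cast
  rfl

theorem sum_range_zmod {M : Type*} [AddCommMonoid M] (q : ℕ) [NeZero q] (F : ZMod q → M) :
    ∑ n ∈ range q, F (n : ZMod q) = ∑ x : ZMod q, F x := by
  refine Finset.sum_nbij' (fun n => (n : ZMod q)) (fun x => x.val) ?_ ?_ ?_ ?_ ?_
  · intro n _; exact Finset.mem_univ _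
  · intro x _; exact Finset.mem_range.2 (ZMod.val_lt x)
  · intro n hn; exact ZMod.val_cast_of_lt (Finset.mem_range.1 hn)
  · intro x _; exact ZMod.natCast_zmod_val x
  · intro n _; rfl

theorem ringChar_ne (q : ℕ) [Fact q.Prime] (hq2 : q ≠ 2) : ringChar (ZMod q) ≠ 2 := by
  rw [ZMod.ringChar_zmod_n]
  exact hq2

theorem block0 (q : ℕ) [Fact q.Prime] (hq2 : q ≠ 2) : ∑ n ∈ range q, xq q n = 0 := by
  have h := sum_range_zmod q (fun x : ZMod q => ((quadraticChar (ZMod q) x : ℤ) : ℝ))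
  rw [Finset.sum_congr rfl (fun n _ => xq_eq q n), h, ← Int.cast_sum,
    quadraticChar_sum_zero (ringChar_ne q hq2), Int.cast_zero]

theorem block (q : ℕ) [Fact q.Prime] (hq2 : q ≠ 2) (a : ℕ) : ∑ n ∈ Ico a (a + q), xq q n = 0 := by
  have hq : 0 < q := (Fact.out : q.Prime).pos
  induction a with
  | zero => rw [zero_add, ← Finset.range_eq_Ico]; exact block0 q hq2
  | succ a ih =>
    rw [Finset.sum_eq_sum_Ico_succ_bot (show a < a + q by omega)] at ih
    rw [show a + 1 + q = a + q + 1 by ring, Finset.sum_Ico_succ_top (by omega), xq_period]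
    linarith

theorem sum_le (q : ℕ) [Fact q.Prime] (hq2 : q ≠ 2) (a m : ℕ) (ham : a ≤ m) :
    |∑ j ∈ Ico a m, xq q j| ≤ q := by
  have hq : 0 < q := (Fact.out : q.Prime).pos
  induction hd : m - a using Nat.strong_induction_on generalizing a with
  | _ d ih =>
    rcases Nat.lt_or_ge d q with h | h
    · calc |∑ j ∈ Ico a m, xq q j| ≤ ∑ j ∈ Ico a m, |xq q j| := Finset.abs_sum_le_sum_abs _ _
        _ ≤ ∑ j ∈ Ico a m, (1 : ℝ) := Finset.sum_le_sum fun j _ => xq_le q j
        _ = ((m - a : ℕ) : ℝ) := by simp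
        _ ≤ q := by
          rw [hd]
          exact_mod_cast h.le
    · rw [← Finset.sum_Ico_consecutive _ (show a ≤ a + q by omega) (show a + q ≤ m by omega),
        block q hq2 a, zero_add]
      exact ih (m - (a + q)) (by omega) (a + q) (by omega) rfl

theorem good_xq (q : ℕ) [Fact q.Prime] (hq2 : q ≠ 2) : GoodB (xq q) q where
  mul := xq_mul q
  le := xq_le q
  B1 := by exact_mod_cast (Fact.out : q.Prime).one_lt.le
  sum := sum_le q hq2

/-- the complex Dirichlet character -/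
noncomputable def psi (q : ℕ) [Fact q.Prime] : DirichletCharacter ℂ q :=
  (quadraticChar (ZMod q)).ringHomComp (Int.castRingHom ℂ)

theorem psi_apply (q : ℕ) [Fact q.Prime] (n : ℕ) : psi q (n : ZMod q) = ((xq q n : ℝ) : ℂ) := by
  rw [xq_eq]
  simp [psi]

theorem psi_ne_one (q : ℕ) [Fact q.Prime] (hq2 : q ≠ 2) : psi q ≠ 1 := by
  intro h
  apply quadraticChar_ne_one (ringChar_ne q hq2)
  ext u
  have := congrArg (fun f : DirichletCharacter ℂ q => f (u : ZMod q)) h
  simp only [psi, MulChar.ringHomComp_apply, MulChar.one_apply_coe] at this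
  have h2 : ((quadraticChar (ZMod q) (u : ZMod q) : ℤ) : ℂ) = ((1 : ℤ) : ℂ) := by
    simpa using this
  rw [MulChar.one_apply_coe]
  exact_mod_cast h2

open Complex in
/-- partial sums of the L-series at real s -/
theorem partial_close (q : ℕ) [Fact q.Prime] (hq2 : q ≠ 2) (s : ℝ) (hs : 1 < s) (N : ℕ) :
    ‖DirichletCharacter.LFunction (psi q) s -
      ((∑ n ∈ Ico 1 (N + 1), xq q n * (n : ℝ) ^ (-s) : ℝ) : ℂ)‖ ≤ q / ((N : ℝ) + 1) := by
  have hs' : 1 < (s : ℂ).re := by simpa using hs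
  rw [DirichletCharacter.LFunction_eq_LSeries (psi q) hs']
  have hsum := DirichletCharacter.LSeriesSummable_of_one_lt_re (psi q) hs'
  have hterm : ∀ n : ℕ, LSeries.term (fun n : ℕ => psi q (n : ZMod q)) (s : ℂ) n =
      ((xq q n * (n : ℝ) ^ (-s) : ℝ) : ℂ) := by
    intro n
    rcases Nat.eq_zero_or_pos n with rfl | hn
    · rw [LSeries.term_zero]
      have : ((0 : ℕ) : ℝ) ^ (-s) = 0 := by
        rw [Nat.cast_zero, Real.zero_rpow (by linarith)]
      rw [this]; simp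
    · rw [LSeries.term_of_ne_zero hn.ne']
      rw [psi_apply, ofReal_mul, ofReal_cpow (Nat.cast_nonneg n)]
      push_cast
      rw [Complex.cpow_neg, div_eq_mul_inv]
  have hlim := hsum.hasSum.tendsto_sum_nat
  have hlim2 : Tendsto (fun M : ℕ => ‖(∑ i ∈ range M, LSeries.term (fun n : ℕ => psi q (n : ZMod q)) (s : ℂ) i) -
      ((∑ n ∈ Ico 1 (N + 1), xq q n * (n : ℝ) ^ (-s) : ℝ) : ℂ)‖) atTop
      (nhds (‖LSeries (fun n : ℕ => psi q (n : ZMod q)) (s : ℂ) -
      ((∑ n ∈ Ico 1 (N + 1), xq q n * (n : ℝ) ^ (-s) : ℝ) : ℂ)‖)) :=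
    (hlim.sub_const _).norm
  refine le_of_tendsto hlim2 ?_
  filter_upwards [eventually_ge_atTop (N + 1)] with M hM
  have e1 : ∑ i ∈ range M, LSeries.term (fun n : ℕ => psi q (n : ZMod q)) (s : ℂ) i =
      ((∑ n ∈ range M, xq q n * (n : ℝ) ^ (-s) : ℝ) : ℂ) := by
    rw [ofReal_sum]
    exact Finset.sum_congr rfl fun n _ => hterm n
  have e2 : ∑ n ∈ range M, xq q n * (n : ℝ) ^ (-s) =
      ∑ n ∈ Ico 1 (N + 1), xq q n * (n : ℝ) ^ (-s) + ∑ n ∈ Ico (N + 1) M, xq q n * (n : ℝ) ^ (-s) := by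
    rw [Finset.range_eq_Ico, ← Finset.sum_Ico_consecutive _ (show 0 ≤ 1 by norm_num) (show 1 ≤ M by omega),
      ← Finset.sum_Ico_consecutive _ (show 1 ≤ N + 1 by omega) hM]
    have : ∑ n ∈ Ico 0 1, xq q n * (n : ℝ) ^ (-s) = 0 := by
      simp [Real.zero_rpow (show -s ≠ 0 by linarith)]
    rw [this, zero_add]
  rw [e1, e2, ofReal_add, add_sub_cancel_left, Complex.norm_real, Real.norm_eq_abs]
  have hq1 : (1 : ℝ) ≤ q := by exact_mod_cast (Fact.out : q.Prime).one_lt.le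
  have h3 : |∑ n ∈ Ico (N + 1) M, xq q n * (n : ℝ) ^ (-s)| ≤ q * (((N + 1 : ℕ) : ℝ) ^ (-s)) := by
    apply abel_boundB (xq q) (fun n => (n : ℝ) ^ (-s)) q hq1 (N + 1) M hM
    · intro m hm; exact sum_le q hq2 _ m hm
    · intro n hn; positivity
    · intro n hn
      apply Real.rpow_le_rpow_of_nonpos
      · exact_mod_cast (by omega : 0 < n)
      · push_cast; linarith
      · linarith
  refine h3.trans ?_
  rw [div_eq_mul_inv]
  gcongr
  have h4 : (1 : ℝ) ≤ ((N + 1 : ℕ) : ℝ) := by exact_mod_cast (by omega : 1 ≤ N + 1)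
  calc (((N + 1 : ℕ) : ℝ) ^ (-s)) ≤ ((N + 1 : ℕ) : ℝ) ^ (-1 : ℝ) :=
        Real.rpow_le_rpow_of_exponent_le h4 (by linarith)
    _ = _ := by rw [Real.rpow_neg_one]; push_cast; rfl

theorem LL_close (q : ℕ) [Fact q.Prime] (hq2 : q ≠ 2) (N : ℕ) :
    ‖DirichletCharacter.LFunction (psi q) 1 - ((LL (xq q) N : ℝ) : ℂ)‖ ≤ q / ((N : ℝ) + 1) := by
  have hc : Continuous (DirichletCharacter.LFunction (psi q)) :=
    (DirichletCharacter.differentiable_LFunction (psi_ne_one q hq2)).continuous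
  have h1 : Tendsto (fun s : ℝ => DirichletCharacter.LFunction (psi q) (s : ℂ)) (nhdsWithin 1 (Set.Ioi 1))
      (nhds (DirichletCharacter.LFunction (psi q) 1)) := by
    have : Continuous (fun s : ℝ => DirichletCharacter.LFunction (psi q) (s : ℂ)) :=
      hc.comp Complex.continuous_ofReal
    have h := this.tendsto 1
    rw [Complex.ofReal_one] at h
    exact h.mono_left nhdsWithin_le_nhds
  have h2 : Tendsto (fun s : ℝ => ((∑ n ∈ Ico 1 (N + 1), xq q n * (n : ℝ) ^ (-s) : ℝ) : ℂ))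
      (nhdsWithin 1 (Set.Ioi 1)) (nhds ((LL (xq q) N : ℝ) : ℂ)) := by
    have hcont : Continuous (fun s : ℝ => (∑ n ∈ Ico 1 (N + 1), xq q n * (n : ℝ) ^ (-s) : ℝ)) := by
      refine continuous_finsetSum _ fun n hn => ?_
      have hn0 : (n : ℝ) ≠ 0 := by
        rw [Finset.mem_Ico] at hn
        exact_mod_cast (by omega : n ≠ 0)
      exact continuous_const.mul (Real.continuous_const_rpow hn0 |>.comp continuous_neg)
    have h := (Complex.continuous_ofReal.comp hcont).tendsto 1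
    have e : (∑ n ∈ Ico 1 (N + 1), xq q n * (n : ℝ) ^ (-(1 : ℝ))) = LL (xq q) N := by
      unfold LL
      have h1 : Ioc 0 N = Ico 1 (N + 1) := by ext; simp; omega
      rw [h1]
      refine Finset.sum_congr rfl fun n _ => ?_
      rw [Real.rpow_neg_one, div_eq_mul_inv]
    simp only [Function.comp] at h
    rw [e] at h
    exact h.mono_left nhdsWithin_le_nhds
  refine le_of_tendsto ((h1.sub h2).norm) ?_
  filter_upwards [self_mem_nhdsWithin] with s hs
  exact partial_close q hq2 s hs N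

theorem LL_away (q : ℕ) [Fact q.Prime] (hq2 : q ≠ 2) : ∃ c0 : ℝ, 0 < c0 ∧ ∃ N₀ : ℕ, ∀ N, N₀ ≤ N →
    c0 ≤ |LL (xq q) N| := by
  have hne : DirichletCharacter.LFunction (psi q) 1 ≠ 0 :=
    DirichletCharacter.LFunction_apply_one_ne_zero (psi_ne_one q hq2)
  set l := ‖DirichletCharacter.LFunction (psi q) 1‖ with hl
  have hl0 : 0 < l := norm_pos_iff.2 hne
  refine ⟨l / 2, by positivity, ⌈2 * q / l⌉₊, fun N hN => ?_⟩
  have h1 := LL_close q hq2 N
  have h2 : (q : ℝ) / ((N : ℝ) + 1) ≤ l / 2 := by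
    rw [div_le_div_iff₀ (by positivity) (by norm_num)]
    have h3 : 2 * q / l ≤ N := (Nat.le_ceil _).trans (by exact_mod_cast hN)
    rw [div_le_iff₀ hl0] at h3
    nlinarith
  have h3 := norm_sub_norm_le (DirichletCharacter.LFunction (psi q) 1) ((LL (xq q) N : ℝ) : ℂ)
  rw [Complex.norm_real, Real.norm_eq_abs] at h3
  linarith

end Pool.Agent.Work.MP_73869e_nt.AP.MertQ

namespace Pool.Agent.Work.MP_73869e_nt.AP

open Finset Filter Pool.Agent.Work.MP_2dba45_nt.Mert

theorem mert_q (q : ℕ) (hq : q.Prime) (hq2 : q ≠ 2) : ∃ C : ℝ, 0 ≤ C ∧ ∀ N : ℕ, 0 < N →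
    |∑ p ∈ (Ioc 0 N).filter (fun p : ℕ => p.Prime ∧ jacobiSym p q = 1), 2 * Real.log p / p
      - Real.log N| ≤ C := by
  have : Fact q.Prime := ⟨hq⟩
  obtain ⟨c0, hc0, N₀, hN₀⟩ := MertQ.LL_away q hq2
  obtain ⟨C1, hC1⟩ := MertQ.mertens_chiB (MertQ.xq q) q (MertQ.good_xq q hq2) c0 hc0 N₀ hN₀
  obtain ⟨C2, hC2⟩ := mertens_one
  have hC1' : 0 ≤ C1 := (abs_nonneg _).trans (hC1 1)
  have hC2' : 0 ≤ C2 := (abs_nonneg _).trans (hC2 1 one_pos)
  have hq1 : (1 : ℝ) ≤ q := by exact_mod_cast hq.one_lt.le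
  have hlq : 0 ≤ Real.log q / q := div_nonneg (Real.log_nonneg hq1) (by positivity)
  refine ⟨C1 + C2 + Real.log q / q, by positivity, fun N hN => ?_⟩
  have key : ∑ p ∈ (Ioc 0 N).filter (fun p : ℕ => p.Prime ∧ jacobiSym p q = 1), 2 * Real.log p / p =
      ∑ p ∈ (Ioc 0 N).filter Nat.Prime, Real.log p / p +
      ∑ p ∈ (Ioc 0 N).filter Nat.Prime, MertQ.xq q p * Real.log p / p -
      ∑ p ∈ (Ioc 0 N).filter Nat.Prime, (if p = q then Real.log q / q else 0) := by
    rw [← Finset.sum_add_distrib, ← Finset.sum_sub_distrib, ← Finset.filter_filter,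
      Finset.sum_filter]
    refine Finset.sum_congr rfl fun p hp => ?_
    have hpp : p.Prime := (Finset.mem_filter.1 hp).2
    unfold MertQ.xq
    rcases jacobiSym.trichotomy (p : ℤ) q with h | h | h
    · have hpq : p = q := by
        rw [jacobiSym.eq_zero_iff] at h
        have h2 := h.2
        rw [Int.gcd_natCast_natCast] at h2
        by_contra hne
        exact h2 ((Nat.coprime_primes hpp hq).2 hne)
      rw [h, if_neg (by norm_num), if_pos hpq, hpq]
      push_cast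
      ring
    · have hpq : p ≠ q := by
        rintro rfl
        have : jacobiSym (p : ℤ) p = 0 := by
          rw [jacobiSym.eq_zero_iff]
          refine ⟨hpp.ne_zero, ?_⟩
          rw [Int.gcd_natCast_natCast, Nat.gcd_self]
          exact hpp.one_lt.ne'
        omega
      rw [h, if_pos rfl, if_neg hpq]
      push_cast
      ring
    · have hpq : p ≠ q := by
        rintro rfl
        have : jacobiSym (p : ℤ) p = 0 := by
          rw [jacobiSym.eq_zero_iff]
          refine ⟨hpp.ne_zero, ?_⟩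
          rw [Int.gcd_natCast_natCast, Nat.gcd_self]
          exact hpp.one_lt.ne'
        omega
      rw [h, if_neg (by norm_num), if_neg hpq]
      push_cast
      ring
  have hlast : |∑ p ∈ (Ioc 0 N).filter Nat.Prime, (if p = q then Real.log q / q else 0)| ≤
      Real.log q / q := by
    rw [Finset.sum_ite_eq']
    split_ifs
    · rw [abs_of_nonneg hlq]
    · simpa using hlq
  have h1 := hC1 N
  have h2 := hC2 N hN
  rw [key]
  rw [abs_le] at h1 h2 hlast ⊢
  constructor <;> linarith [h1.1, h1.2, h2.1, h2.2, hlast.1, hlast.2]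

end Pool.Agent.Work.MP_73869e_nt.AP
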