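import Mathlib
import Pool.Agent.Work.MP_73869e_nt.AP.Defs
import Pool.Agent.Work.MP_2dba45_nt.Psum

set_option autoImplicit false

namespace Pool.Agent.Work.MP_73869e_nt.AP

open Finset Filter Pool.Agent.Work.MP_2dba45_nt.Mert Pool.Agent.Work.MP_2dba45_nt.Psum

/-- partial summation from a Mertens type estimate, with a sharp error term -/
theorem psum_sharp (a : ℕ → ℝ) (C : ℝ) (hC0 : 0 ≤ C)
    (hC : ∀ N : ℕ, 0 < N → |∑ n ∈ Ioc 0 N, a n * (Real.log n / n) - Real.log N| ≤ C)
    (w z : ℕ) (hw : 2 ≤ w) (hwz : w ≤ z) :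
    |∑ n ∈ Ioc w z, a n / n - (Real.log (Real.log z) - Real.log (Real.log w))| ≤
      (2 * C + 1) / Real.log w + 6 / w := by
  have hI : ∀ w z : ℕ, Ioc w z = Ico (w + 1) (z + 1) := by
    intro w z; ext x; simp only [Finset.mem_Ioc, Finset.mem_Ico]; omega
  set c : ℕ → ℝ := fun n => (a n * (Real.log n / n) - (Real.log n - Real.log ((n - 1 : ℕ) : ℝ))) /
    (2 * C + 1) with hc
  have hCpos : 0 < 2 * C + 1 := by linarith
  have hS : ∀ m, w + 1 ≤ m → |∑ j ∈ Ico (w + 1) m, c j| ≤ 1 := by
    intro m hm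
    obtain ⟨m, rfl⟩ : ∃ k, m = k + 1 := ⟨m - 1, by omega⟩
    have hm' : w ≤ m := by omega
    have e1 : ∑ j ∈ Ico (w + 1) (m + 1), a j * (Real.log j / j) =
        ∑ n ∈ Ioc 0 m, a n * (Real.log n / n) - ∑ n ∈ Ioc 0 w, a n * (Real.log n / n) := by
      rw [hI 0 m, hI 0 w, ← Finset.sum_Ico_consecutive _ (show 0 + 1 ≤ w + 1 by omega)
        (show w + 1 ≤ m + 1 by omega)]
      ring
    have e2 : ∑ j ∈ Ico (w + 1) (m + 1), (Real.log j - Real.log ((j - 1 : ℕ) : ℝ)) =
        Real.log m - Real.log w := by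
      clear hm e1
      induction m, hm' using Nat.le_induction with
      | base => simp
      | succ m hm ih =>
        rw [Finset.sum_Ico_succ_top (by omega), ih]
        simp
    have e3 : ∑ j ∈ Ico (w + 1) (m + 1), c j =
        ((∑ n ∈ Ioc 0 m, a n * (Real.log n / n) - Real.log m) -
          (∑ n ∈ Ioc 0 w, a n * (Real.log n / n) - Real.log w)) / (2 * C + 1) := by
      rw [hc, ← Finset.sum_div, Finset.sum_sub_distrib, e1, e2]
      ring
    rw [e3, abs_div, abs_of_pos hCpos, div_le_one hCpos]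
    have h1 := hC m (by omega)
    have h2 := hC w (by omega)
    have := abs_sub (∑ n ∈ Ioc 0 m, a n * (Real.log n / n) - Real.log m)
          (∑ n ∈ Ioc 0 w, a n * (Real.log n / n) - Real.log w)
    linarith
  have hlog : ∀ n : ℕ, w ≤ n → 0 < Real.log n := by
    intro n hn
    apply Real.log_pos
    exact_mod_cast (by omega : 1 < n)
  have hab := abel_bound c (fun n => 1 / Real.log n) (w + 1) (z + 1) (by omega) hS
    (fun n hn => by have := hlog n (by omega); positivity)
    (fun n hn => by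
      have := hlog n (by omega)
      apply one_div_le_one_div_of_le this
      apply Real.log_le_log
      · exact_mod_cast (by omega : 0 < n)
      · push_cast; linarith)
  have hlw := hlog w le_rfl
  have hf : 1 / Real.log ((w + 1 : ℕ) : ℝ) ≤ 1 / Real.log w := by
    apply one_div_le_one_div_of_le hlw
    apply Real.log_le_log
    · exact_mod_cast (by omega : 0 < w)
    · push_cast; linarith
  have hls := log_sum w z hw hwz
  have e4 : ∑ n ∈ Ioc w z, a n / n =
      (2 * C + 1) * ∑ n ∈ Ico (w + 1) (z + 1), c n * (1 / Real.log n) +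
      ∑ n ∈ Ico (w + 1) (z + 1),
        (Real.log n - Real.log ((n - 1 : ℕ) : ℝ)) * (1 / Real.log n) := by
    rw [hI, Finset.mul_sum, ← Finset.sum_add_distrib]
    refine Finset.sum_congr rfl fun n hn => ?_
    rw [Finset.mem_Ico] at hn
    have := (hlog n (by omega)).ne'
    have hn0 : (n : ℝ) ≠ 0 := by
      have : 0 < n := by omega
      positivity
    simp only [hc]
    field_simp
    ring
  have h5 : |(2 * C + 1) * ∑ n ∈ Ico (w + 1) (z + 1), c n * (1 / Real.log n)| ≤
      (2 * C + 1) / Real.log w := by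
    rw [abs_mul, abs_of_pos hCpos, div_eq_mul_one_div]
    exact mul_le_mul_of_nonneg_left (hab.trans hf) hCpos.le
  rw [e4]
  have hz' : 0 ≤ 1 / (z : ℝ) := by positivity
  have h6 : (6 : ℝ) / w = 6 * (1 / w) := by ring
  have h7 : (0 : ℝ) ≤ 6 / w := by positivity
  rw [abs_le] at h5 ⊢
  constructor
  · linarith [h5.1, hls.2]
  · linarith [h5.2, hls.1]

end Pool.Agent.Work.MP_73869e_nt.AP
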