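import Mathlib
import Pool.Agent.Work.MP_73869e_nt.AP.Defs
import Pool.Agent.Work.MP_73869e_nt.AP.MertQ
import Pool.Agent.Work.MP_73869e_nt.AP.PsumS

set_option autoImplicit false

namespace Pool.Agent.Work.MP_73869e_nt.AP

open Finset Filter

/-- the relevant primes -/
def good (q : ℕ) (p : ℕ) : Prop := p.Prime ∧ jacobiSym p q = 1

instance (q : ℕ) : DecidablePred (good q) := fun _ => inferInstanceAs (Decidable (_ ∧ _))

theorem good_two_le {q p : ℕ} (h : good q p) : (2 : ℝ) ≤ p := by exact_mod_cast h.1.two_le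

theorem PP_eq (q N : ℕ) : PP q N = (Ioc (zN N) ⌊yR N⌋₊).filter (good q) := rfl

theorem filter_Ioc_split (q : ℕ) {u v : ℕ} (huv : u ≤ v) (f : ℕ → ℝ) :
    ∑ p ∈ (Ioc 0 v).filter (good q), f p =
      ∑ p ∈ (Ioc 0 u).filter (good q), f p + ∑ p ∈ (Ioc u v).filter (good q), f p := by
  rw [Finset.sum_filter, Finset.sum_filter, Finset.sum_filter,
    Finset.sum_Ioc_consecutive _ (Nat.zero_le u) huv]

theorem mert_diff {q : ℕ} {C : ℝ} (hC : ∀ N : ℕ, 0 < N →
    |∑ p ∈ (Ioc 0 N).filter (fun p : ℕ => p.Prime ∧ jacobiSym p q = 1), 2 * Real.log p / p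
      - Real.log N| ≤ C) {u v : ℕ} (hu : 0 < u) (huv : u ≤ v) :
    |∑ p ∈ (Ioc u v).filter (good q), 2 * Real.log p / p - (Real.log v - Real.log u)| ≤ 2 * C := by
  have h1 := hC u hu
  have h2 := hC v (by omega)
  have h3 := filter_Ioc_split q huv (fun p => 2 * Real.log p / p)
  have h4 : ∑ p ∈ (Ioc 0 v).filter (fun p : ℕ => p.Prime ∧ jacobiSym p q = 1),
      2 * Real.log p / p = ∑ p ∈ (Ioc 0 v).filter (good q), 2 * Real.log (p : ℝ) / p := rfl
  have h5 : ∑ p ∈ (Ioc 0 u).filter (fun p : ℕ => p.Prime ∧ jacobiSym p q = 1),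
      2 * Real.log p / p = ∑ p ∈ (Ioc 0 u).filter (good q), 2 * Real.log (p : ℝ) / p := rfl
  rw [h4, h3] at h2
  rw [h5] at h1
  rw [abs_le] at h1 h2 ⊢
  constructor <;> linarith [h1.1, h1.2, h2.1, h2.2]

theorem psum_diff {q : ℕ} {C : ℝ} (hC0 : 0 ≤ C) (hC : ∀ N : ℕ, 0 < N →
    |∑ p ∈ (Ioc 0 N).filter (fun p : ℕ => p.Prime ∧ jacobiSym p q = 1), 2 * Real.log p / p
      - Real.log N| ≤ C) {u v : ℕ} (hu : 2 ≤ u) (huv : u ≤ v) :
    |∑ p ∈ (Ioc u v).filter (good q), g p - (Real.log (Real.log v) - Real.log (Real.log u))| ≤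
      (2 * C + 1) / Real.log u + 6 / u := by
  have h := psum_sharp (fun n => if good q n then 2 else 0) C hC0 (fun N hN => by
    have h1 := hC N hN
    have e : ∑ n ∈ Ioc 0 N, (if good q n then (2 : ℝ) else 0) * (Real.log n / n) =
        ∑ p ∈ (Ioc 0 N).filter (fun p : ℕ => p.Prime ∧ jacobiSym p q = 1),
          2 * Real.log p / p := by
      rw [Finset.sum_filter]
      apply Finset.sum_congr rfl
      intro n _
      by_cases hn : good q n
      · rw [if_pos hn]
        have : n.Prime ∧ jacobiSym n q = 1 := hn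
        rw [if_pos this]
        ring
      · rw [if_neg hn]
        have : ¬ (n.Prime ∧ jacobiSym n q = 1) := hn
        rw [if_neg this]
        ring
    rw [e]
    exact h1) u v hu huv
  have e : ∑ n ∈ Ioc u v, (if good q n then (2 : ℝ) else 0) / n =
      ∑ p ∈ (Ioc u v).filter (good q), g p := by
    rw [Finset.sum_filter]
    apply Finset.sum_congr rfl
    intro n _
    split_ifs
    · rfl
    · simp
  rw [e] at h
  exact h

theorem g_mul_log (p : ℕ) : g p * Real.log p = 2 * Real.log p / p := by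
  unfold g; ring

theorem tendsto_zlog : Tendsto (fun N : ℕ => Nat.log 2 N) atTop atTop := by
  rw [tendsto_atTop_atTop]
  intro k
  refine ⟨2 ^ k, fun N hN => ?_⟩
  calc k = Nat.log 2 (2 ^ k) := (Nat.log_pow (by norm_num) k).symm
    _ ≤ Nat.log 2 N := Nat.log_mono_right hN

theorem ev_z (K : ℝ) : ∀ᶠ N : ℕ in atTop, 4 ≤ zN N ∧ 2 * (Real.log N + K) ≤ (zN N : ℝ) - 1 := by
  obtain ⟨k0, hk0⟩ := exists_nat_ge (4 + 2 * |K|)
  filter_upwards [tendsto_zlog.eventually_ge_atTop k0, eventually_ge_atTop 1] with N hN hN1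
  set k := Nat.log 2 N with hk
  have hkR : 4 + 2 * |K| ≤ (k : ℝ) := hk0.trans (by exact_mod_cast hN)
  have hK0 : 0 ≤ |K| := abs_nonneg K
  have hk4 : (4 : ℝ) ≤ k := by linarith
  have hk4' : 4 ≤ k := by exact_mod_cast hk4
  have hz : (k : ℕ) ^ 2 ≤ zN N := by
    unfold zN
    rw [← hk]
    exact Nat.pow_le_pow_right (by omega) (by norm_num)
  have hzR : (k : ℝ) ^ 2 ≤ zN N := by exact_mod_cast hz
  have hlog : Real.log N ≤ (k : ℝ) + 1 := by
    have h1 : N < 2 ^ (k + 1) := Nat.lt_pow_succ_log_self (by norm_num) N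
    have h2 : (N : ℝ) ≤ 2 ^ (k + 1) := by exact_mod_cast h1.le
    have h3 : Real.log N ≤ Real.log (2 ^ (k + 1)) :=
      Real.log_le_log (by exact_mod_cast hN1) h2
    rw [Real.log_pow] at h3
    push_cast at h3
    have : Real.log 2 ≤ 1 := by linarith [Real.log_two_lt_d9]
    nlinarith
  refine ⟨?_, ?_⟩
  · have : 4 ≤ k ^ 2 := by nlinarith
    omega
  · have : K ≤ |K| := le_abs_self K
    nlinarith

theorem log_floor_ge {x : ℝ} (hx : 1 ≤ x) : Real.log x - Real.log 2 ≤ Real.log ⌊x⌋₊ := by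
  have h1 : 1 ≤ ⌊x⌋₊ := Nat.one_le_floor_iff _ |>.mpr hx
  have h1R : (1 : ℝ) ≤ ⌊x⌋₊ := by exact_mod_cast h1
  have h2 : x < ⌊x⌋₊ + 1 := Nat.lt_floor_add_one x
  have h3 : x ≤ 2 * ⌊x⌋₊ := by linarith
  have h4 : Real.log x ≤ Real.log (2 * ⌊x⌋₊) := Real.log_le_log (by linarith) h3
  rw [Real.log_mul (by norm_num) (by positivity)] at h4
  linarith

theorem log_floor_le {x : ℝ} (hx : 1 ≤ x) : Real.log ⌊x⌋₊ ≤ Real.log x := by
  have h1 : 1 ≤ ⌊x⌋₊ := Nat.one_le_floor_iff _ |>.mpr hx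
  exact Real.log_le_log (by exact_mod_cast h1) (Nat.floor_le (by linarith))

theorem sum_g_log_le (q : ℕ) (hq : q.Prime) (hq2 : q ≠ 2) : ∃ C : ℝ, 0 ≤ C ∧ ∀ᶠ N : ℕ in atTop,
    ∀ x y : ℝ, 1 ≤ x → x ≤ y →
    ∑ p ∈ (PP q N).filter (fun p : ℕ => x < p ∧ (p : ℝ) ≤ y), g p * Real.log p ≤
      Real.log y - Real.log x + C := by
  obtain ⟨C, hC0, hC⟩ := mert_q q hq hq2
  have hl2 : 0 < Real.log 2 := Real.log_pos (by norm_num)
  refine ⟨2 * C + Real.log 2, by linarith, Eventually.of_forall fun N x y hx hxy => ?_⟩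
  have hx1 : 1 ≤ ⌊x⌋₊ := Nat.one_le_floor_iff _ |>.mpr hx
  have hsub : (PP q N).filter (fun p : ℕ => x < p ∧ (p : ℝ) ≤ y) ⊆
      (Ioc ⌊x⌋₊ ⌊y⌋₊).filter (good q) := by
    intro p hp
    rw [Finset.mem_filter] at hp
    obtain ⟨hp1, hp2, hp3⟩ := hp
    rw [PP_eq, Finset.mem_filter] at hp1
    rw [Finset.mem_filter, Finset.mem_Ioc]
    refine ⟨⟨?_, Nat.le_floor hp3⟩, hp1.2⟩
    exact (Nat.floor_lt (by linarith)).mpr hp2
  have h1 : ∑ p ∈ (PP q N).filter (fun p : ℕ => x < p ∧ (p : ℝ) ≤ y), g p * Real.log p ≤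
      ∑ p ∈ (Ioc ⌊x⌋₊ ⌊y⌋₊).filter (good q), 2 * Real.log p / p := by
    calc ∑ p ∈ (PP q N).filter (fun p : ℕ => x < p ∧ (p : ℝ) ≤ y), g p * Real.log p
        = ∑ p ∈ (PP q N).filter (fun p : ℕ => x < p ∧ (p : ℝ) ≤ y), 2 * Real.log p / p :=
          Finset.sum_congr rfl (fun p _ => g_mul_log p)
      _ ≤ _ := by
          apply Finset.sum_le_sum_of_subset_of_nonneg hsub
          intro p _ _
          positivity
  have h2 := mert_diff hC (u := ⌊x⌋₊) (v := ⌊y⌋₊) hx1 (Nat.floor_le_floor hxy)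
  have h3 := log_floor_ge hx
  have h4 := log_floor_le (hx.trans hxy)
  rw [abs_le] at h2
  linarith [h2.2]

theorem sum_h_log (q : ℕ) (hq : q.Prime) (hq2 : q ≠ 2) : ∃ C : ℝ, 0 ≤ C ∧ ∀ᶠ N : ℕ in atTop,
    ∀ x : ℝ, 1 ≤ x → x ≤ yR N →
    |∑ p ∈ (PP q N).filter (fun p : ℕ => (p : ℝ) ≤ x), g p / (1 - g p) * Real.log p - Real.log x| ≤
      C + Real.log (zN N) := by
  obtain ⟨C, hC0, hC⟩ := mert_q q hq hq2
  have hl2 : 0 < Real.log 2 := Real.log_pos (by norm_num)
  refine ⟨2 * C + Real.log 2 + 1, by linarith, ?_⟩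
  filter_upwards [ev_z (2 * C), eventually_ge_atTop 1] with N hN hN1 x hx hxy
  obtain ⟨hz4, hzl⟩ := hN
  have hz4R : (4 : ℝ) ≤ zN N := by exact_mod_cast hz4
  have hlz : 0 ≤ Real.log (zN N) := Real.log_nonneg (by linarith)
  have hlx : 0 ≤ Real.log x := Real.log_nonneg hx
  have hN1R : (1 : ℝ) ≤ N := by exact_mod_cast hN1
  rcases Nat.lt_or_ge (zN N) ⌊x⌋₊ with hzx | hzx
  · -- z < floor x
    have hset : (PP q N).filter (fun p : ℕ => (p : ℝ) ≤ x) =
        (Ioc (zN N) ⌊x⌋₊).filter (good q) := by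
      ext p
      rw [Finset.mem_filter, PP_eq, Finset.mem_filter, Finset.mem_filter, Finset.mem_Ioc,
        Finset.mem_Ioc]
      constructor
      · rintro ⟨⟨⟨h1, _⟩, h3⟩, h4⟩
        exact ⟨⟨h1, Nat.le_floor h4⟩, h3⟩
      · rintro ⟨⟨h1, h2⟩, h3⟩
        exact ⟨⟨⟨h1, h2.trans (Nat.floor_le_floor hxy)⟩, h3⟩,
          (Nat.le_floor_iff (by linarith)).mp h2⟩
    rw [hset]
    have hd := mert_diff hC (u := zN N) (v := ⌊x⌋₊) (by omega) hzx.le
    have h3 := log_floor_ge hx
    have h4 := log_floor_le hx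
    set S := ∑ p ∈ (Ioc (zN N) ⌊x⌋₊).filter (good q), 2 * Real.log p / p with hS
    have hterm : ∀ p ∈ (Ioc (zN N) ⌊x⌋₊).filter (good q),
        2 * Real.log p / p ≤ g p / (1 - g p) * Real.log p ∧
        g p / (1 - g p) * Real.log p ≤
          2 * Real.log p / p + 2 * Real.log p / p * (2 / ((zN N : ℝ) - 1)) := by
      intro p hp
      rw [Finset.mem_filter, Finset.mem_Ioc] at hp
      have hpz : (zN N : ℝ) + 1 ≤ p := by exact_mod_cast hp.1.1
      have hp0 : (0 : ℝ) < p := by linarith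
      have hp2 : (0 : ℝ) < p - 2 := by linarith
      have hlp : 0 ≤ Real.log p := Real.log_nonneg (by linarith)
      have e : g p / (1 - g p) = 2 / (p - 2) := by
        unfold g
        have : (1 : ℝ) - 2 / p = (p - 2) / p := by field_simp
        rw [this]
        field_simp
      rw [e]
      have e1 : 2 / ((p : ℝ) - 2) = 2 / p + 2 / p * (2 / (p - 2)) := by
        field_simp
        ring
      constructor
      · have : 2 / (p : ℝ) ≤ 2 / (p - 2) := by
          apply div_le_div_of_nonneg_left (by norm_num) hp2 (by linarith)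
        calc 2 * Real.log p / p = 2 / (p : ℝ) * Real.log p := by ring
          _ ≤ 2 / (p - 2) * Real.log p := mul_le_mul_of_nonneg_right this hlp
      · have h5 : 2 / ((p : ℝ) - 2) ≤ 2 / ((zN N : ℝ) - 1) := by
          apply div_le_div_of_nonneg_left (by norm_num) (by linarith) (by linarith)
        have h6 : 2 / ((p : ℝ) - 2) ≤ 2 / p + 2 / p * (2 / ((zN N : ℝ) - 1)) := by
          rw [e1]
          have : 2 / (p : ℝ) * (2 / (p - 2)) ≤ 2 / p * (2 / ((zN N : ℝ) - 1)) :=
            mul_le_mul_of_nonneg_left h5 (by positivity)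
          linarith
        calc 2 / ((p : ℝ) - 2) * Real.log p ≤
            (2 / p + 2 / p * (2 / ((zN N : ℝ) - 1))) * Real.log p :=
              mul_le_mul_of_nonneg_right h6 hlp
          _ = _ := by ring
    have hlow : S ≤ ∑ p ∈ (Ioc (zN N) ⌊x⌋₊).filter (good q), g p / (1 - g p) * Real.log p :=
      Finset.sum_le_sum (fun p hp => (hterm p hp).1)
    have hup : ∑ p ∈ (Ioc (zN N) ⌊x⌋₊).filter (good q), g p / (1 - g p) * Real.log p ≤
        S + S * (2 / ((zN N : ℝ) - 1)) := by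
      rw [hS, Finset.sum_mul, ← Finset.sum_add_distrib]
      exact Finset.sum_le_sum (fun p hp => (hterm p hp).2)
    have hxN : Real.log x ≤ Real.log N := by
      apply Real.log_le_log (by linarith)
      refine hxy.trans ?_
      unfold yR
      calc (N : ℝ) ^ ((8 : ℝ) / 21) ≤ (N : ℝ) ^ (1 : ℝ) :=
            Real.rpow_le_rpow_of_exponent_le hN1R (by norm_num)
        _ = N := Real.rpow_one _
    rw [abs_le] at hd
    have hSle : S ≤ Real.log N + 2 * C := by linarith [hd.2]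
    have hS1 : S * (2 / ((zN N : ℝ) - 1)) ≤ 1 := by
      rw [mul_div_assoc', div_le_one (by linarith)]
      linarith
    rw [abs_le]
    constructor
    · linarith [hd.1]
    · linarith [hd.2]
  · have hset : (PP q N).filter (fun p : ℕ => (p : ℝ) ≤ x) = ∅ := by
      rw [Finset.filter_eq_empty_iff]
      intro p hp hpx
      rw [PP_eq, Finset.mem_filter, Finset.mem_Ioc] at hp
      have := Nat.le_floor hpx
      omega
    rw [hset, Finset.sum_empty, zero_sub, abs_neg, abs_of_nonneg hlx]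
    have h3 := log_floor_ge hx
    have hx1 : 1 ≤ ⌊x⌋₊ := Nat.one_le_floor_iff _ |>.mpr hx
    have h5 : Real.log ⌊x⌋₊ ≤ Real.log (zN N) :=
      Real.log_le_log (by exact_mod_cast hx1) (by exact_mod_cast hzx)
    linarith

theorem sum_g_le (q : ℕ) (hq : q.Prime) (hq2 : q ≠ 2) : ∃ C : ℝ, 0 ≤ C ∧ ∀ᶠ N : ℕ in atTop,
    ∑ p ∈ PP q N, g p ≤ Real.log (Real.log N) + C := by
  obtain ⟨C, hC0, hC⟩ := mert_q q hq hq2
  refine ⟨(2 * C + 1) / Real.log 4 + 2, ?_, ?_⟩
  · have : 0 < Real.log 4 := Real.log_pos (by norm_num)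
    positivity
  have hl4 : 0 < Real.log 4 := Real.log_pos (by norm_num)
  filter_upwards [ev_z 0, eventually_ge_atTop 3] with N hN hN3
  obtain ⟨hz4, _⟩ := hN
  have hz4R : (4 : ℝ) ≤ zN N := by exact_mod_cast hz4
  have hN3R : (3 : ℝ) ≤ N := by exact_mod_cast hN3
  have hlN1 : 1 ≤ Real.log N := by
    rw [Real.le_log_iff_exp_le (by linarith)]
    linarith [Real.exp_one_lt_d9]
  have hllN : 0 ≤ Real.log (Real.log N) := Real.log_nonneg hlN1
  have hlz : Real.log 4 ≤ Real.log (zN N) := Real.log_le_log (by norm_num) hz4R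
  have hlz1 : 1 ≤ Real.log (zN N) := by
    rw [Real.le_log_iff_exp_le (by linarith)]
    linarith [Real.exp_one_lt_d9]
  rw [PP_eq]
  rcases Nat.lt_or_ge ⌊yR N⌋₊ (zN N) with h | h
  · rw [Finset.Ioc_eq_empty (by omega), Finset.filter_empty, Finset.sum_empty]
    positivity
  · have hd := psum_diff hC0 hC (u := zN N) (v := ⌊yR N⌋₊) (by omega) h
    rw [abs_le] at hd
    have hYpos : (4 : ℝ) ≤ ⌊yR N⌋₊ := by exact_mod_cast hz4.trans h
    have hYN : (⌊yR N⌋₊ : ℝ) ≤ N := by
      refine (Nat.floor_le (by unfold yR; positivity)).trans ?_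
      unfold yR
      calc (N : ℝ) ^ ((8 : ℝ) / 21) ≤ (N : ℝ) ^ (1 : ℝ) :=
            Real.rpow_le_rpow_of_exponent_le (by linarith) (by norm_num)
        _ = N := Real.rpow_one _
    have h1 : Real.log (Real.log ⌊yR N⌋₊) ≤ Real.log (Real.log N) := by
      apply Real.log_le_log (Real.log_pos (by linarith))
      exact Real.log_le_log (by linarith) hYN
    have h2 : 0 ≤ Real.log (Real.log (zN N)) := Real.log_nonneg hlz1
    have h3 : (2 * C + 1) / Real.log (zN N) ≤ (2 * C + 1) / Real.log 4 :=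
      div_le_div_of_nonneg_left (by linarith) hl4 hlz
    have h4 : (6 : ℝ) / zN N ≤ 2 := by
      rw [div_le_iff₀ (by linarith)]
      linarith
    linarith [hd.2]

theorem sum_top (q : ℕ) (hq : q.Prime) (hq2 : q ≠ 2) : ∀ᶠ N : ℕ in atTop,
    ∑ p ∈ (PP q N).filter (fun p : ℕ => √(RR N) < p), g p * (1 - Real.log p / Real.log (yR N)) ≤
      1.84 := by
  obtain ⟨C, hC0, hC⟩ := mert_q q hq hq2
  have hl2 : 0 < Real.log 2 := Real.log_pos (by norm_num)
  have hL : Tendsto (fun N : ℕ => Real.log (N : ℝ)) atTop atTop :=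
    Real.tendsto_log_atTop.comp tendsto_natCast_atTop_atTop
  -- the error terms
  have t0 : Tendsto (fun N : ℕ => Real.log N / 42 - Real.log 2) atTop atTop := by
    apply tendsto_atTop_add_const_right
    exact hL.atTop_div_const (by norm_num)
  have t1 : Tendsto (fun N : ℕ => (2 * C + 7) / (Real.log N / 42 - Real.log 2)) atTop (nhds 0) :=
    t0.const_div_atTop _
  have t2 : Tendsto (fun N : ℕ => (Real.log 2 + 2 * C) / (8 / 21 * Real.log N)) atTop (nhds 0) :=
    (hL.const_mul_atTop (by norm_num)).const_div_atTop _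
  have t3 : Tendsto (fun N : ℕ => Real.log (1 - 42 * Real.log 2 / Real.log N)) atTop (nhds 0) := by
    have h1 : Tendsto (fun N : ℕ => 1 - 42 * Real.log 2 / Real.log N) atTop (nhds (1 - 0)) :=
      tendsto_const_nhds.sub (hL.const_div_atTop _)
    rw [sub_zero] at h1
    have h2 := (Real.continuousAt_log (by norm_num : (1 : ℝ) ≠ 0)).tendsto.comp h1
    rw [Real.log_one] at h2
    exact h2
  have tF : Tendsto (fun N : ℕ => (Real.log 16 - Real.log (1 - 42 * Real.log 2 / Real.log N)) +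
      (2 * C + 7) / (Real.log N / 42 - Real.log 2) - 15 / 16 +
      (Real.log 2 + 2 * C) / (8 / 21 * Real.log N)) atTop
      (nhds ((Real.log 16 - 0) + 0 - 15 / 16 + 0)) :=
    (((tendsto_const_nhds.sub t3).add t1).sub tendsto_const_nhds).add t2
  have hlim : (Real.log 16 - 0) + 0 - 15 / 16 + 0 < (1.84 : ℝ) := by
    have : Real.log 16 = 4 * Real.log 2 := by
      rw [show (16 : ℝ) = 2 ^ 4 by norm_num, Real.log_pow]
      norm_num
    rw [this]
    have := Real.log_two_lt_d9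
    norm_num
    linarith
  filter_upwards [tF.eventually_lt_const hlim, ev_z 0,
    hL.eventually_ge_atTop (42 * 10 * Real.log 2 + 420), eventually_ge_atTop 3]
    with N hF hN hLN hN3
  obtain ⟨hz4, _⟩ := hN
  have hN3R : (3 : ℝ) ≤ N := by exact_mod_cast hN3
  have hN0 : (0 : ℝ) < N := by linarith
  set L := Real.log N with hLdef
  have hL0 : 0 < L := by nlinarith
  have hy1 : 1 ≤ yR N := by
    unfold yR
    exact Real.one_le_rpow (by linarith) (by norm_num)
  have hly : Real.log (yR N) = 8 / 21 * L := by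
    unfold yR
    rw [Real.log_rpow hN0]
  have hR1 : 1 ≤ √(RR N) := by
    apply Real.one_le_sqrt.mpr
    unfold RR
    exact Real.one_le_rpow (by linarith) (by norm_num)
  have hlR : Real.log (√(RR N)) = L / 42 := by
    rw [Real.log_sqrt (by unfold RR; positivity)]
    unfold RR
    rw [Real.log_rpow hN0]
    ring
  set W := ⌊√(RR N)⌋₊ with hW
  set Y := ⌊yR N⌋₊ with hY
  have hlW1 : L / 42 - Real.log 2 ≤ Real.log W := by
    rw [← hlR]
    exact log_floor_ge hR1
  have hlW2 : Real.log W ≤ L / 42 := by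
    rw [← hlR]
    exact log_floor_le hR1
  have hlY1 : 8 / 21 * L - Real.log 2 ≤ Real.log Y := by
    rw [← hly]
    exact log_floor_ge hy1
  have hlY2 : Real.log Y ≤ 8 / 21 * L := by
    rw [← hly]
    exact log_floor_le hy1
  have hW1 : 1 ≤ W := Nat.one_le_floor_iff _ |>.mpr hR1
  have hlWpos : 1 ≤ Real.log W := by linarith
  have hW2 : 2 ≤ W := by
    by_contra hlt
    have : W = 1 := by omega
    rw [this, Nat.cast_one, Real.log_one] at hlWpos
    linarith
  have hWY : W ≤ Y := by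
    by_contra hlt
    push Not at hlt
    have h1 : Real.log Y ≤ Real.log W := by
      have hY1 : 1 ≤ Y := Nat.one_le_floor_iff _ |>.mpr hy1
      exact Real.log_le_log (by exact_mod_cast hY1) (by exact_mod_cast hlt.le)
    linarith
  have hsub : (PP q N).filter (fun p : ℕ => √(RR N) < p) ⊆ (Ioc W Y).filter (good q) := by
    intro p hp
    rw [Finset.mem_filter, PP_eq, Finset.mem_filter, Finset.mem_Ioc] at hp
    rw [Finset.mem_filter, Finset.mem_Ioc]
    refine ⟨⟨?_, hp.1.1.2⟩, hp.1.2⟩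
    exact (Nat.floor_lt (by linarith)).mpr hp.2
  have hlypos : 0 < 8 / 21 * L := by positivity
  have h1 : ∑ p ∈ (PP q N).filter (fun p : ℕ => √(RR N) < p),
      g p * (1 - Real.log p / Real.log (yR N)) ≤
      ∑ p ∈ (Ioc W Y).filter (good q), g p * (1 - Real.log p / Real.log (yR N)) := by
    apply Finset.sum_le_sum_of_subset_of_nonneg hsub
    intro p hp _
    rw [Finset.mem_filter, Finset.mem_Ioc] at hp
    have hp0 : (0 : ℝ) < p := by
      have : 0 < p := by omega
      exact_mod_cast this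
    have hpY : Real.log p ≤ Real.log (yR N) := by
      apply Real.log_le_log hp0
      exact (Nat.le_floor_iff (by linarith)).mp hp.1.2
    apply mul_nonneg
    · unfold g; positivity
    · rw [sub_nonneg, div_le_one (by rw [hly]; exact hlypos)]
      exact hpY
  have h2 : ∑ p ∈ (Ioc W Y).filter (good q), g p * (1 - Real.log p / Real.log (yR N)) =
      ∑ p ∈ (Ioc W Y).filter (good q), g p -
      (∑ p ∈ (Ioc W Y).filter (good q), 2 * Real.log p / p) / (8 / 21 * L) := by
    rw [Finset.sum_div, ← Finset.sum_sub_distrib]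
    apply Finset.sum_congr rfl
    intro p _
    rw [hly, ← g_mul_log]
    ring
  have hd := mert_diff hC (u := W) (v := Y) (by omega) hWY
  have hp := psum_diff hC0 hC (u := W) (v := Y) hW2 hWY
  rw [abs_le] at hd hp
  have hW0 : (0 : ℝ) < W := by exact_mod_cast (by omega : 0 < W)
  have hden : 0 < L / 42 - Real.log 2 := by linarith
  -- the error of the partial summation
  have e1 : (2 * C + 1) / Real.log W + 6 / W ≤ (2 * C + 7) / (L / 42 - Real.log 2) := by
    have h3 : (2 * C + 1) / Real.log W ≤ (2 * C + 1) / (L / 42 - Real.log 2) :=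
      div_le_div_of_nonneg_left (by linarith) hden hlW1
    have h4 : (6 : ℝ) / W ≤ 6 / (L / 42 - Real.log 2) := by
      apply div_le_div_of_nonneg_left (by norm_num) hden
      have := Real.log_le_sub_one_of_pos hW0
      linarith
    have h5 : (2 * C + 7) / (L / 42 - Real.log 2) =
        (2 * C + 1) / (L / 42 - Real.log 2) + 6 / (L / 42 - Real.log 2) := by ring
    linarith
  -- double logarithms
  have e2 : Real.log (Real.log Y) ≤ Real.log (8 / 21 * L) := by
    apply Real.log_le_log _ hlY2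
    linarith
  have e3 : Real.log (L / 42 - Real.log 2) ≤ Real.log (Real.log W) :=
    Real.log_le_log hden hlW1
  have e4 : Real.log (8 / 21 * L) - Real.log (L / 42 - Real.log 2) =
      Real.log 16 - Real.log (1 - 42 * Real.log 2 / L) := by
    have h6 : L / 42 - Real.log 2 = (L / 42) * (1 - 42 * Real.log 2 / L) := by
      field_simp
    have h7 : 0 < 1 - 42 * Real.log 2 / L := by
      rw [sub_pos, div_lt_one hL0]
      linarith
    rw [h6, Real.log_mul (by positivity) h7.ne']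
    have h8 : 8 / 21 * L = 16 * (L / 42) := by ring
    rw [h8, Real.log_mul (by norm_num) (by positivity)]
    ring
  -- the second sum
  have e5 : 15 / 16 - (Real.log 2 + 2 * C) / (8 / 21 * L) ≤
      (∑ p ∈ (Ioc W Y).filter (good q), 2 * Real.log p / p) / (8 / 21 * L) := by
    rw [sub_le_iff_le_add, ← add_div, le_div_iff₀ hlypos]
    have : (15 : ℝ) / 16 * (8 / 21 * L) = 8 / 21 * L - L / 42 := by ring
    rw [this]
    linarith [hd.1]
  rw [h2] at h1
  linarith [hp.2]

end Pool.Agent.Work.MP_73869e_nt.AP
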