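import Mathlib
import Pool.Agent.Work.MP_73869e_nt.AP.Defs
import Pool.Agent.Work.MP_73869e_nt.AP.GAna
import Pool.Agent.Work.MP_73869e_nt.AP.Sums

set_option autoImplicit false

namespace Pool.Agent.Work.MP_73869e_nt.AP

open Finset Filter Pool.Agent.Work.MP_2dba45_nt.Sel

namespace Beta

theorem log_tendsto : Tendsto (fun N : ℕ => Real.log N) atTop atTop :=
  Real.tendsto_log_atTop.comp tendsto_natCast_atTop_atTop

theorem ev_small (A B D ε : ℝ) (hε : 0 < ε) : ∀ᶠ N : ℕ in atTop,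
    (A + B * Real.log (Real.log N)) * (Real.log (Real.log N) + D) ≤ ε * Real.log N := by
  have h0 : Tendsto (fun u : ℝ => (A * D * (u ^ 0 * Real.exp (-u)) +
      (A + B * D) * (u ^ 1 * Real.exp (-u))) + B * (u ^ 2 * Real.exp (-u))) atTop (nhds 0) := by
    have h := (((Real.tendsto_pow_mul_exp_neg_atTop_nhds_zero 0).const_mul (A * D)).add
      ((Real.tendsto_pow_mul_exp_neg_atTop_nhds_zero 1).const_mul (A + B * D))).add
      ((Real.tendsto_pow_mul_exp_neg_atTop_nhds_zero 2).const_mul B)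
    simpa using h
  have h1 := (h0.comp (Real.tendsto_log_atTop.comp log_tendsto)).eventually_le_const hε
  filter_upwards [h1, log_tendsto.eventually_gt_atTop 0] with N hN hN0
  simp only [Function.comp] at hN
  set u := Real.log (Real.log N)
  have hu : Real.exp u = Real.log N := Real.exp_log hN0
  have h2 : (A * D * (u ^ 0 * Real.exp (-u)) + (A + B * D) * (u ^ 1 * Real.exp (-u))) +
      B * (u ^ 2 * Real.exp (-u)) = ((A + B * u) * (u + D)) * Real.exp (-u) := by ring
  rw [h2] at hN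
  calc (A + B * u) * (u + D) = ((A + B * u) * (u + D)) * Real.exp (-u) * Real.exp u := by
        rw [mul_assoc, ← Real.exp_add]; simp
    _ ≤ ε * Real.exp u := by gcongr
    _ = _ := by rw [hu]

theorem G_eq (q N : ℕ) (x : ℝ) : G q N x = GS (PP q N) (fun p => g p / (1 - g p)) x := rfl

theorem zN_le : ∀ᶠ N : ℕ in atTop, Real.log (zN N) ≤ 20 + 20 * Real.log (Real.log N) ∧
    Real.log N - 1 ≤ zN N := by
  filter_upwards [log_tendsto.eventually_ge_atTop 1, eventually_ge_atTop 2] with N hN hN2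
  have hl1 : 1 ≤ Nat.log 2 N := by
    have := Nat.log_pos (b := 2) (by norm_num) hN2
    omega
  have hl1' : (1 : ℝ) ≤ (Nat.log 2 N : ℕ) := by exact_mod_cast hl1
  constructor
  · unfold zN
    push_cast
    rw [Real.log_pow]
    have h1 : ((Nat.log 2 N : ℕ) : ℝ) ≤ 2 * Real.log N := by
      have h := Real.natLog_le_logb N 2
      refine h.trans ?_
      unfold Real.logb
      push_cast
      rw [div_le_iff₀ (Real.log_pos (by norm_num))]
      nlinarith [Real.log_two_gt_d9]
    have h2 : Real.log ((Nat.log 2 N : ℕ) : ℝ) ≤ Real.log (2 * Real.log N) :=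
      Real.log_le_log (by linarith) h1
    rw [Real.log_mul (by norm_num) (by linarith)] at h2
    push_cast
    linarith [Real.log_two_lt_d9]
  · have h1 : N < 2 ^ (Nat.log 2 N + 1) := Nat.lt_pow_succ_log_self (by norm_num) N
    have h2 : Real.log N ≤ ((Nat.log 2 N + 1 : ℕ) : ℝ) * Real.log 2 := by
      rw [← Real.log_pow]
      apply Real.log_le_log
      · exact_mod_cast (by omega : 0 < N)
      · exact_mod_cast h1.le
    have h3 : ((Nat.log 2 N + 1 : ℕ) : ℝ) * Real.log 2 ≤ (Nat.log 2 N + 1 : ℕ) := by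
      have : Real.log 2 ≤ 1 := by linarith [Real.log_two_lt_d9]
      calc ((Nat.log 2 N + 1 : ℕ) : ℝ) * Real.log 2 ≤ ((Nat.log 2 N + 1 : ℕ) : ℝ) * 1 := by gcongr
        _ = _ := mul_one _
    have h4 : ((Nat.log 2 N : ℕ) : ℝ) ≤ (zN N : ℝ) := by
      unfold zN
      exact_mod_cast Nat.le_self_pow (by norm_num) _
    push_cast at h2 h3
    linarith

theorem PP_mem {q N p : ℕ} (hp : p ∈ PP q N) : zN N < p ∧ (p : ℝ) ≤ yR N ∧ p.Prime := by
  unfold PP at hp
  rw [Finset.mem_filter, Finset.mem_Ioc] at hp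
  refine ⟨hp.1.1, ?_, hp.2.1⟩
  have := (Nat.le_floor_iff' (hp.2.1.ne_zero)).1 hp.1.2
  exact this

/-- facts valid for all large N -/
theorem basics : ∀ᶠ N : ℕ in atTop, 10 ≤ Real.log N ∧ Real.log (RR N) = Real.log N / 21 ∧
    Real.log (yR N) = 8 / 21 * Real.log N ∧ 1 < RR N ∧ RR N ≤ yR N ∧ (8 : ℝ) ≤ zN N ∧ 1 ≤ N := by
  filter_upwards [log_tendsto.eventually_ge_atTop 10, zN_le, eventually_ge_atTop 2] with N hN hz hN2
  have hN0 : (0 : ℝ) < N := by exact_mod_cast (by omega : 0 < N)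
  have hN1 : (1 : ℝ) < N := by exact_mod_cast hN2
  refine ⟨hN, ?_, ?_, ?_, ?_, by linarith [hz.2], by omega⟩
  · unfold RR; rw [Real.log_rpow hN0]; ring
  · unfold yR; rw [Real.log_rpow hN0]
  · exact Real.one_lt_rpow hN1 (by norm_num)
  · exact Real.rpow_le_rpow_of_exponent_le hN1.le (by norm_num)

theorem gap (q : ℕ) (hq : q.Prime) (hq2 : q ≠ 2) : ∃ C : ℝ, 0 ≤ C ∧ ∀ᶠ N : ℕ in atTop,
    ∀ p ∈ PP q N, (p : ℝ) ^ 2 ≤ RR N → G q N (RR N) - G q N (RR N / p) ≤
      G q N (RR N) * ((Real.log p + 2 * (C + Real.log (zN N) + 1)) /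
        (Real.log (RR N) - Real.log p)) := by
  obtain ⟨C, hC0, hC⟩ := sum_h_log q hq hq2
  refine ⟨C, hC0, ?_⟩
  filter_upwards [hC, basics, zN_le] with N hN hb hz
  obtain ⟨hl, hlR, hly, hR1, hRy, hz8, hN1⟩ := hb
  have hge : ∀ p ∈ PP q N, (8 : ℝ) ≤ p := by
    intro p hp
    have := (PP_mem hp).1
    have : ((zN N : ℕ) : ℝ) < p := by exact_mod_cast this
    linarith
  have hh0 : ∀ p ∈ PP q N, 0 ≤ g p / (1 - g p) := by
    intro p hp
    have h8 := hge p hp
    have h1 : g p ≤ 1 := by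
      unfold g
      rw [div_le_one (by linarith)]
      linarith
    have h2 : 0 ≤ g p := by unfold g; positivity
    exact div_nonneg h2 (by linarith)
  have hP2 : ∀ p ∈ PP q N, 2 ≤ p := fun p hp => (PP_mem hp).2.2.two_le
  intro p hp hpR
  rw [G_eq, G_eq]
  refine G_gap (PP q N) hP2 _ hh0 (C + Real.log (zN N)) (RR N) hR1 ?_ ?_ p
    (by linarith [hge p hp]) hpR
  · intro x hx1 hxR
    exact hN x hx1 (hxR.trans hRy)
  · intro T hT hTR
    have hz1 : (0 : ℝ) < (zN N : ℝ) - 1 := by linarith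
    have h1 : ∀ p ∈ T, g p / (1 - g p) * Real.log p ≤ 2 / ((zN N : ℝ) - 1) * Real.log p := by
      intro p hp
      have h8 := hge p (hT hp)
      have hzp : ((zN N : ℕ) : ℝ) + 1 ≤ p := by exact_mod_cast (PP_mem (hT hp)).1
      have : 0 ≤ Real.log p := Real.log_nonneg (by linarith)
      have e : g p / (1 - g p) = 2 / ((p : ℝ) - 2) := by
        unfold g
        have : (p : ℝ) ≠ 0 := by positivity
        have : (p : ℝ) - 2 ≠ 0 := by linarith
        field_simp
      rw [e]
      exact mul_le_mul_of_nonneg_right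
        (div_le_div_of_nonneg_left (by norm_num) hz1 (by linarith)) this
    calc ∑ p ∈ T, g p / (1 - g p) * Real.log p ≤ ∑ p ∈ T, 2 / ((zN N : ℝ) - 1) * Real.log p :=
          Finset.sum_le_sum h1
      _ = 2 / ((zN N : ℝ) - 1) * Real.log (prd T) := by
          rw [← Finset.mul_sum]
          congr 1
          unfold prd
          push_cast
          rw [Real.log_prod]
          intro p hp
          have := hge p (hT hp)
          positivity
      _ ≤ 2 / ((zN N : ℝ) - 1) * Real.log (RR N) := by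
          gcongr
          have := prd_ge_one hP2 hT
          linarith
      _ ≤ 1 := by
          rw [div_mul_eq_mul_div, div_le_one hz1, hlR]
          linarith [hz.2]

theorem aux {a den lR c : ℝ} (ha : 0 ≤ a) (hden : 0 < den) (hl : 0 < lR) (h : lR ≤ c * den) :
    a / den ≤ c / lR * a := by
  rw [div_le_iff₀ hden]
  have e : c / lR * a * den = a * (c * den / lR) := by ring
  rw [e]
  have : 1 ≤ c * den / lR := (one_le_div hl).2 h
  nlinarith

theorem G_nonneg_aux {q N : ℕ} (hz8 : (8 : ℝ) ≤ zN N) (x : ℝ) : 0 ≤ G q N x := by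
  rw [G_eq]
  apply GS_nonneg
  intro p hp
  have h8 : (8 : ℝ) ≤ p := by
    have := (PP_mem hp).1
    have : ((zN N : ℕ) : ℝ) < p := by exact_mod_cast this
    linarith
  have h1 : g p ≤ 1 := by
    unfold g
    rw [div_le_one (by linarith)]
    linarith
  have h2 : 0 ≤ g p := by unfold g; positivity
  exact div_nonneg h2 (by linarith)

end Beta

open Beta

theorem beta_bound (q : ℕ) (hq : q.Prime) (hq2 : q ≠ 2) : ∀ᶠ N : ℕ in atTop,
    ∑ p ∈ PP q N, g p * (1 - Real.log p / Real.log (yR N)) *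
      (G q N (RR N) - G q N (RR N / p)) ≤ 2.65 * G q N (RR N) := by
  obtain ⟨C, hC0, hC⟩ := gap q hq hq2
  obtain ⟨C1, hC10, hC1⟩ := sum_g_log_le q hq hq2
  obtain ⟨C2, hC20, hC2⟩ := sum_g_le q hq hq2
  filter_upwards [hC, hC1, hC2, sum_top q hq hq2, basics, zN_le,
    log_tendsto.eventually_ge_atTop (21 * 4.7 * C1 * 200),
    ev_small (4 * 21 * (C + 21)) (4 * 21 * 20) C2 0.01 (by norm_num)] with
    N hgap hgl hg htop hb hz hbig hsm
  obtain ⟨hl, hlR, hly, hR1, hRy, hz8, hN1⟩ := hb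
  set R := RR N with hR
  set lR := Real.log R with hlRdef
  have hR0 : 0 < R := by linarith
  have hlR0 : 0 < lR := by rw [hlR]; linarith
  set L := C + Real.log (zN N) with hL
  have hlz0 : 0 ≤ Real.log (zN N) := Real.log_nonneg (by linarith)
  have hGR : 0 ≤ G q N R := G_nonneg_aux hz8 R
  -- the three ranges
  have hpw : ∀ p ∈ PP q N, g p * (1 - Real.log p / Real.log (yR N)) *
      (G q N R - G q N (R / p)) ≤ G q N R * (
        (if √R < p then g p * (1 - Real.log p / Real.log (yR N)) else 0) +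
        (6 / 5 / lR * (if (R ^ ((0 : ℝ) / 6) < p ∧ (p : ℝ) ≤ R ^ ((1 : ℝ) / 6)) then g p * Real.log p else 0) +
        3 / 2 / lR * (if (R ^ ((1 : ℝ) / 6) < p ∧ (p : ℝ) ≤ R ^ ((2 : ℝ) / 6)) then g p * Real.log p else 0) +
        2 / lR * (if (R ^ ((2 : ℝ) / 6) < p ∧ (p : ℝ) ≤ R ^ ((3 : ℝ) / 6)) then g p * Real.log p else 0)) +
        4 * (L + 1) / lR * g p) := by
    intro p hp
    obtain ⟨hzp, hpy, hpp⟩ := PP_mem hp
    have hp8 : (8 : ℝ) ≤ p := by
      have : ((zN N : ℕ) : ℝ) < p := by exact_mod_cast hzp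
      linarith
    have hp0 : (0 : ℝ) < p := by linarith
    have hlp0 : 0 ≤ Real.log p := Real.log_nonneg (by linarith)
    have hlpy : Real.log p ≤ Real.log (yR N) := Real.log_le_log hp0 hpy
    have hly0 : 0 < Real.log (yR N) := by rw [hly]; linarith
    have hg0 : 0 ≤ g p := by unfold g; positivity
    have hfac0 : 0 ≤ 1 - Real.log p / Real.log (yR N) := by
      rw [sub_nonneg, div_le_one hly0]
      exact hlpy
    have hfac1 : 1 - Real.log p / Real.log (yR N) ≤ 1 := by
      have : 0 ≤ Real.log p / Real.log (yR N) := by positivity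
      linarith
    have hLe : 0 ≤ 4 * (L + 1) / lR * g p := by positivity
    have hi : ∀ (P : Prop) [Decidable P], 0 ≤ (if P then g p * Real.log p else 0) := by
      intro P _
      split_ifs
      · positivity
      · exact le_refl _
    by_cases hcase : √R < p
    · rw [if_pos hcase]
      have hG1 : G q N R - G q N (R / p) ≤ G q N R := by
        have := G_nonneg_aux (q := q) hz8 (R / p)
        linarith
      have h1 := hi (R ^ ((0 : ℝ) / 6) < p ∧ (p : ℝ) ≤ R ^ ((1 : ℝ) / 6))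
      have h2 := hi (R ^ ((1 : ℝ) / 6) < p ∧ (p : ℝ) ≤ R ^ ((2 : ℝ) / 6))
      have h3 := hi (R ^ ((2 : ℝ) / 6) < p ∧ (p : ℝ) ≤ R ^ ((3 : ℝ) / 6))
      calc g p * (1 - Real.log p / Real.log (yR N)) * (G q N R - G q N (R / p))
          ≤ g p * (1 - Real.log p / Real.log (yR N)) * G q N R := by gcongr
        _ = G q N R * (g p * (1 - Real.log p / Real.log (yR N))) := by ring
        _ ≤ _ := by
          gcongr
          have h1' : 0 ≤ 6 / 5 / lR * (if (R ^ ((0 : ℝ) / 6) < p ∧ (p : ℝ) ≤ R ^ ((1 : ℝ) / 6)) then g p * Real.log p else 0) := mul_nonneg (by positivity) h1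
          have h2' : 0 ≤ 3 / 2 / lR * (if (R ^ ((1 : ℝ) / 6) < p ∧ (p : ℝ) ≤ R ^ ((2 : ℝ) / 6)) then g p * Real.log p else 0) := mul_nonneg (by positivity) h2
          have h3' : 0 ≤ 2 / lR * (if (R ^ ((2 : ℝ) / 6) < p ∧ (p : ℝ) ≤ R ^ ((3 : ℝ) / 6)) then g p * Real.log p else 0) := mul_nonneg (by positivity) h3
          linarith
    · rw [if_neg hcase, zero_add]
      push Not at hcase
      have hp2 : (p : ℝ) ^ 2 ≤ R := by
        have := Real.sq_sqrt hR0.le
        calc (p : ℝ) ^ 2 ≤ (√R) ^ 2 := by gcongr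
          _ = R := this
      have hlp2 : 2 * Real.log p ≤ lR := by
        have := Real.log_le_log (by positivity) hp2
        rw [Real.log_pow] at this
        push_cast at this
        exact this
      have hden : 0 < lR - Real.log p := by linarith
      have hg1 := hgap p hp hp2
      have hA : g p * (1 - Real.log p / Real.log (yR N)) * (G q N R - G q N (R / p)) ≤
          G q N R * (g p * ((Real.log p + 2 * (L + 1)) / (lR - Real.log p))) := by
        calc g p * (1 - Real.log p / Real.log (yR N)) * (G q N R - G q N (R / p))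
            ≤ g p * (1 - Real.log p / Real.log (yR N)) *
              (G q N R * ((Real.log p + 2 * (L + 1)) / (lR - Real.log p))) := by gcongr
          _ ≤ g p * 1 * (G q N R * ((Real.log p + 2 * (L + 1)) / (lR - Real.log p))) := by
              gcongr
          _ = _ := by ring
      refine hA.trans ?_
      gcongr
      have hsplit : g p * ((Real.log p + 2 * (L + 1)) / (lR - Real.log p)) =
          g p * Real.log p / (lR - Real.log p) + 2 * (L + 1) / (lR - Real.log p) * g p := by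
        ring
      rw [hsplit]
      apply add_le_add
      · -- which range
        have hrange : ∀ (i : ℝ), Real.log p ≤ i / 6 * lR ↔ (p : ℝ) ≤ R ^ (i / 6) := by
          intro i
          rw [← Real.log_rpow hR0, Real.log_le_log_iff hp0 (by positivity)]
        have h1 := hi (R ^ ((0 : ℝ) / 6) < p ∧ (p : ℝ) ≤ R ^ ((1 : ℝ) / 6))
        have h2 := hi (R ^ ((1 : ℝ) / 6) < p ∧ (p : ℝ) ≤ R ^ ((2 : ℝ) / 6))
        have h3 := hi (R ^ ((2 : ℝ) / 6) < p ∧ (p : ℝ) ≤ R ^ ((3 : ℝ) / 6))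
        have h1' : 0 ≤ 6 / 5 / lR * (if (R ^ ((0 : ℝ) / 6) < p ∧ (p : ℝ) ≤ R ^ ((1 : ℝ) / 6)) then g p * Real.log p else 0) := mul_nonneg (by positivity) h1
        have h2' : 0 ≤ 3 / 2 / lR * (if (R ^ ((1 : ℝ) / 6) < p ∧ (p : ℝ) ≤ R ^ ((2 : ℝ) / 6)) then g p * Real.log p else 0) := mul_nonneg (by positivity) h2
        have h3' : 0 ≤ 2 / lR * (if (R ^ ((2 : ℝ) / 6) < p ∧ (p : ℝ) ≤ R ^ ((3 : ℝ) / 6)) then g p * Real.log p else 0) := mul_nonneg (by positivity) h3
        have hgl0 : 0 ≤ g p * Real.log p := by positivity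
        rcases le_or_gt (p : ℝ) (R ^ ((1 : ℝ) / 6)) with c1 | c1
        · have e0 : R ^ ((0 : ℝ) / 6) < p := by
            rw [zero_div, Real.rpow_zero]; linarith
          have hb1 := (hrange 1).2 c1
          have : g p * Real.log p / (lR - Real.log p) ≤ 6 / 5 / lR * (g p * Real.log p) :=
            aux hgl0 hden hlR0 (by linarith)
          rw [if_pos ⟨e0, c1⟩]
          linarith
        · rcases le_or_gt (p : ℝ) (R ^ ((2 : ℝ) / 6)) with c2 | c2
          · have hb1 := (hrange 2).2 c2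
            have : g p * Real.log p / (lR - Real.log p) ≤ 3 / 2 / lR * (g p * Real.log p) :=
              aux hgl0 hden hlR0 (by linarith)
            rw [if_pos (show (R ^ ((1 : ℝ) / 6) < p ∧ (p : ℝ) ≤ R ^ ((2 : ℝ) / 6)) from ⟨c1, c2⟩)]
            linarith
          · have c3 : (p : ℝ) ≤ R ^ ((3 : ℝ) / 6) := by
              rw [← hrange 3]; linarith
            have : g p * Real.log p / (lR - Real.log p) ≤ 2 / lR * (g p * Real.log p) :=
              aux hgl0 hden hlR0 (by linarith)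
            rw [if_pos (show (R ^ ((2 : ℝ) / 6) < p ∧ (p : ℝ) ≤ R ^ ((3 : ℝ) / 6)) from ⟨c2, c3⟩)]
            linarith
      · have h0 : 0 ≤ 2 * (L + 1) * g p := by positivity
        have h := aux (c := 2) h0 hden hlR0 (by linarith)
        calc 2 * (L + 1) / (lR - Real.log p) * g p = 2 * (L + 1) * g p / (lR - Real.log p) := by ring
          _ ≤ 2 / lR * (2 * (L + 1) * g p) := h
          _ = 4 * (L + 1) / lR * g p := by ring
  refine (Finset.sum_le_sum hpw).trans ?_
  rw [← Finset.mul_sum, Finset.sum_add_distrib, Finset.sum_add_distrib, Finset.sum_add_distrib,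
    Finset.sum_add_distrib, ← Finset.mul_sum, ← Finset.mul_sum, ← Finset.mul_sum, ← Finset.mul_sum,
    ← Finset.sum_filter, ← Finset.sum_filter, ← Finset.sum_filter, ← Finset.sum_filter, mul_comm]
  gcongr
  have hpow : ∀ i : ℝ, Real.log (R ^ (i / 6)) = i / 6 * lR := fun i => Real.log_rpow hR0 _
  have hmono : ∀ i j : ℝ, i ≤ j → R ^ (i / 6) ≤ R ^ (j / 6) := fun i j hij =>
    Real.rpow_le_rpow_of_exponent_le hR1.le (by linarith)
  have hone : ∀ i : ℝ, 0 ≤ i → 1 ≤ R ^ (i / 6) := fun i hi =>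
    Real.one_le_rpow hR1.le (by positivity)
  have s1 := hgl (R ^ ((0 : ℝ) / 6)) (R ^ ((1 : ℝ) / 6)) (hone 0 (by norm_num)) (hmono 0 1 (by norm_num))
  have s2 := hgl (R ^ ((1 : ℝ) / 6)) (R ^ ((2 : ℝ) / 6)) (hone 1 (by norm_num)) (hmono 1 2 (by norm_num))
  have s3 := hgl (R ^ ((2 : ℝ) / 6)) (R ^ ((3 : ℝ) / 6)) (hone 2 (by norm_num)) (hmono 2 3 (by norm_num))
  rw [hpow, hpow] at s1 s2 s3
  have t1 : 6 / 5 / lR * ∑ p ∈ (PP q N).filter (fun p : ℕ => R ^ ((0 : ℝ) / 6) < p ∧ (p : ℝ) ≤ R ^ ((1 : ℝ) / 6)), g p * Real.log p ≤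
      6 / 5 / lR * (lR / 6 + C1) := by
    gcongr; linarith
  have t2 : 3 / 2 / lR * ∑ p ∈ (PP q N).filter (fun p : ℕ => R ^ ((1 : ℝ) / 6) < p ∧ (p : ℝ) ≤ R ^ ((2 : ℝ) / 6)), g p * Real.log p ≤
      3 / 2 / lR * (lR / 6 + C1) := by
    gcongr; linarith
  have t3 : 2 / lR * ∑ p ∈ (PP q N).filter (fun p : ℕ => R ^ ((2 : ℝ) / 6) < p ∧ (p : ℝ) ≤ R ^ ((3 : ℝ) / 6)), g p * Real.log p ≤
      2 / lR * (lR / 6 + C1) := by
    gcongr; linarith
  have t4 : 6 / 5 / lR * (lR / 6 + C1) + 3 / 2 / lR * (lR / 6 + C1) + 2 / lR * (lR / 6 + C1) =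
      4.7 / 6 + 4.7 * C1 / lR := by
    field_simp
    ring
  have t5 : 4.7 * C1 / lR ≤ 0.006 := by
    rw [div_le_iff₀ hlR0, hlR]
    linarith
  have t6 : 4 * (L + 1) / lR * ∑ p ∈ PP q N, g p ≤ 0.01 := by
    have hgnn : 0 ≤ ∑ p ∈ PP q N, g p := Finset.sum_nonneg fun p _ => by unfold g; positivity
    have hB : 0 ≤ Real.log (Real.log N) + C2 := hgnn.trans hg
    have hLle : L ≤ C + (20 + 20 * Real.log (Real.log N)) := by rw [hL]; linarith [hz.1]
    have hL0 : 0 ≤ L := by positivity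
    have hL1 : 0 ≤ C + (20 + 20 * Real.log (Real.log N)) + 1 := by linarith
    calc 4 * (L + 1) / lR * ∑ p ∈ PP q N, g p
        ≤ 4 * ((C + (20 + 20 * Real.log (Real.log N))) + 1) / lR * (Real.log (Real.log N) + C2) := by
          refine mul_le_mul ?_ hg hgnn (by positivity)
          exact div_le_div_of_nonneg_right (by linarith) hlR0.le
      _ = ((4 * 21 * (C + 21) + 4 * 21 * 20 * Real.log (Real.log N)) *
            (Real.log (Real.log N) + C2)) / Real.log N := by
          rw [hlR]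
          field_simp
          ring
      _ ≤ 0.01 := by
          rw [div_le_iff₀ (by linarith)]
          exact hsm
  linarith

theorem small_bound (q : ℕ) (hq : q.Prime) (hq2 : q ≠ 2) (α : ℝ) (hα0 : 0 < α) (hα : α ≤ 1 / 50) :
    ∀ᶠ N : ℕ in atTop,
    ∑ p ∈ (PP q N).filter (fun p : ℕ => (p : ℝ) ≤ (N : ℝ) ^ α), g p *
      (G q N (RR N) - G q N (RR N / p)) ≤ 50 * α * G q N (RR N) := by
  obtain ⟨C, hC0, hC⟩ := gap q hq hq2
  obtain ⟨C1, hC10, hC1⟩ := sum_g_log_le q hq hq2
  obtain ⟨C2, hC20, hC2⟩ := sum_g_le q hq hq2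
  filter_upwards [hC, hC1, hC2, basics, zN_le,
    log_tendsto.eventually_ge_atTop (C1 / (α / 20)),
    ev_small (2 * (C + 21)) (2 * 20) C2 (α / 20) (by positivity)] with
    N hgap hgl hg hb hz hbig hsm
  obtain ⟨hl, hlR, hly, hR1, hRy, hz8, hN1⟩ := hb
  set R := RR N with hR
  set lR := Real.log R with hlRdef
  have hR0 : 0 < R := by linarith
  have hlR0 : 0 < lR := by rw [hlR]; linarith
  set L := C + Real.log (zN N) with hL
  have hlz0 : 0 ≤ Real.log (zN N) := Real.log_nonneg (by linarith)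
  have hGR : 0 ≤ G q N R := G_nonneg_aux hz8 R
  have hN0 : (0 : ℝ) < N := by exact_mod_cast hN1
  have hlN0 : 0 < Real.log N := by linarith
  have hlNa : Real.log ((N : ℝ) ^ α) = α * Real.log N := Real.log_rpow hN0 _
  have hpw : ∀ p ∈ (PP q N).filter (fun p : ℕ => (p : ℝ) ≤ (N : ℝ) ^ α), g p *
      (G q N R - G q N (R / p)) ≤ G q N R * ((g p * Real.log p + 2 * (L + 1) * g p) *
        (40 / Real.log N)) := by
    intro p hp
    rw [Finset.mem_filter] at hp
    obtain ⟨hzp, hpy, hpp⟩ := PP_mem hp.1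
    have hp8 : (8 : ℝ) ≤ p := by
      have : ((zN N : ℕ) : ℝ) < p := by exact_mod_cast hzp
      linarith
    have hp0 : (0 : ℝ) < p := by linarith
    have hlp0 : 0 ≤ Real.log p := Real.log_nonneg (by linarith)
    have hg0 : 0 ≤ g p := by unfold g; positivity
    have hlpa : Real.log p ≤ α * Real.log N := by
      rw [← hlNa]; exact Real.log_le_log hp0 hp.2
    have hlpa2 : Real.log p ≤ 1 / 50 * Real.log N := hlpa.trans (by gcongr)
    have hp2 : (p : ℝ) ^ 2 ≤ R := by
      rw [← Real.log_le_log_iff (by positivity) hR0, Real.log_pow]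
      rw [← hlRdef, hlR]
      push_cast
      linarith
    have hden : 0 < lR - Real.log p := by rw [hlR]; linarith
    have hg1 := hgap p hp.1 hp2
    calc g p * (G q N R - G q N (R / p))
        ≤ g p * (G q N R * ((Real.log p + 2 * (L + 1)) / (lR - Real.log p))) := by gcongr
      _ = G q N R * ((g p * Real.log p + 2 * (L + 1) * g p) * (1 / (lR - Real.log p))) := by ring
      _ ≤ _ := by
        have : 0 ≤ L + 1 := by positivity
        gcongr ?_ * (_ * ?_)
        rw [div_le_div_iff₀ hden hlN0, hlR]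
        linarith
  refine (Finset.sum_le_sum hpw).trans ?_
  rw [← Finset.mul_sum, ← Finset.sum_mul, Finset.sum_add_distrib, ← Finset.mul_sum, mul_comm]
  refine mul_le_mul_of_nonneg_right ?_ hGR
  have s1 := hgl 1 ((N : ℝ) ^ α) (le_refl 1) (Real.one_le_rpow (by exact_mod_cast hN1) hα0.le)
  rw [Real.log_one, hlNa] at s1
  have hfe : (PP q N).filter (fun p : ℕ => (p : ℝ) ≤ (N : ℝ) ^ α) =
      (PP q N).filter (fun p : ℕ => (1 : ℝ) < p ∧ (p : ℝ) ≤ (N : ℝ) ^ α) := by
    apply Finset.filter_congr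
    intro p hp
    have : (1 : ℝ) < p := by exact_mod_cast (PP_mem hp).2.2.one_lt
    tauto
  have hgnn : 0 ≤ ∑ p ∈ PP q N, g p := Finset.sum_nonneg fun p _ => by unfold g; positivity
  have s2 : ∑ p ∈ (PP q N).filter (fun p : ℕ => (p : ℝ) ≤ (N : ℝ) ^ α), g p ≤
      Real.log (Real.log N) + C2 := by
    refine le_trans (Finset.sum_le_sum_of_subset_of_nonneg (Finset.filter_subset _ _) ?_) hg
    intro p _ _
    unfold g; positivity
  rw [hfe] at s2 ⊢
  have s3 : 2 * (L + 1) * ∑ p ∈ (PP q N).filter (fun p : ℕ => (1 : ℝ) < p ∧ (p : ℝ) ≤ (N : ℝ) ^ α), g p ≤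
      α / 20 * Real.log N := by
    have hLle : L ≤ C + (20 + 20 * Real.log (Real.log N)) := by rw [hL]; linarith [hz.1]
    have hL0 : 0 ≤ L := by positivity
    have hgnn2 : 0 ≤ ∑ p ∈ (PP q N).filter (fun p : ℕ => (1 : ℝ) < p ∧ (p : ℝ) ≤ (N : ℝ) ^ α), g p :=
      Finset.sum_nonneg fun p _ => by unfold g; positivity
    calc _ ≤ 2 * ((C + (20 + 20 * Real.log (Real.log N))) + 1) * (Real.log (Real.log N) + C2) := by
          exact mul_le_mul (by linarith) s2 hgnn2 (by linarith)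
      _ = (2 * (C + 21) + 2 * 20 * Real.log (Real.log N)) * (Real.log (Real.log N) + C2) := by ring
      _ ≤ _ := hsm
  have s4 : C1 ≤ α / 20 * Real.log N := by
    rw [div_le_iff₀ (by positivity)] at hbig
    linarith
  rw [mul_div_assoc', div_le_iff₀ hlN0]
  nlinarith

end Pool.Agent.Work.MP_73869e_nt.AP
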