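import Mathlib
import Pool.Agent.Work.MP_2dba45_nt.Nu

set_option autoImplicit false

namespace Pool.Agent.Work.MP_73869e_nt.AP

open Finset Filter Pool.Agent.Work.MP_2dba45_nt.Mert Pool.Agent.Work.MP_2dba45_nt.Nu

theorem Choose.mert3 : ∃ C : ℝ, 0 ≤ C ∧ ∀ N : ℕ, 0 < N →
    |∑ p ∈ (Ioc 0 N).filter (fun p : ℕ => p.Prime ∧ p % 4 = 3), Real.log p / p
      - Real.log N / 2| ≤ C := by
  obtain ⟨C1, hC1⟩ := mertens_one
  obtain ⟨C2, hC2⟩ := mertens_chi
  have hC1' : 0 ≤ C1 := (abs_nonneg _).trans (hC1 1 one_pos)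
  have hC2' : 0 ≤ C2 := (abs_nonneg _).trans (hC2 chi4 good_chi4 1)
  refine ⟨C1 + C2 + 1, by positivity, fun N hN => ?_⟩
  have key : 2 * ∑ p ∈ (Ioc 0 N).filter (fun p : ℕ => p.Prime ∧ p % 4 = 3), Real.log p / p =
      ∑ p ∈ (Ioc 0 N).filter Nat.Prime, Real.log p / p -
      ∑ p ∈ (Ioc 0 N).filter Nat.Prime, chi4 p * Real.log p / p -
      ∑ p ∈ (Ioc 0 N).filter Nat.Prime, (if p = 2 then Real.log 2 / 2 else 0) := by
    rw [← Finset.sum_sub_distrib, ← Finset.sum_sub_distrib, ← Finset.filter_filter,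
      Finset.sum_filter, Finset.mul_sum]
    refine Finset.sum_congr rfl fun p hp => ?_
    have hpp : p.Prime := (Finset.mem_filter.1 hp).2
    unfold chi4
    rcases hpp.eq_two_or_odd with rfl | ho
    · norm_num
    · have h2 : p ≠ 2 := by rintro rfl; norm_num at ho
      rcases (by omega : p % 4 = 1 ∨ p % 4 = 3) with h | h
      · simp [h, h2]
      · simp [h, h2]
        ring
  have hlast : |∑ p ∈ (Ioc 0 N).filter Nat.Prime, (if p = 2 then Real.log 2 / 2 else 0)| ≤ 1 := by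
    rw [Finset.sum_ite_eq']
    split_ifs
    · rw [abs_of_nonneg (by positivity)]
      linarith [Real.log_two_lt_d9]
    · simp
  have h1 := hC1 N hN
  have h2 := hC2 chi4 good_chi4 N
  rw [abs_le] at h1 h2 hlast ⊢
  constructor <;> linarith [h1.1, h1.2, h2.1, h2.2, hlast.1, hlast.2]

theorem choose_K (w : ℕ) (T : ℝ) : ∃ K : Finset ℕ, (∀ q ∈ K, q.Prime ∧ q % 4 = 3 ∧ w < q) ∧
    0 < ∑ q ∈ K, 1 / √(q : ℝ) ∧
    T * ∑ q ∈ K, Real.log q / √(q : ℝ) ≤ (∑ q ∈ K, 1 / √(q : ℝ)) ^ 2 := by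
  obtain ⟨C, hC0, hC⟩ := Choose.mert3
  have e1 : ∀ᶠ M : ℕ in atTop, 4 * C + 1 ≤ Real.log M :=
    (Real.tendsto_log_atTop.comp tendsto_natCast_atTop_atTop).eventually_ge_atTop _
  have e2 : ∀ᶠ M : ℕ in atTop, (32 * |T| + 1) * Real.log M ≤ M := by
    have h := Real.isLittleO_log_id_atTop.bound (c := 1 / (32 * |T| + 1)) (by positivity)
    have h' := tendsto_natCast_atTop_atTop (R := ℝ) |>.eventually h
    filter_upwards [h', eventually_ge_atTop 1] with M hM hM1
    have h0 : (1 : ℝ) ≤ M := by exact_mod_cast hM1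
    rw [Real.norm_eq_abs, abs_of_nonneg (Real.log_nonneg h0), id, Real.norm_eq_abs,
      abs_of_nonneg (show (0 : ℝ) ≤ (M : ℝ) by linarith), one_div_mul_eq_div,
      le_div_iff₀ (by positivity)] at hM
    linarith
  obtain ⟨M, hM1, hM2, hM3⟩ := (e1.and (e2.and (eventually_ge_atTop (max 2 w)))).exists
  have hM2' : 2 ≤ M := le_trans (le_max_left _ _) hM3
  have hMw : w ≤ M := le_trans (le_max_right _ _) hM3
  have hMr : (2 : ℝ) ≤ M := by exact_mod_cast hM2'
  have hlog0 : 0 < Real.log M := by linarith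
  set K : Finset ℕ := (Ioc (M ^ 2) (M ^ 4)).filter (fun p : ℕ => p.Prime ∧ p % 4 = 3) with hK
  have hmem : ∀ q ∈ K, M ^ 2 < q ∧ q ≤ M ^ 4 ∧ q.Prime ∧ q % 4 = 3 := by
    intro q hq
    rw [hK, Finset.mem_filter, Finset.mem_Ioc] at hq
    exact ⟨hq.1.1, hq.1.2, hq.2.1, hq.2.2⟩
  have hlow : Real.log M / 2 ≤ ∑ q ∈ K, Real.log q / q := by
    have h1 := hC (M ^ 4) (by positivity)
    have h2 := hC (M ^ 2) (by positivity)
    have hsplit : ∑ p ∈ (Ioc 0 (M ^ 4)).filter (fun p : ℕ => p.Prime ∧ p % 4 = 3), Real.log p / p =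
        ∑ p ∈ (Ioc 0 (M ^ 2)).filter (fun p : ℕ => p.Prime ∧ p % 4 = 3), Real.log p / p +
        ∑ q ∈ K, Real.log q / q := by
      rw [hK, ← Finset.sum_union]
      · congr 1
        rw [← Finset.filter_union]
        congr 1
        rw [Finset.Ioc_union_Ioc_eq_Ioc (by positivity) (Nat.pow_le_pow_right (by omega) (by norm_num))]
      · apply Finset.disjoint_filter_filter
        rw [Finset.disjoint_left]
        intro x hx hx2
        rw [Finset.mem_Ioc] at hx hx2
        omega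
    rw [hsplit] at h1
    rw [Nat.cast_pow, Real.log_pow] at h1 h2
    rw [abs_le] at h1 h2
    push_cast at h1 h2
    linarith [h1.1, h2.2]
  have hsq : ∀ q ∈ K, (M : ℝ) ≤ √(q : ℝ) := by
    intro q hq
    rw [Real.le_sqrt (by positivity) (by positivity)]
    exact_mod_cast (hmem q hq).1.le
  have hlq : ∀ q ∈ K, Real.log q ≤ 4 * Real.log M := by
    intro q hq
    have h := hmem q hq
    have hq0 : (0 : ℝ) < q := by exact_mod_cast h.2.2.1.pos
    calc Real.log q ≤ Real.log ((M : ℝ) ^ 4) := Real.log_le_log hq0 (by exact_mod_cast h.2.1)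
      _ = 4 * Real.log M := by rw [Real.log_pow]; norm_num
  set S := ∑ q ∈ K, 1 / √(q : ℝ) with hS
  have hterm : ∑ q ∈ K, Real.log q / q ≤ 4 * Real.log M / M * S := by
    rw [hS, Finset.mul_sum]
    refine Finset.sum_le_sum fun q hq => ?_
    have h := hmem q hq
    have hq0 : (0 : ℝ) < q := by exact_mod_cast h.2.2.1.pos
    have hs := hsq q hq
    have hs0 : 0 < √(q : ℝ) := Real.sqrt_pos.2 hq0
    have hl := hlq q hq
    have hqq : (q : ℝ) = √(q : ℝ) * √(q : ℝ) := (Real.mul_self_sqrt hq0.le).symm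
    have h4 : Real.log q / q ≤ 4 * Real.log M / (√(q : ℝ) * M) := by
      rw [div_le_div_iff₀ hq0 (by positivity)]
      calc Real.log q * (√(q : ℝ) * M) ≤ (4 * Real.log M) * (√(q : ℝ) * √(q : ℝ)) := by
            gcongr
        _ = 4 * Real.log M * q := by rw [← hqq]
    refine h4.trans (le_of_eq ?_)
    field_simp
  have hSM : (M : ℝ) / 8 ≤ S := by
    have h := hlow.trans hterm
    have h5 : Real.log M / 2 * M ≤ 4 * Real.log M * S := by
      calc Real.log M / 2 * M ≤ 4 * Real.log M / M * S * M := by gcongr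
        _ = 4 * Real.log M * S := by field_simp
    have h6 : Real.log M * (M / 8) ≤ Real.log M * S := by linarith
    exact le_of_mul_le_mul_left h6 hlog0
  refine ⟨K, fun q hq => ?_, by linarith, ?_⟩
  · have h := hmem q hq
    refine ⟨h.2.2.1, h.2.2.2, ?_⟩
    have : M ≤ M ^ 2 := by nlinarith
    omega
  · have h1 : ∑ q ∈ K, Real.log q / √(q : ℝ) ≤ 4 * Real.log M * S := by
      rw [hS, Finset.mul_sum]
      refine Finset.sum_le_sum fun q hq => ?_
      rw [mul_one_div]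
      have := hlq q hq
      gcongr
    have h0 : 0 ≤ ∑ q ∈ K, Real.log q / √(q : ℝ) := by
      refine Finset.sum_nonneg fun q hq => ?_
      have hq1 : (1 : ℝ) ≤ q := by exact_mod_cast (hmem q hq).2.2.1.one_lt.le
      exact div_nonneg (Real.log_nonneg hq1) (Real.sqrt_nonneg _)
    have hS0 : 0 ≤ S := by linarith
    calc T * ∑ q ∈ K, Real.log q / √(q : ℝ) ≤ |T| * ∑ q ∈ K, Real.log q / √(q : ℝ) := by
          gcongr
          exact le_abs_self T
      _ ≤ |T| * (4 * Real.log M * S) := by gcongr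
      _ = (4 * |T| * Real.log M) * S := by ring
      _ ≤ S * S := by
          gcongr
          nlinarith
      _ = S ^ 2 := by ring

end Pool.Agent.Work.MP_73869e_nt.AP
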