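import Mathlib
import Pool.Agent.Work.MP_73869e_nt.AP.Defs
import Pool.Agent.Work.MP_2dba45_nt.Nu

set_option autoImplicit false

namespace Pool.Agent.Work.MP_73869e_nt.AP

open Finset Filter Pool.Agent.Work.MP_2dba45_nt.Sel

theorem nu_singleton (k p : ℕ) : nu {k} p = Pool.Agent.Work.MP_2dba45_nt.Nu.nu k p := by
  unfold nu Pool.Agent.Work.MP_2dba45_nt.Nu.nu
  congr 1
  apply Finset.filter_congr
  intro x _
  simp

theorem nu_le_two (k p : ℕ) (hp : p.Prime) (hp2 : p ≠ 2) : nu {k} p ≤ 2 := by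
  rw [nu_singleton]
  exact Pool.Agent.Work.MP_2dba45_nt.Nu.nu_le k p hp

/-- quadratic reciprocity for `-q`, `q = 3 mod 4` -/
theorem legendre_neg (q p : ℕ) [Fact p.Prime] (hq : q.Prime) (hq4 : q % 4 = 3) (hp2 : p ≠ 2) :
    legendreSym p (-(q : ℤ)) = jacobiSym p q := by
  have hpodd : Odd p := (Fact.out : p.Prime).odd_of_ne_two hp2
  have hqodd : Odd q := by
    rw [Nat.odd_iff]; omega
  rw [jacobiSym.legendreSym.to_jacobiSym]
  rw [neg_eq_neg_one_mul, jacobiSym.mul_left, jacobiSym.at_neg_one hpodd]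
  have hp4 : p % 4 = 1 ∨ p % 4 = 3 := by
    have := Nat.odd_iff.1 hpodd
    omega
  rcases hp4 with h | h
  · rw [ZMod.χ₄_nat_one_mod_four h, one_mul]
    exact (jacobiSym.quadratic_reciprocity_one_mod_four h hqodd).symm
  · rw [ZMod.χ₄_nat_three_mod_four h]
    rw [jacobiSym.quadratic_reciprocity_three_mod_four hq4 h]
    ring

theorem nu_single (q j p : ℕ) (hq : q.Prime) (hq4 : q % 4 = 3) (hp : p.Prime) (hp2 : p ≠ 2)
    (hpqj : ¬ p ∣ q * j) : (nu {q * j ^ 2} p : ℤ) = 1 + jacobiSym p q := by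
  haveI : Fact p.Prime := ⟨hp⟩
  have hpq : ¬ p ∣ q := fun h => hpqj (h.mul_right _)
  have hpj : ¬ p ∣ j := fun h => hpqj (h.mul_left _)
  rw [nu_singleton, Pool.Agent.Work.MP_2dba45_nt.Nu.nu_eq_card, ← legendre_neg q p hq hq4 hp2]
  have hj0 : ((j : ℤ) : ZMod p) ≠ 0 := by
    rw [Int.cast_natCast]
    intro h
    exact hpj ((ZMod.natCast_eq_zero_iff j p).1 h)
  have h1 : legendreSym p (-(q : ℤ)) = legendreSym p (-(q : ℤ) * (j : ℤ) ^ 2) := by
    rw [legendreSym.mul, legendreSym.sq_one' p hj0, mul_one]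
  rw [h1, add_comm, ← legendreSym.card_sqrts p hp2]
  norm_cast
  congr 1
  ext x
  simp only [Finset.mem_filter, Finset.mem_univ, true_and, Set.mem_toFinset, Set.mem_ofPred_eq]
  push_cast
  constructor
  · intro h
    linear_combination h
  · intro h
    linear_combination h

theorem nu_single_dvd (q j p : ℕ) (hp : p.Prime) (hpqj : p ∣ q * j) : nu {q * j ^ 2} p = 1 := by
  unfold nu
  rw [Finset.card_eq_one]
  refine ⟨0, ?_⟩
  have hd : p ∣ q * j ^ 2 := by
    rw [pow_two, ← mul_assoc]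
    exact hpqj.mul_right _
  ext x
  simp only [Finset.mem_filter, Finset.mem_range, Finset.mem_singleton, exists_eq_left]
  constructor
  · rintro ⟨hx, h⟩
    have h1 : p ∣ x ^ 2 := (Nat.dvd_add_left hd).1 h
    have h2 : p ∣ x := hp.dvd_of_dvd_pow h1
    exact Nat.eq_zero_of_dvd_of_lt h2 hx
  · rintro rfl
    exact ⟨hp.pos, by simpa using hd⟩

theorem jac_of_dvd (q j p n : ℕ) (hq : q.Prime) (hq4 : q % 4 = 3) (hp : p.Prime) (hp2 : p ≠ 2)
    (hpqj : ¬ p ∣ q * j) (h : p ∣ n ^ 2 + q * j ^ 2) : jacobiSym p q = 1 := by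
  have h1 := nu_single q j p hq hq4 hp hp2 hpqj
  have h2 : 1 ≤ nu {q * j ^ 2} p := by
    unfold nu
    rw [Nat.one_le_iff_ne_zero, Finset.card_ne_zero]
    refine ⟨n % p, ?_⟩
    simp only [Finset.mem_filter, Finset.mem_range, Finset.mem_singleton, exists_eq_left]
    refine ⟨Nat.mod_lt _ hp.pos, ?_⟩
    have : (n % p) ^ 2 + q * j ^ 2 ≡ n ^ 2 + q * j ^ 2 [MOD p] :=
      Nat.ModEq.add_right _ ((Nat.mod_modEq n p).pow 2)
    exact (this.dvd_iff (dvd_refl p)).2 h
  have hcop : IsCoprime (p : ℤ) (q : ℤ) := by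
    rw [Nat.isCoprime_iff_coprime, Nat.coprime_primes hp hq]
    rintro rfl
    exact hpqj (dvd_mul_right _ _)
  rcases jacobiSym.eq_one_or_neg_one (a := (p : ℤ)) (b := q)
    (Int.isCoprime_iff_gcd_eq_one.1 hcop) with h3 | h3
  · exact h3
  · rw [h3] at h1
    omega

theorem nu_empty_le (κ : Finset ℕ) (p : ℕ) (hp : p.Prime) : nu κ p ≤ 2 * #κ := by
  have : (range p).filter (fun x => ∃ k ∈ κ, p ∣ x ^ 2 + k) ⊆
      κ.biUnion (fun k => (range p).filter (fun x => p ∣ x ^ 2 + k)) := by
    intro x hx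
    simp only [Finset.mem_filter, Finset.mem_biUnion] at hx ⊢
    obtain ⟨h1, k, hk, h2⟩ := hx
    exact ⟨k, hk, h1, h2⟩
  unfold nu
  refine (Finset.card_le_card this).trans ?_
  refine (Finset.card_biUnion_le).trans ?_
  calc ∑ k ∈ κ, #((range p).filter (fun x => p ∣ x ^ 2 + k)) ≤ ∑ k ∈ κ, 2 :=
        Finset.sum_le_sum (fun k _ => Pool.Agent.Work.MP_2dba45_nt.Nu.nu_le k p hp)
    _ = 2 * #κ := by simp [mul_comm]

theorem VV_pos (k w N : ℕ) (hw : 4 ≤ w) : 0 < VV {k} w N := by
  unfold VV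
  apply Finset.prod_pos
  intro p hp
  simp only [SS, Finset.mem_filter, Finset.mem_Ioc] at hp
  have h1 : nu {k} p ≤ 2 := nu_le_two k p hp.2 (by omega)
  have h2 : (nu {k} p : ℝ) ≤ 2 := by exact_mod_cast h1
  have h3 : (5 : ℝ) ≤ p := by exact_mod_cast (by omega : 5 ≤ p)
  rw [sub_pos, div_lt_one (by linarith)]
  linarith

theorem VV_pair (k k' w N : ℕ) (hw : 4 ≤ w) :
    VV {k, k'} w N ≤ VV {k} w N * VV {k'} w N *
      ∏ p ∈ (SS w N).filter (fun p => k ≡ k' [MOD p]), (1 + 4 / (p : ℝ)) := by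
  unfold VV
  rw [Finset.prod_filter, ← Finset.prod_mul_distrib, ← Finset.prod_mul_distrib]
  apply Finset.prod_le_prod
  · intro p hp
    simp only [SS, Finset.mem_filter, Finset.mem_Ioc] at hp
    have h1 : nu {k, k'} p ≤ p := by
      unfold nu
      exact (Finset.card_filter_le _ _).trans (by simp)
    have h3 : (0 : ℝ) < p := by exact_mod_cast hp.2.pos
    rw [sub_nonneg, div_le_one h3]
    exact_mod_cast h1
  · intro p hp
    simp only [SS, Finset.mem_filter, Finset.mem_Ioc] at hp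
    have h5 : (5 : ℝ) ≤ p := by exact_mod_cast (by omega : 5 ≤ p)
    have hk : (nu {k} p : ℝ) ≤ 2 := by exact_mod_cast nu_le_two k p hp.2 (by omega)
    have hk' : (nu {k'} p : ℝ) ≤ 2 := by exact_mod_cast nu_le_two k' p hp.2 (by omega)
    have hk0 : (0 : ℝ) ≤ nu {k} p := by positivity
    have hk'0 : (0 : ℝ) ≤ nu {k'} p := by positivity
    split_ifs with h
    · -- same residue class
      have e : ∀ x, (p ∣ x ^ 2 + k ↔ p ∣ x ^ 2 + k') := by
        intro x
        have : x ^ 2 + k ≡ x ^ 2 + k' [MOD p] := Nat.ModEq.add_left _ h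
        exact this.dvd_iff (dvd_refl p)
      have e1 : nu {k, k'} p = nu {k} p := by
        unfold nu
        congr 1
        apply Finset.filter_congr
        intro x _
        simp only [Finset.mem_insert, Finset.mem_singleton, exists_eq_or_imp, exists_eq_left]
        rw [← e x, or_self]
      have e2 : nu {k'} p = nu {k} p := by
        unfold nu
        congr 1
        apply Finset.filter_congr
        intro x _
        simp only [Finset.mem_singleton, exists_eq_left]
        rw [← e x]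
      rw [e1, e2]
      have hp0 : (0 : ℝ) < p := by linarith
      set r : ℝ := (nu {k} p : ℝ) / p with hr
      have hr0 : 0 ≤ r := by positivity
      have hr2 : r ≤ 2 / p := by
        rw [hr]; gcongr
      have hr3 : r ≤ 2 / 5 := hr2.trans (by gcongr)
      have h4p : 2 * r ≤ 4 / p := by
        calc 2 * r ≤ 2 * (2 / p) := by linarith
          _ = 4 / p := by ring
      have : 1 ≤ (1 - r) * (1 + 4 / (p : ℝ)) := by
        have h6 : (1 - r) * (1 + 2 * r) ≤ (1 - r) * (1 + 4 / (p : ℝ)) := by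
          apply mul_le_mul_of_nonneg_left (by linarith) (by linarith)
        nlinarith
      calc 1 - r = (1 - r) * 1 := by ring
        _ ≤ (1 - r) * ((1 - r) * (1 + 4 / (p : ℝ))) :=
            mul_le_mul_of_nonneg_left this (by linarith)
        _ = _ := by ring
    · -- different classes: the two sets of roots are disjoint
      have e1 : nu {k, k'} p = nu {k} p + nu {k'} p := by
        unfold nu
        rw [← Finset.card_union_of_disjoint]
        · congr 1
          rw [← Finset.filter_or]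
          apply Finset.filter_congr
          intro x _
          simp
        · rw [Finset.disjoint_filter]
          intro x _ h1 h2
          simp only [Finset.mem_singleton, exists_eq_left] at h1 h2
          apply h
          have h3 : x ^ 2 + k ≡ x ^ 2 + k' [MOD p] :=
            ((Nat.modEq_zero_iff_dvd).2 h1).trans ((Nat.modEq_zero_iff_dvd).2 h2).symm
          exact Nat.ModEq.add_left_cancel' _ h3
      rw [e1, mul_one]
      push_cast
      have hp0 : (0 : ℝ) < p := by linarith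
      have : 0 ≤ ((nu {k} p : ℝ) / p) * ((nu {k'} p : ℝ) / p) := by positivity
      calc 1 - ((nu {k} p : ℝ) + nu {k'} p) / p
          = 1 - (nu {k} p : ℝ) / p - (nu {k'} p : ℝ) / p := by ring
        _ ≤ (1 - (nu {k} p : ℝ) / p) * (1 - (nu {k'} p : ℝ) / p) := by nlinarith

end Pool.Agent.Work.MP_73869e_nt.AP
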