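import Mathlib
import Pool.Agent.Work.MP_f473e4_nt.SCrt
import Pool.Agent.Work.MP_f473e4_nt.SComb

set_option autoImplicit false

namespace Pool.Agent.Work.MP_73869e_nt.AP

open Finset Pool.Agent.Work.MP_f473e4_nt

theorem crt_Ioc (N : ℕ) (S : Finset ℕ) (hS : ∀ p ∈ S, p.Prime) (q a : ℕ) (hq : 0 < q) (ha : a < q)
    (hqS : ∀ p ∈ S, Nat.Coprime q p) (A : ℕ → Finset ℕ) (hA : ∀ p, A p ⊆ range p) :
    |((#((Ioc N (2 * N)).filter (fun m => m % q = a ∧ ∀ p ∈ S, m % p ∈ A p)) : ℕ) : ℝ)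
      - (N : ℝ) / q * ∏ p ∈ S, (((#(A p) : ℕ) : ℝ) / p)| ≤ 2 * ∏ p ∈ S, ((#(A p) : ℕ) : ℝ) := by
  have h1 := crt_count (2 * N + 1) S hS q a hq ha hqS A hA
  have h2 := crt_count (N + 1) S hS q a hq ha hqS A hA
  have h3 : ((range (2 * N + 1)).filter (fun m => m % q = a ∧ ∀ p ∈ S, m % p ∈ A p)).card =
      ((range (N + 1)).filter (fun m => m % q = a ∧ ∀ p ∈ S, m % p ∈ A p)).card +
      #((Ioc N (2 * N)).filter (fun m => m % q = a ∧ ∀ p ∈ S, m % p ∈ A p)) := by
    rw [← Finset.card_union_of_disjoint]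
    · rw [← Finset.filter_union]
      congr 1
      congr 1
      ext x
      simp only [Finset.mem_range, Finset.mem_union, Finset.mem_Ioc]
      omega
    · rw [Finset.disjoint_left]
      intro x hx hy
      simp only [Finset.mem_filter, Finset.mem_range, Finset.mem_Ioc] at hx hy
      omega
  rw [h3] at h1
  push_cast at h1 h2
  set X := ∏ p ∈ S, (((#(A p) : ℕ) : ℝ) / p)
  have e : (N : ℝ) / q * X = (2 * N + 1) / q * X - ((N : ℝ) + 1) / q * X := by ring
  rw [e]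
  rw [abs_le] at h1 h2 ⊢
  constructor <;> linarith [h1.1, h1.2, h2.1, h2.2]

theorem sum_small_subsets (S : Finset ℕ) (z m : ℕ) (hS : ∀ p ∈ S, 1 ≤ p ∧ p ≤ z) (f : ℕ → ℝ)
    (hf0 : ∀ p ∈ S, 0 ≤ f p) (hf : ∀ p ∈ S, f p ≤ 4) :
    ∑ T ∈ S.powerset.filter (fun T => #T ≤ m), ∏ p ∈ T, f p ≤ (1 + 4 * (z : ℝ)) ^ m := by
  have h1 : ∑ T ∈ S.powerset.filter (fun T => #T ≤ m), ∏ p ∈ T, f p ≤
      ∑ T ∈ S.powerset.filter (fun T => #T ≤ m), (4 : ℝ) ^ #T := by
    refine Finset.sum_le_sum fun T hT => ?_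
    rw [Finset.mem_filter, Finset.mem_powerset] at hT
    rw [← Finset.prod_const]
    exact Finset.prod_le_prod (fun p hp => hf0 p (hT.1 hp)) fun p hp => hf p (hT.1 hp)
  refine h1.trans ?_
  rw [Finset.sum_filter]
  have h2 := Finset.sum_powerset_apply_card (fun i => if i ≤ m then (4 : ℝ) ^ i else 0) (x := S)
  rw [h2]
  have hcard : #S ≤ z := by
    calc #S ≤ #(Icc 1 z) := Finset.card_le_card fun p hp => by
            rw [Finset.mem_Icc]; exact hS p hp
      _ = z := by simp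
  have h3 : ∑ i ∈ range (#S + 1), (#S).choose i • (if i ≤ m then (4 : ℝ) ^ i else 0) ≤
      ∑ i ∈ range (m + 1), (4 * (z : ℝ)) ^ i := by
    simp only [nsmul_eq_mul, mul_ite, mul_zero]
    rw [← Finset.sum_filter]
    calc ∑ i ∈ (range (#S + 1)).filter (fun i => i ≤ m), ((#S).choose i : ℝ) * 4 ^ i
        ≤ ∑ i ∈ (range (#S + 1)).filter (fun i => i ≤ m), (4 * (z : ℝ)) ^ i := by
          refine Finset.sum_le_sum fun i _ => ?_
          rw [mul_pow, mul_comm]
          gcongr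
          have : (#S).choose i ≤ z ^ i := (Nat.choose_le_pow _ _).trans (Nat.pow_le_pow_left hcard i)
          exact_mod_cast this
      _ ≤ ∑ i ∈ range (m + 1), (4 * (z : ℝ)) ^ i := by
          apply Finset.sum_le_sum_of_subset_of_nonneg
          · intro i hi
            simp only [Finset.mem_filter, Finset.mem_range] at hi ⊢
            omega
          · intros; positivity
  refine h3.trans ?_
  rw [add_comm (1 : ℝ), add_pow]
  refine Finset.sum_le_sum fun i hi => ?_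
  rw [Finset.mem_range] at hi
  rw [one_pow, mul_one]
  have : (1 : ℝ) ≤ m.choose i := by
    exact_mod_cast Nat.choose_pos (by omega)
  nlinarith [pow_nonneg (by positivity : (0 : ℝ) ≤ 4 * (z : ℝ)) i]

theorem brun_crt (N Q a : ℕ) (hQ : 0 < Q) (ha : a < Q) (S W : Finset ℕ) (hS : ∀ p ∈ S, p.Prime)
    (hW : ∀ p ∈ W, p.Prime) (hSW : Disjoint S W) (hQS : ∀ p ∈ S, Nat.Coprime Q p)
    (hQW : ∀ p ∈ W, Nat.Coprime Q p)
    (A : ℕ → Finset ℕ) (hA : ∀ p, A p ⊆ range p) (z : ℕ) (hz1 : 1 ≤ z) (hz : ∀ p ∈ S, p ≤ z)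
    (h4 : ∀ p ∈ S, #(A p) ≤ 4) (b : ℕ) :
    |(#((Ioc N (2 * N)).filter (fun n => n % Q = a ∧ (∀ p ∈ S, n % p ∉ A p) ∧
        ∀ p ∈ W, n % p ∈ A p)) : ℝ) -
      (N : ℝ) / Q * (∏ p ∈ W, ((#(A p) : ℝ) / p)) * ∏ p ∈ S, (1 - (#(A p) : ℝ) / p)| ≤
      2 * ((N : ℝ) / Q) * (∏ p ∈ W, ((#(A p) : ℝ) / p)) *
        Real.exp (11 * (1 + Real.log z) - (2 * b + 1)) +
      4 * (∏ p ∈ W, (#(A p) : ℝ)) * (1 + 4 * (z : ℝ)) ^ (2 * b + 1) := by
  classical
  set Base := (Ioc N (2 * N)).filter (fun n => n % Q = a ∧ ∀ p ∈ W, n % p ∈ A p) with hBase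
  set bad : ℕ → Finset ℕ := fun n => S.filter (fun p => n % p ∈ A p) with hbad
  set gf : ℕ → ℝ := fun p => (#(A p) : ℝ) / p with hgf
  set c : Finset ℕ → ℝ := fun T => (#(Base.filter (fun n => ∀ p ∈ T, n % p ∈ A p)) : ℝ) with hc
  set X := (N : ℝ) / Q * ∏ p ∈ W, gf p with hX
  set PW := ∏ p ∈ W, (#(A p) : ℝ) with hPW
  have hX0 : 0 ≤ X := by
    apply mul_nonneg (by positivity)
    exact Finset.prod_nonneg fun p _ => by positivity
  have hPW0 : 0 ≤ PW := Finset.prod_nonneg fun p _ => by positivity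
  have hg : ∀ p ∈ S, 0 ≤ gf p ∧ gf p ≤ 1 := by
    intro p hp
    refine ⟨by positivity, ?_⟩
    have hp0 : (0 : ℝ) < p := by exact_mod_cast (hS p hp).pos
    simp only [hgf]
    rw [div_le_one hp0]
    have := Finset.card_le_card (hA p)
    rw [Finset.card_range] at this
    exact_mod_cast this
  -- the local counts
  have hcnt : ∀ T ⊆ S, |c T - X * ∏ p ∈ T, gf p| ≤ 2 * PW * ∏ p ∈ T, (#(A p) : ℝ) := by
    intro T hT
    have hdis : Disjoint T W := Finset.disjoint_of_subset_left hT hSW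
    have h1 := crt_Ioc N (T ∪ W) (fun p hp => by
      rcases Finset.mem_union.1 hp with h | h
      · exact hS p (hT h)
      · exact hW p h) Q a hQ ha (fun p hp => by
      rcases Finset.mem_union.1 hp with h | h
      · exact hQS p (hT h)
      · exact hQW p h) A hA
    rw [Finset.prod_union hdis, Finset.prod_union hdis] at h1
    have e : (Ioc N (2 * N)).filter (fun m => m % Q = a ∧ ∀ p ∈ T ∪ W, m % p ∈ A p) =
        Base.filter (fun n => ∀ p ∈ T, n % p ∈ A p) := by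
      rw [hBase, Finset.filter_filter]
      apply Finset.filter_congr
      intro n _
      simp only [Finset.mem_union]
      constructor
      · rintro ⟨h1, h2⟩
        exact ⟨⟨h1, fun p hp => h2 p (Or.inr hp)⟩, fun p hp => h2 p (Or.inl hp)⟩
      · rintro ⟨⟨h1, h2⟩, h3⟩
        refine ⟨h1, fun p hp => ?_⟩
        rcases hp with h | h
        · exact h3 p h
        · exact h2 p h
    rw [e] at h1
    have e2 : (N : ℝ) / Q * ((∏ p ∈ T, gf p) * ∏ p ∈ W, gf p) = X * ∏ p ∈ T, gf p := by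
      rw [hX]; ring
    rw [e2] at h1
    have e3 : 2 * ((∏ p ∈ T, (#(A p) : ℝ)) * PW) = 2 * PW * ∏ p ∈ T, (#(A p) : ℝ) := by ring
    rw [e3] at h1
    exact h1
  -- Bonferroni
  have hcount : (#((Ioc N (2 * N)).filter (fun n => n % Q = a ∧ (∀ p ∈ S, n % p ∉ A p) ∧
        ∀ p ∈ W, n % p ∈ A p)) : ℝ) = ∑ n ∈ Base, (if bad n = ∅ then (1 : ℝ) else 0) := by
    rw [← Finset.sum_filter, Finset.sum_const, nsmul_eq_mul, mul_one]
    congr 2
    rw [hBase, Finset.filter_filter]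
    apply Finset.filter_congr
    intro n _
    simp only [hbad, Finset.filter_eq_empty_iff]
    tauto
  have hswap : ∀ (I : Finset (Finset ℕ)) (s : Finset ℕ → ℝ), I ⊆ S.powerset →
      ∑ n ∈ Base, ∑ T ∈ (bad n).powerset.filter (fun T => T ∈ I), s T = ∑ T ∈ I, s T * c T := by
    intro I s hI
    have h1 : ∀ n ∈ Base, ∑ T ∈ (bad n).powerset.filter (fun T => T ∈ I), s T =
        ∑ T ∈ I, if (∀ p ∈ T, n % p ∈ A p) then s T else 0 := by
      intro n _
      rw [← Finset.sum_filter]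
      apply Finset.sum_congr _ (fun _ _ => rfl)
      ext T
      simp only [Finset.mem_filter, Finset.mem_powerset]
      constructor
      · rintro ⟨h1, h2⟩
        exact ⟨h2, fun p hp => (Finset.mem_filter.1 (h1 hp)).2⟩
      · rintro ⟨h1, h2⟩
        refine ⟨fun p hp => ?_, h1⟩
        rw [hbad, Finset.mem_filter]
        exact ⟨Finset.mem_powerset.1 (hI h1) hp, h2 p hp⟩
    rw [Finset.sum_congr rfl h1, Finset.sum_comm]
    refine Finset.sum_congr rfl fun T _ => ?_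
    rw [← Finset.sum_filter, Finset.sum_const, nsmul_eq_mul, mul_comm]
  set I1 := S.powerset.filter (fun T => #T ≤ 2 * b) with hI1
  set I2 := S.powerset.filter (fun T => #T = 2 * b + 1) with hI2
  have hfil1 : ∀ n, (bad n).powerset.filter (fun T => #T ≤ 2 * b) =
      (bad n).powerset.filter (fun T => T ∈ I1) := by
    intro n
    apply Finset.filter_congr
    intro T hT
    rw [Finset.mem_powerset] at hT
    rw [hI1, Finset.mem_filter, Finset.mem_powerset]
    have : T ⊆ S := hT.trans (Finset.filter_subset _ _)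
    tauto
  have hfil2 : ∀ n, (bad n).powerset.filter (fun T => #T = 2 * b + 1) =
      (bad n).powerset.filter (fun T => T ∈ I2) := by
    intro n
    apply Finset.filter_congr
    intro T hT
    rw [Finset.mem_powerset] at hT
    rw [hI2, Finset.mem_filter, Finset.mem_powerset]
    have : T ⊆ S := hT.trans (Finset.filter_subset _ _)
    tauto
  have hup : ∑ n ∈ Base, (if bad n = ∅ then (1 : ℝ) else 0) ≤ ∑ T ∈ I1, (-1) ^ #T * c T := by
    rw [← hswap I1 (fun T => (-1) ^ #T) (Finset.filter_subset _ _)]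
    refine Finset.sum_le_sum fun n _ => ?_
    have := (bonf_even (bad n) b).1
    rw [hfil1] at this
    exact this
  have hlow : ∑ T ∈ I1, (-1) ^ #T * c T - ∑ T ∈ I2, c T ≤
      ∑ n ∈ Base, (if bad n = ∅ then (1 : ℝ) else 0) := by
    have e2 := hswap I2 (fun _ => 1) (Finset.filter_subset _ _)
    simp only [one_mul] at e2
    rw [← hswap I1 (fun T => (-1) ^ #T) (Finset.filter_subset _ _), ← e2,
      ← Finset.sum_sub_distrib]
    refine Finset.sum_le_sum fun n _ => ?_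
    have := (bonf_even (bad n) b).2
    rw [hfil1, hfil2] at this
    rw [Finset.sum_const, nsmul_eq_mul, mul_one]
    linarith
  -- the model
  have hm1 := model_even S gf hg b
  have hm2 : ∑ T ∈ I1, (-1 : ℝ) ^ #T * ∏ p ∈ T, gf p - ∑ T ∈ I2, ∏ p ∈ T, gf p ≤
      ∏ p ∈ S, (1 - gf p) := by
    have h := model_aux S gf hg (2 * b + 2)
    have h1 : (-1 : ℝ) ^ (2 * b + 2) = 1 := by
      rw [show 2 * b + 2 = 2 * (b + 1) by ring, pow_mul]; simp
    rw [h1, one_mul] at h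
    have h2 : S.powerset.filter (fun T => #T < 2 * b + 2) = I1 ∪ I2 := by
      ext T
      simp only [hI1, hI2, Finset.mem_filter, Finset.mem_union]
      constructor
      · rintro ⟨h1, h2⟩
        rcases Nat.lt_or_ge (2 * b) #T with h | h
        · exact Or.inr ⟨h1, by omega⟩
        · exact Or.inl ⟨h1, h⟩
      · rintro (⟨h1, h2⟩ | ⟨h1, h2⟩)
        · exact ⟨h1, by omega⟩
        · exact ⟨h1, by omega⟩
    have hdis : Disjoint I1 I2 := by
      rw [Finset.disjoint_left]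
      intro T h1 h2
      simp only [hI1, hI2, Finset.mem_filter] at h1 h2
      omega
    rw [h2, Finset.sum_union hdis] at h
    have h3 : ∑ T ∈ I2, (-1 : ℝ) ^ #T * ∏ p ∈ T, gf p = - ∑ T ∈ I2, ∏ p ∈ T, gf p := by
      rw [← Finset.sum_neg_distrib]
      refine Finset.sum_congr rfl fun T hT => ?_
      rw [hI2, Finset.mem_filter] at hT
      rw [hT.2, pow_succ, pow_mul]
      simp
    rw [h3] at h
    linarith
  -- errors
  have hE : ∑ T ∈ I2, ∏ p ∈ T, gf p ≤ Real.exp (11 * (1 + Real.log z) - (2 * b + 1)) := by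
    have h1 := esymm_bound S gf (fun p hp => (hg p hp).1) (2 * b + 1) (Real.exp 1) (Real.exp_pos 1)
    refine h1.trans ?_
    rw [← Real.exp_nat_mul, ← Real.exp_sub]
    apply Real.exp_le_exp.2
    have h2 : ∑ p ∈ S, gf p ≤ 4 * (1 + Real.log z) := by
      calc ∑ p ∈ S, gf p ≤ ∑ p ∈ S, 4 * ((p : ℝ)⁻¹) := by
            refine Finset.sum_le_sum fun p hp => ?_
            simp only [hgf]
            rw [div_eq_mul_inv]
            have : (#(A p) : ℝ) ≤ 4 := by exact_mod_cast h4 p hp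
            gcongr
        _ ≤ ∑ p ∈ Icc 1 z, 4 * ((p : ℝ)⁻¹) := by
            apply Finset.sum_le_sum_of_subset_of_nonneg
            · intro p hp
              rw [Finset.mem_Icc]
              exact ⟨(hS p hp).one_lt.le, hz p hp⟩
            · intros; positivity
        _ = 4 * (harmonic z : ℝ) := by
            rw [← Finset.mul_sum, harmonic_eq_sum_Icc]
            push_cast
            rfl
        _ ≤ 4 * (1 + Real.log z) := by
            have := harmonic_le_one_add_log z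
            linarith
    have h3 : Real.exp 1 * ∑ p ∈ S, gf p ≤ 11 * (1 + Real.log z) := by
      have hl : 0 ≤ Real.log z := Real.log_nonneg (by exact_mod_cast hz1)
      have he := Real.exp_one_lt_d9
      have hs0 : 0 ≤ ∑ p ∈ S, gf p := Finset.sum_nonneg fun p hp => (hg p hp).1
      calc Real.exp 1 * ∑ p ∈ S, gf p ≤ 2.75 * (4 * (1 + Real.log z)) := by
            apply mul_le_mul _ h2 hs0 (by norm_num)
            linarith
        _ = _ := by ring
    push_cast
    linarith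
  have hE0 : 0 ≤ ∑ T ∈ I2, ∏ p ∈ T, gf p := by
    refine Finset.sum_nonneg fun T hT => Finset.prod_nonneg fun p hp => ?_
    rw [hI2, Finset.mem_filter, Finset.mem_powerset] at hT
    exact (hg p (hT.1 hp)).1
  have hsum : ∑ T ∈ I1, ∏ p ∈ T, (#(A p) : ℝ) + ∑ T ∈ I2, ∏ p ∈ T, (#(A p) : ℝ) ≤
      (1 + 4 * (z : ℝ)) ^ (2 * b + 1) := by
    have h1 := sum_small_subsets S z (2 * b + 1)
      (fun p hp => ⟨(hS p hp).one_lt.le, hz p hp⟩) (fun p => (#(A p) : ℝ))
      (fun p _ => by positivity) (fun p hp => by exact_mod_cast h4 p hp)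
    refine le_trans (le_of_eq ?_) h1
    rw [← Finset.sum_union]
    · apply Finset.sum_congr _ (fun _ _ => rfl)
      ext T
      simp only [hI1, hI2, Finset.mem_filter, Finset.mem_union]
      constructor
      · rintro (⟨h1, h2⟩ | ⟨h1, h2⟩)
        · exact ⟨h1, by omega⟩
        · exact ⟨h1, by omega⟩
      · rintro ⟨h1, h2⟩
        rcases Nat.lt_or_ge (2 * b) #T with h | h
        · exact Or.inr ⟨h1, by omega⟩
        · exact Or.inl ⟨h1, h⟩
    · rw [Finset.disjoint_left]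
      intro T h1 h2
      simp only [hI1, hI2, Finset.mem_filter] at h1 h2
      omega
  have hd1 : |∑ T ∈ I1, (-1) ^ #T * c T - X * ∑ T ∈ I1, (-1 : ℝ) ^ #T * ∏ p ∈ T, gf p| ≤
      2 * PW * ∑ T ∈ I1, ∏ p ∈ T, (#(A p) : ℝ) := by
    rw [Finset.mul_sum, ← Finset.sum_sub_distrib, Finset.mul_sum]
    refine (Finset.abs_sum_le_sum_abs _ _).trans (Finset.sum_le_sum fun T hT => ?_)
    rw [hI1, Finset.mem_filter, Finset.mem_powerset] at hT
    have e : (-1 : ℝ) ^ #T * c T - X * ((-1) ^ #T * ∏ p ∈ T, gf p) =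
        (-1) ^ #T * (c T - X * ∏ p ∈ T, gf p) := by ring
    rw [e, abs_mul, abs_pow, abs_neg, abs_one, one_pow, one_mul]
    exact hcnt T hT.1
  have hd2 : ∑ T ∈ I2, c T ≤ X * ∑ T ∈ I2, ∏ p ∈ T, gf p +
      2 * PW * ∑ T ∈ I2, ∏ p ∈ T, (#(A p) : ℝ) := by
    rw [Finset.mul_sum, Finset.mul_sum, ← Finset.sum_add_distrib]
    refine Finset.sum_le_sum fun T hT => ?_
    rw [hI2, Finset.mem_filter, Finset.mem_powerset] at hT
    have := (abs_le.1 (hcnt T hT.1)).2
    linarith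
  have hXg : (N : ℝ) / Q * (∏ p ∈ W, ((#(A p) : ℝ) / p)) * ∏ p ∈ S, (1 - (#(A p) : ℝ) / p) =
      X * ∏ p ∈ S, (1 - gf p) := rfl
  have hXg2 : 2 * ((N : ℝ) / Q) * (∏ p ∈ W, ((#(A p) : ℝ) / p)) *
        Real.exp (11 * (1 + Real.log z) - (2 * b + 1)) =
      2 * (X * Real.exp (11 * (1 + Real.log z) - (2 * b + 1))) := by
    rw [hX]; ring
  rw [hcount, hXg, hXg2]
  set V := ∏ p ∈ S, (1 - gf p)
  set C0 := ∑ n ∈ Base, (if bad n = ∅ then (1 : ℝ) else 0)
  set s1 := ∑ T ∈ I1, (-1) ^ #T * c T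
  set m1 := ∑ T ∈ I1, (-1 : ℝ) ^ #T * ∏ p ∈ T, gf p
  set e2 := ∑ T ∈ I2, ∏ p ∈ T, gf p
  set u1 := ∑ T ∈ I1, ∏ p ∈ T, (#(A p) : ℝ)
  set u2 := ∑ T ∈ I2, ∏ p ∈ T, (#(A p) : ℝ)
  set EE := Real.exp (11 * (1 + Real.log z) - (2 * b + 1))
  have hu2 : 0 ≤ u2 := Finset.sum_nonneg fun T _ => Finset.prod_nonneg fun p _ => Nat.cast_nonneg _
  have hu1 : 0 ≤ u1 := Finset.sum_nonneg fun T _ => Finset.prod_nonneg fun p _ => Nat.cast_nonneg _
  set BB := (1 + 4 * (z : ℝ)) ^ (2 * b + 1)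
  have a1 : X * m1 - X * e2 ≤ X * V := by
    rw [← mul_sub]; exact mul_le_mul_of_nonneg_left hm2 hX0
  have a2 : X * V ≤ X * m1 := mul_le_mul_of_nonneg_left hm1 hX0
  have a3 : X * e2 ≤ X * EE := mul_le_mul_of_nonneg_left hE hX0
  have a3' : 0 ≤ X * e2 := mul_nonneg hX0 hE0
  have a4 : PW * u1 + PW * u2 ≤ PW * BB := by
    rw [← mul_add]; exact mul_le_mul_of_nonneg_left hsum hPW0
  have a5 : 0 ≤ PW * u2 := mul_nonneg hPW0 hu2
  have a6 : 0 ≤ PW * u1 := mul_nonneg hPW0 hu1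
  rw [abs_le] at hd1
  have hd1a := hd1.1
  have hd1b := hd1.2
  have b1 : 2 * PW * u1 = 2 * (PW * u1) := by ring
  have b2 : 2 * PW * u2 = 2 * (PW * u2) := by ring
  have b3 : 4 * PW * BB = 4 * (PW * BB) := by ring
  rw [b1] at hd1a hd1b
  rw [b2] at hd2
  rw [b3, abs_le]
  constructor
  · linarith
  · linarith

end Pool.Agent.Work.MP_73869e_nt.AP
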