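import Mathlib
import Pool.Agent.Work.MP_73869e_nt.AP.Defs
import Pool.Agent.Work.MP_73869e_nt.AP.Loc
import Pool.Agent.Work.MP_73869e_nt.AP.BrunCRT

set_option autoImplicit false

/-! The two moments: exact expansion. -/

namespace Pool.Agent.Work.MP_73869e_nt.AP

open Finset Filter Pool.Agent.Work.MP_2dba45_nt.Sel

/-- sum of the absolute values of the main terms -/
noncomputable def A1 (D E : Finset (Finset ℕ)) : ℝ :=
  ∑ T₁ ∈ D, ∑ T₂ ∈ D, ∑ T₃ ∈ E, gg g (T₁ ∪ T₂ ∪ T₃)

noncomputable def A1p (D E : Finset (Finset ℕ)) (p : ℕ) : ℝ :=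
  ∑ T₁ ∈ D, ∑ T₂ ∈ D, ∑ T₃ ∈ E, if p ∈ T₁ ∪ T₂ ∪ T₃ then gg g (T₁ ∪ T₂ ∪ T₃) else 0

noncomputable def A2 (D E : Finset (Finset ℕ)) : ℝ :=
  ∑ T₁ ∈ D, ∑ T₂ ∈ D, ∑ T₃ ∈ E, (2 : ℝ) ^ #(T₁ ∪ T₂ ∪ T₃)

/-- index set of the expansion -/
abbrev momI (D E : Finset (Finset ℕ)) : Finset (Finset ℕ × Finset ℕ × Finset ℕ) := D ×ˢ D ×ˢ E

/-- union of a triple -/
def momU (t : Finset ℕ × Finset ℕ × Finset ℕ) : Finset ℕ := t.1 ∪ t.2.1 ∪ t.2.2

/-- coefficient of a triple -/
noncomputable def momC (lam om : Finset ℕ → ℝ) (t : Finset ℕ × Finset ℕ × Finset ℕ) : ℝ :=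
  lam t.1 * lam t.2.1 * om t.2.2

/-- indicator -/
noncomputable def momN (k : ℕ) (U : Finset ℕ) (n : ℕ) : ℝ :=
  if (∀ p ∈ U, p ∣ n ^ 2 + k) then 1 else 0

/-- the roots modulo p -/
def momR (κ : Finset ℕ) (p : ℕ) : Finset ℕ := (range p).filter (fun x => ∃ k ∈ κ, p ∣ x ^ 2 + k)

theorem momR_card (κ : Finset ℕ) (p : ℕ) : #(momR κ p) = nu κ p := rfl

theorem momR_sub (κ : Finset ℕ) (p : ℕ) : momR κ p ⊆ range p := filter_subset _ _

theorem momR_mem (κ : Finset ℕ) (p n : ℕ) (hp : 0 < p) :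
    n % p ∈ momR κ p ↔ ∃ k ∈ κ, p ∣ n ^ 2 + k := by
  unfold momR
  rw [mem_filter, mem_range]
  have h : ∀ k, p ∣ (n % p) ^ 2 + k ↔ p ∣ n ^ 2 + k := by
    intro k
    have h1 : (n % p) ^ 2 + k ≡ n ^ 2 + k [MOD p] :=
      Nat.ModEq.add_right k ((Nat.mod_modEq n p).pow 2)
    exact h1.dvd_iff (dvd_refl p)
  constructor
  · rintro ⟨-, k, hk, h2⟩
    exact ⟨k, hk, (h k).mp h2⟩
  · rintro ⟨k, hk, h2⟩
    exact ⟨Nat.mod_lt _ hp, k, hk, (h k).mpr h2⟩

theorem momN_union (k : ℕ) (U V : Finset ℕ) (n : ℕ) :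
    momN k (U ∪ V) n = momN k U n * momN k V n := by
  unfold momN
  by_cases h1 : ∀ p ∈ U, p ∣ n ^ 2 + k
  · by_cases h2 : ∀ p ∈ V, p ∣ n ^ 2 + k
    · rw [if_pos h1, if_pos h2, if_pos, one_mul]
      intro p hp
      rcases mem_union.mp hp with h | h
      · exact h1 p h
      · exact h2 p h
    · rw [if_neg h2, mul_zero, if_neg]
      intro h; exact h2 fun p hp => h p (mem_union_right _ hp)
  · rw [if_neg h1, zero_mul, if_neg]
    intro h; exact h1 fun p hp => h p (mem_union_left _ hp)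

theorem FF_eq (D : Finset (Finset ℕ)) (lam : Finset ℕ → ℝ) (E : Finset (Finset ℕ))
    (om : Finset ℕ → ℝ) (k n : ℕ) :
    FF D lam E om k n = ∑ t ∈ momI D E, momC lam om t * momN k (momU t) n := by
  have h1 : ∀ T : Finset ℕ, (if (∀ p ∈ T, p ∣ n ^ 2 + k) then lam T else 0) =
      lam T * momN k T n := by
    intro T; unfold momN; split_ifs <;> simp
  have h2 : ∀ T : Finset ℕ, (if (∀ p ∈ T, p ∣ n ^ 2 + k) then om T else 0) =
      om T * momN k T n := by
    intro T; unfold momN; split_ifs <;> simp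
  unfold FF
  simp only [h1, h2]
  rw [sq, sum_mul_sum, sum_mul, sum_product]
  refine sum_congr rfl fun T₁ _ => ?_
  rw [sum_mul, sum_product]
  refine sum_congr rfl fun T₂ _ => ?_
  rw [mul_sum]
  refine sum_congr rfl fun T₃ _ => ?_
  unfold momC momU
  rw [momN_union, momN_union]
  ring

theorem MM_eq (D : Finset (Finset ℕ)) (lam : Finset ℕ → ℝ) (E : Finset (Finset ℕ))
    (om : Finset ℕ → ℝ) :
    MM D lam E om = ∑ t ∈ momI D E, momC lam om t * gg g (momU t) := by
  unfold MM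
  rw [sum_product]
  refine sum_congr rfl fun T₁ _ => ?_
  rw [sum_product]
  rfl

theorem A1_eq (D E : Finset (Finset ℕ)) : A1 D E = ∑ t ∈ momI D E, gg g (momU t) := by
  unfold A1
  rw [sum_product]
  refine sum_congr rfl fun T₁ _ => ?_
  rw [sum_product]
  rfl

theorem A1p_eq (D E : Finset (Finset ℕ)) (p : ℕ) :
    A1p D E p = ∑ t ∈ momI D E, if p ∈ momU t then gg g (momU t) else 0 := by
  unfold A1p
  rw [sum_product]
  refine sum_congr rfl fun T₁ _ => ?_
  rw [sum_product]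
  rfl

theorem A2_eq (D E : Finset (Finset ℕ)) : A2 D E = ∑ t ∈ momI D E, (2 : ℝ) ^ #(momU t) := by
  unfold A2
  rw [sum_product]
  refine sum_congr rfl fun T₁ _ => ?_
  rw [sum_product]
  rfl

theorem momC_abs (lam om : Finset ℕ → ℝ) (hlam : ∀ T, |lam T| ≤ 1) (hom : ∀ T, |om T| ≤ 1)
    (t : Finset ℕ × Finset ℕ × Finset ℕ) : |momC lam om t| ≤ 1 := by
  unfold momC
  rw [abs_mul, abs_mul]
  calc |lam t.1| * |lam t.2.1| * |om t.2.2| ≤ 1 * 1 * 1 := by
        gcongr
        · exact hlam _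
        · exact hlam _
        · exact hom _
    _ = 1 := by norm_num

theorem momU_sub {P : Finset ℕ} {D E : Finset (Finset ℕ)} (hD : D ⊆ P.powerset)
    (hE : E ⊆ P.powerset) {t : Finset ℕ × Finset ℕ × Finset ℕ} (ht : t ∈ momI D E) :
    momU t ⊆ P := by
  simp only [momI, mem_product] at ht
  exact union_subset (union_subset (mem_powerset.mp (hD ht.1)) (mem_powerset.mp (hD ht.2.1)))
    (mem_powerset.mp (hE ht.2.2))

theorem gg_g_nonneg (U : Finset ℕ) : 0 ≤ gg g U := by
  unfold gg g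
  exact prod_nonneg fun p _ => by positivity

theorem mem_SS {w N p : ℕ} (hp : p ∈ SS w N) : p.Prime ∧ w < p ∧ p ≤ zN N := by
  unfold SS at hp
  rw [mem_filter, mem_Ioc] at hp
  exact ⟨hp.2, hp.1.1, hp.1.2⟩

theorem primorial_coprime {w p : ℕ} (hp : p.Prime) (hw : w < p) :
    Nat.Coprime (primorial w) p := by
  unfold primorial
  rw [Nat.coprime_prod_left_iff]
  intro q hq
  rw [mem_filter, mem_range] at hq
  exact (Nat.coprime_primes hq.2 hp).mpr (by omega)

/-- The count of integers with given divisibilities, one class of roots. -/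
theorem momCount (N w a b z : ℕ) (κ : Finset ℕ) (ha : a < primorial w) (hz : z = zN N)
    (hz1 : 1 ≤ z) (hκ : ∀ p ∈ SS w N, nu κ p ≤ 4) (U V : Finset ℕ) (hUV : Disjoint U V)
    (k k' : ℕ) (hU : ∀ p ∈ U, p.Prime ∧ z < p ∧ w < p ∧ nu {k} p = 2)
    (hV : ∀ p ∈ V, p.Prime ∧ z < p ∧ w < p ∧ nu {k'} p = 2) :
    |∑ n ∈ AA κ w N a, momN k U n * momN k' V n -
      (N : ℝ) / primorial w * VV κ w N * (gg g U * gg g V)| ≤
      2 * ((N : ℝ) / primorial w) * Real.exp (11 * (1 + Real.log z) - (2 * b + 1)) *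
        (gg g U * gg g V) +
      4 * (1 + 4 * (z : ℝ)) ^ (2 * b + 1) * ((2 : ℝ) ^ #U * (2 : ℝ) ^ #V) := by
  let A : ℕ → Finset ℕ := fun p => if p ∈ U then momR {k} p else
    if p ∈ V then momR {k'} p else momR κ p
  have hSprime : ∀ p ∈ SS w N, p.Prime := fun p hp => (mem_SS hp).1
  have hSnot : ∀ p ∈ SS w N, p ∉ U ∧ p ∉ V := by
    intro p hp
    have h1 := (mem_SS hp).2.2
    constructor
    · intro h; have := (hU p h).2.1; omega
    · intro h; have := (hV p h).2.1; omega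
  have hAS : ∀ p ∈ SS w N, A p = momR κ p := by
    intro p hp
    simp only [A, if_neg (hSnot p hp).1, if_neg (hSnot p hp).2]
  have hAU : ∀ p ∈ U, A p = momR {k} p := fun p hp => by simp only [A, if_pos hp]
  have hVU : ∀ p ∈ V, p ∉ U := fun p hp h => (disjoint_left.mp hUV h) hp
  have hAV : ∀ p ∈ V, A p = momR {k'} p := fun p hp => by
    simp only [A, if_neg (hVU p hp), if_pos hp]
  have hWprime : ∀ p ∈ U ∪ V, p.Prime := by
    intro p hp
    rcases mem_union.mp hp with h | h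
    · exact (hU p h).1
    · exact (hV p h).1
  have hSW : Disjoint (SS w N) (U ∪ V) := by
    rw [disjoint_left]
    intro p hp h
    rcases mem_union.mp h with h | h
    · exact (hSnot p hp).1 h
    · exact (hSnot p hp).2 h
  have hQ : 0 < primorial w := primorial_pos w
  have hmain := brun_crt N (primorial w) a hQ ha (SS w N) (U ∪ V) hSprime hWprime hSW
    (fun p hp => primorial_coprime (mem_SS hp).1 (mem_SS hp).2.1)
    (fun p hp => by
      rcases mem_union.mp hp with h | h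
      · exact primorial_coprime (hU p h).1 (hU p h).2.2.1
      · exact primorial_coprime (hV p h).1 (hV p h).2.2.1)
    A (fun p => by simp only [A]; split_ifs <;> exact momR_sub _ _) z hz1
    (fun p hp => by rw [hz]; exact (mem_SS hp).2.2)
    (fun p hp => by rw [hAS p hp]; exact hκ p hp) b
  -- the products
  have hcardU : ∀ p ∈ U, (#(A p) : ℝ) = 2 := by
    intro p hp; rw [hAU p hp, momR_card, (hU p hp).2.2.2]; norm_num
  have hcardV : ∀ p ∈ V, (#(A p) : ℝ) = 2 := by
    intro p hp; rw [hAV p hp, momR_card, (hV p hp).2.2.2]; norm_num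
  have hprod1 : ∏ p ∈ U ∪ V, ((#(A p) : ℝ) / p) = gg g U * gg g V := by
    rw [prod_union hUV]
    congr 1
    · unfold gg g; exact prod_congr rfl fun p hp => by rw [hcardU p hp]
    · unfold gg g; exact prod_congr rfl fun p hp => by rw [hcardV p hp]
  have hprod2 : ∏ p ∈ U ∪ V, (#(A p) : ℝ) = (2 : ℝ) ^ #U * (2 : ℝ) ^ #V := by
    rw [prod_union hUV]
    congr 1
    · rw [prod_congr rfl hcardU, prod_const]
    · rw [prod_congr rfl hcardV, prod_const]
  have hprod3 : ∏ p ∈ SS w N, (1 - (#(A p) : ℝ) / p) = VV κ w N := by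
    unfold VV
    refine prod_congr rfl fun p hp => ?_
    rw [hAS p hp, momR_card]
  -- the count
  have hcount : ∑ n ∈ AA κ w N a, momN k U n * momN k' V n =
      (#((Ioc N (2 * N)).filter (fun n => n % primorial w = a ∧ (∀ p ∈ SS w N, n % p ∉ A p) ∧
        ∀ p ∈ U ∪ V, n % p ∈ A p)) : ℝ) := by
    have h1 : ∀ n, momN k U n * momN k' V n =
        if (∀ p ∈ U, p ∣ n ^ 2 + k) ∧ (∀ p ∈ V, p ∣ n ^ 2 + k') then 1 else 0 := by
      intro n
      unfold momN
      by_cases h2 : ∀ p ∈ U, p ∣ n ^ 2 + k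
      · by_cases h3 : ∀ p ∈ V, p ∣ n ^ 2 + k'
        · rw [if_pos h2, if_pos h3, if_pos ⟨h2, h3⟩, mul_one]
        · rw [if_neg h3, mul_zero, if_neg fun h => h3 h.2]
      · rw [if_neg h2, zero_mul, if_neg fun h => h2 h.1]
    rw [sum_congr rfl fun n _ => h1 n, ← sum_filter, sum_const, nsmul_eq_mul, mul_one, AA,
      filter_filter]
    congr 2
    apply filter_congr
    intro n _
    have e1 : (∀ p ∈ SS w N, ∀ k ∈ κ, ¬ p ∣ n ^ 2 + k) ↔ (∀ p ∈ SS w N, n % p ∉ A p) := by
      refine forall₂_congr fun p hp => ?_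
      rw [hAS p hp, momR_mem κ p n (mem_SS hp).1.pos]
      push Not
      rfl
    have e2 : ((∀ p ∈ U, p ∣ n ^ 2 + k) ∧ (∀ p ∈ V, p ∣ n ^ 2 + k')) ↔
        (∀ p ∈ U ∪ V, n % p ∈ A p) := by
      constructor
      · rintro ⟨h2, h3⟩ p hp
        rcases mem_union.mp hp with h | h
        · rw [hAU p h, momR_mem _ p n (hU p h).1.pos]
          exact ⟨k, mem_singleton_self k, h2 p h⟩
        · rw [hAV p h, momR_mem _ p n (hV p h).1.pos]
          exact ⟨k', mem_singleton_self k', h3 p h⟩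
      · intro h
        constructor
        · intro p hp
          have h2 := h p (mem_union_left _ hp)
          rw [hAU p hp, momR_mem _ p n (hU p hp).1.pos] at h2
          obtain ⟨k1, hk1, h3⟩ := h2
          rw [mem_singleton] at hk1
          rw [← hk1]; exact h3
        · intro p hp
          have h2 := h p (mem_union_right _ hp)
          rw [hAV p hp, momR_mem _ p n (hV p hp).1.pos] at h2
          obtain ⟨k1, hk1, h3⟩ := h2
          rw [mem_singleton] at hk1
          rw [← hk1]; exact h3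
    rw [e1, e2, and_assoc]
  rw [hprod1, hprod2, hprod3, ← hcount] at hmain
  calc |∑ n ∈ AA κ w N a, momN k U n * momN k' V n -
      (N : ℝ) / primorial w * VV κ w N * (gg g U * gg g V)|
      = |∑ n ∈ AA κ w N a, momN k U n * momN k' V n -
        (N : ℝ) / primorial w * (gg g U * gg g V) * VV κ w N| := by
        congr 2; ring
    _ ≤ _ := hmain
    _ = _ := by ring

theorem nu_pair_le (k k' p : ℕ) : nu {k, k'} p ≤ nu {k} p + nu {k'} p := by
  rw [← momR_card, ← momR_card, ← momR_card]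
  refine le_trans (card_le_card ?_) (card_union_le _ _)
  intro x hx
  unfold momR at hx ⊢
  rw [mem_filter] at hx
  obtain ⟨h1, k1, hk1, h2⟩ := hx
  rw [mem_insert, mem_singleton] at hk1
  rw [mem_union, mem_filter, mem_filter]
  rcases hk1 with rfl | rfl
  · exact Or.inl ⟨h1, k1, mem_singleton_self _, h2⟩
  · exact Or.inr ⟨h1, k1, mem_singleton_self _, h2⟩

theorem momA_single (N w a k b z : ℕ) (ha : a < primorial w) (hz : z = zN N) (hz1 : 1 ≤ z)
    (P : Finset ℕ) (hP : ∀ p ∈ P, p.Prime ∧ z < p ∧ w < p ∧ nu {k} p = 2)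
    (D E : Finset (Finset ℕ)) (hD : D ⊆ P.powerset) (hE : E ⊆ P.powerset)
    (lam om : Finset ℕ → ℝ) (hlam : ∀ T, |lam T| ≤ 1) (hom : ∀ T, |om T| ≤ 1) (hw : 2 ≤ w) :
    |∑ n ∈ AA {k} w N a, FF D lam E om k n - (N : ℝ) / primorial w * VV {k} w N * MM D lam E om| ≤
      2 * ((N : ℝ) / primorial w) * Real.exp (11 * (1 + Real.log z) - (2 * b + 1)) * A1 D E +
      4 * (1 + 4 * (z : ℝ)) ^ (2 * b + 1) * A2 D E := by
  have h1 : ∑ n ∈ AA {k} w N a, FF D lam E om k n -
      (N : ℝ) / primorial w * VV {k} w N * MM D lam E om =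
      ∑ t ∈ momI D E, momC lam om t * (∑ n ∈ AA {k} w N a, momN k (momU t) n * momN k ∅ n -
        (N : ℝ) / primorial w * VV {k} w N * (gg g (momU t) * gg g ∅)) := by
    simp only [FF_eq, MM_eq, mul_sub, sum_sub_distrib]
    congr 1
    · rw [sum_comm]
      refine sum_congr rfl fun t _ => ?_
      rw [mul_sum]
      refine sum_congr rfl fun n _ => ?_
      simp [momN]
    · rw [mul_sum]
      refine sum_congr rfl fun t _ => ?_
      simp [gg]
      ring
  rw [h1, A1_eq, A2_eq, mul_sum, mul_sum, ← sum_add_distrib]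
  refine (abs_sum_le_sum_abs _ _).trans (sum_le_sum fun t ht => ?_)
  have hU := momU_sub hD hE ht
  have h2 := momCount N w a b z {k} ha hz hz1
    (fun p hp => (nu_le_two k p (mem_SS hp).1 (by have := (mem_SS hp).2.1; omega)).trans
      (by norm_num)) (momU t) ∅ (disjoint_empty_right _) k k (fun p hp => hP p (hU hp)) (by simp)
  rw [abs_mul]
  refine (mul_le_of_le_one_left (abs_nonneg _) (momC_abs lam om hlam hom t)).trans
    (h2.trans (le_of_eq ?_))
  simp [gg]

theorem momA_pair (N w a k k' b z : ℕ) (ha : a < primorial w) (hz : z = zN N) (hz1 : 1 ≤ z)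
    (P P' : Finset ℕ) (hP : ∀ p ∈ P, p.Prime ∧ z < p ∧ w < p ∧ nu {k} p = 2)
    (hP' : ∀ p ∈ P', p.Prime ∧ z < p ∧ w < p ∧ nu {k'} p = 2)
    (hkk : ∀ p ∈ P ∩ P', ¬ k ≡ k' [MOD p])
    (D E D' E' : Finset (Finset ℕ)) (hD : D ⊆ P.powerset) (hE : E ⊆ P.powerset)
    (hD' : D' ⊆ P'.powerset) (hE' : E' ⊆ P'.powerset)
    (lam om lam' om' : Finset ℕ → ℝ) (hlam : ∀ T, |lam T| ≤ 1) (hom : ∀ T, |om T| ≤ 1)
    (hlam' : ∀ T, |lam' T| ≤ 1) (hom' : ∀ T, |om' T| ≤ 1) (hw : 2 ≤ w) :
    |∑ n ∈ AA {k, k'} w N a, FF D lam E om k n * FF D' lam' E' om' k' n -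
      (N : ℝ) / primorial w * VV {k, k'} w N * (MM D lam E om * MM D' lam' E' om')| ≤
      (N : ℝ) / primorial w * ∑ p ∈ P ∩ P', A1p D E p * A1p D' E' p +
      2 * ((N : ℝ) / primorial w) * Real.exp (11 * (1 + Real.log z) - (2 * b + 1)) *
        (A1 D E * A1 D' E') +
      4 * (1 + 4 * (z : ℝ)) ^ (2 * b + 1) * (A2 D E * A2 D' E') := by
  have hV0 : 0 ≤ VV {k, k'} w N ∧ VV {k, k'} w N ≤ 1 := by
    have h : ∀ p ∈ SS w N, 0 ≤ 1 - (nu {k, k'} p : ℝ) / p ∧ 1 - (nu {k, k'} p : ℝ) / p ≤ 1 := by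
      intro p hp
      have hp0 : (0 : ℝ) < p := by exact_mod_cast (mem_SS hp).1.pos
      have h1 : nu {k, k'} p ≤ p := by
        rw [← momR_card]
        exact (card_le_card (momR_sub _ _)).trans (by rw [card_range])
      have h2 : (nu {k, k'} p : ℝ) / p ≤ 1 := by
        rw [div_le_one hp0]; exact_mod_cast h1
      have h3 : 0 ≤ (nu {k, k'} p : ℝ) / p := by positivity
      constructor <;> linarith
    unfold VV
    exact ⟨prod_nonneg fun p hp => (h p hp).1, prod_le_one (fun p hp => (h p hp).1)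
      fun p hp => (h p hp).2⟩
  have hNQ : 0 ≤ (N : ℝ) / primorial w := by positivity
  have h1 : ∑ n ∈ AA {k, k'} w N a, FF D lam E om k n * FF D' lam' E' om' k' n -
      (N : ℝ) / primorial w * VV {k, k'} w N * (MM D lam E om * MM D' lam' E' om') =
      ∑ t ∈ momI D E, ∑ t' ∈ momI D' E', momC lam om t * momC lam' om' t' *
        (∑ n ∈ AA {k, k'} w N a, momN k (momU t) n * momN k' (momU t') n -
        (N : ℝ) / primorial w * VV {k, k'} w N * (gg g (momU t) * gg g (momU t'))) := by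
    simp only [FF_eq, MM_eq, mul_sub, sum_sub_distrib]
    congr 1
    · simp_rw [sum_mul_sum]
      rw [sum_comm]
      refine sum_congr rfl fun t _ => ?_
      rw [sum_comm]
      refine sum_congr rfl fun t' _ => ?_
      rw [mul_sum]
      refine sum_congr rfl fun n _ => ?_
      ring
    · rw [sum_mul_sum, mul_sum]
      refine sum_congr rfl fun t _ => ?_
      rw [mul_sum]
      refine sum_congr rfl fun t' _ => ?_
      ring
  have h2 : (N : ℝ) / primorial w * ∑ p ∈ P ∩ P', A1p D E p * A1p D' E' p +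
      2 * ((N : ℝ) / primorial w) * Real.exp (11 * (1 + Real.log z) - (2 * b + 1)) *
        (A1 D E * A1 D' E') +
      4 * (1 + 4 * (z : ℝ)) ^ (2 * b + 1) * (A2 D E * A2 D' E') =
      ∑ t ∈ momI D E, ∑ t' ∈ momI D' E',
        ((N : ℝ) / primorial w * (∑ p ∈ P ∩ P', (if p ∈ momU t then gg g (momU t) else 0) *
          (if p ∈ momU t' then gg g (momU t') else 0)) +
        2 * ((N : ℝ) / primorial w) * Real.exp (11 * (1 + Real.log z) - (2 * b + 1)) *
          (gg g (momU t) * gg g (momU t')) +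
        4 * (1 + 4 * (z : ℝ)) ^ (2 * b + 1) * ((2 : ℝ) ^ #(momU t) * (2 : ℝ) ^ #(momU t'))) := by
    simp only [sum_add_distrib, ← mul_sum, A1_eq, A2_eq, A1p_eq, sum_mul_sum]
    congr 3
    rw [sum_comm]
    refine sum_congr rfl fun t _ => ?_
    rw [sum_comm]
    refine sum_congr rfl fun p _ => ?_
    rw [mul_sum]
  rw [h1, h2]
  refine (abs_sum_le_sum_abs _ _).trans (sum_le_sum fun t ht => ?_)
  refine (abs_sum_le_sum_abs _ _).trans (sum_le_sum fun t' ht' => ?_)
  have hU := momU_sub hD hE ht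
  have hU' := momU_sub hD' hE' ht'
  have hg1 := gg_g_nonneg (momU t)
  have hg2 := gg_g_nonneg (momU t')
  have hcc : |momC lam om t * momC lam' om' t'| ≤ 1 := by
    rw [abs_mul]
    calc |momC lam om t| * |momC lam' om' t'| ≤ 1 * 1 := by
          gcongr
          · exact momC_abs lam om hlam hom t
          · exact momC_abs lam' om' hlam' hom' t'
      _ = 1 := by norm_num
  have hov : 0 ≤ (N : ℝ) / primorial w * (∑ p ∈ P ∩ P', (if p ∈ momU t then gg g (momU t) else 0) *
          (if p ∈ momU t' then gg g (momU t') else 0)) := by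
    refine mul_nonneg hNQ (sum_nonneg fun p _ => mul_nonneg ?_ ?_)
    · split_ifs
      · exact hg1
      · exact le_refl _
    · split_ifs
      · exact hg2
      · exact le_refl _
  rw [abs_mul]
  refine (mul_le_of_le_one_left (abs_nonneg _) hcc).trans ?_
  by_cases hd : Disjoint (momU t) (momU t')
  · have h3 := momCount N w a b z {k, k'} ha hz hz1
      (fun p hp => by
        have hp2 : p ≠ 2 := by have := (mem_SS hp).2.1; omega
        have e1 := nu_le_two k p (mem_SS hp).1 hp2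
        have e2 := nu_le_two k' p (mem_SS hp).1 hp2
        have e3 := nu_pair_le k k' p
        omega) (momU t) (momU t') hd k k' (fun p hp => hP p (hU hp)) (fun p hp => hP' p (hU' hp))
    refine h3.trans ?_
    linarith
  · rw [not_disjoint_iff] at hd
    obtain ⟨p, hp, hp'⟩ := hd
    have hzero : ∑ n ∈ AA {k, k'} w N a, momN k (momU t) n * momN k' (momU t') n = 0 := by
      refine sum_eq_zero fun n _ => ?_
      unfold momN
      by_cases e1 : ∀ p ∈ momU t, p ∣ n ^ 2 + k
      · by_cases e2 : ∀ p ∈ momU t', p ∣ n ^ 2 + k'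
        · exfalso
          have f1 := e1 p hp
          have f2 := e2 p hp'
          apply hkk p (mem_inter.mpr ⟨hU hp, hU' hp'⟩)
          have f3 : n ^ 2 + k ≡ n ^ 2 + k' [MOD p] :=
            ((Nat.modEq_zero_iff_dvd.mpr f1).trans (Nat.modEq_zero_iff_dvd.mpr f2).symm)
          exact Nat.ModEq.add_left_cancel' _ f3
        · rw [if_neg e2, mul_zero]
      · rw [if_neg e1, zero_mul]
    rw [hzero, zero_sub, abs_neg, abs_of_nonneg
      (mul_nonneg (mul_nonneg hNQ hV0.1) (mul_nonneg hg1 hg2))]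
    have h3 : gg g (momU t) * gg g (momU t') ≤
        ∑ p ∈ P ∩ P', (if p ∈ momU t then gg g (momU t) else 0) *
          (if p ∈ momU t' then gg g (momU t') else 0) := by
      have h4 := single_le_sum (s := P ∩ P')
        (f := fun p => (if p ∈ momU t then gg g (momU t) else 0) *
          (if p ∈ momU t' then gg g (momU t') else 0))
        (fun q _ => mul_nonneg (by split_ifs; exacts [hg1, le_refl _])
          (by split_ifs; exacts [hg2, le_refl _])) (mem_inter.mpr ⟨hU hp, hU' hp'⟩)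
      simp only [if_pos hp, if_pos hp'] at h4
      exact h4
    have h5 : (N : ℝ) / primorial w * VV {k, k'} w N * (gg g (momU t) * gg g (momU t')) ≤
        (N : ℝ) / primorial w * (∑ p ∈ P ∩ P', (if p ∈ momU t then gg g (momU t) else 0) *
          (if p ∈ momU t' then gg g (momU t') else 0)) := by
      calc (N : ℝ) / primorial w * VV {k, k'} w N * (gg g (momU t) * gg g (momU t'))
          ≤ (N : ℝ) / primorial w * 1 * (gg g (momU t) * gg g (momU t')) := by
            have := hV0.2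
            gcongr
        _ = (N : ℝ) / primorial w * (gg g (momU t) * gg g (momU t')) := by ring
        _ ≤ _ := by gcongr
    have h6 : 0 ≤ 2 * ((N : ℝ) / primorial w) *
        Real.exp (11 * (1 + Real.log z) - (2 * b + 1)) * (gg g (momU t) * gg g (momU t')) := by
      positivity
    have h7 : 0 ≤ 4 * (1 + 4 * (z : ℝ)) ^ (2 * b + 1) *
        ((2 : ℝ) ^ #(momU t) * (2 : ℝ) ^ #(momU t')) := by positivity
    linarith

end Pool.Agent.Work.MP_73869e_nt.AP
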