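import Mathlib
import Pool.Agent.Work.MP_73869e_nt.AP.Defs

set_option autoImplicit false

namespace Pool.Agent.Work.MP_73869e_nt.AP

open Finset Filter

theorem tendsto_logN : Tendsto (fun N : ℕ => Real.log N) atTop atTop :=
  Real.tendsto_log_atTop.comp tendsto_natCast_atTop_atTop

theorem natlog_le (N : ℕ) (hN : 1 ≤ N) : (Nat.log 2 N : ℝ) ≤ 2 * Real.log N := by
  have h1 : 2 ^ Nat.log 2 N ≤ N := Nat.pow_log_le_self 2 (by omega)
  have h2 : ((2 : ℝ)) ^ Nat.log 2 N ≤ N := by exact_mod_cast h1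
  have h3 := Real.log_le_log (by positivity) h2
  rw [Real.log_pow] at h3
  have h4 := Real.log_two_gt_d9
  have h5 : (0 : ℝ) ≤ Nat.log 2 N := by positivity
  nlinarith

theorem le_natlog (N : ℕ) (hN : 8 ≤ N) : Real.log N ≤ (Nat.log 2 N : ℝ) := by
  have h1 : N < 2 ^ (Nat.log 2 N + 1) := Nat.lt_pow_succ_log_self (by norm_num) N
  have h2 : (N : ℝ) ≤ (2 : ℝ) ^ (Nat.log 2 N + 1) := by exact_mod_cast h1.le
  have h3 := Real.log_le_log (by exact_mod_cast (by omega : 0 < N)) h2
  rw [Real.log_pow] at h3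
  have h4 := Real.log_two_lt_d9
  have h5 : 3 ≤ Nat.log 2 N := by
    have : Nat.log 2 8 ≤ Nat.log 2 N := Nat.log_mono_right hN
    have h8 : Nat.log 2 8 = 3 := by
      rw [show (8 : ℕ) = 2 ^ 3 by norm_num, Nat.log_pow (by norm_num)]
    omega
  have h6 : (3 : ℝ) ≤ Nat.log 2 N := by exact_mod_cast h5
  push_cast at h3
  nlinarith

theorem zN_ge (N : ℕ) (hN : 8 ≤ N) : Real.log N ^ 20 ≤ (zN N : ℝ) := by
  unfold zN
  push_cast
  have h0 : 0 ≤ Real.log N := Real.log_natCast_nonneg N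
  exact pow_le_pow_left₀ h0 (le_natlog N hN) 20

theorem zN_le (N : ℕ) (hN : 1 ≤ N) : (zN N : ℝ) ≤ (2 * Real.log N) ^ 20 := by
  unfold zN
  push_cast
  exact pow_le_pow_left₀ (by positivity) (natlog_le N hN) 20

/-- eventually in the variable L : simple polynomial facts in t = L^(1/4) -/
theorem ev_t (K : ℝ) : ∀ᶠ L : ℝ in atTop, ∃ t : ℝ, K ≤ t ∧ 1 ≤ t ∧ L = t ^ 4 ∧ √L = t ^ 2 ∧
    Real.log L ≤ t := by
  have h1 : ∀ᶠ L : ℝ in atTop, ‖Real.log L‖ ≤ 1 * ‖L ^ ((1 : ℝ) / 4)‖ :=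
    (isLittleO_log_rpow_atTop (r := (1 : ℝ) / 4) (by norm_num)).bound one_pos
  have h2 : ∀ᶠ L : ℝ in atTop, max K 1 ≤ L ^ ((1 : ℝ) / 4) :=
    (tendsto_rpow_atTop (by norm_num)).eventually_ge_atTop _
  filter_upwards [h1, h2, eventually_ge_atTop 1] with L hL1 hL2 hL3
  have hL0 : 0 ≤ L := by linarith
  have ht4 : L = (L ^ ((1 : ℝ) / 4)) ^ 4 := by
    rw [← Real.rpow_natCast, ← Real.rpow_mul hL0]
    norm_num
  refine ⟨L ^ ((1 : ℝ) / 4), (le_max_left _ _).trans hL2, (le_max_right _ _).trans hL2, ht4, ?_, ?_⟩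
  · rw [← Real.rpow_natCast, ← Real.rpow_mul hL0, Real.sqrt_eq_rpow]
    norm_num
  · rw [one_mul, Real.norm_of_nonneg (Real.log_nonneg hL3), Real.norm_of_nonneg (by positivity)] at hL1
    exact hL1

noncomputable def bN (N : ℕ) : ℕ := ⌊√(Real.log N)⌋₊

theorem ev_exp : ∀ᶠ N : ℕ in atTop,
    Real.exp (11 * (1 + Real.log (zN N)) - (2 * (bN N : ℝ) + 1)) ≤ 1 / Real.log N ^ 30 := by
  filter_upwards [tendsto_logN.eventually (ev_t 1000), eventually_ge_atTop 8] with N hN h8
  obtain ⟨t, ht, ht1, hL, hsq, hlog⟩ := hN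
  have hL1 : 1 ≤ Real.log N := by rw [hL]; nlinarith [pow_le_pow_left₀ (by norm_num) ht1 4]
  have hL0 : 0 < Real.log N := by linarith
  have hb : √(Real.log N) < (bN N : ℝ) + 1 := Nat.lt_floor_add_one _
  rw [hsq] at hb
  have hz : Real.log (zN N) ≤ 20 * (1 + t) := by
    have h1 : (1 : ℝ) ≤ zN N := by
      have := zN_ge N h8
      have : (1 : ℝ) ≤ Real.log N ^ 20 := one_le_pow₀ hL1
      linarith
    calc Real.log (zN N) ≤ Real.log ((2 * Real.log N) ^ 20) :=
          Real.log_le_log (by linarith) (zN_le N (by omega))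
      _ = 20 * (Real.log 2 + Real.log (Real.log N)) := by
          rw [Real.log_pow, Real.log_mul (by norm_num) hL0.ne']; norm_num
      _ ≤ 20 * (1 + t) := by
          have := Real.log_two_lt_d9
          linarith
  have h1 : 1 / Real.log N ^ 30 = Real.exp (-(30 * Real.log (Real.log N))) := by
    rw [Real.exp_neg, show (30 : ℝ) * Real.log (Real.log N) = Real.log (Real.log N ^ 30) by
      rw [Real.log_pow]; norm_num, Real.exp_log (by positivity), one_div]
  rw [h1]
  apply Real.exp_le_exp.2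
  nlinarith

theorem ev_pow : ∀ᶠ N : ℕ in atTop,
    (1 + 4 * (zN N : ℝ)) ^ (2 * bN N + 1) ≤ (N : ℝ) ^ ((1 : ℝ) / 100) := by
  filter_upwards [tendsto_logN.eventually (ev_t 10000), eventually_ge_atTop 8] with N hN h8
  obtain ⟨t, ht, ht1, hL, hsq, hlog⟩ := hN
  have hL1 : 1 ≤ Real.log N := by rw [hL]; nlinarith [pow_le_pow_left₀ (by norm_num) ht1 4]
  have hL0 : 0 < Real.log N := by linarith
  have hN0 : (0 : ℝ) < N := by exact_mod_cast (by omega : 0 < N)
  have hb : (bN N : ℝ) ≤ √(Real.log N) := Nat.floor_le (Real.sqrt_nonneg _)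
  rw [hsq] at hb
  have hz1 : (1 : ℝ) ≤ zN N := by
    have := zN_ge N h8
    have : (1 : ℝ) ≤ Real.log N ^ 20 := one_le_pow₀ hL1
    linarith
  have hz : Real.log (1 + 4 * (zN N : ℝ)) ≤ 2 + 20 * (1 + t) := by
    calc Real.log (1 + 4 * (zN N : ℝ)) ≤ Real.log (5 * (2 * Real.log N) ^ 20) := by
          apply Real.log_le_log (by linarith)
          have := zN_le N (by omega)
          linarith
      _ = Real.log 5 + 20 * (Real.log 2 + Real.log (Real.log N)) := by
          rw [Real.log_mul (by norm_num) (by positivity), Real.log_pow,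
            Real.log_mul (by norm_num) hL0.ne']; norm_num
      _ ≤ 2 + 20 * (1 + t) := by
          have h2 := Real.log_two_lt_d9
          have h5 : Real.log 5 ≤ 2 := by
            have : Real.log 5 ≤ Real.log (2 ^ 3) := Real.log_le_log (by norm_num) (by norm_num)
            rw [Real.log_pow] at this
            have h3 := Real.log_two_lt_d9
            have h6 : Real.log 5 ≤ Real.log (2.7182818283 ^ 2) :=
              Real.log_le_log (by norm_num) (by norm_num)
            have h7 : Real.log (2.7182818283 ^ 2) ≤ Real.log (Real.exp 1 ^ 2) := by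
              apply Real.log_le_log (by norm_num)
              have := Real.exp_one_gt_d9
              gcongr
            rw [← Real.exp_nat_mul, Real.log_exp] at h7
            push_cast at h7
            linarith
          linarith
  have h0 : 0 < 1 + 4 * (zN N : ℝ) := by positivity
  rw [← Real.log_le_log_iff (by positivity) (by positivity), Real.log_pow, Real.log_rpow hN0, hL]
  push_cast
  have hlz0 : 0 ≤ Real.log (1 + 4 * (zN N : ℝ)) := Real.log_nonneg (by linarith)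
  calc (2 * (bN N : ℝ) + 1) * Real.log (1 + 4 * (zN N : ℝ))
      ≤ (2 * t ^ 2 + 1) * (2 + 20 * (1 + t)) := by
        apply mul_le_mul _ hz hlz0 (by positivity)
        linarith
    _ ≤ (3 * t ^ 2) * (21 * t) := by
        apply mul_le_mul
        · nlinarith
        · linarith
        · positivity
        · positivity
    _ ≤ 1 / 100 * t ^ 4 := by
        have : (3 * t ^ 2) * (21 * t) = 63 * t ^ 3 := by ring
        rw [this]
        have h3 : 0 < t ^ 3 := by positivity
        nlinarith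

theorem ev_rpow_small (a : ℝ) (ha : a < 1) (K : ℝ) (m : ℕ) : ∀ᶠ N : ℕ in atTop,
    K * (N : ℝ) ^ a ≤ N / Real.log N ^ m := by
  have h1 : (fun x : ℝ => Real.log x ^ (m : ℝ)) =o[atTop] fun x => x ^ (1 - a) :=
    isLittleO_log_rpow_rpow_atTop (m : ℝ) (by linarith)
  have h2 : ∀ᶠ x : ℝ in atTop, ‖Real.log x ^ (m : ℝ)‖ ≤ (1 / (|K| + 1)) * ‖x ^ (1 - a)‖ :=
    h1.bound (by positivity)
  have h3 := tendsto_natCast_atTop_atTop (R := ℝ).eventually h2
  filter_upwards [h3, eventually_ge_atTop 3] with N hN h3N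
  have hN0 : (0 : ℝ) < N := by exact_mod_cast (by omega : 0 < N)
  have hlog : 0 < Real.log N := Real.log_pos (by exact_mod_cast (by omega : 1 < N))
  rw [Real.rpow_natCast, Real.norm_of_nonneg (by positivity), Real.norm_of_nonneg (by positivity)] at hN
  rw [le_div_iff₀ (by positivity)]
  have h4 : (N : ℝ) = N ^ a * N ^ (1 - a) := by
    rw [← Real.rpow_add hN0]; norm_num
  have hNa : 0 < (N : ℝ) ^ a := by positivity
  have hN1 : 0 < (N : ℝ) ^ (1 - a) := by positivity
  calc K * (N : ℝ) ^ a * Real.log N ^ m ≤ (|K| + 1) * (N : ℝ) ^ a * Real.log N ^ m := by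
        gcongr
        have := le_abs_self K
        linarith
    _ ≤ (|K| + 1) * (N : ℝ) ^ a * (1 / (|K| + 1) * N ^ (1 - a)) := by gcongr
    _ = N ^ a * N ^ (1 - a) := by field_simp
    _ = N := h4.symm

theorem ev_log_ge (K : ℝ) : ∀ᶠ N : ℕ in atTop, K ≤ Real.log N :=
  tendsto_logN.eventually_ge_atTop K

theorem ev_zN_ge (K : ℝ) : ∀ᶠ N : ℕ in atTop, K ≤ (zN N : ℝ) := by
  filter_upwards [ev_log_ge (max K 1), eventually_ge_atTop 8] with N hN h8
  have h1 : K ≤ Real.log N := (le_max_left _ _).trans hN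
  have h2 : 1 ≤ Real.log N := (le_max_right _ _).trans hN
  calc K ≤ Real.log N := h1
    _ ≤ Real.log N ^ 20 := le_self_pow₀ h2 (by norm_num)
    _ ≤ zN N := zN_ge N h8

/-- shifts are below the small sieve limit -/
theorem jj_bound (c : ℝ) (hc : 0 < c) (q N j : ℕ) (hq : 0 < q) (hj : j ∈ Icc 1 (JJ c q N)) :
    ((q * j ^ 2 : ℕ) : ℝ) ≤ c * Real.log N ^ 2 ∧ (j : ℝ) ≤ √(c / q) * Real.log N := by
  rw [Finset.mem_Icc] at hj
  have hl : 0 ≤ Real.log N := Real.log_natCast_nonneg N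
  have h1 : (j : ℝ) ≤ √(c / q) * Real.log N := by
    have h2 : (j : ℝ) ≤ (JJ c q N : ℝ) := by exact_mod_cast hj.2
    refine h2.trans ?_
    exact Nat.floor_le (by positivity)
  refine ⟨?_, h1⟩
  have hq0 : (0 : ℝ) < q := by exact_mod_cast hq
  push_cast
  calc (q : ℝ) * (j : ℝ) ^ 2 ≤ q * (√(c / q) * Real.log N) ^ 2 := by gcongr
    _ = c * Real.log N ^ 2 := by
        rw [mul_pow, Real.sq_sqrt (by positivity)]
        field_simp

theorem ev_shift_lt (c : ℝ) (hc : 0 < c) (q : ℕ) (hq : 0 < q) : ∀ᶠ N : ℕ in atTop,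
    ∀ j ∈ Icc 1 (JJ c q N), q * j ^ 2 < zN N ∧ j < zN N ∧ q < zN N := by
  filter_upwards [ev_log_ge (max (max c (q + 1)) 2), eventually_ge_atTop 8, ev_zN_ge (q + 1)]
    with N hN h8 hz
  intro j hj
  have h1 : c ≤ Real.log N := (le_max_left _ _).trans ((le_max_left _ _).trans hN)
  have h2 : 2 ≤ Real.log N := (le_max_right _ _).trans hN
  have hb := (jj_bound c hc q N j hq hj).1
  have h3 : ((q * j ^ 2 : ℕ) : ℝ) < zN N := by
    calc ((q * j ^ 2 : ℕ) : ℝ) ≤ c * Real.log N ^ 2 := hb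
      _ ≤ Real.log N * Real.log N ^ 2 := by gcongr
      _ = Real.log N ^ 3 := by ring
      _ < Real.log N ^ 20 := by
          apply pow_lt_pow_right₀ (by linarith) (by norm_num)
      _ ≤ zN N := zN_ge N h8
  have h4 : q * j ^ 2 < zN N := by exact_mod_cast h3
  refine ⟨h4, ?_, ?_⟩
  · rw [Finset.mem_Icc] at hj
    calc j ≤ j ^ 2 := Nat.le_self_pow (by norm_num) j
      _ ≤ q * j ^ 2 := Nat.le_mul_of_pos_left _ hq
      _ < _ := h4
  · have : ((q : ℝ)) < zN N := by linarith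
    exact_mod_cast this

end Pool.Agent.Work.MP_73869e_nt.AP
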