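import Mathlib
import Pool.Agent.Work.MP_73869e_nt.AP.Defs
import Pool.Agent.Work.MP_73869e_nt.AP.MomA

set_option autoImplicit false

/-! Sizes of the sums in the error terms. -/

namespace Pool.Agent.Work.MP_73869e_nt.AP

open Finset Filter Pool.Agent.Work.MP_2dba45_nt.Sel

/-- sum over all triples of subsets -/
noncomputable def momTri (P : Finset ℕ) (f : Finset ℕ → ℝ) : ℝ :=
  ∑ T₁ ∈ P.powerset, ∑ T₂ ∈ P.powerset, ∑ T₃ ∈ P.powerset, f (T₁ ∪ T₂ ∪ T₃)

theorem momTri_congr (P : Finset ℕ) (f f' : Finset ℕ → ℝ) (h : ∀ T ⊆ P, f T = f' T) :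
    momTri P f = momTri P f' := by
  unfold momTri
  refine sum_congr rfl fun T₁ h1 => sum_congr rfl fun T₂ h2 => sum_congr rfl fun T₃ h3 => ?_
  rw [mem_powerset] at h1 h2 h3
  exact h _ (union_subset (union_subset h1 h2) h3)

theorem momTri_insert (P : Finset ℕ) (a : ℕ) (ha : a ∉ P) (f : Finset ℕ → ℝ) :
    momTri (insert a P) f = momTri P (fun U => f U + 7 * f (insert a U)) := by
  unfold momTri
  simp only [sum_powerset_insert ha]
  have h1 : ∀ A B C : Finset ℕ, insert a A ∪ B ∪ C = insert a (A ∪ B ∪ C) := by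
    intro A B C; ext x; simp only [mem_union, mem_insert]; tauto
  have h2 : ∀ A B C : Finset ℕ, A ∪ insert a B ∪ C = insert a (A ∪ B ∪ C) := by
    intro A B C; ext x; simp only [mem_union, mem_insert]; tauto
  have h3 : ∀ A B C : Finset ℕ, A ∪ B ∪ insert a C = insert a (A ∪ B ∪ C) := by
    intro A B C; ext x; simp only [mem_union, mem_insert]; tauto
  have h4 : ∀ A B C : Finset ℕ, insert a A ∪ insert a B ∪ C = insert a (A ∪ B ∪ C) := by
    intro A B C; ext x; simp only [mem_union, mem_insert]; tauto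
  have h5 : ∀ A B C : Finset ℕ, insert a A ∪ B ∪ insert a C = insert a (A ∪ B ∪ C) := by
    intro A B C; ext x; simp only [mem_union, mem_insert]; tauto
  have h6 : ∀ A B C : Finset ℕ, A ∪ insert a B ∪ insert a C = insert a (A ∪ B ∪ C) := by
    intro A B C; ext x; simp only [mem_union, mem_insert]; tauto
  have h7 : ∀ A B C : Finset ℕ, insert a A ∪ insert a B ∪ insert a C =
      insert a (A ∪ B ∪ C) := by
    intro A B C; ext x; simp only [mem_union, mem_insert]; tauto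
  simp only [h7, h4, h5, h6, h1, h2, h3]
  simp only [← sum_add_distrib]
  refine sum_congr rfl fun A _ => sum_congr rfl fun B _ => sum_congr rfl fun C _ => ?_
  ring

theorem gg_insert_of_sub {P U : Finset ℕ} {a : ℕ} (ha : a ∉ P) (hU : U ⊆ P) :
    gg g (insert a U) = g a * gg g U := by
  unfold gg
  rw [prod_insert fun h => ha (hU h)]

theorem momTri_mul (P : Finset ℕ) (c : ℝ) (f : Finset ℕ → ℝ) :
    momTri P (fun U => c * f U) = c * momTri P f := by
  unfold momTri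
  simp only [mul_sum]

theorem momTri_gg (P : Finset ℕ) : momTri P (gg g) = ∏ p ∈ P, (1 + 7 * g p) := by
  induction P using Finset.induction_on with
  | empty => simp [momTri, gg]
  | insert a P ha ih =>
    rw [momTri_insert P a ha, prod_insert ha, ← ih, ← momTri_mul]
    refine momTri_congr P _ _ fun U hU => ?_
    rw [gg_insert_of_sub ha hU]
    ring

theorem g_nonneg (p : ℕ) : 0 ≤ g p := by unfold g; positivity

theorem momTri_gg_le (P : Finset ℕ) : momTri P (gg g) ≤ Real.exp (7 * ∑ p ∈ P, g p) := by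
  rw [momTri_gg, mul_sum, Real.exp_sum]
  refine prod_le_prod (fun p _ => by have := g_nonneg p; linarith) fun p _ => ?_
  have := Real.add_one_le_exp (7 * g p)
  linarith

theorem momSum_le {P : Finset ℕ} {D E : Finset (Finset ℕ)} (hD : D ⊆ P.powerset)
    (hE : E ⊆ P.powerset) (f : Finset ℕ → ℝ) (hf : ∀ T, 0 ≤ f T) :
    ∑ T₁ ∈ D, ∑ T₂ ∈ D, ∑ T₃ ∈ E, f (T₁ ∪ T₂ ∪ T₃) ≤ momTri P f := by
  unfold momTri
  calc ∑ T₁ ∈ D, ∑ T₂ ∈ D, ∑ T₃ ∈ E, f (T₁ ∪ T₂ ∪ T₃)
      ≤ ∑ T₁ ∈ D, ∑ T₂ ∈ D, ∑ T₃ ∈ P.powerset, f (T₁ ∪ T₂ ∪ T₃) := by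
        refine sum_le_sum fun T₁ _ => sum_le_sum fun T₂ _ => ?_
        exact sum_le_sum_of_subset_of_nonneg hE fun T _ _ => hf _
    _ ≤ ∑ T₁ ∈ D, ∑ T₂ ∈ P.powerset, ∑ T₃ ∈ P.powerset, f (T₁ ∪ T₂ ∪ T₃) := by
        refine sum_le_sum fun T₁ _ => ?_
        exact sum_le_sum_of_subset_of_nonneg hD fun T _ _ => sum_nonneg fun _ _ => hf _
    _ ≤ _ := sum_le_sum_of_subset_of_nonneg hD fun T _ _ => sum_nonneg fun _ _ =>
        sum_nonneg fun _ _ => hf _

theorem DD_sub (q N : ℕ) (x : ℝ) : DD q N x ⊆ (PP q N).powerset := filter_subset _ _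

theorem A1_le (q N : ℕ) (E : Finset (Finset ℕ)) (hE : E ⊆ (PP q N).powerset) (x : ℝ)
    (hg : ∀ p ∈ PP q N, 0 ≤ g p) : A1 (DD q N x) E ≤ Real.exp (7 * ∑ p ∈ PP q N, g p) := by
  unfold A1
  exact (momSum_le (DD_sub q N x) hE (gg g) gg_g_nonneg).trans (momTri_gg_le _)

theorem A1p_le (q N : ℕ) (E : Finset (Finset ℕ)) (hE : E ⊆ (PP q N).powerset) (x : ℝ) (p : ℕ)
    (hp : p ∈ PP q N) :
    A1p (DD q N x) E p ≤ 7 * g p * Real.exp (7 * ∑ p ∈ PP q N, g p) := by
  unfold A1p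
  refine (momSum_le (DD_sub q N x) hE (fun U => if p ∈ U then gg g U else 0) fun T => ?_).trans ?_
  · split_ifs
    · exact gg_g_nonneg T
    · exact le_refl _
  have hins : insert p ((PP q N).erase p) = PP q N := insert_erase hp
  have h1 : momTri (PP q N) (fun U => if p ∈ U then gg g U else 0) =
      7 * g p * momTri ((PP q N).erase p) (gg g) := by
    conv_lhs => rw [← hins]
    rw [momTri_insert _ p (notMem_erase p _), ← momTri_mul]
    refine momTri_congr _ _ _ fun U hU => ?_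
    have hpU : p ∉ U := fun h => notMem_erase p _ (hU h)
    simp only [if_neg hpU, if_pos (mem_insert_self p U)]
    rw [gg_insert_of_sub (notMem_erase p _) hU]
    ring
  rw [h1]
  have h2 : momTri ((PP q N).erase p) (gg g) ≤ Real.exp (7 * ∑ p ∈ PP q N, g p) := by
    refine (momTri_gg_le _).trans (Real.exp_le_exp.mpr ?_)
    have := sum_le_sum_of_subset_of_nonneg (erase_subset p (PP q N))
      (f := g) fun i _ _ => g_nonneg i
    linarith
  have h3 := g_nonneg p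
  gcongr

theorem mem_PP {q N p : ℕ} (hp : p ∈ PP q N) : p.Prime ∧ zN N < p ∧ (p : ℝ) ≤ yR N := by
  unfold PP at hp
  rw [mem_filter, mem_Ioc] at hp
  refine ⟨hp.2.1, hp.1.1, ?_⟩
  exact (Nat.le_floor_iff' hp.2.1.ne_zero).mp hp.1.2

theorem prd_inj {T T' : Finset ℕ} (hT : ∀ p ∈ T, p.Prime) (hT' : ∀ p ∈ T', p.Prime)
    (h : prd T = prd T') : T = T' := by
  have key : ∀ {S : Finset ℕ}, (∀ p ∈ S, p.Prime) → ∀ q : ℕ, q.Prime → (q ∣ prd S ↔ q ∈ S) := by
    intro S hS q hq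
    unfold prd
    rw [hq.prime.dvd_finsetProd_iff]
    constructor
    · rintro ⟨p, hp, hqp⟩
      rwa [(Nat.prime_dvd_prime_iff_eq hq (hS p hp)).mp hqp]
    · intro h; exact ⟨q, h, dvd_refl q⟩
  ext q
  constructor
  · intro hq
    rw [← key hT' q (hT q hq), ← h, key hT q (hT q hq)]
    exact hq
  · intro hq
    rw [← key hT q (hT' q hq), h, key hT' q (hT' q hq)]
    exact hq

theorem DD_card_le (q N : ℕ) (x : ℝ) (hx : 0 ≤ x) : (#(DD q N x) : ℝ) ≤ x := by
  have h1 : #(DD q N x) ≤ #(Ioc 0 ⌊x⌋₊) := by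
    refine card_le_card_of_injOn prd ?_ ?_
    · intro T hT
      have hT' := hT
      unfold DD at hT'
      rw [coe_filter] at hT'
      have hpos : 0 < prd T := by
        unfold prd
        exact prod_pos fun p hp => (mem_PP (mem_powerset.mp hT'.1 hp)).1.pos
      rw [mem_coe, mem_Ioc]
      exact ⟨hpos, Nat.le_floor hT'.2⟩
    · intro T hT T' hT' h
      have e1 := DD_sub q N x hT
      have e2 := DD_sub q N x hT'
      rw [mem_powerset] at e1 e2
      exact prd_inj (fun p hp => (mem_PP (e1 hp)).1) (fun p hp => (mem_PP (e2 hp)).1) h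
  rw [Nat.card_Ioc, Nat.sub_zero] at h1
  calc (#(DD q N x) : ℝ) ≤ (⌊x⌋₊ : ℝ) := by exact_mod_cast h1
    _ ≤ x := Nat.floor_le hx

theorem two_pow_card_le (q N : ℕ) (x : ℝ) (hz : 2 ^ 1000 ≤ zN N) {T : Finset ℕ}
    (hT : T ∈ DD q N x) : (2 : ℝ) ^ #T ≤ x ^ ((1 : ℝ) / 1000) := by
  unfold DD at hT
  rw [mem_filter, mem_powerset] at hT
  have h1 : ((2 : ℝ) ^ #T) ^ 1000 ≤ x := by
    refine le_trans ?_ hT.2
    have h2 : (2 ^ 1000) ^ #T ≤ prd T := by
      unfold prd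
      rw [← prod_const]
      exact prod_le_prod' fun p hp => (hz.trans (mem_PP (hT.1 hp)).2.1.le)
    have h3 : ((2 ^ #T) ^ 1000 : ℕ) ≤ prd T := by
      rw [← pow_mul, mul_comm, pow_mul]; exact h2
    calc ((2 : ℝ) ^ #T) ^ 1000 = (((2 ^ #T) ^ 1000 : ℕ) : ℝ) := by push_cast; ring
      _ ≤ (prd T : ℝ) := by exact_mod_cast h3
  have h0 : (0 : ℝ) ≤ (2 : ℝ) ^ #T := by positivity
  calc (2 : ℝ) ^ #T = (((2 : ℝ) ^ #T) ^ 1000) ^ ((1 : ℝ) / 1000) := by
        rw [← Real.rpow_natCast ((2 : ℝ) ^ #T) 1000, ← Real.rpow_mul h0]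
        norm_num
    _ ≤ x ^ ((1 : ℝ) / 1000) := by
        apply Real.rpow_le_rpow (by positivity) h1 (by norm_num)

theorem zN_eventually (M : ℕ) : ∀ᶠ N : ℕ in atTop, M ≤ zN N := by
  filter_upwards [eventually_ge_atTop (2 ^ M)] with N hN
  unfold zN
  have h1 : M ≤ Nat.log 2 N := by
    have h2 := Nat.log_mono_right (b := 2) hN
    rwa [Nat.log_pow (by norm_num)] at h2
  calc M ≤ Nat.log 2 N := h1
    _ ≤ (Nat.log 2 N) ^ 20 := Nat.le_self_pow (by norm_num) _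

theorem A2_le (q : ℕ) : ∀ᶠ N : ℕ in atTop, ∀ E : Finset (Finset ℕ), E ⊆ (PP q N).powerset →
    (∀ T ∈ E, #T ≤ 1) → A2 (DD q N (RR N)) E ≤ (N : ℝ) ^ ((10 : ℝ) / 21 + 1 / 200) := by
  have hlim : Tendsto (fun N : ℕ => (N : ℝ) ^ ((1 : ℝ) / 250)) atTop atTop :=
    (tendsto_rpow_atTop (by norm_num)).comp tendsto_natCast_atTop_atTop
  filter_upwards [zN_eventually (2 ^ 1000), hlim.eventually_ge_atTop 6, eventually_ge_atTop 1]
    with N hz h6 hN1 E hE hE1
  have hN : (1 : ℝ) ≤ N := by exact_mod_cast hN1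
  have hN0 : (0 : ℝ) < N := by linarith
  have hR0 : 0 < RR N := by unfold RR; positivity
  have hy1 : 1 ≤ yR N := by
    unfold yR; exact Real.one_le_rpow hN (by norm_num)
  -- the sum over D
  have hD : ∑ T ∈ DD q N (RR N), (2 : ℝ) ^ #T ≤ RR N * (RR N) ^ ((1 : ℝ) / 1000) := by
    calc ∑ T ∈ DD q N (RR N), (2 : ℝ) ^ #T
        ≤ ∑ T ∈ DD q N (RR N), (RR N) ^ ((1 : ℝ) / 1000) :=
          sum_le_sum fun T hT => two_pow_card_le q N (RR N) hz hT
      _ = #(DD q N (RR N)) * (RR N) ^ ((1 : ℝ) / 1000) := by rw [sum_const, nsmul_eq_mul]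
      _ ≤ RR N * (RR N) ^ ((1 : ℝ) / 1000) := by
          gcongr
          exact DD_card_le q N (RR N) hR0.le
  -- the sum over E
  have hEs : ∑ T ∈ E, (2 : ℝ) ^ #T ≤ 6 * yR N := by
    have h1 : #E ≤ #(PP q N) + 1 := by
      have h2 : E ⊆ insert ∅ ((PP q N).image fun p => {p}) := by
        intro T hT
        have h3 := hE1 T hT
        have h4 := mem_powerset.mp (hE hT)
        rw [mem_insert, mem_image]
        rcases Nat.le_one_iff_eq_zero_or_eq_one.mp h3 with h | h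
        · left; exact card_eq_zero.mp h
        · right
          obtain ⟨p, rfl⟩ := card_eq_one.mp h
          exact ⟨p, h4 (mem_singleton_self p), rfl⟩
      calc #E ≤ #(insert ∅ ((PP q N).image fun p => ({p} : Finset ℕ))) := card_le_card h2
        _ ≤ #((PP q N).image fun p => ({p} : Finset ℕ)) + 1 := card_insert_le _ _
        _ ≤ #(PP q N) + 1 := by gcongr; exact card_image_le
    have h2 : (#(PP q N) : ℝ) ≤ yR N := by
      have h3 : #(PP q N) ≤ ⌊yR N⌋₊ := by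
        unfold PP
        refine (card_filter_le _ _).trans ?_
        rw [Nat.card_Ioc]
        omega
      calc (#(PP q N) : ℝ) ≤ (⌊yR N⌋₊ : ℝ) := by exact_mod_cast h3
        _ ≤ yR N := Nat.floor_le (by linarith)
    calc ∑ T ∈ E, (2 : ℝ) ^ #T ≤ ∑ T ∈ E, (2 : ℝ) := by
          refine sum_le_sum fun T hT => ?_
          calc (2 : ℝ) ^ #T ≤ 2 ^ 1 := pow_le_pow_right₀ (by norm_num) (hE1 T hT)
            _ = 2 := by norm_num
      _ = #E * 2 := by rw [sum_const, nsmul_eq_mul]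
      _ ≤ ((#(PP q N) : ℝ) + 1) * 2 := by
          gcongr
          exact_mod_cast h1
      _ ≤ 6 * yR N := by linarith
  have hA2 : A2 (DD q N (RR N)) E ≤ (∑ T ∈ DD q N (RR N), (2 : ℝ) ^ #T) *
      (∑ T ∈ DD q N (RR N), (2 : ℝ) ^ #T) * ∑ T ∈ E, (2 : ℝ) ^ #T := by
    unfold A2
    rw [sum_mul_sum, sum_mul]
    refine sum_le_sum fun T₁ _ => ?_
    rw [sum_mul]
    refine sum_le_sum fun T₂ _ => ?_
    rw [mul_sum]
    refine sum_le_sum fun T₃ _ => ?_
    rw [← pow_add, ← pow_add]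
    refine pow_le_pow_right₀ (by norm_num) ?_
    exact (card_union_le _ _).trans (by gcongr; exact card_union_le _ _)
  have hEn : 0 ≤ ∑ T ∈ E, (2 : ℝ) ^ #T := by positivity
  have hDn : 0 ≤ ∑ T ∈ DD q N (RR N), (2 : ℝ) ^ #T := by positivity
  calc A2 (DD q N (RR N)) E
      ≤ (RR N * (RR N) ^ ((1 : ℝ) / 1000)) * (RR N * (RR N) ^ ((1 : ℝ) / 1000)) * (6 * yR N) := by
        refine hA2.trans ?_
        gcongr
    _ ≤ (RR N * (RR N) ^ ((1 : ℝ) / 1000)) * (RR N * (RR N) ^ ((1 : ℝ) / 1000)) *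
        ((N : ℝ) ^ ((1 : ℝ) / 250) * yR N) := by
        gcongr
    _ = (N : ℝ) ^ ((1 : ℝ) / 21 + 1 / 21 * (1 / 1000) + (1 / 21 + 1 / 21 * (1 / 1000)) +
        (1 / 250 + 8 / 21)) := by
        unfold RR yR
        rw [← Real.rpow_mul hN0.le, ← Real.rpow_add hN0, ← Real.rpow_add hN0,
          ← Real.rpow_add hN0, ← Real.rpow_add hN0]
    _ ≤ (N : ℝ) ^ ((10 : ℝ) / 21 + 1 / 200) := by
        apply Real.rpow_le_rpow_of_exponent_le hN
        norm_num

end Pool.Agent.Work.MP_73869e_nt.AP
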