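import Mathlib
import Pool.Agent.Work.MP_73869e_nt.AP.Defs

set_option autoImplicit false

namespace Pool.Agent.Work.MP_73869e_nt.AP

open Finset Filter Pool.Agent.Work.MP_2dba45_nt.Sel

theorem card_modEq_le (N r v : ℕ) (hr : 0 < r) :
    (#((Ioc N (2 * N)).filter (fun n => n ≡ v [MOD r])) : ℝ) ≤ (N : ℝ) / r + 1 := by
  have h := Nat.Ioc_filter_modEq_card N (2 * N) hr v
  have hr' : (0 : ℚ) < r := by exact_mod_cast hr
  have hq : ((#((Ioc N (2 * N)).filter (fun n => n ≡ v [MOD r])) : ℤ) : ℚ) ≤ (N : ℚ) / r + 1 := by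
    rw [h]
    rw [Int.cast_max]
    apply max_le
    · have h1 := Int.floor_le ((((2 * N : ℕ) : ℚ) - v) / (r : ℚ))
      have h2 := Int.lt_floor_add_one (((N : ℚ) - v) / (r : ℚ))
      push_cast at h1 ⊢
      have h3 : (2 * (N : ℚ) - v) / r = ((N : ℚ) - v) / r + (N : ℚ) / r := by
        field_simp; ring
      linarith
    · push_cast
      positivity
  have := (Rat.cast_le (K := ℝ)).2 hq
  push_cast at this
  exact this

/-- The number of `n` in `(N, 2N]` with `p^2 ∣ n^2 + k`. -/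
theorem card_sq_dvd_le (N k p : ℕ) (hp : p.Prime) (hp2 : p ≠ 2) (hpk : ¬ p ∣ k) :
    (#((Ioc N (2 * N)).filter (fun n => p ^ 2 ∣ n ^ 2 + k)) : ℝ) ≤ 2 * ((N : ℝ) / p ^ 2 + 1) := by
  by_cases hne : ((Ioc N (2 * N)).filter (fun n => p ^ 2 ∣ n ^ 2 + k)).Nonempty
  · obtain ⟨m, hm⟩ := hne
    simp only [Finset.mem_filter, Finset.mem_Ioc] at hm
    have hpm : ¬ p ∣ m := by
      intro h
      apply hpk
      have h1 : p ∣ m ^ 2 + k := (dvd_pow_self p two_ne_zero).trans hm.2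
      exact (Nat.dvd_add_right (h.trans (dvd_pow_self m two_ne_zero))).1 h1
    have hsub : (Ioc N (2 * N)).filter (fun n => p ^ 2 ∣ n ^ 2 + k) ⊆
        (Ioc N (2 * N)).filter (fun n => n ≡ m [MOD p ^ 2]) ∪
        (Ioc N (2 * N)).filter (fun n => n ≡ (p ^ 2 - 1) * m [MOD p ^ 2]) := by
      intro n hn
      simp only [Finset.mem_filter, Finset.mem_union] at hn ⊢
      have h1 : (p : ℤ) ^ 2 ∣ ((n : ℤ) - m) * ((n : ℤ) + m) := by
        have ha : (p : ℤ) ^ 2 ∣ (n : ℤ) ^ 2 + k := by exact_mod_cast hn.2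
        have hb : (p : ℤ) ^ 2 ∣ (m : ℤ) ^ 2 + k := by exact_mod_cast hm.2
        have e : ((n : ℤ) - m) * ((n : ℤ) + m) = ((n : ℤ) ^ 2 + k) - ((m : ℤ) ^ 2 + k) := by ring
        rw [e]
        exact dvd_sub ha hb
      have hpz : Prime (p : ℤ) := Nat.prime_iff_prime_int.1 hp
      by_cases h2 : (p : ℤ) ∣ (n : ℤ) - m
      · -- then p does not divide n + m
        have h3 : ¬ (p : ℤ) ∣ (n : ℤ) + m := by
          intro h4
          have h5 : (p : ℤ) ∣ 2 * m := by
            have e : (2 : ℤ) * m = ((n : ℤ) + m) - ((n : ℤ) - m) := by ring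
            rw [e]
            exact dvd_sub h4 h2
          rcases hpz.dvd_or_dvd h5 with h6 | h6
          · have h7 : p ∣ 2 := by exact_mod_cast h6
            exact hp2 ((Nat.prime_dvd_prime_iff_eq hp Nat.prime_two).1 h7)
          · exact hpm (by exact_mod_cast h6)
        have h4 : IsCoprime ((p : ℤ) ^ 2) ((n : ℤ) + m) :=
          (IsCoprime.pow_left ((Prime.coprime_iff_not_dvd hpz).2 h3))
        have h5 : (p : ℤ) ^ 2 ∣ (n : ℤ) - m := h4.dvd_of_dvd_mul_right h1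
        left
        refine ⟨hn.1, ?_⟩
        rw [← Int.natCast_modEq_iff]
        refine (Int.modEq_iff_dvd.2 ?_).symm
        push_cast
        exact h5
      · have h4 : IsCoprime ((p : ℤ) ^ 2) ((n : ℤ) - m) :=
          (IsCoprime.pow_left ((Prime.coprime_iff_not_dvd hpz).2 h2))
        have h5 : (p : ℤ) ^ 2 ∣ (n : ℤ) + m := h4.dvd_of_dvd_mul_left h1
        right
        refine ⟨hn.1, ?_⟩
        rw [← Int.natCast_modEq_iff]
        refine (Int.modEq_iff_dvd.2 ?_).symm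
        have h1p : 1 ≤ p ^ 2 := Nat.one_le_pow _ _ hp.pos
        push_cast [Nat.cast_sub h1p]
        have : (n : ℤ) - ((p : ℤ) ^ 2 - 1) * m = ((n : ℤ) + m) - (p : ℤ) ^ 2 * m := by ring
        rw [this]
        exact dvd_sub h5 (dvd_mul_right _ _)
    have hpp : 0 < p ^ 2 := pow_pos hp.pos 2
    calc (#((Ioc N (2 * N)).filter (fun n => p ^ 2 ∣ n ^ 2 + k)) : ℝ)
        ≤ #((Ioc N (2 * N)).filter (fun n => n ≡ m [MOD p ^ 2]) ∪
        (Ioc N (2 * N)).filter (fun n => n ≡ (p ^ 2 - 1) * m [MOD p ^ 2])) := by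
          exact_mod_cast Finset.card_le_card hsub
      _ ≤ (#((Ioc N (2 * N)).filter (fun n => n ≡ m [MOD p ^ 2])) : ℝ) +
        #((Ioc N (2 * N)).filter (fun n => n ≡ (p ^ 2 - 1) * m [MOD p ^ 2])) := by
          exact_mod_cast Finset.card_union_le _ _
      _ ≤ ((N : ℝ) / (p ^ 2 : ℕ) + 1) + ((N : ℝ) / (p ^ 2 : ℕ) + 1) :=
          add_le_add (card_modEq_le _ _ _ hpp) (card_modEq_le _ _ _ hpp)
      _ = 2 * ((N : ℝ) / p ^ 2 + 1) := by push_cast; ring
  · rw [Finset.not_nonempty_iff_eq_empty.1 hne]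
    simp only [Finset.card_empty, Nat.cast_zero]
    positivity

theorem sum_inv_sq_le (A B : ℕ) (hA : 1 ≤ A) :
    ∑ m ∈ Ioc A B, (1 : ℝ) / (m : ℝ) ^ 2 ≤ 1 / A := by
  rcases Nat.lt_or_ge A B with h | h
  · have : ∀ B, A ≤ B → ∑ m ∈ Ioc A B, (1 : ℝ) / (m : ℝ) ^ 2 ≤ 1 / A - 1 / B := by
      intro B hB
      induction B, hB using Nat.le_induction with
      | base => simp
      | succ B hB ih =>
        rw [← Finset.insert_Ioc_right_eq_Ioc_add_one hB, Finset.sum_insert (by simp)]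
        have hB0 : (0 : ℝ) < B := by exact_mod_cast (by omega : 0 < B)
        have : (1 : ℝ) / ((B + 1 : ℕ) : ℝ) ^ 2 ≤ 1 / B - 1 / ((B + 1 : ℕ) : ℝ) := by
          push_cast
          rw [div_sub_div _ _ hB0.ne' (by positivity), div_le_div_iff₀ (by positivity)
            (by positivity)]
          nlinarith
        linarith
    have h1 := this B h.le
    have h2 : (0 : ℝ) ≤ 1 / B := by positivity
    linarith
  · rw [Finset.Ioc_eq_empty (by omega)]
    simp only [Finset.sum_empty]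
    positivity

theorem log_div_rpow_tendsto (C α : ℝ) (hα : 0 < α) :
    Tendsto (fun N : ℕ => C * Real.log N / (N : ℝ) ^ α) atTop (nhds 0) := by
  have h := (isLittleO_log_rpow_atTop hα).tendsto_div_nhds_zero
  have h1 := (h.comp tendsto_natCast_atTop_atTop).const_mul C
  rw [mul_zero] at h1
  refine h1.congr ?_
  intro N
  simp only [Function.comp]
  ring

open scoped Classical in
theorem sq_count (c α ε : ℝ) (hc : 0 < c) (hα : 0 < α) (hε : 0 < ε) (K : Finset ℕ)
    (hK : ∀ q ∈ K, q.Prime) : ∀ᶠ N : ℕ in atTop,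
    (#((Ioc N (2 * N)).filter (fun n => ∃ q ∈ K, ∃ j ∈ Icc 1 (JJ c q N), ∃ p : ℕ, p.Prime ∧
      (N : ℝ) ^ α < p ∧ (p : ℝ) ≤ yR N ∧ p ^ 2 ∣ n ^ 2 + q * j ^ 2)) : ℝ) ≤ ε * N := by
  -- a bound for the primes in K
  set M : ℕ := ∑ q ∈ K, q with hM
  have hqM : ∀ q ∈ K, q ≤ M := fun q hq =>
    Finset.single_le_sum (f := fun q : ℕ => q) (fun _ _ => Nat.zero_le _) hq
  set D : ℝ := (#K : ℝ) * √c with hD
  have hD0 : 0 ≤ D := by positivity
  -- eventual facts
  have e1 : ∀ᶠ N : ℕ in atTop, (M : ℝ) + 4 ≤ (N : ℝ) ^ α :=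
    ((tendsto_rpow_atTop hα).comp tendsto_natCast_atTop_atTop).eventually_ge_atTop _
  have e2 : ∀ᶠ N : ℕ in atTop, √c * Real.log N / (N : ℝ) ^ α < 1 :=
    (log_div_rpow_tendsto (√c) α hα).eventually (gt_mem_nhds one_pos)
  have e3 : ∀ᶠ N : ℕ in atTop, (4 * D) * Real.log N / (N : ℝ) ^ α < ε / 2 :=
    (log_div_rpow_tendsto (4 * D) α hα).eventually (gt_mem_nhds (half_pos hε))
  have e4 : ∀ᶠ N : ℕ in atTop, (2 * D) * Real.log N / (N : ℝ) ^ ((13 : ℝ) / 21) < ε / 2 :=
    (log_div_rpow_tendsto (2 * D) (13 / 21) (by norm_num)).eventually (gt_mem_nhds (half_pos hε))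
  filter_upwards [e1, e2, e3, e4, eventually_ge_atTop 3] with N h1 h2 h3 h4 hN
  have hN0 : (0 : ℝ) < N := by exact_mod_cast (by omega : 0 < N)
  have hNα : (0 : ℝ) < (N : ℝ) ^ α := Real.rpow_pos_of_pos hN0 _
  have hlog : 0 ≤ Real.log N := Real.log_natCast_nonneg N
  set A : ℕ := ⌊(N : ℝ) ^ α⌋₊ with hA
  set B : ℕ := ⌊yR N⌋₊ with hB
  have hy0 : 0 ≤ yR N := by unfold yR; positivity
  have hA1 : 1 ≤ A := by
    rw [hA]
    apply Nat.le_floor
    push_cast
    have : (0 : ℝ) ≤ M := by positivity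
    linarith
  have hAhalf : (N : ℝ) ^ α / 2 ≤ A := by
    have := Nat.lt_floor_add_one ((N : ℝ) ^ α)
    rw [← hA] at this
    have h5 : (4 : ℝ) ≤ (N : ℝ) ^ α := by
      have : (0 : ℝ) ≤ M := by positivity
      linarith
    linarith
  have hJ : ∀ q ∈ K, (JJ c q N : ℝ) ≤ √c * Real.log N := by
    intro q hq
    have hq1 : (1 : ℝ) ≤ q := by exact_mod_cast (hK q hq).one_le
    unfold JJ
    refine (Nat.floor_le (by positivity)).trans ?_
    apply mul_le_mul_of_nonneg_right _ hlog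
    exact Real.sqrt_le_sqrt (div_le_self hc.le hq1)
  -- cover
  have hsub : (Ioc N (2 * N)).filter (fun n => ∃ q ∈ K, ∃ j ∈ Icc 1 (JJ c q N), ∃ p : ℕ, p.Prime ∧
      (N : ℝ) ^ α < p ∧ (p : ℝ) ≤ yR N ∧ p ^ 2 ∣ n ^ 2 + q * j ^ 2) ⊆
      K.biUnion (fun q => (Icc 1 (JJ c q N)).biUnion (fun j =>
        ((Ioc A B).filter (fun p => p.Prime ∧ p ≠ 2 ∧ ¬ p ∣ q * j ^ 2)).biUnion (fun p =>
          (Ioc N (2 * N)).filter (fun n => p ^ 2 ∣ n ^ 2 + q * j ^ 2)))) := by
    intro n hn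
    rw [Finset.mem_filter] at hn
    obtain ⟨hn1, q, hq, j, hj, p, hp, hp1, hp2, hp3⟩ := hn
    simp only [Finset.mem_biUnion]
    refine ⟨q, hq, j, hj, p, ?_, ?_⟩
    · rw [Finset.mem_filter, Finset.mem_Ioc]
      refine ⟨⟨(Nat.floor_lt hNα.le).2 hp1, (Nat.le_floor hp2)⟩, hp, ?_, ?_⟩
      · rintro rfl
        have : (0 : ℝ) ≤ M := by positivity
        push_cast at hp1
        linarith
      · intro hd
        rcases (Nat.Prime.dvd_mul hp).1 hd with hd | hd
        · have h5 : p = q := (Nat.prime_dvd_prime_iff_eq hp (hK q hq)).1 hd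
          have h6 : (q : ℝ) ≤ M := by exact_mod_cast hqM q hq
          rw [h5] at hp1
          linarith
        · have h5 : p ∣ j := hp.dvd_of_dvd_pow hd
          rw [Finset.mem_Icc] at hj
          have h6 : p ≤ j := Nat.le_of_dvd (by omega) h5
          have h7 : (p : ℝ) ≤ JJ c q N := by exact_mod_cast h6.trans hj.2
          have h8 := hJ q hq
          rw [div_lt_one hNα] at h2
          linarith
    · rw [Finset.mem_filter]
      exact ⟨hn1, hp3⟩
  have hcount : ∀ q ∈ K, ∀ j ∈ Icc 1 (JJ c q N),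
      ∑ p ∈ (Ioc A B).filter (fun p => p.Prime ∧ p ≠ 2 ∧ ¬ p ∣ q * j ^ 2),
        (#((Ioc N (2 * N)).filter (fun n => p ^ 2 ∣ n ^ 2 + q * j ^ 2)) : ℝ) ≤
      4 * N / (N : ℝ) ^ α + 2 * yR N := by
    intro q hq j hj
    calc ∑ p ∈ (Ioc A B).filter (fun p => p.Prime ∧ p ≠ 2 ∧ ¬ p ∣ q * j ^ 2),
        (#((Ioc N (2 * N)).filter (fun n => p ^ 2 ∣ n ^ 2 + q * j ^ 2)) : ℝ)
        ≤ ∑ p ∈ (Ioc A B).filter (fun p => p.Prime ∧ p ≠ 2 ∧ ¬ p ∣ q * j ^ 2),
          2 * ((N : ℝ) / p ^ 2 + 1) := by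
          apply Finset.sum_le_sum
          intro p hp
          rw [Finset.mem_filter] at hp
          exact card_sq_dvd_le N _ p hp.2.1 hp.2.2.1 hp.2.2.2
      _ ≤ ∑ p ∈ Ioc A B, 2 * ((N : ℝ) / p ^ 2 + 1) := by
          apply Finset.sum_le_sum_of_subset_of_nonneg (Finset.filter_subset _ _)
          intros; positivity
      _ = 2 * N * ∑ p ∈ Ioc A B, (1 : ℝ) / (p : ℝ) ^ 2 + 2 * ((B - A : ℕ) : ℝ) := by
          have e5 : ∀ p ∈ Ioc A B, 2 * ((N : ℝ) / (p : ℝ) ^ 2 + 1) =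
              2 * N * ((1 : ℝ) / (p : ℝ) ^ 2) + 2 := by
            intro p _
            ring
          rw [Finset.sum_congr rfl e5, Finset.sum_add_distrib, Finset.mul_sum]
          simp only [Finset.sum_const, Nat.card_Ioc, nsmul_eq_mul]
          ring
      _ ≤ 2 * N * (1 / A) + 2 * yR N := by
          apply add_le_add
          · exact mul_le_mul_of_nonneg_left (sum_inv_sq_le A B hA1) (by positivity)
          · apply mul_le_mul_of_nonneg_left _ (by norm_num)
            calc ((B - A : ℕ) : ℝ) ≤ B := by exact_mod_cast Nat.sub_le _ _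
              _ ≤ yR N := Nat.floor_le hy0
      _ ≤ 2 * N * (2 / (N : ℝ) ^ α) + 2 * yR N := by
          have hA0 : (0 : ℝ) < A := by exact_mod_cast (by omega : 0 < A)
          have h6 : (1 : ℝ) / A ≤ 2 / (N : ℝ) ^ α := by
            rw [div_le_div_iff₀ hA0 hNα]
            linarith
          have h7 : 2 * (N : ℝ) * (1 / A) ≤ 2 * N * (2 / (N : ℝ) ^ α) :=
            mul_le_mul_of_nonneg_left h6 (by positivity)
          linarith
      _ = _ := by ring
  calc (#((Ioc N (2 * N)).filter (fun n => ∃ q ∈ K, ∃ j ∈ Icc 1 (JJ c q N), ∃ p : ℕ, p.Prime ∧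
      (N : ℝ) ^ α < p ∧ (p : ℝ) ≤ yR N ∧ p ^ 2 ∣ n ^ 2 + q * j ^ 2)) : ℝ)
      ≤ ∑ q ∈ K, ∑ j ∈ Icc 1 (JJ c q N),
          ∑ p ∈ (Ioc A B).filter (fun p => p.Prime ∧ p ≠ 2 ∧ ¬ p ∣ q * j ^ 2),
          (#((Ioc N (2 * N)).filter (fun n => p ^ 2 ∣ n ^ 2 + q * j ^ 2)) : ℝ) := by
        have := (Finset.card_le_card hsub).trans (Finset.card_biUnion_le.trans
          (Finset.sum_le_sum fun q _ => Finset.card_biUnion_le.trans
          (Finset.sum_le_sum fun j _ => Finset.card_biUnion_le)))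
        exact_mod_cast this
    _ ≤ ∑ q ∈ K, ∑ j ∈ Icc 1 (JJ c q N), (4 * N / (N : ℝ) ^ α + 2 * yR N) :=
        Finset.sum_le_sum fun q hq => Finset.sum_le_sum fun j hj => hcount q hq j hj
    _ = ∑ q ∈ K, (JJ c q N : ℝ) * (4 * N / (N : ℝ) ^ α + 2 * yR N) := by
        apply Finset.sum_congr rfl
        intro q _
        rw [Finset.sum_const, Nat.card_Icc, nsmul_eq_mul, Nat.add_sub_cancel]
    _ ≤ ∑ q ∈ K, (√c * Real.log N) * (4 * N / (N : ℝ) ^ α + 2 * yR N) := by
        apply Finset.sum_le_sum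
        intro q hq
        exact mul_le_mul_of_nonneg_right (hJ q hq) (by positivity)
    _ = D * Real.log N * (4 * N / (N : ℝ) ^ α + 2 * yR N) := by
        rw [Finset.sum_const, nsmul_eq_mul, hD]; ring
    _ = ((4 * D) * Real.log N / (N : ℝ) ^ α) * N +
        ((2 * D) * Real.log N / (N : ℝ) ^ ((13 : ℝ) / 21)) * N := by
        have : yR N = N / (N : ℝ) ^ ((13 : ℝ) / 21) := by
          unfold yR
          rw [eq_div_iff (Real.rpow_pos_of_pos hN0 _).ne', ← Real.rpow_add hN0]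
          norm_num
        rw [this]
        ring
    _ ≤ (ε / 2) * N + (ε / 2) * N := by gcongr
    _ = ε * N := by ring

theorem omega_le (c α : ℝ) (hc : 0 < c) (hα : 0 < α) : ∀ᶠ N : ℕ in atTop, ∀ n ∈ Ioc N (2 * N),
    ∀ k : ℕ, (k : ℝ) ≤ c * Real.log N ^ 2 →
    (∀ p : ℕ, p.Prime → p ∣ n ^ 2 + k → (N : ℝ) ^ α < p) →
    (∀ p : ℕ, p.Prime → (N : ℝ) ^ α < p → (p : ℝ) ≤ yR N → ¬ p ^ 2 ∣ n ^ 2 + k) →
    ∑ p ∈ (n ^ 2 + k).primeFactors.filter (fun p : ℕ => (p : ℝ) ≤ yR N),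
      (1 - Real.log p / Real.log (yR N)) < 2.74 →
    ArithmeticFunction.cardFactors (n ^ 2 + k) ≤ 7 := by
  have e1 : ∀ᶠ N : ℕ in atTop, c * Real.log N ^ 2 ≤ N := by
    have h := (Real.isLittleO_pow_log_id_atTop (n := 2)).tendsto_div_nhds_zero
    have h1 := (h.comp tendsto_natCast_atTop_atTop).const_mul c
    rw [mul_zero] at h1
    filter_upwards [h1.eventually (gt_mem_nhds one_pos), eventually_ge_atTop 1] with N h2 hN
    simp only [Function.comp, id] at h2
    have hN0 : (0 : ℝ) < N := by exact_mod_cast (by omega : 0 < N)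
    rw [← mul_div_assoc, div_lt_one hN0] at h2
    exact h2.le
  have e2 : ∀ᶠ N : ℕ in atTop, (525 : ℝ) * Real.log 5 + 1 ≤ Real.log N :=
    (Real.tendsto_log_atTop.comp tendsto_natCast_atTop_atTop).eventually_ge_atTop _
  filter_upwards [e1, e2, eventually_ge_atTop 2] with N h1 h2 hN n hn k hk hsm hsq hsum
  rw [Finset.mem_Ioc] at hn
  set X := n ^ 2 + k with hX
  have hN0 : (0 : ℝ) < N := by exact_mod_cast (by omega : 0 < N)
  have hl5 : 0 < Real.log 5 := Real.log_pos (by norm_num)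
  have hlN : 0 < Real.log N := by linarith
  have hX0 : X ≠ 0 := by
    rw [hX]
    have : 0 < n ^ 2 := pow_pos (by omega) 2
    omega
  have hXr : (0 : ℝ) < X := by exact_mod_cast Nat.pos_of_ne_zero hX0
  have hXle : (X : ℝ) ≤ 5 * (N : ℝ) ^ 2 := by
    have h3 : (n : ℝ) ≤ 2 * N := by exact_mod_cast hn.2
    have h4 : (1 : ℝ) ≤ N := by exact_mod_cast (by omega : 1 ≤ N)
    rw [hX]
    push_cast
    have h5 : (n : ℝ) ^ 2 ≤ (2 * N) ^ 2 := by gcongr
    nlinarith
  have hlogX : Real.log X ≤ Real.log 5 + 2 * Real.log N := by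
    calc Real.log X ≤ Real.log (5 * (N : ℝ) ^ 2) := Real.log_le_log hXr hXle
      _ = _ := by
        rw [Real.log_mul (by norm_num) (by positivity), Real.log_pow]
        push_cast
        ring
  have hly : Real.log (yR N) = 8 / 21 * Real.log N := by
    unfold yR
    rw [Real.log_rpow hN0]
  set ly := Real.log (yR N) with hlydef
  have hly0 : 0 < ly := by rw [hly]; positivity
  -- main inequality
  have key : (ArithmeticFunction.cardFactors X : ℝ) * ly ≤
      ly * (∑ p ∈ X.primeFactors.filter (fun p : ℕ => (p : ℝ) ≤ yR N), (1 - Real.log p / ly)) +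
        Real.log X := by
    rw [ArithmeticFunction.cardFactors_eq_sum_factorization, Real.log_nat_eq_sum_factorization X]
    simp only [Finsupp.sum, Nat.support_factorization]
    push_cast
    rw [Finset.sum_mul, Finset.mul_sum, Finset.sum_filter, ← Finset.sum_add_distrib]
    apply Finset.sum_le_sum
    intro p hp
    have hpp : p.Prime := Nat.prime_of_mem_primeFactors hp
    have hpd : p ∣ X := Nat.dvd_of_mem_primeFactors hp
    have hlp : 0 ≤ Real.log p := Real.log_natCast_nonneg p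
    split_ifs with hpy
    · have hv : X.factorization p = 1 := by
        apply le_antisymm
        · by_contra hcon
          push Not at hcon
          exact hsq p hpp (hsm p hpp hpd) hpy
            ((Nat.Prime.pow_dvd_iff_le_factorization hpp hX0).2 hcon)
        · exact (hpp.dvd_iff_one_le_factorization hX0).1 hpd
      rw [hv]
      have : ly * (1 - Real.log p / ly) = ly - Real.log p := by field_simp
      rw [this]
      simp
    · push Not at hpy
      rw [zero_add]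
      apply mul_le_mul_of_nonneg_left _ (by positivity)
      have hy0 : 0 < yR N := by unfold yR; positivity
      exact Real.log_le_log hy0 hpy.le
  have h3 : (ArithmeticFunction.cardFactors X : ℝ) * ly < 8 * ly := by
    have h4 : ly * (∑ p ∈ X.primeFactors.filter (fun p : ℕ => (p : ℝ) ≤ yR N),
        (1 - Real.log p / ly)) < ly * 2.74 := mul_lt_mul_of_pos_left hsum hly0
    have h5 : Real.log X ≤ 5.26 * ly := by
      rw [hly]
      nlinarith
    nlinarith
  have h4 : (ArithmeticFunction.cardFactors X : ℝ) < 8 := lt_of_mul_lt_mul_right h3 hly0.le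
  have h5 : ArithmeticFunction.cardFactors X < 8 := by exact_mod_cast h4
  omega

end Pool.Agent.Work.MP_73869e_nt.AP
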