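import Mathlib
import Pool.Agent.Work.MP_73869e_nt.AP.MomA
import Pool.Agent.Work.MP_73869e_nt.AP.MomB
import Pool.Agent.Work.MP_73869e_nt.AP.Sums
import Pool.Agent.Work.MP_73869e_nt.AP.MomAsy
import Pool.Agent.Work.MP_73869e_nt.AP.Loc
import Pool.Agent.Work.MP_73869e_nt.AP.SqOm

set_option autoImplicit false

namespace Pool.Agent.Work.MP_73869e_nt.AP

open Finset Filter Pool.Agent.Work.MP_2dba45_nt.Sel

/-- facts on the primes of `PP q N`, for large N -/
theorem ev_PP (q : ℕ) (hq : q.Prime) (hq4 : q % 4 = 3) (w : ℕ) (c : ℝ) (hc : 0 < c) :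
    ∀ᶠ N : ℕ in atTop, ∀ j ∈ Icc 1 (JJ c q N),
    q * j ^ 2 < zN N ∧ ∀ p ∈ PP q N, p.Prime ∧ zN N < p ∧ w < p ∧ nu {q * j ^ 2} p = 2 := by
  filter_upwards [ev_shift_lt c hc q hq.pos, ev_zN_ge (w + 2)] with N hN hz
  intro j hj
  obtain ⟨h1, h2, h3⟩ := hN j hj
  refine ⟨h1, fun p hp => ?_⟩
  unfold PP at hp
  rw [Finset.mem_filter, Finset.mem_Ioc] at hp
  obtain ⟨⟨hpz, -⟩, hpp, hjac⟩ := hp
  have hzw : w + 2 ≤ zN N := by exact_mod_cast hz
  have hj1 : 1 ≤ j := (Finset.mem_Icc.1 hj).1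
  have hndvd : ¬ p ∣ q * j := by
    intro h
    rcases (Nat.Prime.dvd_mul hpp).1 h with h | h
    · have := Nat.le_of_dvd hq.pos h; omega
    · have := Nat.le_of_dvd (by omega) h; omega
  have hnu := nu_single q j p hq hq4 hpp (by omega) hndvd
  rw [hjac] at hnu
  exact ⟨hpp, hpz, by omega, by exact_mod_cast hnu⟩

theorem ev_expC (q : ℕ) (hq : q.Prime) (hq2 : q ≠ 2) : ∃ K : ℝ, 0 < K ∧ ∀ᶠ N : ℕ in atTop,
    Real.exp (7 * ∑ p ∈ PP q N, g p) ≤ K * Real.log N ^ 7 := by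
  obtain ⟨C, hC0, hC⟩ := sum_g_le q hq hq2
  refine ⟨Real.exp (7 * C), Real.exp_pos _, ?_⟩
  filter_upwards [hC, ev_log_ge 1] with N hN hL
  have hL0 : 0 < Real.log N := by linarith
  calc Real.exp (7 * ∑ p ∈ PP q N, g p) ≤ Real.exp (7 * C + 7 * Real.log (Real.log N)) := by
        apply Real.exp_le_exp.2; linarith
    _ = Real.exp (7 * C) * Real.log N ^ 7 := by
        rw [Real.exp_add, show (7 : ℝ) * Real.log (Real.log N) = Real.log (Real.log N ^ 7) by
          rw [Real.log_pow]; norm_num, Real.exp_log (by positivity)]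

theorem gg_nonneg (T : Finset ℕ) : 0 ≤ gg g T := Finset.prod_nonneg fun p _ => g_nonneg p

theorem A1_nonneg (D E : Finset (Finset ℕ)) : 0 ≤ A1 D E :=
  Finset.sum_nonneg fun _ _ => Finset.sum_nonneg fun _ _ => Finset.sum_nonneg fun _ _ => gg_nonneg _

theorem A1p_nonneg (D E : Finset (Finset ℕ)) (p : ℕ) : 0 ≤ A1p D E p := by
  refine Finset.sum_nonneg fun _ _ => Finset.sum_nonneg fun _ _ => Finset.sum_nonneg fun _ _ => ?_
  split_ifs
  · exact gg_nonneg _
  · exact le_rfl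

theorem A2_nonneg (D E : Finset (Finset ℕ)) : 0 ≤ A2 D E :=
  Finset.sum_nonneg fun _ _ => Finset.sum_nonneg fun _ _ => Finset.sum_nonneg fun _ _ => by positivity

theorem moment_single (q : ℕ) (hq : q.Prime) (hq4 : q % 4 = 3) (w : ℕ) (hw : 6 ≤ w) (hwq : w < q)
    (c : ℝ) (hc : 0 < c) : ∀ᶠ N : ℕ in atTop, ∀ a < primorial w, ∀ j ∈ Icc 1 (JJ c q N),
    ∀ (lam om : Finset ℕ → ℝ) (E : Finset (Finset ℕ)), (∀ T, |lam T| ≤ 1) → (∀ T, |om T| ≤ 1) →
    E ⊆ (PP q N).powerset → (∀ T ∈ E, #T ≤ 1) →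
    |∑ n ∈ AA {q * j ^ 2} w N a, FF (DD q N (RR N)) lam E om (q * j ^ 2) n -
      (N : ℝ) / primorial w * VV {q * j ^ 2} w N * MM (DD q N (RR N)) lam E om| ≤
      N / Real.log N ^ 5 := by
  have hq2 : q ≠ 2 := by rintro rfl; norm_num at hq4
  obtain ⟨K, hK0, hK⟩ := ev_expC q hq hq2
  filter_upwards [ev_PP q hq hq4 w c hc, hK, A2_le q, ev_exp, ev_pow, ev_log_ge (4 * K + 2),
    ev_rpow_small ((10 : ℝ) / 21 + 1 / 200 + 1 / 100) (by norm_num) 8 5, ev_zN_ge 1,
    eventually_ge_atTop 8] with N hPP hKN hA2 hexp hpow hL hsmall hz1 h8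
  intro a ha j hj lam om E hlam hom hE hE1
  obtain ⟨-, hP⟩ := hPP j hj
  have hz1' : 1 ≤ zN N := by exact_mod_cast hz1
  have hmain := momA_single N w a (q * j ^ 2) (bN N) (zN N) ha rfl hz1' (PP q N) hP
    (DD q N (RR N)) E (Finset.filter_subset _ _) hE lam om hlam hom (by omega)
  refine hmain.trans ?_
  have hN0 : (0 : ℝ) < N := by exact_mod_cast (by omega : 0 < N)
  have hL0 : 0 < Real.log N := by linarith
  have hQ : (1 : ℝ) ≤ primorial w := by exact_mod_cast primorial_pos w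
  have h1 := A1_le q N E hE (RR N) (fun p _ => g_nonneg p)
  have h2 := hA2 E hE hE1
  have hNQ : (N : ℝ) / primorial w ≤ N := div_le_self hN0.le hQ
  have hNQ0 : 0 ≤ (N : ℝ) / primorial w := by positivity
  have t1 : 2 * ((N : ℝ) / primorial w) *
      Real.exp (11 * (1 + Real.log (zN N)) - (2 * (bN N : ℝ) + 1)) * A1 (DD q N (RR N)) E ≤
      (N / Real.log N ^ 5) / 2 := by
    calc _ ≤ 2 * (N : ℝ) * (1 / Real.log N ^ 30) * (K * Real.log N ^ 7) := by
          have := A1_nonneg (DD q N (RR N)) E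
          gcongr
          exact h1.trans hKN
      _ = (N / Real.log N ^ 5) / 2 * (4 * K / Real.log N ^ 18) := by
          field_simp
          norm_num
      _ ≤ (N / Real.log N ^ 5) / 2 * 1 := by
          gcongr
          rw [div_le_one (by positivity)]
          calc 4 * K ≤ Real.log N := by linarith
            _ ≤ Real.log N ^ 18 := le_self_pow₀ (by linarith) (by norm_num)
      _ = _ := by ring
  have t2 : 4 * (1 + 4 * ((zN N : ℕ) : ℝ)) ^ (2 * bN N + 1) * A2 (DD q N (RR N)) E ≤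
      (N / Real.log N ^ 5) / 2 := by
    calc _ ≤ 4 * (N : ℝ) ^ ((1 : ℝ) / 100) * (N : ℝ) ^ ((10 : ℝ) / 21 + 1 / 200) := by
          have := A2_nonneg (DD q N (RR N)) E
          gcongr
      _ = (8 * (N : ℝ) ^ ((10 : ℝ) / 21 + 1 / 200 + 1 / 100)) / 2 := by
          rw [Real.rpow_add hN0 ((10 : ℝ) / 21 + 1 / 200)]
          ring
      _ ≤ _ := by gcongr
  linarith

theorem moment_pair (q q' : ℕ) (hq : q.Prime) (hq4 : q % 4 = 3) (hq' : q'.Prime) (hq4' : q' % 4 = 3)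
    (w : ℕ) (hw : 6 ≤ w) (hwq : w < q) (hwq' : w < q')
    (c : ℝ) (hc : 0 < c) : ∀ᶠ N : ℕ in atTop, ∀ a < primorial w, ∀ j ∈ Icc 1 (JJ c q N),
    ∀ j' ∈ Icc 1 (JJ c q' N), q * j ^ 2 ≠ q' * j' ^ 2 →
    ∀ (lam om lam' om' : Finset ℕ → ℝ) (E E' : Finset (Finset ℕ)), (∀ T, |lam T| ≤ 1) →
    (∀ T, |om T| ≤ 1) → (∀ T, |lam' T| ≤ 1) → (∀ T, |om' T| ≤ 1) →
    E ⊆ (PP q N).powerset → (∀ T ∈ E, #T ≤ 1) → E' ⊆ (PP q' N).powerset → (∀ T ∈ E', #T ≤ 1) →
    |∑ n ∈ AA {q * j ^ 2, q' * j' ^ 2} w N a, FF (DD q N (RR N)) lam E om (q * j ^ 2) n *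
        FF (DD q' N (RR N)) lam' E' om' (q' * j' ^ 2) n -
      (N : ℝ) / primorial w * VV {q * j ^ 2, q' * j' ^ 2} w N *
        (MM (DD q N (RR N)) lam E om * MM (DD q' N (RR N)) lam' E' om')| ≤
      N / Real.log N ^ 5 := by
  have hq2 : q ≠ 2 := by rintro rfl; norm_num at hq4
  have hq2' : q' ≠ 2 := by rintro rfl; norm_num at hq4'
  obtain ⟨K, hK0, hK⟩ := ev_expC q hq hq2
  obtain ⟨K', hK0', hK'⟩ := ev_expC q' hq' hq2'
  filter_upwards [ev_PP q hq hq4 w c hc, ev_PP q' hq' hq4' w c hc, hK, hK', A2_le q, A2_le q',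
    ev_exp, ev_pow, ev_log_ge (max (600 * (K * K')) 2),
    ev_rpow_small ((10 : ℝ) / 21 + 1 / 200 + ((10 : ℝ) / 21 + 1 / 200) + 1 / 100) (by norm_num) 12 5,
    ev_zN_ge 1, eventually_ge_atTop 8]
    with N hPP hPP' hKN hKN' hA2 hA2' hexp hpow hLm hsmall hz1 h8
  intro a ha j hj j' hj' hne lam om lam' om' E E' hlam hom hlam' hom' hE hE1 hE' hE1'
  obtain ⟨hk, hP⟩ := hPP j hj
  obtain ⟨hk', hP'⟩ := hPP' j' hj'
  have hL : 600 * (K * K') ≤ Real.log N := (le_max_left _ _).trans hLm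
  have hL2 : 2 ≤ Real.log N := (le_max_right _ _).trans hLm
  have hz1' : 1 ≤ zN N := by exact_mod_cast hz1
  have hkk : ∀ p ∈ PP q N ∩ PP q' N, ¬ q * j ^ 2 ≡ q' * j' ^ 2 [MOD p] := by
    intro p hp h
    have hpz := (hP p (Finset.mem_inter.1 hp).1).2.1
    exact hne (Nat.ModEq.eq_of_lt_of_lt h (by omega) (by omega))
  have hmain := momA_pair N w a (q * j ^ 2) (q' * j' ^ 2) (bN N) (zN N) ha rfl hz1' (PP q N)
    (PP q' N) hP hP' hkk (DD q N (RR N)) E (DD q' N (RR N)) E' (Finset.filter_subset _ _) hE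
    (Finset.filter_subset _ _) hE' lam om lam' om' hlam hom hlam' hom' (by omega)
  refine hmain.trans ?_
  have hN0 : (0 : ℝ) < N := by exact_mod_cast (by omega : 0 < N)
  have hL0 : 0 < Real.log N := by linarith
  have hQ : (1 : ℝ) ≤ primorial w := by exact_mod_cast primorial_pos w
  have h1 := (A1_le q N E hE (RR N) (fun p _ => g_nonneg p)).trans hKN
  have h1' := (A1_le q' N E' hE' (RR N) (fun p _ => g_nonneg p)).trans hKN'
  have h2 := hA2 E hE hE1
  have h2' := hA2' E' hE' hE1'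
  have hNQ : (N : ℝ) / primorial w ≤ N := div_le_self hN0.le hQ
  have hNQ0 : 0 ≤ (N : ℝ) / primorial w := by positivity
  have n1 := A1_nonneg (DD q N (RR N)) E
  have n1' := A1_nonneg (DD q' N (RR N)) E'
  have n2 := A2_nonneg (DD q N (RR N)) E
  have n2' := A2_nonneg (DD q' N (RR N)) E'
  have t0 : (N : ℝ) / primorial w * ∑ p ∈ PP q N ∩ PP q' N, A1p (DD q N (RR N)) E p *
      A1p (DD q' N (RR N)) E' p ≤ (N / Real.log N ^ 5) / 3 := by
    have hb : ∀ p ∈ PP q N ∩ PP q' N, A1p (DD q N (RR N)) E p * A1p (DD q' N (RR N)) E' p ≤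
        196 * (K * K') * Real.log N ^ 14 * (1 / (p : ℝ) ^ 2) := by
      intro p hp
      rw [Finset.mem_inter] at hp
      have b1 := A1p_le q N E hE (RR N) p hp.1
      have b2 := A1p_le q' N E' hE' (RR N) p hp.2
      have c1 : A1p (DD q N (RR N)) E p ≤ 7 * g p * (K * Real.log N ^ 7) := by
        refine b1.trans ?_
        have := g_nonneg p
        gcongr
      have c2 : A1p (DD q' N (RR N)) E' p ≤ 7 * g p * (K' * Real.log N ^ 7) := by
        refine b2.trans ?_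
        have := g_nonneg p
        gcongr
      have hg0 := g_nonneg p
      calc A1p (DD q N (RR N)) E p * A1p (DD q' N (RR N)) E' p
          ≤ (7 * g p * (K * Real.log N ^ 7)) * (7 * g p * (K' * Real.log N ^ 7)) :=
            mul_le_mul c1 c2 (A1p_nonneg _ _ _) (by positivity)
        _ = 196 * (K * K') * Real.log N ^ 14 * (1 / (p : ℝ) ^ 2) := by
            unfold g
            ring
    have hs : ∑ p ∈ PP q N ∩ PP q' N, 1 / (p : ℝ) ^ 2 ≤ 1 / (zN N : ℝ) := by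
      refine le_trans ?_ (sum_inv_sq_le (zN N) ⌊yR N⌋₊ hz1')
      apply Finset.sum_le_sum_of_subset_of_nonneg
      · intro p hp
        rw [Finset.mem_inter] at hp
        exact (Finset.mem_filter.1 hp.1).1
      · intros; positivity
    have hz20 := zN_ge N h8
    calc (N : ℝ) / primorial w * ∑ p ∈ PP q N ∩ PP q' N, A1p (DD q N (RR N)) E p *
          A1p (DD q' N (RR N)) E' p
        ≤ N * (196 * (K * K') * Real.log N ^ 14 * (1 / Real.log N ^ 20)) := by
          apply mul_le_mul hNQ _ _ hN0.le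
          · calc _ ≤ ∑ p ∈ PP q N ∩ PP q' N, 196 * (K * K') * Real.log N ^ 14 * (1 / (p : ℝ) ^ 2) :=
                  Finset.sum_le_sum hb
              _ = 196 * (K * K') * Real.log N ^ 14 * ∑ p ∈ PP q N ∩ PP q' N, (1 / (p : ℝ) ^ 2) := by
                  rw [Finset.mul_sum]
              _ ≤ 196 * (K * K') * Real.log N ^ 14 * (1 / Real.log N ^ 20) := by
                  gcongr
                  refine hs.trans ?_
                  apply one_div_le_one_div_of_le (by positivity) hz20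
          · exact Finset.sum_nonneg fun p _ => mul_nonneg (A1p_nonneg _ _ _) (A1p_nonneg _ _ _)
      _ = (N / Real.log N ^ 5) / 3 * (588 * (K * K') / Real.log N) := by
          field_simp
          norm_num
      _ ≤ (N / Real.log N ^ 5) / 3 * 1 := by
          gcongr
          rw [div_le_one hL0]
          have : 0 < K * K' := by positivity
          linarith
      _ = _ := by ring
  have t1 : 2 * ((N : ℝ) / primorial w) *
      Real.exp (11 * (1 + Real.log (zN N)) - (2 * (bN N : ℝ) + 1)) *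
      (A1 (DD q N (RR N)) E * A1 (DD q' N (RR N)) E') ≤ (N / Real.log N ^ 5) / 3 := by
    calc _ ≤ 2 * (N : ℝ) * (1 / Real.log N ^ 30) * ((K * Real.log N ^ 7) * (K' * Real.log N ^ 7)) := by
          gcongr
      _ = (N / Real.log N ^ 5) / 3 * (6 * (K * K') / Real.log N ^ 11) := by
          field_simp
          norm_num
      _ ≤ (N / Real.log N ^ 5) / 3 * 1 := by
          gcongr
          rw [div_le_one (by positivity)]
          have : 0 < K * K' := by positivity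
          calc 6 * (K * K') ≤ Real.log N := by linarith
            _ ≤ Real.log N ^ 11 := le_self_pow₀ (by linarith) (by norm_num)
      _ = _ := by ring
  have t2 : 4 * (1 + 4 * ((zN N : ℕ) : ℝ)) ^ (2 * bN N + 1) *
      (A2 (DD q N (RR N)) E * A2 (DD q' N (RR N)) E') ≤ (N / Real.log N ^ 5) / 3 := by
    calc _ ≤ 4 * (N : ℝ) ^ ((1 : ℝ) / 100) *
          ((N : ℝ) ^ ((10 : ℝ) / 21 + 1 / 200) * (N : ℝ) ^ ((10 : ℝ) / 21 + 1 / 200)) := by
          gcongr
      _ = (12 * (N : ℝ) ^ ((10 : ℝ) / 21 + 1 / 200 + ((10 : ℝ) / 21 + 1 / 200) + 1 / 100)) / 3 := by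
          rw [Real.rpow_add hN0 ((10 : ℝ) / 21 + 1 / 200 + ((10 : ℝ) / 21 + 1 / 200)),
            Real.rpow_add hN0 ((10 : ℝ) / 21 + 1 / 200) ((10 : ℝ) / 21 + 1 / 200)]
          ring
      _ ≤ _ := by gcongr
  linarith

end Pool.Agent.Work.MP_73869e_nt.AP
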