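import Mathlib
import Pool.Agent.Work.MP_2dba45_nt.Sel

set_option autoImplicit false

namespace Pool.Agent.Work.MP_73869e_nt.AP

open Finset Pool.Agent.Work.MP_2dba45_nt.Sel

section
variable {ι : Type*} [DecidableEq ι] {g : ι → ℝ} {P : Finset ι} {D : Finset (Finset ι)}

theorem diag_eq (hg0 : ∀ p ∈ P, 0 < g p) (hg1 : ∀ p ∈ P, g p < 1) (hD : D ⊆ P.powerset)
    (hDc : ∀ T ∈ D, ∀ S ⊆ T, S ∈ D) (m : Finset ι → ℝ) :
    ∑ T₁ ∈ D, ∑ T₂ ∈ D, m T₁ * m T₂ * gg g (T₁ ∪ T₂) =
      ∑ S ∈ D, (hh g S)⁻¹ * (∑ T ∈ D with S ⊆ T, m T * gg g T) ^ 2 := by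
  have h1 : ∀ T₁ ∈ D, ∀ T₂ ∈ D, m T₁ * m T₂ * gg g (T₁ ∪ T₂) =
      ∑ S ∈ D, (hh g S)⁻¹ * ((if S ⊆ T₁ then m T₁ * gg g T₁ else 0) *
        (if S ⊆ T₂ then m T₂ * gg g T₂ else 0)) := by
    intro T₁ h₁ T₂ h₂
    have hP1 := Finset.mem_powerset.1 (hD h₁)
    have hui : gg g (T₁ ∪ T₂) * gg g (T₁ ∩ T₂) = gg g T₁ * gg g T₂ :=
      Finset.prod_union_inter
    have hi := gg_pos hg0 (Finset.inter_subset_left.trans hP1 : T₁ ∩ T₂ ⊆ P)
    have hu : gg g (T₁ ∪ T₂) = gg g T₁ * gg g T₂ * (gg g (T₁ ∩ T₂))⁻¹ := by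
      rw [← hui]; field_simp
    rw [hu, inv_gg hg0 hg1 (Finset.inter_subset_left.trans hP1 : T₁ ∩ T₂ ⊆ P)]
    have hps : (T₁ ∩ T₂).powerset = D.filter (fun S => S ⊆ T₁ ∧ S ⊆ T₂) := by
      ext S
      simp only [Finset.mem_powerset, Finset.subset_inter_iff, Finset.mem_filter]
      exact ⟨fun h => ⟨hDc T₁ h₁ S h.1, h⟩, fun h => h.2⟩
    rw [hps, Finset.sum_filter, Finset.mul_sum, Finset.mul_sum]
    refine Finset.sum_congr rfl fun S _ => ?_
    by_cases ha : S ⊆ T₁ <;> by_cases hb : S ⊆ T₂ <;> simp [ha, hb] <;> ring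
  calc ∑ T₁ ∈ D, ∑ T₂ ∈ D, m T₁ * m T₂ * gg g (T₁ ∪ T₂)
      = ∑ T₁ ∈ D, ∑ T₂ ∈ D, ∑ S ∈ D, (hh g S)⁻¹ *
        ((if S ⊆ T₁ then m T₁ * gg g T₁ else 0) *
        (if S ⊆ T₂ then m T₂ * gg g T₂ else 0)) :=
        Finset.sum_congr rfl fun T₁ h₁ => Finset.sum_congr rfl fun T₂ h₂ => h1 T₁ h₁ T₂ h₂
    _ = ∑ S ∈ D, (hh g S)⁻¹ * (∑ T ∈ D with S ⊆ T, m T * gg g T) ^ 2 := by
        rw [Finset.sum_congr rfl fun T₁ _ => Finset.sum_comm]
        rw [Finset.sum_comm]
        refine Finset.sum_congr rfl fun S _ => ?_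
        rw [Finset.sum_filter, sq, Finset.sum_mul_sum, Finset.mul_sum]
        refine Finset.sum_congr rfl fun T₁ _ => ?_
        rw [Finset.mul_sum]

theorem split_sum (hDc : ∀ T ∈ D, ∀ S ⊆ T, S ∈ D) (p : ι) (F : Finset ι → ℝ) :
    ∑ T ∈ D, F T = ∑ T ∈ D with p ∉ T, (F T + if insert p T ∈ D then F (insert p T) else 0) := by
  rw [← Finset.sum_filter_add_sum_filter_not D (fun T => p ∉ T), Finset.sum_add_distrib]
  congr 1
  rw [← Finset.sum_filter, Finset.filter_filter]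
  refine Finset.sum_nbij' (fun T => T.erase p) (fun T => insert p T) ?_ ?_ ?_ ?_ ?_
  · intro T hT
    simp only [Finset.mem_filter, not_not] at hT ⊢
    refine ⟨hDc T hT.1 _ (Finset.erase_subset _ _), Finset.notMem_erase _ _, ?_⟩
    rw [Finset.insert_erase hT.2]
    exact hT.1
  · intro T hT
    simp only [Finset.mem_filter, not_not] at hT ⊢
    exact ⟨hT.2.2, Finset.mem_insert_self _ _⟩
  · intro T hT
    simp only [Finset.mem_filter, not_not] at hT
    exact Finset.insert_erase hT.2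
  · intro T hT
    simp only [Finset.mem_filter] at hT
    exact Finset.erase_insert hT.2.1
  · intro T hT
    simp only [Finset.mem_filter, not_not] at hT
    simp only [Finset.insert_erase hT.2]

theorem gg_insert (T : Finset ι) (p : ι) (hp : p ∉ T) : gg g (insert p T) = g p * gg g T :=
  Finset.prod_insert hp

theorem hh_insert (T : Finset ι) (p : ι) (hp : p ∉ T) :
    hh g (insert p T) = g p / (1 - g p) * hh g T :=
  Finset.prod_insert hp

theorem one_prime
    (hg0 : ∀ p ∈ P, 0 < g p) (hg1 : ∀ p ∈ P, g p < 1) (hD : D ⊆ P.powerset)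
    (hD0 : ∅ ∈ D) (hDc : ∀ T ∈ D, ∀ S ⊆ T, S ∈ D) {p : ι} (hp : p ∈ P) :
    ∑ T₁ ∈ D, ∑ T₂ ∈ D, lam g D T₁ * lam g D T₂ * gg g (T₁ ∪ T₂ ∪ {p}) =
      g p * (GG g D)⁻¹ ^ 2 * ∑ T ∈ D with p ∉ T ∧ insert p T ∉ D, hh g T := by
  have hgp0 := hg0 p hp
  have hgp1 := hg1 p hp
  set D0 := D.filter (fun T => p ∉ T) with hD0def
  set m : Finset ι → ℝ := fun T => lam g D T + if insert p T ∈ D then lam g D (insert p T) else 0
    with hm
  have hD0P : D0 ⊆ P.powerset := (Finset.filter_subset _ _).trans hD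
  have hD0c : ∀ T ∈ D0, ∀ S ⊆ T, S ∈ D0 := by
    intro T hT S hST
    rw [hD0def, Finset.mem_filter] at hT ⊢
    exact ⟨hDc T hT.1 S hST, fun h => hT.2 (hST h)⟩
  -- step 1
  have e1 : ∑ T₁ ∈ D, ∑ T₂ ∈ D, lam g D T₁ * lam g D T₂ * gg g (T₁ ∪ T₂ ∪ {p}) =
      g p * ∑ T₁ ∈ D0, ∑ T₂ ∈ D0, m T₁ * m T₂ * gg g (T₁ ∪ T₂) := by
    rw [Finset.sum_congr rfl fun T₁ _ => split_sum hDc p _, split_sum hDc p, Finset.mul_sum]
    refine Finset.sum_congr rfl fun T₁ hT₁ => ?_
    rw [Finset.mem_filter] at hT₁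
    rw [Finset.mul_sum]
    have hc : ∀ T₂ ∈ D0, g p * (m T₁ * m T₂ * gg g (T₁ ∪ T₂)) =
        m T₁ * m T₂ * (g p * gg g (T₁ ∪ T₂)) := fun T₂ _ => by ring
    rw [Finset.sum_congr rfl hc]
    by_cases h1 : insert p T₁ ∈ D
    · rw [if_pos h1, ← Finset.sum_add_distrib]
      refine Finset.sum_congr rfl fun T₂ hT₂ => ?_
      rw [Finset.mem_filter] at hT₂
      have hpu : p ∉ T₁ ∪ T₂ := by
        rw [Finset.mem_union]; tauto
      have u1 : T₁ ∪ T₂ ∪ {p} = insert p (T₁ ∪ T₂) := by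
        ext; simp
      have u2 : T₁ ∪ insert p T₂ ∪ {p} = insert p (T₁ ∪ T₂) := by
        ext; simp
      have u3 : insert p T₁ ∪ T₂ ∪ {p} = insert p (T₁ ∪ T₂) := by
        ext; simp
      have u4 : insert p T₁ ∪ insert p T₂ ∪ {p} = insert p (T₁ ∪ T₂) := by
        ext; simp
      rw [u1, u2, u3, u4, gg_insert _ _ hpu]
      simp only [hm, if_pos h1]
      split_ifs <;> ring
    · rw [if_neg h1, add_zero]
      refine Finset.sum_congr rfl fun T₂ hT₂ => ?_
      rw [Finset.mem_filter] at hT₂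
      have hpu : p ∉ T₁ ∪ T₂ := by
        rw [Finset.mem_union]; tauto
      have u1 : T₁ ∪ T₂ ∪ {p} = insert p (T₁ ∪ T₂) := by
        ext; simp
      have u2 : T₁ ∪ insert p T₂ ∪ {p} = insert p (T₁ ∪ T₂) := by
        ext; simp
      rw [u1, u2, gg_insert _ _ hpu]
      simp only [hm, if_neg h1]
      split_ifs <;> ring
  -- step 2
  have hS : ∀ S ∈ D0, ∑ T ∈ D0 with S ⊆ T, m T * gg g T =
      (-1) ^ #S * hh g S * (GG g D)⁻¹ * (if insert p S ∈ D then 0 else 1) := by
    intro S hS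
    rw [hD0def, Finset.mem_filter] at hS
    have t1 := sum_lam_gg hg0 hg1 hD hD0 hDc hS.1
    have t1' : ∑ T ∈ D with S ⊆ T, lam g D T * gg g T =
        ∑ T ∈ D0 with S ⊆ T, lam g D T * gg g T +
        g p * ∑ T ∈ D0 with S ⊆ T, (if insert p T ∈ D then lam g D (insert p T) * gg g T else 0) := by
      rw [Finset.sum_filter, split_sum hDc p, Finset.sum_filter (s := D0), Finset.sum_filter (s := D0),
        Finset.mul_sum, ← Finset.sum_add_distrib]
      refine Finset.sum_congr rfl fun T hT => ?_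
      rw [Finset.mem_filter] at hT
      have hsub : S ⊆ insert p T ↔ S ⊆ T := by
        constructor
        · intro h a ha
          rcases Finset.mem_insert.1 (h ha) with h' | h'
          · exact absurd (h' ▸ ha) hS.2
          · exact h'
        · intro h; exact h.trans (Finset.subset_insert _ _)
      rw [gg_insert _ _ hT.2]
      by_cases ha : S ⊆ T
      · simp only [ha, hsub, if_true]
        split_ifs <;> ring
      · simp only [ha, hsub, if_false]
        split_ifs <;> simp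
    have t2 : g p * ∑ T ∈ D0 with S ⊆ T, (if insert p T ∈ D then lam g D (insert p T) * gg g T else 0) =
        if insert p S ∈ D then (-1) ^ (#S + 1) * (g p / (1 - g p) * hh g S) * (GG g D)⁻¹ else 0 := by
      have e : g p * ∑ T ∈ D0 with S ⊆ T, (if insert p T ∈ D then lam g D (insert p T) * gg g T else 0) =
          ∑ T ∈ D with insert p S ⊆ T, lam g D T * gg g T := by
        rw [Finset.sum_filter (s := D), split_sum hDc p, Finset.sum_filter (s := D0),
          Finset.mul_sum]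
        refine Finset.sum_congr rfl fun T hT => ?_
        rw [Finset.mem_filter] at hT
        have hn : ¬ insert p S ⊆ T := fun h => hT.2 (h (Finset.mem_insert_self _ _))
        have hsub : insert p S ⊆ insert p T ↔ S ⊆ T := by
          constructor
          · intro h a ha
            rcases Finset.mem_insert.1 (h (Finset.mem_insert_of_mem ha)) with h' | h'
            · exact absurd (h' ▸ ha) hS.2
            · exact h'
          · intro h; exact Finset.insert_subset_insert _ h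
        rw [gg_insert _ _ hT.2]
        simp only [hn, if_false, hsub]
        by_cases ha : S ⊆ T
        · simp only [ha, if_true]
          split_ifs <;> ring
        · simp [ha]
      rw [e]
      by_cases hc : insert p S ∈ D
      · rw [if_pos hc, sum_lam_gg hg0 hg1 hD hD0 hDc hc, Finset.card_insert_of_notMem hS.2,
          hh_insert _ _ hS.2]
      · rw [if_neg hc]
        apply Finset.sum_eq_zero
        intro T hT
        rw [Finset.mem_filter] at hT
        exact absurd (hDc T hT.1 _ hT.2) hc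
    have t3 : ∑ T ∈ D0 with S ⊆ T, m T * gg g T =
        ∑ T ∈ D0 with S ⊆ T, lam g D T * gg g T +
        ∑ T ∈ D0 with S ⊆ T, (if insert p T ∈ D then lam g D (insert p T) * gg g T else 0) := by
      rw [← Finset.sum_add_distrib]
      refine Finset.sum_congr rfl fun T _ => ?_
      simp only [hm]
      split_ifs <;> ring
    rw [t1'] at t1
    rw [t3]
    set a := ∑ T ∈ D0 with S ⊆ T, lam g D T * gg g T
    set b := ∑ T ∈ D0 with S ⊆ T, (if insert p T ∈ D then lam g D (insert p T) * gg g T else 0)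
    have h1g : 1 - g p ≠ 0 := by linarith
    by_cases hc : insert p S ∈ D
    · rw [if_pos hc] at t2 ⊢
      have hb : b = - ((-1) ^ #S * hh g S * (GG g D)⁻¹) / (1 - g p) := by
        have : b = (g p)⁻¹ * ((-1) ^ (#S + 1) * (g p / (1 - g p) * hh g S) * (GG g D)⁻¹) := by
          rw [← t2]; field_simp
        rw [this, pow_succ]
        field_simp
      have ha : a = (-1) ^ #S * hh g S * (GG g D)⁻¹ - g p * b := by linarith
      rw [ha, hb]
      field_simp
      ring
    · rw [if_neg hc] at t2 ⊢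
      have hb : b = 0 := by
        rcases mul_eq_zero.1 t2 with h | h
        · exact absurd h hgp0.ne'
        · exact h
      rw [hb] at t1 ⊢
      linarith
  rw [e1, diag_eq hg0 hg1 hD0P hD0c]
  have e3 : ∀ S ∈ D0, (hh g S)⁻¹ * (∑ T ∈ D0 with S ⊆ T, m T * gg g T) ^ 2 =
      (GG g D)⁻¹ ^ 2 * (if insert p S ∉ D then hh g S else 0) := by
    intro S hSD
    rw [hS S hSD]
    have hS' := hh_pos hg0 hg1 (Finset.mem_powerset.1 (hD0P hSD))
    have h1 : ((-1 : ℝ) ^ #S) ^ 2 = 1 := by rw [← pow_mul, mul_comm, pow_mul]; norm_num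
    by_cases hc : insert p S ∈ D
    · simp [hc]
    · simp only [hc, if_false, not_false_eq_true, if_true, mul_one]
      calc (hh g S)⁻¹ * ((-1) ^ #S * hh g S * (GG g D)⁻¹) ^ 2
          = ((hh g S)⁻¹ * hh g S) * (((-1) ^ #S) ^ 2) * hh g S * (GG g D)⁻¹ ^ 2 := by ring
        _ = _ := by rw [h1, inv_mul_cancel₀ hS'.ne']; ring
  rw [Finset.sum_congr rfl e3, ← Finset.mul_sum, ← Finset.sum_filter, hD0def, Finset.filter_filter]
  ring

end

end Pool.Agent.Work.MP_73869e_nt.AP
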