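import Mathlib
import Pool.Agent.Work.MP_73869e_nt.AP.Defs
import Pool.Agent.Work.MP_73869e_nt.AP.SelOne
import Pool.Agent.Work.MP_73869e_nt.AP.MomB
import Pool.Agent.Work.MP_73869e_nt.AP.MomAsy

set_option autoImplicit false

namespace Pool.Agent.Work.MP_73869e_nt.AP

open Finset Filter Pool.Agent.Work.MP_2dba45_nt.Sel

/-- basic conditions on `N` -/
structure Ok (N : ℕ) : Prop where
  hN : 8 ≤ N
  hz : 4 ≤ zN N
  hL : 1 ≤ Real.log N

theorem ev_ok : ∀ᶠ N : ℕ in atTop, Ok N := by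
  filter_upwards [eventually_ge_atTop 8, ev_zN_ge 4, ev_log_ge 1] with N h1 h2 h3
  exact ⟨h1, by exact_mod_cast h2, h3⟩

theorem RR_ge_one {N : ℕ} (h : Ok N) : 1 ≤ RR N := by
  unfold RR
  apply Real.one_le_rpow _ (by norm_num)
  exact_mod_cast (by have := h.hN; omega : 1 ≤ N)

theorem g_pos_of_mem {q N p : ℕ} (hp : p ∈ PP q N) : 0 < g p := by
  have := (mem_PP hp).1.pos
  unfold g
  positivity

theorem g_lt_one_of_mem {q N p : ℕ} (h : Ok N) (hp : p ∈ PP q N) : g p < 1 := by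
  have h1 := (mem_PP hp).2.1
  have h2 := h.hz
  have : (2 : ℝ) < p := by exact_mod_cast (by omega : 2 < p)
  unfold g
  rw [div_lt_one (by linarith)]
  exact this

theorem DD_closed (q N : ℕ) (x : ℝ) : ∀ T ∈ DD q N x, ∀ S ⊆ T, S ∈ DD q N x := by
  intro T hT S hST
  unfold DD at hT ⊢
  rw [Finset.mem_filter, Finset.mem_powerset] at hT ⊢
  refine ⟨hST.trans hT.1, le_trans ?_ hT.2⟩
  have : prd S ≤ prd T := by
    apply Finset.prod_le_prod_of_subset_of_one_le' hST
    intro p hp _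
    exact (mem_PP (hT.1 hp)).1.one_lt.le
  exact_mod_cast this

theorem empty_mem_DD (q N : ℕ) (x : ℝ) (hx : 1 ≤ x) : ∅ ∈ DD q N x := by
  unfold DD
  rw [Finset.mem_filter, Finset.mem_powerset]
  refine ⟨Finset.empty_subset _, ?_⟩
  simpa [prd] using hx

theorem G_pos {q N : ℕ} (h : Ok N) : 0 < G q N (RR N) :=
  GG_pos (P := PP q N) (fun _ hp => g_pos_of_mem hp) (fun _ hp => g_lt_one_of_mem h hp)
    (DD_sub q N _) (empty_mem_DD q N _ (RR_ge_one h))

noncomputable def lamq (q N : ℕ) (T : Finset ℕ) : ℝ := lam g (DD q N (RR N)) T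

theorem abs_lamq_le {q N : ℕ} (h : Ok N) (T : Finset ℕ) : |lamq q N T| ≤ 1 := by
  by_cases hT : T ⊆ PP q N
  · exact abs_lam_le (P := PP q N) (fun _ hp => g_pos_of_mem hp) (fun _ hp => g_lt_one_of_mem h hp)
      (DD_sub q N _) (empty_mem_DD q N _ (RR_ge_one h)) (DD_closed q N _) hT
  · unfold lamq lam
    have : (DD q N (RR N)).filter (fun R => T ⊆ R) = ∅ := by
      rw [Finset.filter_eq_empty_iff]
      intro R hR hTR
      exact hT (hTR.trans (Finset.mem_powerset.1 (DD_sub q N _ hR)))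
    rw [this]
    simp

theorem MM_zero {q N : ℕ} (h : Ok N) :
    G q N (RR N) * MM (DD q N (RR N)) (lamq q N) {∅} (fun _ => 1) = 1 := by
  have h1 := main_eq (P := PP q N) (g := g) (D := DD q N (RR N)) (fun _ hp => g_pos_of_mem hp)
    (fun _ hp => g_lt_one_of_mem h hp)
    (DD_sub q N _) (empty_mem_DD q N _ (RR_ge_one h)) (DD_closed q N _)
  have h2 : MM (DD q N (RR N)) (lamq q N) {∅} (fun _ => 1) = (GG g (DD q N (RR N)))⁻¹ := by
    rw [← h1]
    unfold MM
    refine Finset.sum_congr rfl fun T₁ _ => Finset.sum_congr rfl fun T₂ _ => ?_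
    rw [Finset.sum_singleton, Finset.union_empty, mul_one]
    rfl
  rw [h2]
  exact mul_inv_cancel₀ (G_pos h).ne'

/-- singletons -/
def sing (P : Finset ℕ) : Finset (Finset ℕ) := P.image (fun p => {p})

noncomputable def omw (wt : ℕ → ℝ) (T : Finset ℕ) : ℝ := if #T = 1 then ∑ p ∈ T, wt p else 0

theorem omw_single (wt : ℕ → ℝ) (p : ℕ) : omw wt {p} = wt p := by simp [omw]

theorem abs_omw_le (wt : ℕ → ℝ) (h0 : ∀ p, 0 ≤ wt p) (h1 : ∀ p, wt p ≤ 1) (T : Finset ℕ) :
    |omw wt T| ≤ 1 := by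
  unfold omw
  split_ifs with h
  · obtain ⟨p, rfl⟩ := Finset.card_eq_one.1 h
    rw [Finset.sum_singleton, abs_of_nonneg (h0 p)]
    exact h1 p
  · simp

theorem sum_sing (P : Finset ℕ) (f : Finset ℕ → ℝ) : ∑ T ∈ sing P, f T = ∑ p ∈ P, f {p} := by
  unfold sing
  rw [Finset.sum_image]
  intro a _ b _ hab
  exact Finset.singleton_injective hab

theorem sing_sub {P P' : Finset ℕ} (h : P' ⊆ P) : sing P' ⊆ P.powerset := by
  intro T hT
  unfold sing at hT
  rw [Finset.mem_image] at hT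
  obtain ⟨p, hp, rfl⟩ := hT
  rw [Finset.mem_powerset, Finset.singleton_subset_iff]
  exact h hp

theorem sing_card {P : Finset ℕ} : ∀ T ∈ sing P, #T ≤ 1 := by
  intro T hT
  unfold sing at hT
  rw [Finset.mem_image] at hT
  obtain ⟨p, hp, rfl⟩ := hT
  simp

theorem MM_sing {q N : ℕ} (h : Ok N) {P' : Finset ℕ} (hP' : P' ⊆ PP q N) (wt : ℕ → ℝ)
    (hwt : ∀ p, 0 ≤ wt p) :
    0 ≤ G q N (RR N) * MM (DD q N (RR N)) (lamq q N) (sing P') (omw wt) ∧
    G q N (RR N) * MM (DD q N (RR N)) (lamq q N) (sing P') (omw wt) ≤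
      (∑ p ∈ P', g p * wt p * (G q N (RR N) - G q N (RR N / p))) / G q N (RR N) := by
  have hG := G_pos (q := q) h
  have h1 : MM (DD q N (RR N)) (lamq q N) (sing P') (omw wt) =
      ∑ p ∈ P', wt p * (g p * (GG g (DD q N (RR N)))⁻¹ ^ 2 *
        ∑ T ∈ DD q N (RR N) with p ∉ T ∧ insert p T ∉ DD q N (RR N), hh g T) := by
    unfold MM
    have e : ∀ T₁ ∈ DD q N (RR N), ∀ T₂ ∈ DD q N (RR N),
        ∑ T₃ ∈ sing P', lamq q N T₁ * lamq q N T₂ * omw wt T₃ * gg g (T₁ ∪ T₂ ∪ T₃) =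
        ∑ p ∈ P', wt p * (lam g (DD q N (RR N)) T₁ * lam g (DD q N (RR N)) T₂ *
          gg g (T₁ ∪ T₂ ∪ {p})) := by
      intro T₁ _ T₂ _
      rw [sum_sing]
      refine Finset.sum_congr rfl fun p _ => ?_
      rw [omw_single]
      unfold lamq
      ring
    rw [Finset.sum_congr rfl fun T₁ h₁ => Finset.sum_congr rfl fun T₂ h₂ => e T₁ h₁ T₂ h₂]
    rw [Finset.sum_congr rfl fun T₁ _ => Finset.sum_comm]
    rw [Finset.sum_comm]
    refine Finset.sum_congr rfl fun p hp => ?_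
    rw [← one_prime (P := PP q N) (fun _ hp => g_pos_of_mem hp) (fun _ hp => g_lt_one_of_mem h hp)
      (DD_sub q N _) (empty_mem_DD q N _ (RR_ge_one h)) (DD_closed q N _) (hP' hp), Finset.mul_sum]
    refine Finset.sum_congr rfl fun T₁ _ => ?_
    rw [Finset.mul_sum]
  have hhnn : ∀ T ∈ DD q N (RR N), 0 ≤ hh g T := fun T hT =>
    (hh_pos (P := PP q N) (fun _ hp => g_pos_of_mem hp) (fun _ hp => g_lt_one_of_mem h hp)
      (Finset.mem_powerset.1 (DD_sub q N _ hT))).le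
  have h2 : ∀ p ∈ P', (∑ T ∈ DD q N (RR N) with p ∉ T ∧ insert p T ∉ DD q N (RR N), hh g T) ≤
      G q N (RR N) - G q N (RR N / p) := by
    intro p hp
    have hpP := hP' hp
    have hp1 : 1 ≤ p := (mem_PP hpP).1.one_lt.le
    have hp1' : (1 : ℝ) ≤ p := by exact_mod_cast hp1
    have hsub : DD q N (RR N / p) ⊆ DD q N (RR N) := by
      intro T hT
      unfold DD at hT ⊢
      rw [Finset.mem_filter] at hT ⊢
      refine ⟨hT.1, hT.2.trans (div_le_self ?_ hp1')⟩
      linarith [RR_ge_one h]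
    have e : G q N (RR N) - G q N (RR N / p) = ∑ T ∈ DD q N (RR N) \ DD q N (RR N / p), hh g T := by
      unfold G GG
      rw [← Finset.sum_sdiff hsub]
      ring
    rw [e]
    apply Finset.sum_le_sum_of_subset_of_nonneg
    · intro T hT
      rw [Finset.mem_filter] at hT
      rw [Finset.mem_sdiff]
      refine ⟨hT.1, fun hT2 => hT.2.2 ?_⟩
      unfold DD at hT2 ⊢
      rw [Finset.mem_filter, Finset.mem_powerset] at hT2 ⊢
      refine ⟨Finset.insert_subset hpP hT2.1, ?_⟩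
      have : prd (insert p T) = p * prd T := Finset.prod_insert hT.2.1
      rw [this]
      push_cast
      have h3 := hT2.2
      rw [le_div_iff₀ (by linarith)] at h3
      linarith
    · intro T hT _
      exact hhnn T (Finset.mem_sdiff.1 hT).1
  have hGG : GG g (DD q N (RR N)) = G q N (RR N) := rfl
  rw [h1, hGG]
  constructor
  · apply mul_nonneg hG.le
    refine Finset.sum_nonneg fun p hp => mul_nonneg (hwt p) ?_
    have := g_nonneg p
    have h4 : 0 ≤ ∑ T ∈ DD q N (RR N) with p ∉ T ∧ insert p T ∉ DD q N (RR N), hh g T :=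
      Finset.sum_nonneg fun T hT => hhnn T (Finset.mem_filter.1 hT).1
    positivity
  · rw [le_div_iff₀ hG, mul_comm (G q N (RR N)), mul_assoc, ← sq, Finset.sum_mul]
    refine Finset.sum_le_sum fun p hp => ?_
    have := g_nonneg p
    have hw := hwt p
    calc wt p * (g p * (G q N (RR N))⁻¹ ^ 2 *
        ∑ T ∈ DD q N (RR N) with p ∉ T ∧ insert p T ∉ DD q N (RR N), hh g T) * G q N (RR N) ^ 2
        = g p * wt p * (∑ T ∈ DD q N (RR N) with p ∉ T ∧ insert p T ∉ DD q N (RR N), hh g T) *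
          ((G q N (RR N))⁻¹ * G q N (RR N)) ^ 2 := by ring
      _ = g p * wt p * (∑ T ∈ DD q N (RR N) with p ∉ T ∧ insert p T ∉ DD q N (RR N), hh g T) := by
          rw [inv_mul_cancel₀ hG.ne']; ring
      _ ≤ _ := by
          gcongr
          exact h2 p hp

end Pool.Agent.Work.MP_73869e_nt.AP
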