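import Mathlib
import Pool.Agent.Work.MP_73869e_nt.AP.MMf
import Pool.Agent.Work.MP_73869e_nt.AP.Loc

set_option autoImplicit false

namespace Pool.Agent.Work.MP_73869e_nt.AP

open Finset Filter Pool.Agent.Work.MP_2dba45_nt.Sel

/-- no prime of `PP q N` up to `N^α` divides `n^2+k` -/
def Th (α : ℝ) (q N k n : ℕ) : Prop := ∀ p ∈ PP q N, (p : ℝ) ≤ (N : ℝ) ^ α → ¬ p ∣ n ^ 2 + k

noncomputable def FA (q N k n : ℕ) : ℝ := FF (DD q N (RR N)) (lamq q N) {∅} (fun _ => 1) k n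

noncomputable def FS (P' : Finset ℕ) (wt : ℕ → ℝ) (q N k n : ℕ) : ℝ :=
  FF (DD q N (RR N)) (lamq q N) (sing P') (omw wt) k n

theorem FA_eq (q N k n : ℕ) : FA q N k n =
    (∑ T ∈ DD q N (RR N), if (∀ p ∈ T, p ∣ n ^ 2 + k) then lamq q N T else 0) ^ 2 := by
  unfold FA FF
  rw [Finset.sum_singleton, if_pos (by simp), mul_one]

theorem FA_nonneg (q N k n : ℕ) : 0 ≤ FA q N k n := by rw [FA_eq]; positivity

theorem FS_eq (P' : Finset ℕ) (wt : ℕ → ℝ) (q N k n : ℕ) : FS P' wt q N k n =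
    FA q N k n * ∑ p ∈ P'.filter (fun p => p ∣ n ^ 2 + k), wt p := by
  rw [FA_eq]
  unfold FS FF
  rw [sum_sing, Finset.sum_filter]
  congr 1
  refine Finset.sum_congr rfl fun p _ => ?_
  rw [omw_single]
  simp

theorem FS_nonneg (P' : Finset ℕ) (wt : ℕ → ℝ) (hwt : ∀ p, 0 ≤ wt p) (q N k n : ℕ) :
    0 ≤ FS P' wt q N k n := by
  rw [FS_eq]
  exact mul_nonneg (FA_nonneg _ _ _ _) (Finset.sum_nonneg fun p _ => hwt p)

/-- number of large prime divisors -/
theorem card_large (α : ℝ) (hα : 0 < α) (N X : ℕ) (hL : 1 ≤ Real.log N) (hX0 : 0 < X)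
    (hX : (X : ℝ) ≤ (N : ℝ) ^ (3 : ℝ)) (S : Finset ℕ) (hS : ∀ p ∈ S, p.Prime ∧ (N : ℝ) ^ α < p ∧ p ∣ X) :
    (#S : ℝ) ≤ 3 / α := by
  have hN0 : (0 : ℝ) < N := by
    rcases Nat.eq_zero_or_pos N with h | h
    · rw [h] at hL; simp at hL; linarith
    · exact_mod_cast h
  have h1 : ∏ p ∈ S, p ∣ X :=
    Finset.prod_primes_dvd X (fun p hp => (hS p hp).1.prime) (fun p hp => (hS p hp).2.2)
  have h2 : ((∏ p ∈ S, p : ℕ) : ℝ) ≤ X := by exact_mod_cast Nat.le_of_dvd hX0 h1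
  have h3 : ((N : ℝ) ^ α) ^ #S ≤ ((∏ p ∈ S, p : ℕ) : ℝ) := by
    push_cast
    rw [← Finset.prod_const]
    exact Finset.prod_le_prod (fun p _ => by positivity) fun p hp => (hS p hp).2.1.le
  have h4 := Real.log_le_log (by positivity) (h3.trans (h2.trans hX))
  rw [Real.log_pow, Real.log_rpow hN0, Real.log_rpow hN0] at h4
  rw [le_div_iff₀ hα]
  have h5 : ((#S : ℝ) * α) * Real.log N ≤ 3 * Real.log N := by linarith
  exact le_of_mul_le_mul_right h5 (by linarith)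

theorem FA_le_pow {q N : ℕ} (h : Ok N) (k n : ℕ) :
    FA q N k n ≤ (4 : ℝ) ^ #((PP q N).filter (fun p => p ∣ n ^ 2 + k)) := by
  set S := (PP q N).filter (fun p => p ∣ n ^ 2 + k)
  rw [FA_eq]
  have h1 : |∑ T ∈ DD q N (RR N), if (∀ p ∈ T, p ∣ n ^ 2 + k) then lamq q N T else 0| ≤
      (2 : ℝ) ^ #S := by
    calc |∑ T ∈ DD q N (RR N), if (∀ p ∈ T, p ∣ n ^ 2 + k) then lamq q N T else 0|
        ≤ ∑ T ∈ DD q N (RR N), |if (∀ p ∈ T, p ∣ n ^ 2 + k) then lamq q N T else 0| :=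
          Finset.abs_sum_le_sum_abs _ _
      _ ≤ ∑ T ∈ DD q N (RR N), (if (∀ p ∈ T, p ∣ n ^ 2 + k) then (1 : ℝ) else 0) := by
          refine Finset.sum_le_sum fun T _ => ?_
          split_ifs
          · exact abs_lamq_le h T
          · simp
      _ = (#((DD q N (RR N)).filter (fun T => ∀ p ∈ T, p ∣ n ^ 2 + k)) : ℝ) := by
          rw [← Finset.sum_filter, Finset.sum_const, nsmul_eq_mul, mul_one]
      _ ≤ (#S.powerset : ℝ) := by
          have : (DD q N (RR N)).filter (fun T => ∀ p ∈ T, p ∣ n ^ 2 + k) ⊆ S.powerset := by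
            intro T hT
            rw [Finset.mem_filter] at hT
            rw [Finset.mem_powerset]
            intro p hp
            rw [Finset.mem_filter]
            exact ⟨Finset.mem_powerset.1 (DD_sub q N _ hT.1) hp, hT.2 p hp⟩
          exact_mod_cast Finset.card_le_card this
      _ = (2 : ℝ) ^ #S := by rw [Finset.card_powerset]; push_cast; rfl
  calc (∑ T ∈ DD q N (RR N), if (∀ p ∈ T, p ∣ n ^ 2 + k) then lamq q N T else 0) ^ 2
      = |∑ T ∈ DD q N (RR N), if (∀ p ∈ T, p ∣ n ^ 2 + k) then lamq q N T else 0| ^ 2 := by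
        rw [sq_abs]
    _ ≤ ((2 : ℝ) ^ #S) ^ 2 := by gcongr
    _ = (4 : ℝ) ^ #S := by rw [← pow_mul, mul_comm, pow_mul]; norm_num

/-- size of `n^2+k` -/
theorem X_le {N n k : ℕ} (h : Ok N) (h5 : 5 ≤ N) (hn : n ∈ Ioc N (2 * N)) (hk : k ≤ N) :
    0 < n ^ 2 + k ∧ ((n ^ 2 + k : ℕ) : ℝ) ≤ (N : ℝ) ^ (3 : ℝ) := by
  rw [Finset.mem_Ioc] at hn
  have hN := h.hN
  refine ⟨Nat.add_pos_left (Nat.pow_pos (by omega)) _, ?_⟩
  have h1 : n ^ 2 + k ≤ N ^ 3 := by
    have : n ^ 2 ≤ (2 * N) ^ 2 := Nat.pow_le_pow_left hn.2 2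
    nlinarith
  have : (N : ℝ) ^ (3 : ℝ) = ((N ^ 3 : ℕ) : ℝ) := by
    rw [show (3 : ℝ) = ((3 : ℕ) : ℝ) by norm_num, Real.rpow_natCast]; push_cast; rfl
  rw [this]
  exact_mod_cast h1

noncomputable def KB (α : ℝ) : ℝ := (4 : ℝ) ^ (3 / α) * (3 / α + 1)

theorem FA_bound {q N : ℕ} (h : Ok N) (α : ℝ) (hα : 0 < α) (k n : ℕ) (hn : n ∈ Ioc N (2 * N))
    (hk : k ≤ N) (hTh : Th α q N k n) : FA q N k n ≤ (4 : ℝ) ^ (3 / α) := by
  refine (FA_le_pow h k n).trans ?_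
  rw [← Real.rpow_natCast]
  apply Real.rpow_le_rpow_of_exponent_le (by norm_num)
  obtain ⟨hX0, hX⟩ := X_le h (by have := h.hN; omega) hn hk
  apply card_large α hα N (n ^ 2 + k) h.hL hX0 hX
  intro p hp
  rw [Finset.mem_filter] at hp
  refine ⟨(mem_PP hp.1).1, ?_, hp.2⟩
  by_contra hc
  push Not at hc
  exact hTh p hp.1 hc hp.2

theorem FA_bound' {q N : ℕ} (h : Ok N) (α : ℝ) (hα : 0 < α) (k n : ℕ) (hn : n ∈ Ioc N (2 * N))
    (hk : k ≤ N) (hTh : Th α q N k n) : FA q N k n ≤ KB α := by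
  refine (FA_bound h α hα k n hn hk hTh).trans ?_
  unfold KB
  have h1 : (0 : ℝ) < 4 ^ (3 / α) := by positivity
  have h2 : 0 < 3 / α := by positivity
  nlinarith

theorem FS_bound {q N : ℕ} (h : Ok N) (α : ℝ) (hα : 0 < α) (P' : Finset ℕ) (hP' : P' ⊆ PP q N)
    (wt : ℕ → ℝ) (hwt0 : ∀ p, 0 ≤ wt p) (hwt1 : ∀ p, wt p ≤ 1)
    (k n : ℕ) (hn : n ∈ Ioc N (2 * N)) (hk : k ≤ N) (hTh : Th α q N k n) :
    FS P' wt q N k n ≤ KB α := by
  rw [FS_eq]
  have h1 := FA_bound h α hα k n hn hk hTh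
  have h0 := FA_nonneg q N k n
  have h2 : ∑ p ∈ P'.filter (fun p => p ∣ n ^ 2 + k), wt p ≤ 3 / α := by
    calc ∑ p ∈ P'.filter (fun p => p ∣ n ^ 2 + k), wt p
        ≤ ∑ p ∈ P'.filter (fun p => p ∣ n ^ 2 + k), (1 : ℝ) :=
          Finset.sum_le_sum fun p _ => hwt1 p
      _ = (#(P'.filter (fun p => p ∣ n ^ 2 + k)) : ℝ) := by simp
      _ ≤ 3 / α := by
          obtain ⟨hX0, hX⟩ := X_le h (by have := h.hN; omega) hn hk
          apply card_large α hα N (n ^ 2 + k) h.hL hX0 hX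
          intro p hp
          rw [Finset.mem_filter] at hp
          refine ⟨(mem_PP (hP' hp.1)).1, ?_, hp.2⟩
          by_contra hc
          push Not at hc
          exact hTh p (hP' hp.1) hc hp.2
  have h3 : 0 ≤ ∑ p ∈ P'.filter (fun p => p ∣ n ^ 2 + k), wt p :=
    Finset.sum_nonneg fun p _ => hwt0 p
  unfold KB
  have h4 : (0 : ℝ) < 4 ^ (3 / α) := by positivity
  have h5 : 0 < 3 / α := by positivity
  calc FA q N k n * ∑ p ∈ P'.filter (fun p => p ∣ n ^ 2 + k), wt p ≤ 4 ^ (3 / α) * (3 / α) := by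
        gcongr
    _ ≤ 4 ^ (3 / α) * (3 / α + 1) := by nlinarith

/-- the primes up to `N^α` -/
noncomputable def Psm (α : ℝ) (q N : ℕ) : Finset ℕ := (PP q N).filter (fun p : ℕ => (p : ℝ) ≤ (N : ℝ) ^ α)

open Classical in
/-- loss from the truncation, for `FA` -/
theorem FA_loss (α : ℝ) (q N k n : ℕ) :
    FA q N k n - (if Th α q N k n then FA q N k n else 0) ≤ FS (Psm α q N) (fun _ => 1) q N k n := by
  rw [FS_eq]
  have h0 := FA_nonneg q N k n
  split_ifs with hTh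
  · rw [sub_self]
    exact mul_nonneg h0 (Finset.sum_nonneg fun _ _ => zero_le_one)
  · rw [sub_zero]
    unfold Th at hTh
    push Not at hTh
    obtain ⟨p, hp, hpα, hpd⟩ := hTh
    have h1 : (1 : ℝ) ≤ ∑ p ∈ (Psm α q N).filter (fun p => p ∣ n ^ 2 + k), (1 : ℝ) := by
      rw [Finset.sum_const, nsmul_eq_mul, mul_one]
      have : 0 < #((Psm α q N).filter (fun p => p ∣ n ^ 2 + k)) := by
        apply Finset.card_pos.2
        refine ⟨p, ?_⟩
        unfold Psm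
        simp only [Finset.mem_filter]
        exact ⟨⟨hp, hpα⟩, hpd⟩
      exact_mod_cast this
    nlinarith

open Classical in
/-- loss from the truncation, for `FS` with primes above `N^α₀` -/
theorem FS_loss {q N : ℕ} (h : Ok N) (α α₀ : ℝ) (hα₀ : 0 < α₀) (P' : Finset ℕ)
    (hP' : ∀ p ∈ P', p ∈ PP q N ∧ (N : ℝ) ^ α₀ < p)
    (wt : ℕ → ℝ) (hwt0 : ∀ p, 0 ≤ wt p) (hwt1 : ∀ p, wt p ≤ 1)
    (k n : ℕ) (hn : n ∈ Ioc N (2 * N)) (hk : k ≤ N) :
    FS P' wt q N k n - (if Th α q N k n then FS P' wt q N k n else 0) ≤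
      3 / α₀ * FS (Psm α q N) (fun _ => 1) q N k n := by
  have h2 : ∑ p ∈ P'.filter (fun p => p ∣ n ^ 2 + k), wt p ≤ 3 / α₀ := by
    calc ∑ p ∈ P'.filter (fun p => p ∣ n ^ 2 + k), wt p
        ≤ ∑ p ∈ P'.filter (fun p => p ∣ n ^ 2 + k), (1 : ℝ) :=
          Finset.sum_le_sum fun p _ => hwt1 p
      _ = (#(P'.filter (fun p => p ∣ n ^ 2 + k)) : ℝ) := by simp
      _ ≤ 3 / α₀ := by
          obtain ⟨hX0, hX⟩ := X_le h (by have := h.hN; omega) hn hk
          apply card_large α₀ hα₀ N (n ^ 2 + k) h.hL hX0 hX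
          intro p hp
          rw [Finset.mem_filter] at hp
          exact ⟨(mem_PP (hP' p hp.1).1).1, (hP' p hp.1).2, hp.2⟩
  have h0 := FA_nonneg q N k n
  have h3 : FS P' wt q N k n ≤ 3 / α₀ * FA q N k n := by
    rw [FS_eq, mul_comm]
    exact mul_le_mul_of_nonneg_right h2 h0
  have h4 := FA_loss α q N k n
  have h5 : 0 < 3 / α₀ := by positivity
  have h6 := FS_nonneg (Psm α q N) (fun _ => 1) (fun _ => zero_le_one) q N k n
  split_ifs with hTh
  · rw [sub_self]; positivity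
  · rw [if_neg hTh, sub_zero] at h4
    rw [sub_zero]
    calc FS P' wt q N k n ≤ 3 / α₀ * FA q N k n := h3
      _ ≤ _ := by gcongr

/-- coprimality to the primes up to `w` -/
theorem cop_small (w q j n p : ℕ) (hp : p.Prime) (hpw : p ≤ w) (hq : q.Prime) (hwq : w < q)
    (hj : j % primorial w = (primorial w / Nat.gcd (n % primorial w) (primorial w)) % primorial w) :
    ¬ p ∣ n ^ 2 + q * j ^ 2 := by
  set Q := primorial w with hQ
  have hQ0 : 0 < Q := primorial_pos w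
  have hpQ : p ∣ Q := by
    rw [hQ, primorial]
    apply Finset.dvd_prod_of_mem
    rw [Finset.mem_filter, Finset.mem_range]
    exact ⟨by omega, hp⟩
  have hsq : Squarefree Q := by
    rw [hQ, primorial]
    apply Finset.squarefree_prod_of_pairwise_isCoprime
    · intro a ha b hb hab
      rw [Finset.mem_coe, Finset.mem_filter] at ha hb
      exact Nat.isCoprime_iff_coprime.2 ((Nat.coprime_primes ha.2 hb.2).2 hab) |> fun h => by
        exact Nat.coprime_iff_isRelPrime.1 ((Nat.coprime_primes ha.2 hb.2).2 hab)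
    · intro a ha
      rw [Finset.mem_filter] at ha
      exact ha.2.squarefree
  set d := Nat.gcd (n % Q) Q with hd
  have hdQ : d ∣ Q := Nat.gcd_dvd_right _ _
  have hpn : p ∣ n ↔ p ∣ n % Q := (Nat.dvd_mod_iff hpQ).symm
  have hpj : p ∣ j ↔ p ∣ Q / d := by
    rw [← Nat.dvd_mod_iff hpQ, hj, Nat.dvd_mod_iff hpQ]
  have hpd : p ∣ d ↔ p ∣ n := by
    rw [hpn, hd, Nat.dvd_gcd_iff]
    exact ⟨fun h => h.1, fun h => ⟨h, hpQ⟩⟩
  have hmul : d * (Q / d) = Q := Nat.mul_div_cancel' hdQ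
  have hcop : Nat.Coprime d (Q / d) := by
    have := hsq
    rw [← hmul] at this
    exact Nat.coprime_of_squarefree_mul this
  have hpq : ¬ p ∣ q := by
    intro h
    have := (Nat.prime_dvd_prime_iff_eq hp hq).1 h
    omega
  intro hdvd
  by_cases h1 : p ∣ n
  · have h2 : p ∣ q * j ^ 2 := by
      have : p ∣ n ^ 2 := dvd_pow h1 (by norm_num)
      exact (Nat.dvd_add_right this).1 hdvd
    rcases (Nat.Prime.dvd_mul hp).1 h2 with h3 | h3
    · exact hpq h3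
    · have h4 := hpj.1 (hp.dvd_of_dvd_pow h3)
      have h5 := hpd.2 h1
      have := Nat.dvd_gcd h5 h4
      rw [hcop] at this
      exact hp.one_lt.ne' (Nat.dvd_one.1 this)
  · have h4 : p ∣ Q / d := by
      have : p ∣ d * (Q / d) := by rw [hmul]; exact hpQ
      rcases (Nat.Prime.dvd_mul hp).1 this with h | h
      · exact absurd (hpd.1 h) h1
      · exact h
    have h5 : p ∣ j := hpj.2 h4
    have h6 : p ∣ q * j ^ 2 := dvd_mul_of_dvd_right (dvd_pow h5 (by norm_num)) _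
    have h7 : p ∣ n ^ 2 := (Nat.dvd_add_left h6).1 hdvd
    exact h1 (hp.dvd_of_dvd_pow h7)

end Pool.Agent.Work.MP_73869e_nt.AP
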