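import Mathlib
import Pool.Agent.Work.MP_73869e_nt.AP.Pt
import Pool.Agent.Work.MP_73869e_nt.AP.Mom

set_option autoImplicit false

namespace Pool.Agent.Work.MP_73869e_nt.AP

open Finset Filter Pool.Agent.Work.MP_2dba45_nt.Sel

theorem shift_inj {q q' j j' : ℕ} (hq : q.Prime) (hq' : q'.Prime) (hj : 1 ≤ j) (hj' : 1 ≤ j')
    (h : q * j ^ 2 = q' * j' ^ 2) : q = q' ∧ j = j' := by
  have h1 : q = q' := by
    by_contra hne
    have e1 : (q * j ^ 2).factorization q = 1 + 2 * j.factorization q := by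
      rw [Nat.factorization_mul hq.ne_zero (by positivity), Nat.factorization_pow]
      simp [hq.factorization_self]
    have e2 : (q' * j' ^ 2).factorization q = 2 * j'.factorization q := by
      rw [Nat.factorization_mul hq'.ne_zero (by positivity), Nat.factorization_pow]
      have : q'.factorization q = 0 := by
        apply Nat.factorization_eq_zero_of_not_dvd
        intro hd
        exact hne ((Nat.prime_dvd_prime_iff_eq hq hq').1 hd)
      simp [this]
    rw [h] at e1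
    omega
  subst h1
  refine ⟨rfl, ?_⟩
  have h2 : j ^ 2 = j' ^ 2 := Nat.eq_of_mul_eq_mul_left hq.pos h
  exact Nat.pow_left_injective (by norm_num) h2

/-- the index family -/
noncomputable def Fam (c : ℝ) (K : Finset ℕ) (N Q b : ℕ) : Finset ((_ : ℕ) × ℕ) :=
  K.sigma (fun q => js c q N Q b)

theorem mem_Fam {c : ℝ} {K : Finset ℕ} {N Q b : ℕ} {x : (_ : ℕ) × ℕ} :
    x ∈ Fam c K N Q b ↔ x.1 ∈ K ∧ x.2 ∈ Icc 1 (JJ c x.1 N) ∧ x.2 % Q = b % Q := by
  unfold Fam js
  rw [Finset.mem_sigma, Finset.mem_filter]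

theorem card_js_ge (c : ℝ) (hc : 0 < c) (q Q : ℕ) (hq : 0 < q) (hQ : 0 < Q) :
    ∀ᶠ N : ℕ in atTop, ∀ b : ℕ, √(c / q) * Real.log N / (2 * Q) ≤ (#(js c q N Q b) : ℝ) := by
  have hq0 : (0 : ℝ) < q := by exact_mod_cast hq
  have hQ0 : (0 : ℝ) < Q := by exact_mod_cast hQ
  have hs : 0 < √(c / q) := Real.sqrt_pos.2 (by positivity)
  filter_upwards [ev_log_ge (2 * (1 + Q) / √(c / q))] with N hN
  intro b
  have hle : JJ c q N / Q ≤ #(js c q N Q b) := by
    set r := if b % Q = 0 then Q else b % Q with hr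
    have hr1 : 1 ≤ r := by rw [hr]; split_ifs <;> omega
    have hrQ : r ≤ Q := by
      rw [hr]; split_ifs
      · exact le_refl _
      · exact (Nat.mod_lt _ hQ).le
    have hrm : r % Q = b % Q := by
      rw [hr]; split_ifs with h
      · rw [Nat.mod_self, h]
      · exact Nat.mod_mod _ _
    calc JJ c q N / Q = #((range (JJ c q N / Q)).image (fun i => i * Q + r)) := by
          rw [Finset.card_image_of_injective, Finset.card_range]
          intro a b hab
          simp only at hab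
          exact Nat.eq_of_mul_eq_mul_right hQ (by omega)
      _ ≤ #(js c q N Q b) := by
          apply Finset.card_le_card
          intro j hj
          rw [Finset.mem_image] at hj
          obtain ⟨i, hi, rfl⟩ := hj
          rw [Finset.mem_range] at hi
          unfold js
          rw [Finset.mem_filter, Finset.mem_Icc]
          refine ⟨⟨by omega, ?_⟩, ?_⟩
          · have h1 : (i + 1) * Q ≤ (JJ c q N / Q) * Q := Nat.mul_le_mul_right _ hi
            have h2 := Nat.div_mul_le_self (JJ c q N) Q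
            have h3 : (i + 1) * Q = i * Q + Q := by ring
            omega
          · rw [Nat.add_comm, Nat.add_mul_mod_self_right, hrm]
  have h1 : (JJ c q N : ℝ) / Q - 1 ≤ ((JJ c q N / Q : ℕ) : ℝ) := by
    have := Nat.lt_mul_div_succ (JJ c q N) hQ
    have h2 : (JJ c q N : ℝ) < Q * ((JJ c q N / Q : ℕ) + 1) := by exact_mod_cast this
    have : (JJ c q N : ℝ) / Q < (JJ c q N / Q : ℕ) + 1 := by
      rw [div_lt_iff₀ hQ0]; linarith
    linarith
  have h2 : √(c / q) * Real.log N - 1 ≤ (JJ c q N : ℝ) := by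
    have := Nat.lt_floor_add_one (√(c / q) * Real.log N)
    unfold JJ
    linarith
  have h3 : ((JJ c q N / Q : ℕ) : ℝ) ≤ (#(js c q N Q b) : ℝ) := by exact_mod_cast hle
  have h4 : 2 * (1 + Q) ≤ √(c / q) * Real.log N := by
    rw [div_le_iff₀ hs] at hN
    linarith
  have h5 : √(c / q) * Real.log N / (2 * Q) ≤ (√(c / q) * Real.log N - 1) / Q - 1 := by
    have e : (√(c / q) * Real.log N - 1) / Q - 1 = (√(c / q) * Real.log N - 1 - Q) / Q := by
      field_simp
    rw [e, div_le_div_iff₀ (by positivity) hQ0]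
    nlinarith
  have h6 : (√(c / q) * Real.log N - 1) / Q ≤ (JJ c q N : ℝ) / Q := by gcongr
  linarith

theorem card_Fam (c : ℝ) (K : Finset ℕ) (N Q b : ℕ) :
    (#(Fam c K N Q b) : ℝ) = ∑ q ∈ K, (#(js c q N Q b) : ℝ) := by
  unfold Fam
  rw [Finset.card_sigma]
  push_cast
  rfl

theorem card_Fam_ge (c : ℝ) (hc : 0 < c) (K : Finset ℕ) (hK : ∀ q ∈ K, q.Prime) (Q : ℕ)
    (hQ : 0 < Q) : ∀ᶠ N : ℕ in atTop, ∀ b : ℕ,
    √c * Real.log N / (2 * Q) * ∑ q ∈ K, 1 / √(q : ℝ) ≤ (#(Fam c K N Q b) : ℝ) := by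
  have h : ∀ᶠ N : ℕ in atTop, ∀ q ∈ K, ∀ b : ℕ,
      √(c / q) * Real.log N / (2 * Q) ≤ (#(js c q N Q b) : ℝ) := by
    rw [Filter.eventually_all_finset]
    intro q hq
    exact card_js_ge c hc q Q (hK q hq).pos hQ
  filter_upwards [h] with N hN
  intro b
  rw [card_Fam, Finset.mul_sum]
  refine Finset.sum_le_sum fun q hq => ?_
  refine le_trans (le_of_eq ?_) (hN q hq b)
  rw [Real.sqrt_div hc.le]
  ring

/-- coefficient of the shift -/
noncomputable def cw (w N : ℕ) (x : (_ : ℕ) × ℕ) : ℝ := G x.1 N (RR N) / VV {x.1 * x.2 ^ 2} w N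

/-- hypotheses on the second factor of the weights -/
structure HE (α : ℝ) (K : Finset ℕ) (N : ℕ) (E : ℕ → Finset (Finset ℕ)) (om : ℕ → Finset ℕ → ℝ) :
    Prop where
  sub : ∀ q ∈ K, E q ⊆ (PP q N).powerset
  card : ∀ q ∈ K, ∀ T ∈ E q, #T ≤ 1
  om_le : ∀ q ∈ K, ∀ T, |om q T| ≤ 1
  nn : ∀ q ∈ K, ∀ k n, 0 ≤ FF (DD q N (RR N)) (lamq q N) (E q) (om q) k n
  bd : ∀ q ∈ K, ∀ k n, n ∈ Ioc N (2 * N) → k ≤ N → Th α q N k n →
    FF (DD q N (RR N)) (lamq q N) (E q) (om q) k n ≤ KB α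

noncomputable def mu (N : ℕ) (E : ℕ → Finset (Finset ℕ)) (om : ℕ → Finset ℕ → ℝ) (q : ℕ) : ℝ :=
  G q N (RR N) * MM (DD q N (RR N)) (lamq q N) (E q) (om q)

noncomputable def FE (N : ℕ) (E : ℕ → Finset (Finset ℕ)) (om : ℕ → Finset ℕ → ℝ)
    (x : (_ : ℕ) × ℕ) (n : ℕ) : ℝ :=
  FF (DD x.1 N (RR N)) (lamq x.1 N) (E x.1) (om x.1) (x.1 * x.2 ^ 2) n

theorem HE_zero {α : ℝ} (hα : 0 < α) (K : Finset ℕ) {N : ℕ} (h : Ok N) :
    HE α K N (fun _ => {∅}) (fun _ _ => 1) where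
  sub := by intro q _ T hT; rw [Finset.mem_singleton] at hT; subst hT; simp
  card := by intro q _ T hT; rw [Finset.mem_singleton] at hT; subst hT; simp
  om_le := by intro q _ T; simp
  nn := fun q _ k n => FA_nonneg q N k n
  bd := fun q _ k n hn hk hTh => FA_bound' h α hα k n hn hk hTh

theorem HE_sing {α : ℝ} (hα : 0 < α) (K : Finset ℕ) {N : ℕ} (h : Ok N) (P' : ℕ → Finset ℕ)
    (hP' : ∀ q ∈ K, P' q ⊆ PP q N) (wt : ℕ → ℝ) (hwt0 : ∀ p, 0 ≤ wt p) (hwt1 : ∀ p, wt p ≤ 1) :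
    HE α K N (fun q => sing (P' q)) (fun _ => omw wt) where
  sub := fun q hq => sing_sub (hP' q hq)
  card := fun q _ => sing_card
  om_le := fun q _ T => abs_omw_le wt hwt0 hwt1 T
  nn := fun q _ k n => FS_nonneg (P' q) wt hwt0 q N k n
  bd := fun q hq k n hn hk hTh => FS_bound h α hα (P' q) (hP' q hq) wt hwt0 hwt1 k n hn hk hTh

end Pool.Agent.Work.MP_73869e_nt.AP
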