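import Mathlib
import Pool.Agent.Work.MP_73869e_nt.AP.Defs
import Pool.Agent.Work.MP_73869e_nt.AP.Loc
import Pool.Agent.Work.MP_f473e4_nt.SCrt

set_option autoImplicit false

namespace Pool.Agent.Work.MP_73869e_nt.AP

open Finset Filter

theorem pa_roots (p q t : ℕ) (hp : p.Prime) (hpq : ¬ p ∣ q) :
    #((range p).filter (fun r => q * r ^ 2 ≡ t [MOD p])) ≤ 2 := by
  classical
  have : Fact p.Prime := ⟨hp⟩
  have hq0 : (q : ZMod p) ≠ 0 := by
    rw [Ne, ZMod.natCast_eq_zero_iff]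
    exact hpq
  set P : Polynomial (ZMod p) := Polynomial.C (q : ZMod p) * Polynomial.X ^ 2 - Polynomial.C (t : ZMod p) with hP
  have hdeg : P.natDegree ≤ 2 := by
    rw [hP]
    compute_degree
  have hP0 : P ≠ 0 := by
    intro h
    have h1 : P.coeff 2 = 0 := by rw [h]; simp
    rw [hP] at h1
    simp [Polynomial.coeff_C] at h1
    exact hq0 h1
  have h1 : #((range p).filter (fun r => q * r ^ 2 ≡ t [MOD p])) ≤ #(P.roots.toFinset) := by
    apply Finset.card_le_card_of_injOn (fun r : ℕ => (r : ZMod p))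
    · intro r hr
      simp only [coe_filter, mem_range, Set.mem_ofPred_eq] at hr
      simp only [Finset.mem_coe, Multiset.mem_toFinset]
      rw [Polynomial.mem_roots hP0]
      have h2 : ((q * r ^ 2 : ℕ) : ZMod p) = ((t : ℕ) : ZMod p) := (ZMod.natCast_eq_natCast_iff _ _ _).2 hr.2
      push_cast at h2
      simp [hP, h2]
    · intro r hr s hs hrs
      simp only [coe_filter, mem_range, Set.mem_ofPred_eq] at hr hs
      have h2 : r ≡ s [MOD p] := (ZMod.natCast_eq_natCast_iff _ _ _).1 hrs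
      rw [Nat.ModEq, Nat.mod_eq_of_lt hr.1, Nat.mod_eq_of_lt hs.1] at h2
      exact h2
  have h2 : #(P.roots.toFinset) ≤ 2 :=
    (Multiset.toFinset_card_le _).trans ((Polynomial.card_roots' P).trans hdeg)
  exact h1.trans h2

theorem pa_sum_prod (S : Finset ℕ) (f : ℕ → ℝ) :
    ∑ T ∈ S.powerset, ∏ p ∈ T, f p = ∏ p ∈ S, (1 + f p) := by
  rw [Finset.prod_one_add]

theorem pa_exp (S : Finset ℕ) (w : ℕ) (hw : 16 ≤ w) (hS : ∀ p ∈ S, w < p) :
    ∑ T ∈ S.powerset, ∏ p ∈ T, (8 : ℝ) / p ^ 2 ≤ 1 + 16 / w := by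
  rw [pa_sum_prod S (fun p => (8 : ℝ) / p ^ 2)]
  have hw0 : (0 : ℝ) < w := by
    have : (16 : ℝ) ≤ w := by exact_mod_cast hw
    linarith
  have hw16 : (16 : ℝ) ≤ w := by exact_mod_cast hw
  have h1 : ∏ p ∈ S, (1 + (8 : ℝ) / p ^ 2) ≤ Real.exp (∑ p ∈ S, (8 : ℝ) / p ^ 2) := by
    rw [Real.exp_sum]
    apply Finset.prod_le_prod
    · intro p _
      positivity
    · intro p _
      linarith [Real.add_one_le_exp ((8 : ℝ) / p ^ 2)]
  have h2 : ∑ p ∈ S, (8 : ℝ) / p ^ 2 ≤ 8 / w := by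
    have h3 : S ⊆ Ioc w (max w (S.sup id)) := by
      intro p hp
      rw [mem_Ioc]
      refine ⟨hS p hp, ?_⟩
      exact le_trans (Finset.le_sup (f := id) hp) (le_max_right _ _)
    calc ∑ p ∈ S, (8 : ℝ) / p ^ 2 ≤ ∑ p ∈ Ioc w (max w (S.sup id)), (8 : ℝ) / p ^ 2 := by
          apply Finset.sum_le_sum_of_subset_of_nonneg h3
          intro p _ _
          positivity
      _ = 8 * ∑ p ∈ Ioc w (max w (S.sup id)), ((p : ℝ) ^ 2)⁻¹ := by
          rw [Finset.mul_sum]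
          exact Finset.sum_congr rfl (fun p _ => by rw [div_eq_mul_inv])
      _ ≤ 8 * ((w : ℝ)⁻¹ - ((max w (S.sup id) : ℕ) : ℝ)⁻¹) := by
          have := sum_Ioc_inv_sq_le_sub (α := ℝ) (k := w) (n := max w (S.sup id)) (by omega) (le_max_left _ _)
          linarith
      _ ≤ 8 / w := by
          have : (0 : ℝ) ≤ ((max w (S.sup id) : ℕ) : ℝ)⁻¹ := by positivity
          rw [div_eq_mul_inv]
          linarith
  have h3 : Real.exp (8 / w) ≤ 1 + 2 * (8 / w) := by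
    have hx0 : (0 : ℝ) ≤ 8 / w := by positivity
    have hx1 : (8 : ℝ) / w ≤ 1 / 2 := by
      rw [div_le_iff₀ hw0]
      linarith
    have h4 := Real.exp_bound_div_one_sub_of_interval hx0 (by linarith : (8 : ℝ) / w < 1)
    have h5 : 1 / (1 - 8 / w) ≤ 1 + 2 * (8 / (w : ℝ)) := by
      rw [div_le_iff₀ (by linarith)]
      nlinarith
    linarith
  have h4 : (2 : ℝ) * (8 / w) = 16 / w := by ring
  have h5 := Real.exp_le_exp.2 h2
  linarith

theorem pa_rankin : ∃ E : ℝ, 0 < E ∧ ∀ (S : Finset ℕ), (∀ p ∈ S, 0 < p) → ∀ X : ℝ, 0 < X →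
    ∑ T ∈ S.powerset.filter (fun T => (prd T : ℝ) ≤ X), ∏ p ∈ T, (8 : ℝ) / p ≤
      E * X ^ ((1 : ℝ) / 4) := by
  have hsum : Summable (fun n : ℕ => 1 / (n : ℝ) ^ ((5 : ℝ) / 4)) :=
    Real.summable_one_div_nat_rpow.2 (by norm_num)
  refine ⟨Real.exp (8 * ∑' n : ℕ, 1 / (n : ℝ) ^ ((5 : ℝ) / 4)), Real.exp_pos _, ?_⟩
  intro S hS X hX
  have h1 : ∀ T ∈ S.powerset.filter (fun T => (prd T : ℝ) ≤ X), ∏ p ∈ T, (8 : ℝ) / p ≤
      X ^ ((1 : ℝ) / 4) * ∏ p ∈ T, 8 * (1 / (p : ℝ) ^ ((5 : ℝ) / 4)) := by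
    intro T hT
    rw [mem_filter, mem_powerset] at hT
    have hpos : ∀ p ∈ T, (0 : ℝ) < p := fun p hp => by exact_mod_cast hS p (hT.1 hp)
    have h2 : ∏ p ∈ T, (8 : ℝ) / p = (∏ p ∈ T, (p : ℝ)) ^ ((1 : ℝ) / 4) *
        ∏ p ∈ T, 8 * (1 / (p : ℝ) ^ ((5 : ℝ) / 4)) := by
      rw [← Real.finsetProd_rpow _ _ (fun p hp => (hpos p hp).le), ← Finset.prod_mul_distrib]
      apply Finset.prod_congr rfl
      intro p hp
      have h3 := hpos p hp
      have h4 : (p : ℝ) ^ ((5 : ℝ) / 4) = (p : ℝ) ^ ((1 : ℝ) / 4) * p := by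
        rw [show ((5 : ℝ) / 4) = 1 / 4 + 1 by norm_num, Real.rpow_add h3, Real.rpow_one]
      have h5 : (0 : ℝ) < (p : ℝ) ^ ((1 : ℝ) / 4) := Real.rpow_pos_of_pos h3 _
      rw [h4]
      field_simp
    rw [h2]
    apply mul_le_mul_of_nonneg_right
    · apply Real.rpow_le_rpow
      · exact Finset.prod_nonneg (fun p hp => (hpos p hp).le)
      · have h6 : ((prd T : ℕ) : ℝ) = ∏ p ∈ T, (p : ℝ) := by
          rw [prd]; push_cast; rfl
        rw [← h6]
        exact hT.2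
      · norm_num
    · exact Finset.prod_nonneg (fun p hp => by positivity)
  calc ∑ T ∈ S.powerset.filter (fun T => (prd T : ℝ) ≤ X), ∏ p ∈ T, (8 : ℝ) / p
      ≤ ∑ T ∈ S.powerset.filter (fun T => (prd T : ℝ) ≤ X),
        X ^ ((1 : ℝ) / 4) * ∏ p ∈ T, 8 * (1 / (p : ℝ) ^ ((5 : ℝ) / 4)) := Finset.sum_le_sum h1
    _ ≤ ∑ T ∈ S.powerset, X ^ ((1 : ℝ) / 4) * ∏ p ∈ T, 8 * (1 / (p : ℝ) ^ ((5 : ℝ) / 4)) := by
        apply Finset.sum_le_sum_of_subset_of_nonneg (Finset.filter_subset _ _)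
        intro T _ _
        have : (0 : ℝ) ≤ X ^ ((1 : ℝ) / 4) := (Real.rpow_pos_of_pos hX _).le
        exact mul_nonneg this (Finset.prod_nonneg (fun p hp => by positivity))
    _ = X ^ ((1 : ℝ) / 4) * ∏ p ∈ S, (1 + 8 * (1 / (p : ℝ) ^ ((5 : ℝ) / 4))) := by
        rw [← Finset.mul_sum, pa_sum_prod S (fun p => 8 * (1 / (p : ℝ) ^ ((5 : ℝ) / 4)))]
    _ ≤ X ^ ((1 : ℝ) / 4) * Real.exp (8 * ∑' n : ℕ, 1 / (n : ℝ) ^ ((5 : ℝ) / 4)) := by
        apply mul_le_mul_of_nonneg_left _ (Real.rpow_pos_of_pos hX _).le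
        calc ∏ p ∈ S, (1 + 8 * (1 / (p : ℝ) ^ ((5 : ℝ) / 4)))
            ≤ Real.exp (∑ p ∈ S, 8 * (1 / (p : ℝ) ^ ((5 : ℝ) / 4))) := by
              rw [Real.exp_sum]
              apply Finset.prod_le_prod
              · intro p _
                positivity
              · intro p _
                linarith [Real.add_one_le_exp (8 * (1 / (p : ℝ) ^ ((5 : ℝ) / 4)))]
          _ ≤ _ := by
              apply Real.exp_le_exp.2
              rw [← Finset.mul_sum]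
              apply mul_le_mul_of_nonneg_left _ (by norm_num)
              exact hsum.sum_le_tsum S (fun n _ => by positivity)
    _ = _ := by ring

theorem pa_count (J Q a : ℕ) (hQ : 0 < Q) (ha : a < Q) (T : Finset ℕ) (hT : ∀ p ∈ T, p.Prime)
    (hQT : ∀ p ∈ T, Nat.Coprime Q p) (q t : ℕ) (hqT : ∀ p ∈ T, ¬ p ∣ q) :
    (#(((Icc 1 J).filter (fun j => j % Q = a)).filter
      (fun j => ∀ p ∈ T, q * j ^ 2 ≡ t [MOD p])) : ℝ) ≤
      ((J + 1 : ℕ) : ℝ) / Q * ∏ p ∈ T, ((2 : ℝ) / p) + ∏ p ∈ T, (2 : ℝ) := by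
  classical
  have h := Pool.Agent.Work.MP_f473e4_nt.crt_count (J + 1) T hT Q a hQ ha hQT
    (fun p => (range p).filter (fun r => q * r ^ 2 ≡ t [MOD p])) (fun p => filter_subset _ _)
  have h1 : #(((Icc 1 J).filter (fun j => j % Q = a)).filter
      (fun j => ∀ p ∈ T, q * j ^ 2 ≡ t [MOD p])) ≤
      #((range (J + 1)).filter (fun m => m % Q = a ∧
        ∀ p ∈ T, m % p ∈ (range p).filter (fun r => q * r ^ 2 ≡ t [MOD p]))) := by
    apply card_le_card
    intro j hj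
    simp only [mem_filter, mem_Icc, mem_range] at hj ⊢
    refine ⟨by omega, hj.1.2, ?_⟩
    intro p hp
    refine ⟨Nat.mod_lt _ (hT p hp).pos, ?_⟩
    refine Nat.ModEq.trans ?_ (hj.2 p hp)
    exact Nat.ModEq.mul_left _ ((Nat.mod_modEq j p).pow 2)
  have h2 : ∀ p ∈ T, ((#((range p).filter (fun r => q * r ^ 2 ≡ t [MOD p])) : ℕ) : ℝ) ≤ 2 := by
    intro p hp
    exact_mod_cast pa_roots p q t (hT p hp) (hqT p hp)
  have h3 : ∏ p ∈ T, (((#((range p).filter (fun r => q * r ^ 2 ≡ t [MOD p])) : ℕ) : ℝ) / p) ≤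
      ∏ p ∈ T, ((2 : ℝ) / p) := by
    apply Finset.prod_le_prod
    · intro p _
      positivity
    · intro p hp
      exact div_le_div_of_nonneg_right (h2 p hp) (Nat.cast_nonneg _)
  have h4 : ∏ p ∈ T, ((#((range p).filter (fun r => q * r ^ 2 ≡ t [MOD p])) : ℕ) : ℝ) ≤
      ∏ p ∈ T, (2 : ℝ) := by
    apply Finset.prod_le_prod
    · intro p _
      positivity
    · intro p hp
      exact h2 p hp
  have h5 := (abs_le.1 h).2
  have h6 : (0 : ℝ) ≤ ((J + 1 : ℕ) : ℝ) / Q := by positivity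
  have h7 := mul_le_mul_of_nonneg_left h3 h6
  have h8 : ((#(((Icc 1 J).filter (fun j => j % Q = a)).filter
      (fun j => ∀ p ∈ T, q * j ^ 2 ≡ t [MOD p])) : ℕ) : ℝ) ≤
      ((#((range (J + 1)).filter (fun m => m % Q = a ∧
        ∀ p ∈ T, m % p ∈ (range p).filter (fun r => q * r ^ 2 ≡ t [MOD p]))) : ℕ) : ℝ) := by
    exact_mod_cast h1
  linarith

theorem pa_inner (E : ℝ) (hE : ∀ (S : Finset ℕ), (∀ p ∈ S, 0 < p) → ∀ X : ℝ, 0 < X →
    ∑ T ∈ S.powerset.filter (fun T => (prd T : ℝ) ≤ X), ∏ p ∈ T, (8 : ℝ) / p ≤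
      E * X ^ ((1 : ℝ) / 4)) (w q t J Q a : ℕ) (hw : 16 ≤ w) (hQ : 0 < Q) (ha : a < Q)
    (S : Finset ℕ) (hS : ∀ p ∈ S, p.Prime) (hSw : ∀ p ∈ S, w < p) (hSq : ∀ p ∈ S, ¬ p ∣ q)
    (hQS : ∀ p ∈ S, Nat.Coprime Q p) (X : ℝ) (hX : 0 < X)
    (hqX : ∀ j ∈ Icc 1 J, ((q * j ^ 2 : ℕ) : ℝ) ≤ X) (htX : (t : ℝ) ≤ X) :
    ∑ j ∈ (Icc 1 J).filter (fun j => j % Q = a), (if q * j ^ 2 = t then 0 else
      ∏ p ∈ S.filter (fun p => q * j ^ 2 ≡ t [MOD p]), (1 + 4 / (p : ℝ))) ≤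
      #((Icc 1 J).filter (fun j => j % Q = a)) + ((J + 1 : ℕ) : ℝ) / Q * (16 / w) +
        E * X ^ ((1 : ℝ) / 4) := by
  classical
  set js := (Icc 1 J).filter (fun j => j % Q = a) with hjs
  set F := S.powerset.filter (fun T => (prd T : ℝ) ≤ X) with hF
  have hFS : ∀ T ∈ F, T ⊆ S := fun T hT => mem_powerset.1 (mem_filter.1 hT).1
  have hnn : ∀ T : Finset ℕ, (0 : ℝ) ≤ ∏ p ∈ T, (4 : ℝ) / p :=
    fun T => Finset.prod_nonneg (fun p _ => by positivity)
  have hnn8 : ∀ T : Finset ℕ, (0 : ℝ) ≤ ∏ p ∈ T, (8 : ℝ) / p :=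
    fun T => Finset.prod_nonneg (fun p _ => by positivity)
  have hnn82 : ∀ T : Finset ℕ, (0 : ℝ) ≤ ∏ p ∈ T, (8 : ℝ) / p ^ 2 :=
    fun T => Finset.prod_nonneg (fun p _ => by positivity)
  have h1 : ∀ j ∈ js, (if q * j ^ 2 = t then (0 : ℝ) else
      ∏ p ∈ S.filter (fun p => q * j ^ 2 ≡ t [MOD p]), (1 + 4 / (p : ℝ))) ≤
      ∑ T ∈ F, (if ∀ p ∈ T, q * j ^ 2 ≡ t [MOD p] then ∏ p ∈ T, (4 : ℝ) / p else 0) := by
    intro j hj
    have hjJ : j ∈ Icc 1 J := (mem_filter.1 hj).1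
    split_ifs with h
    · apply Finset.sum_nonneg
      intro T _
      split_ifs
      · exact hnn T
      · exact le_refl _
    · rw [← pa_sum_prod, ← Finset.sum_filter]
      apply Finset.sum_le_sum_of_subset_of_nonneg
      · intro T hT
        rw [mem_powerset] at hT
        rw [mem_filter, hF, mem_filter, mem_powerset]
        have hTS : T ⊆ S := hT.trans (filter_subset _ _)
        have hmod : ∀ p ∈ T, q * j ^ 2 ≡ t [MOD p] := fun p hp => (mem_filter.1 (hT hp)).2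
        refine ⟨⟨hTS, ?_⟩, hmod⟩
        -- prd T divides the difference
        have hdvd : ((prd T : ℕ) : ℤ) ∣ ((t : ℤ) - ((q * j ^ 2 : ℕ) : ℤ)) := by
          rw [prd]
          have : ((∏ p ∈ T, p : ℕ) : ℤ) = ∏ p ∈ T, (p : ℤ) := by push_cast; rfl
          rw [this]
          apply Finset.prod_dvd_of_coprime
          · intro p hp p' hp' hpp'
            have := (Nat.coprime_primes (hS p (hTS hp)) (hS p' (hTS hp'))).2 hpp'
            exact Nat.isCoprime_iff_coprime.2 this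
          · intro p hp
            exact (Nat.modEq_iff_dvd).1 (hmod p hp)
        have hne : ((t : ℤ) - ((q * j ^ 2 : ℕ) : ℤ)) ≠ 0 := by
          intro h0
          apply h
          have : (t : ℤ) = ((q * j ^ 2 : ℕ) : ℤ) := by linarith
          exact_mod_cast this.symm
        have hle := Int.le_of_dvd (abs_pos.2 hne) ((dvd_abs _ _).2 hdvd)
        have hle2 : ((prd T : ℕ) : ℝ) ≤ |(t : ℝ) - ((q * j ^ 2 : ℕ) : ℝ)| := by
          exact_mod_cast hle
        refine hle2.trans ?_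
        have h5 := hqX j hjJ
        have h6 : (0 : ℝ) ≤ ((q * j ^ 2 : ℕ) : ℝ) := Nat.cast_nonneg _
        have h7 : (0 : ℝ) ≤ (t : ℝ) := Nat.cast_nonneg _
        rw [abs_le]
        constructor <;> linarith
      · intro T _ _
        exact hnn T
  have h2 : ∑ j ∈ js, ∑ T ∈ F,
      (if ∀ p ∈ T, q * j ^ 2 ≡ t [MOD p] then ∏ p ∈ T, (4 : ℝ) / p else 0) =
      ∑ T ∈ F, #(js.filter (fun j => ∀ p ∈ T, q * j ^ 2 ≡ t [MOD p])) * ∏ p ∈ T, (4 : ℝ) / p := by
    rw [Finset.sum_comm]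
    apply Finset.sum_congr rfl
    intro T _
    rw [← Finset.sum_filter, Finset.sum_const, nsmul_eq_mul]
  have h3 : ∀ T ∈ F, #(js.filter (fun j => ∀ p ∈ T, q * j ^ 2 ≡ t [MOD p])) *
      ∏ p ∈ T, (4 : ℝ) / p ≤ (if T = ∅ then ((#(js) : ℕ) : ℝ) else 0) +
        ((J + 1 : ℕ) : ℝ) / Q * (∏ p ∈ T, (8 : ℝ) / p ^ 2 - if T = ∅ then 1 else 0) +
        ∏ p ∈ T, (8 : ℝ) / p := by
    intro T hT
    by_cases hT0 : T = ∅
    · subst hT0
      simp
    · rw [if_neg hT0, if_neg hT0]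
      have h4 := pa_count J Q a hQ ha T (fun p hp => hS p (hFS T hT hp))
        (fun p hp => hQS p (hFS T hT hp)) q t (fun p hp => hSq p (hFS T hT hp))
      have h5 := mul_le_mul_of_nonneg_right h4 (hnn T)
      have h6 : (∏ p ∈ T, ((2 : ℝ) / p)) * (∏ p ∈ T, (4 : ℝ) / p) = ∏ p ∈ T, (8 : ℝ) / p ^ 2 := by
        rw [← Finset.prod_mul_distrib]
        apply Finset.prod_congr rfl
        intro p hp
        have : (p : ℝ) ≠ 0 := by exact_mod_cast (hS p (hFS T hT hp)).ne_zero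
        field_simp
        norm_num
      have h7 : (∏ p ∈ T, (2 : ℝ)) * (∏ p ∈ T, (4 : ℝ) / p) = ∏ p ∈ T, (8 : ℝ) / p := by
        rw [← Finset.prod_mul_distrib]
        apply Finset.prod_congr rfl
        intro p hp
        ring
      calc _ ≤ _ := h5
        _ = ((J + 1 : ℕ) : ℝ) / Q * ((∏ p ∈ T, ((2 : ℝ) / p)) * (∏ p ∈ T, (4 : ℝ) / p)) +
          (∏ p ∈ T, (2 : ℝ)) * (∏ p ∈ T, (4 : ℝ) / p) := by ring
        _ = _ := by rw [h6, h7]; ring
  have hM : (0 : ℝ) ≤ ((J + 1 : ℕ) : ℝ) / Q := by positivity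
  have h4 : ∑ T ∈ F, (if T = ∅ then ((#(js) : ℕ) : ℝ) else 0) ≤ ((#(js) : ℕ) : ℝ) := by
    rw [Finset.sum_ite_eq']
    split_ifs
    · exact le_refl _
    · positivity
  have h5 : ∑ T ∈ F, (∏ p ∈ T, (8 : ℝ) / p ^ 2 - if T = ∅ then 1 else 0) ≤ 16 / w := by
    calc ∑ T ∈ F, (∏ p ∈ T, (8 : ℝ) / p ^ 2 - if T = ∅ then 1 else 0)
        ≤ ∑ T ∈ S.powerset, (∏ p ∈ T, (8 : ℝ) / p ^ 2 - if T = ∅ then 1 else 0) := by
          apply Finset.sum_le_sum_of_subset_of_nonneg (filter_subset _ _)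
          intro T _ _
          split_ifs with h0
          · subst h0; simp
          · simpa using hnn82 T
      _ = ∑ T ∈ S.powerset, ∏ p ∈ T, (8 : ℝ) / p ^ 2 - 1 := by
          rw [Finset.sum_sub_distrib]
          congr 1
          rw [Finset.sum_ite_eq']
          simp
      _ ≤ 16 / w := by
          have := pa_exp S w hw hSw
          linarith
  have h6 := hE S (fun p hp => (hS p hp).pos) X hX
  calc ∑ j ∈ js, (if q * j ^ 2 = t then 0 else
      ∏ p ∈ S.filter (fun p => q * j ^ 2 ≡ t [MOD p]), (1 + 4 / (p : ℝ)))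
      ≤ ∑ j ∈ js, ∑ T ∈ F,
        (if ∀ p ∈ T, q * j ^ 2 ≡ t [MOD p] then ∏ p ∈ T, (4 : ℝ) / p else 0) :=
        Finset.sum_le_sum h1
    _ = _ := h2
    _ ≤ ∑ T ∈ F, ((if T = ∅ then ((#(js) : ℕ) : ℝ) else 0) +
        ((J + 1 : ℕ) : ℝ) / Q * (∏ p ∈ T, (8 : ℝ) / p ^ 2 - if T = ∅ then 1 else 0) +
        ∏ p ∈ T, (8 : ℝ) / p) := Finset.sum_le_sum h3
    _ = ∑ T ∈ F, (if T = ∅ then ((#(js) : ℕ) : ℝ) else 0) + ((J + 1 : ℕ) : ℝ) / Q *
        ∑ T ∈ F, (∏ p ∈ T, (8 : ℝ) / p ^ 2 - if T = ∅ then 1 else 0) +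
        ∑ T ∈ F, ∏ p ∈ T, (8 : ℝ) / p := by
        rw [Finset.sum_add_distrib, Finset.sum_add_distrib, Finset.mul_sum]
    _ ≤ _ := by
        have h7 := mul_le_mul_of_nonneg_left h5 hM
        linarith

theorem pa_ratio (k k' w N q q' : ℕ) (hw : 16 ≤ w) (hq : w < q) (hq' : w < q') :
    VV {k, k'} w N / (VV {k} w N * VV {k'} w N) ≤
      (1 + 9 / (w : ℝ)) * ∏ p ∈ ((SS w N) \ {q, q'}).filter (fun p => k ≡ k' [MOD p]),
        (1 + 4 / (p : ℝ)) := by
  classical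
  have hw0 : (16 : ℝ) ≤ w := by exact_mod_cast hw
  have hpos : 0 < VV {k} w N * VV {k'} w N :=
    mul_pos (VV_pos k w N (by omega)) (VV_pos k' w N (by omega))
  rw [div_le_iff₀ hpos]
  have h1 := VV_pair k k' w N (by omega)
  refine h1.trans ?_
  rw [mul_comm (VV {k} w N * VV {k'} w N)]
  apply mul_le_mul_of_nonneg_right _ hpos.le
  rw [← Finset.prod_filter_mul_prod_filter_not ((SS w N).filter (fun p => k ≡ k' [MOD p]))
    (fun p => p ∈ ({q, q'} : Finset ℕ))]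
  have h2 : ((SS w N).filter (fun p => k ≡ k' [MOD p])).filter (fun p => ¬ p ∈ ({q, q'} : Finset ℕ)) =
      ((SS w N) \ {q, q'}).filter (fun p => k ≡ k' [MOD p]) := by
    ext p
    simp only [Finset.mem_filter, Finset.mem_sdiff]
    tauto
  rw [h2]
  apply mul_le_mul_of_nonneg_right
  · set B := ((SS w N).filter (fun p => k ≡ k' [MOD p])).filter (fun p => p ∈ ({q, q'} : Finset ℕ)) with hB
    have hBsub : B ⊆ ({q, q'} : Finset ℕ) := by
      intro p hp
      exact (mem_filter.1 hp).2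
    have hBc : #B ≤ 2 := (card_le_card hBsub).trans (Finset.card_le_two)
    have h3 : ∏ p ∈ B, (1 + 4 / (p : ℝ)) ≤ ∏ p ∈ B, (1 + 4 / (w : ℝ)) := by
      apply Finset.prod_le_prod
      · intro p _
        positivity
      · intro p hp
        have h4 : w < p := by
          have h5 := hBsub hp
          rw [mem_insert, mem_singleton] at h5
          rcases h5 with h5 | h5 <;> omega
        have h5 : (w : ℝ) ≤ p := by exact_mod_cast h4.le
        have h6 : (4 : ℝ) / p ≤ 4 / w := by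
          apply div_le_div_of_nonneg_left (by norm_num) (by linarith) h5
        linarith
    have h4 : ∏ p ∈ B, (1 + 4 / (w : ℝ)) ≤ (1 + 4 / (w : ℝ)) ^ 2 := by
      rw [Finset.prod_const]
      have h7 : (0 : ℝ) ≤ 4 / (w : ℝ) := by positivity
      apply pow_le_pow_right₀ (by linarith) hBc
    have h5 : (1 + 4 / (w : ℝ)) ^ 2 ≤ 1 + 9 / (w : ℝ) := by
      have h6 : (1 : ℝ) / w ≤ 1 / 16 := by
        apply div_le_div_of_nonneg_left (by norm_num) (by norm_num) hw0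
      have h7 : (0 : ℝ) ≤ 1 / (w : ℝ) := by positivity
      have h8 : (4 : ℝ) / w = 4 * (1 / w) := by ring
      have h9 : (9 : ℝ) / w = 9 * (1 / w) := by ring
      rw [h8, h9]
      nlinarith
    linarith
  · apply Finset.prod_nonneg
    intro p _
    positivity

theorem pa_event (c D B : ℝ) (hc : 0 < c) (hD : 0 < D) (hB : 0 ≤ B) :
    ∀ᶠ N : ℕ in atTop, 0 < Real.log N ∧
      34 + B * (c * Real.log N ^ 2) ^ ((1 : ℝ) / 4) ≤ D * Real.log N := by
  have hlog : Tendsto (fun N : ℕ => Real.log N) atTop atTop :=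
    Real.tendsto_log_atTop.comp tendsto_natCast_atTop_atTop
  set δ : ℝ := D / (2 * (B + 1)) with hδ
  have hδ0 : 0 < δ := by positivity
  have h1 : ∀ᶠ L : ℝ in atTop, 0 < L ∧ c / δ ^ 4 ≤ L ^ 2 ∧ 68 / D ≤ L := by
    refine (eventually_gt_atTop 0).and (((tendsto_pow_atTop (two_ne_zero)).eventually_ge_atTop _).and
      (eventually_ge_atTop _))
  filter_upwards [hlog.eventually h1] with N hN
  obtain ⟨hL, h2, h3⟩ := hN
  refine ⟨hL, ?_⟩
  set L := Real.log N with hLdef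
  have h4 : (c * L ^ 2) ^ ((1 : ℝ) / 4) ≤ δ * L := by
    have h5 : c * L ^ 2 ≤ (δ * L) ^ 4 := by
      rw [div_le_iff₀ (by positivity)] at h2
      have : (δ * L) ^ 4 = (L ^ 2 * δ ^ 4) * L ^ 2 := by ring
      rw [this]
      exact mul_le_mul_of_nonneg_right h2 (by positivity)
    have h6 : (c * L ^ 2) ^ ((1 : ℝ) / 4) ≤ ((δ * L) ^ 4) ^ ((1 : ℝ) / 4) :=
      Real.rpow_le_rpow (by positivity) h5 (by norm_num)
    have h7 : ((δ * L) ^ 4) ^ ((1 : ℝ) / 4) = δ * L := by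
      rw [← Real.rpow_natCast, ← Real.rpow_mul (by positivity)]
      norm_num
    rw [h7] at h6
    exact h6
  have h5 : B * (c * L ^ 2) ^ ((1 : ℝ) / 4) ≤ D * L / 2 := by
    have h6 := mul_le_mul_of_nonneg_left h4 hB
    have h7 : B * (δ * L) ≤ (B + 1) * (δ * L) := by
      apply mul_le_mul_of_nonneg_right (by linarith) (by positivity)
    have h8 : (B + 1) * (δ * L) = D * L / 2 := by
      rw [hδ]
      field_simp
    linarith
  have h6 : 34 ≤ D * L / 2 := by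
    rw [div_le_iff₀ hD] at h3
    linarith
  linarith

theorem pair_avg : ∃ C : ℝ, 0 < C ∧ ∀ w : ℕ, 16 ≤ w → ∀ q q' : ℕ, q.Prime → q'.Prime →
    q % 4 = 3 → q' % 4 = 3 → w < q → w < q' → ∀ c : ℝ, 0 < c → ∀ᶠ N : ℕ in atTop, ∀ b : ℕ,
    ∑ j ∈ js c q N (primorial w) b, ∑ j' ∈ js c q' N (primorial w) b,
      (if q * j ^ 2 = q' * j' ^ 2 then 0 else
        VV {q * j ^ 2, q' * j' ^ 2} w N / (VV {q * j ^ 2} w N * VV {q' * j' ^ 2} w N)) ≤
      (1 + C / w) * #(js c q N (primorial w) b) * #(js c q' N (primorial w) b) := by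
  classical
  obtain ⟨E, hE0, hE⟩ := pa_rankin
  refine ⟨36, by norm_num, ?_⟩
  intro w hw q q' hq hq' _ _ hwq hwq' c hc
  have hw0 : (16 : ℝ) ≤ w := by exact_mod_cast hw
  set Q := primorial w with hQdef
  have hQ : 0 < Q := primorial_pos w
  have hQR : (0 : ℝ) < Q := by exact_mod_cast hQ
  have hqR : (0 : ℝ) < q := by exact_mod_cast hq.pos
  have hqR' : (0 : ℝ) < q' := by exact_mod_cast hq'.pos
  have hD : 0 < √(c / q) / Q := by positivity
  filter_upwards [pa_event c (√(c / q) / Q) (w * E) hc hD (by positivity)] with N hN b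
  obtain ⟨hL, hN2⟩ := hN
  set L := Real.log N with hLdef
  set X := c * L ^ 2 with hX
  have hX0 : 0 < X := by positivity
  -- sizes of the numbers q j^2
  have hsize : ∀ r : ℕ, 0 < r → ∀ j ∈ Icc 1 (JJ c r N), ((r * j ^ 2 : ℕ) : ℝ) ≤ X := by
    intro r hr j hj
    have hrR : (0 : ℝ) < r := by exact_mod_cast hr
    rw [mem_Icc, JJ] at hj
    have h1 : (j : ℝ) ≤ √(c / r) * L := by
      have h2 : (j : ℝ) ≤ (⌊√(c / r) * Real.log N⌋₊ : ℝ) := by exact_mod_cast hj.2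
      refine h2.trans (Nat.floor_le ?_)
      positivity
    have h2 : (j : ℝ) ^ 2 ≤ (√(c / r) * L) ^ 2 := by
      apply pow_le_pow_left₀ (Nat.cast_nonneg _) h1
    have h3 : (√(c / r) * L) ^ 2 = c / r * L ^ 2 := by
      rw [mul_pow, Real.sq_sqrt (by positivity)]
    push_cast
    calc (r : ℝ) * (j : ℝ) ^ 2 ≤ r * (c / r * L ^ 2) := by
          rw [← h3]
          exact mul_le_mul_of_nonneg_left h2 hrR.le
      _ = X := by
          rw [hX]
          field_simp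
  -- lower bound for the number of j
  set J := JJ c q N with hJ
  have hjs : js c q N Q b = (Icc 1 J).filter (fun j => j % Q = b % Q) := rfl
  have hcard : ((J + 1 : ℕ) : ℝ) / Q ≤ #(js c q N Q b) + 2 := by
    have h1 := Pool.Agent.Work.MP_f473e4_nt.crt_base (J + 1) Q (b % Q) hQ (Nat.mod_lt _ hQ)
    have h2 : #((range (J + 1)).filter (fun m => m % Q = b % Q)) ≤ #(js c q N Q b) + 1 := by
      have h3 : (range (J + 1)).filter (fun m => m % Q = b % Q) ⊆ insert 0 (js c q N Q b) := by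
        intro m hm
        rw [mem_filter, mem_range] at hm
        rw [mem_insert, hjs, mem_filter, mem_Icc]
        by_cases h0 : m = 0
        · left; exact h0
        · right
          exact ⟨⟨by omega, by omega⟩, hm.2⟩
      exact (card_le_card h3).trans (card_insert_le _ _)
    have h4 : ((#((range (J + 1)).filter (fun m => m % Q = b % Q)) : ℕ) : ℝ) ≤
        #(js c q N Q b) + 1 := by exact_mod_cast h2
    have h5 := (abs_le.1 h1).1
    linarith
  have hJlow : √(c / q) / Q * L ≤ ((J + 1 : ℕ) : ℝ) / Q := by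
    have h1 : √(c / q) * L < ((J + 1 : ℕ) : ℝ) := by
      push_cast
      exact Nat.lt_floor_add_one _
    rw [div_mul_eq_mul_div]
    exact div_le_div_of_nonneg_right h1.le hQR.le
  have hbig : 32 + w * E * X ^ ((1 : ℝ) / 4) ≤ #(js c q N Q b) := by linarith
  -- the inner sums
  have hinner : ∀ j' ∈ js c q' N Q b, ∑ j ∈ js c q N Q b,
      (if q * j ^ 2 = q' * j' ^ 2 then 0 else
        VV {q * j ^ 2, q' * j' ^ 2} w N / (VV {q * j ^ 2} w N * VV {q' * j' ^ 2} w N)) ≤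
      (1 + 36 / w) * #(js c q N Q b) := by
    intro j' hj'
    have hj'J : j' ∈ Icc 1 (JJ c q' N) := (mem_filter.1 hj').1
    have h1 := pa_inner E hE w q (q' * j' ^ 2) J Q (b % Q) hw hQ (Nat.mod_lt _ hQ)
      ((SS w N) \ {q, q'})
      (fun p hp => (mem_filter.1 (Finset.mem_sdiff.1 hp).1).2)
      (fun p hp => (mem_Ioc.1 (mem_filter.1 (Finset.mem_sdiff.1 hp).1).1).1)
      (by
        intro p hp hpq
        have h2 := (Nat.prime_dvd_prime_iff_eq (mem_filter.1 (Finset.mem_sdiff.1 hp).1).2 hq).1 hpq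
        apply (Finset.mem_sdiff.1 hp).2
        rw [h2]
        exact mem_insert_self _ _)
      (by
        intro p hp
        have hpp : p.Prime := (mem_filter.1 (Finset.mem_sdiff.1 hp).1).2
        have hwp : w < p := (mem_Ioc.1 (mem_filter.1 (Finset.mem_sdiff.1 hp).1).1).1
        rw [Nat.coprime_comm, Nat.Prime.coprime_iff_not_dvd hpp, hQdef, hpp.dvd_primorial_iff]
        omega)
      X hX0 (hsize q hq.pos) (hsize q' hq'.pos j' hj'J)
    have h2 : ∑ j ∈ js c q N Q b, (if q * j ^ 2 = q' * j' ^ 2 then 0 else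
        VV {q * j ^ 2, q' * j' ^ 2} w N / (VV {q * j ^ 2} w N * VV {q' * j' ^ 2} w N)) ≤
        (1 + 9 / (w : ℝ)) * ∑ j ∈ js c q N Q b, (if q * j ^ 2 = q' * j' ^ 2 then 0 else
          ∏ p ∈ ((SS w N) \ {q, q'}).filter (fun p => q * j ^ 2 ≡ q' * j' ^ 2 [MOD p]),
            (1 + 4 / (p : ℝ))) := by
      rw [Finset.mul_sum]
      apply Finset.sum_le_sum
      intro j _
      split_ifs with h0
      · simp
      · exact pa_ratio _ _ w N q q' hw hwq hwq'
    rw [hjs] at h2 hcard hbig ⊢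
    set n : ℝ := ((#((Icc 1 J).filter (fun j => j % Q = b % Q)) : ℕ) : ℝ) with hn
    have h3 : n + ((J + 1 : ℕ) : ℝ) / Q * (16 / w) + E * X ^ ((1 : ℝ) / 4) ≤ (1 + 17 / w) * n := by
      have h4 : ((J + 1 : ℕ) : ℝ) / Q * (16 / w) ≤ (n + 2) * (16 / w) :=
        mul_le_mul_of_nonneg_right hcard (by positivity)
      have h5 : (n + 2) * (16 / w) + E * X ^ ((1 : ℝ) / 4) =
          n * (16 / w) + (32 + w * E * X ^ ((1 : ℝ) / 4)) / w := by
        field_simp
        ring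
      have h6 : (32 + w * E * X ^ ((1 : ℝ) / 4)) / w ≤ n / w :=
        div_le_div_of_nonneg_right hbig (by linarith)
      have h7 : (1 + 17 / (w : ℝ)) * n = n + n * (16 / w) + n / w := by ring
      linarith
    have hn0 : 0 ≤ n := Nat.cast_nonneg _
    have h4 : (1 + 9 / (w : ℝ)) * (1 + 17 / w) ≤ 1 + 36 / w := by
      have h6 : (1 : ℝ) / w ≤ 1 / 16 := by
        apply div_le_div_of_nonneg_left (by norm_num) (by norm_num) hw0
      have h7 : (0 : ℝ) ≤ 1 / (w : ℝ) := by positivity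
      have h8 : (17 : ℝ) / w = 17 * (1 / w) := by ring
      have h9 : (9 : ℝ) / w = 9 * (1 / w) := by ring
      have h10 : (36 : ℝ) / w = 36 * (1 / w) := by ring
      rw [h8, h9, h10]
      nlinarith
    have h5 : (0 : ℝ) ≤ 1 + 9 / (w : ℝ) := by positivity
    calc _ ≤ _ := h2
      _ ≤ (1 + 9 / (w : ℝ)) * (n + ((J + 1 : ℕ) : ℝ) / Q * (16 / w) + E * X ^ ((1 : ℝ) / 4)) :=
          mul_le_mul_of_nonneg_left h1 h5
      _ ≤ (1 + 9 / (w : ℝ)) * ((1 + 17 / w) * n) := mul_le_mul_of_nonneg_left h3 h5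
      _ = ((1 + 9 / (w : ℝ)) * (1 + 17 / w)) * n := by ring
      _ ≤ (1 + 36 / w) * n := mul_le_mul_of_nonneg_right h4 hn0
  rw [Finset.sum_comm]
  calc _ ≤ ∑ j' ∈ js c q' N Q b, (1 + 36 / (w : ℝ)) * #(js c q N Q b) := Finset.sum_le_sum hinner
    _ = _ := by
        rw [Finset.sum_const, nsmul_eq_mul]
        ring

end Pool.Agent.Work.MP_73869e_nt.AP
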