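import Mathlib
import Pool.Agent.Work.MP_73869e_nt.AP.Defs
import Pool.Agent.Work.MP_73869e_nt.AP.Loc
import Pool.Agent.Work.MP_73869e_nt.AP.MertQ
import Pool.Agent.Work.MP_2dba45_nt.Psum

set_option autoImplicit false

namespace Pool.Agent.Work.MP_73869e_nt.AP.VGa

open Finset Filter Pool.Agent.Work.MP_2dba45_nt.Sel Pool.Agent.Work.MP_2dba45_nt.Mert
open Pool.Agent.Work.MP_73869e_nt.AP Pool.Agent.Work.MP_73869e_nt.AP.MertQ ArithmeticFunction

theorem sum_inv_le (N : ℕ) : ∑ n ∈ Ioc 0 N, 1 / (n : ℝ) ≤ 1 + Real.log N := by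
  have h := harmonic_le_one_add_log N
  have h2 : ((harmonic N : ℚ) : ℝ) = ∑ n ∈ Ioc 0 N, 1 / (n : ℝ) := by
    rw [harmonic]
    push_cast
    rw [show Ioc 0 N = Ico (0 + 1) (N + 1) by ext x; simp only [mem_Ioc, mem_Ico]; omega,
      ← Finset.sum_Ico_add', Finset.range_eq_Ico]
    refine Finset.sum_congr rfl fun n _ => ?_
    push_cast
    rw [one_div]
  linarith

theorem LL_le (q : ℕ) (hq : q.Prime) (hq2 : q ≠ 2) (N : ℕ) : |LL (xq q) N| ≤ 2 + Real.log q := by
  haveI : Fact q.Prime := ⟨hq⟩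
  have hq1 : (1 : ℝ) ≤ q := by exact_mod_cast hq.one_lt.le
  have hsmall : ∀ M : ℕ, M ≤ q → |LL (xq q) M| ≤ 1 + Real.log q := by
    intro M hM
    unfold LL
    calc |∑ n ∈ Ioc 0 M, xq q n / n| ≤ ∑ n ∈ Ioc 0 M, |xq q n / n| := Finset.abs_sum_le_sum_abs _ _
      _ ≤ ∑ n ∈ Ioc 0 M, 1 / (n : ℝ) := by
          refine Finset.sum_le_sum fun n hn => ?_
          rw [abs_div, Nat.abs_cast]
          gcongr
          exact xq_le q n
      _ ≤ 1 + Real.log M := sum_inv_le M
      _ ≤ 1 + Real.log q := by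
          rcases Nat.eq_zero_or_pos M with rfl | hM0
          · simp only [Nat.cast_zero, Real.log_zero]; linarith [Real.log_nonneg hq1]
          · have : Real.log M ≤ Real.log q := Real.log_le_log (by exact_mod_cast hM0) (by exact_mod_cast hM)
            linarith
  rcases le_total N q with h | h
  · linarith [hsmall N h]
  · have h1 := LL_sub (good_xq q hq2) h
    have h2 := hsmall q le_rfl
    have h3 : (q : ℝ) / ((q : ℝ) + 1) ≤ 1 := by
      rw [div_le_one (by linarith)]; linarith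
    have h4 : |LL (xq q) N| ≤ |LL (xq q) q| + |LL (xq q) q - LL (xq q) N| := by
      have := abs_sub_abs_le_abs_sub (LL (xq q) N) (LL (xq q) q)
      rw [abs_sub_comm] at this
      linarith
    linarith

theorem xq_one (q : ℕ) : xq q 1 = 1 := by
  unfold xq
  rw [Nat.cast_one, jacobiSym.one_left]
  norm_num

theorem wC_mult (χ : ℕ → ℝ) (h1 : χ 1 = 1) (hm : ∀ m n, χ (m * n) = χ m * χ n) :
    (wC χ).IsMultiplicative := by
  refine ⟨by rw [wC_apply, h1]; norm_num, fun {m n} _ => ?_⟩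
  rw [wC_apply, wC_apply, wC_apply, hm, Nat.cast_mul, mul_div_mul_comm]

noncomputable def F (q : ℕ) : ArithmeticFunction ℝ := wC (fun _ => 1) * wC (xq q)

theorem F_mult (q : ℕ) : (F q).IsMultiplicative :=
  (wC_mult _ rfl (by simp)).mul (wC_mult _ (xq_one q) (xq_mul q))

theorem F_eq (q n : ℕ) (hn : n ≠ 0) : F q n = (∑ d ∈ n.divisors, xq q d) / n := by
  unfold F
  rw [ArithmeticFunction.mul_apply, Finset.sum_div, ← Nat.sum_divisorsAntidiagonal' (fun _ d => xq q d / n)]
  refine Finset.sum_congr rfl fun x hx => ?_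
  rw [Nat.mem_divisorsAntidiagonal] at hx
  have h4 : (n : ℝ) = x.1 * x.2 := by exact_mod_cast hx.1.symm
  rw [wC_apply, wC_apply, h4]
  have h1 : (x.1 : ℝ) ≠ 0 := by
    intro h0
    have : x.1 = 0 := by exact_mod_cast h0
    rw [this] at hx; simp at hx; omega
  have h2 : (x.2 : ℝ) ≠ 0 := by
    intro h0
    have : x.2 = 0 := by exact_mod_cast h0
    rw [this] at hx; simp at hx; omega
  field_simp

theorem xq_pow (q p k : ℕ) : xq q (p ^ k) = xq q p ^ k := by
  induction k with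
  | zero => simp [xq_one]
  | succ k ih => rw [pow_succ, xq_mul, ih, pow_succ]

theorem F_prime_pow (q p k : ℕ) (hp : p.Prime) : 0 ≤ F q (p ^ k) := by
  rw [F_eq q _ (pow_ne_zero _ hp.ne_zero)]
  apply div_nonneg _ (by positivity)
  rw [Nat.sum_divisors_prime_pow hp]
  simp_rw [xq_pow]
  have : xq q p = 0 ∨ xq q p = 1 ∨ xq q p = -1 := by
    unfold xq
    rcases jacobiSym.trichotomy (p : ℤ) q with h | h | h <;> rw [h] <;> simp
  rcases this with h | h | h
  · rw [h]; exact Finset.sum_nonneg fun i _ => by positivity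
  · rw [h]; exact Finset.sum_nonneg fun i _ => by positivity
  · rw [h, neg_one_geom_sum]
    split_ifs <;> norm_num

theorem F_nonneg (q n : ℕ) : 0 ≤ F q n := by
  rcases eq_or_ne n 0 with rfl | hn
  · simp
  · rw [ArithmeticFunction.IsMultiplicative.multiplicative_factorization _ (F_mult q) hn]
    refine Finset.prod_nonneg fun p hp => ?_
    exact F_prime_pow q p _ (Nat.prime_of_mem_primeFactors hp)

theorem F_prime (q p : ℕ) (hp : p.Prime) (h : jacobiSym p q = 1) : F q p = g p := by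
  rw [F_eq q _ hp.ne_zero, Nat.Prime.divisors hp, Finset.sum_pair hp.one_lt.ne, xq_one]
  unfold xq g
  rw [h]
  norm_num

theorem sum_F_le (q : ℕ) (hq : q.Prime) (hq2 : q ≠ 2) (X : ℕ) (hX : 1 ≤ X) :
    ∑ n ∈ Ioc 0 X, F q n ≤ (1 + Real.log X) * (2 + Real.log q) := by
  unfold F
  rw [ArithmeticFunction.sum_Ioc_mul_eq_sum_sum]
  have hq1 : (1 : ℝ) ≤ q := by exact_mod_cast hq.one_lt.le
  have hlq := Real.log_nonneg hq1
  calc ∑ n ∈ Ioc 0 X, wC (fun _ => 1) n * ∑ m ∈ Ioc 0 (X / n), wC (xq q) m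
      ≤ ∑ n ∈ Ioc 0 X, 1 / (n : ℝ) * (2 + Real.log q) := by
        refine Finset.sum_le_sum fun n _ => ?_
        rw [wC_apply]
        have h := LL_le q hq hq2 (X / n)
        have h2 : ∑ m ∈ Ioc 0 (X / n), wC (xq q) m = LL (xq q) (X / n) := rfl
        rw [h2]
        apply mul_le_mul_of_nonneg_left (le_trans (le_abs_self _) h) (by positivity)
    _ = (∑ n ∈ Ioc 0 X, 1 / (n : ℝ)) * (2 + Real.log q) := by rw [Finset.sum_mul]
    _ ≤ _ := by
        apply mul_le_mul_of_nonneg_right (sum_inv_le X) (by linarith)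

theorem prd_pos {T : Finset ℕ} (hT : ∀ p ∈ T, p.Prime) : 0 < prd T :=
  Finset.prod_pos fun p hp => (hT p hp).pos

theorem prd_inj {S T : Finset ℕ} (hS : ∀ p ∈ S, p.Prime) (hT : ∀ p ∈ T, p.Prime)
    (h : prd S = prd T) : S = T := by
  rw [← Nat.primeFactors_prod hS, ← Nat.primeFactors_prod hT]
  exact congrArg _ h

theorem sum_gg_le (q : ℕ) (hq : q.Prime) (hq2 : q ≠ 2) (B : Finset ℕ)
    (hB : ∀ p ∈ B, p.Prime ∧ jacobiSym p q = 1) (X : ℝ) (hX : 1 ≤ X) :
    ∑ T ∈ B.powerset with (prd T : ℝ) ≤ X, gg g T ≤ (1 + Real.log X) * (2 + Real.log q) := by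
  have hX1 : 1 ≤ ⌊X⌋₊ := Nat.le_floor (by simpa using hX)
  have hmem : ∀ T ∈ B.powerset.filter (fun T => (prd T : ℝ) ≤ X), ∀ p ∈ T, p.Prime ∧ jacobiSym p q = 1 := by
    intro T hT p hp
    exact hB p (Finset.mem_powerset.1 (Finset.mem_filter.1 hT).1 hp)
  have h1 : ∑ T ∈ B.powerset with (prd T : ℝ) ≤ X, gg g T =
      ∑ n ∈ (B.powerset.filter (fun T => (prd T : ℝ) ≤ X)).image prd, F q n := by
    rw [Finset.sum_image]
    · refine Finset.sum_congr rfl fun T hT => ?_
      unfold prd gg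
      rw [(F_mult q).map_prod_of_prime T (fun p hp => (hmem T hT p hp).1)]
      exact Finset.prod_congr rfl fun p hp => (F_prime q p (hmem T hT p hp).1 (hmem T hT p hp).2).symm
    · intro S hS T hT hST
      exact prd_inj (fun p hp => (hmem S hS p hp).1) (fun p hp => (hmem T hT p hp).1) hST
  rw [h1]
  calc ∑ n ∈ (B.powerset.filter (fun T => (prd T : ℝ) ≤ X)).image prd, F q n
      ≤ ∑ n ∈ Ioc 0 ⌊X⌋₊, F q n := by
        apply Finset.sum_le_sum_of_subset_of_nonneg
        · intro n hn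
          rw [Finset.mem_image] at hn
          obtain ⟨T, hT, rfl⟩ := hn
          rw [Finset.mem_Ioc]
          exact ⟨prd_pos fun p hp => (hmem T hT p hp).1, Nat.le_floor (Finset.mem_filter.1 hT).2⟩
        · intro n _ _; exact F_nonneg q n
    _ ≤ (1 + Real.log ⌊X⌋₊) * (2 + Real.log q) := sum_F_le q hq hq2 _ hX1
    _ ≤ _ := by
        have hq1 : (1 : ℝ) ≤ q := by exact_mod_cast hq.one_lt.le
        have hlq := Real.log_nonneg hq1
        have : Real.log (⌊X⌋₊ : ℝ) ≤ Real.log X :=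
          Real.log_le_log (by exact_mod_cast hX1) (Nat.floor_le (by linarith))
        gcongr

/-- the correction factor -/
theorem corr (B : Finset ℕ) (hB : ∀ p ∈ B, 1 ≤ p) (a b : ℕ → ℝ) (ha : ∀ p ∈ B, 0 ≤ a p)
    (hb : ∀ p ∈ B, 0 ≤ b p) (X : ℝ) :
    ∑ T ∈ B.powerset with (prd T : ℝ) ≤ X, ∏ p ∈ T, (a p + b p) ≤
      Real.exp (∑ p ∈ B, b p) * ∑ T ∈ B.powerset with (prd T : ℝ) ≤ X, ∏ p ∈ T, a p := by
  set A := B.powerset.filter (fun T => (prd T : ℝ) ≤ X) with hA
  have hAB : ∀ T ∈ A, T ⊆ B := fun T hT => Finset.mem_powerset.1 (Finset.mem_filter.1 hT).1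
  have h1 : ∀ T ∈ A, ∏ p ∈ T, (a p + b p) = ∑ S ∈ T.powerset, (∏ p ∈ S, b p) * ∏ p ∈ T \ S, a p := by
    intro T _
    rw [← Finset.prod_add (fun p => b p) (fun p => a p) T]
    exact Finset.prod_congr rfl fun p _ => add_comm _ _
  rw [Finset.sum_congr rfl h1]
  have h2 : ∑ T ∈ A, ∑ S ∈ T.powerset, (∏ p ∈ S, b p) * ∏ p ∈ T \ S, a p =
      ∑ S ∈ B.powerset, ∑ T ∈ A.filter (fun T => S ⊆ T), (∏ p ∈ S, b p) * ∏ p ∈ T \ S, a p := by
    apply Finset.sum_comm'
    intro T S
    simp only [Finset.mem_powerset, Finset.mem_filter]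
    constructor
    · rintro ⟨h, h'⟩; exact ⟨⟨h, h'⟩, h'.trans (hAB T h)⟩
    · rintro ⟨⟨h, h'⟩, _⟩; exact ⟨h, h'⟩
  rw [h2]
  have hprodB : ∀ S ⊆ B, 0 ≤ ∏ p ∈ S, b p := fun S hS => Finset.prod_nonneg fun p hp => hb p (hS hp)
  have hprodA : ∀ S ⊆ B, 0 ≤ ∏ p ∈ S, a p := fun S hS => Finset.prod_nonneg fun p hp => ha p (hS hp)
  have h3 : ∀ S ∈ B.powerset, ∑ T ∈ A.filter (fun T => S ⊆ T), (∏ p ∈ S, b p) * ∏ p ∈ T \ S, a p ≤
      (∏ p ∈ S, b p) * ∑ T ∈ A, ∏ p ∈ T, a p := by
    intro S hS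
    rw [← Finset.mul_sum]
    apply mul_le_mul_of_nonneg_left _ (hprodB S (Finset.mem_powerset.1 hS))
    have h4 : ∑ T ∈ A.filter (fun T => S ⊆ T), ∏ p ∈ T \ S, a p =
        ∑ T ∈ (A.filter (fun T => S ⊆ T)).image (fun T => T \ S), ∏ p ∈ T, a p := by
      rw [Finset.sum_image]
      intro T hT T' hT' h
      simp only [Finset.coe_filter, Set.mem_setOf_eq] at hT hT'
      have e1 := Finset.sdiff_union_of_subset hT.2
      have e2 := Finset.sdiff_union_of_subset hT'.2
      simp only at h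
      rw [← e1, ← e2, h]
    rw [h4]
    apply Finset.sum_le_sum_of_subset_of_nonneg
    · intro T' hT'
      rw [Finset.mem_image] at hT'
      obtain ⟨T, hT, rfl⟩ := hT'
      rw [Finset.mem_filter] at hT
      rw [hA, Finset.mem_filter, Finset.mem_powerset]
      refine ⟨Finset.sdiff_subset.trans (hAB T hT.1), le_trans ?_ (Finset.mem_filter.1 hT.1).2⟩
      norm_cast
      unfold prd
      exact Finset.prod_le_prod_of_subset_of_one_le' Finset.sdiff_subset (fun p hp _ => hB p (hAB T hT.1 hp))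
    · intro T hT _
      exact hprodA T (hAB T hT)
  calc ∑ S ∈ B.powerset, ∑ T ∈ A.filter (fun T => S ⊆ T), (∏ p ∈ S, b p) * ∏ p ∈ T \ S, a p
      ≤ ∑ S ∈ B.powerset, (∏ p ∈ S, b p) * ∑ T ∈ A, ∏ p ∈ T, a p := Finset.sum_le_sum h3
    _ = (∏ p ∈ B, (1 + b p)) * ∑ T ∈ A, ∏ p ∈ T, a p := by
        rw [← Finset.sum_mul, Finset.prod_one_add]
    _ ≤ _ := by
        apply mul_le_mul_of_nonneg_right
        · rw [Real.exp_sum]
          apply Finset.prod_le_prod
          · intro p hp; linarith [hb p hp]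
          · intro p _; linarith [Real.add_one_le_exp (b p)]
        · exact Finset.sum_nonneg fun T hT => hprodA T (hAB T hT)

theorem h_le (p : ℕ) (hp : 6 ≤ p) : g p / (1 - g p) ≤ g p + 6 * (1 / (p : ℝ) ^ 2) := by
  have hp' : (6 : ℝ) ≤ p := by exact_mod_cast hp
  unfold g
  have h1 : (0 : ℝ) < 1 - 2 / p := by
    rw [sub_pos, div_lt_one (by linarith)]; linarith
  rw [div_le_iff₀ h1]
  have h2 : (0 : ℝ) < p := by linarith
  rw [← sub_nonneg]
  have : (2 / (p : ℝ) + 6 * (1 / (p : ℝ) ^ 2)) * (1 - 2 / p) - 2 / p = (2 * p - 12) / (p : ℝ) ^ 3 := by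
    field_simp
    ring
  rw [this]
  apply div_nonneg (by linarith) (by positivity)

theorem g_lt (p : ℕ) (hp : 3 ≤ p) : 0 < g p ∧ g p < 1 := by
  have hp' : (3 : ℝ) ≤ p := by exact_mod_cast hp
  unfold g
  constructor
  · positivity
  · rw [div_lt_one (by linarith)]; linarith

theorem h_nonneg (p : ℕ) (hp : 3 ≤ p) : 0 ≤ g p / (1 - g p) :=
  div_nonneg (g_lt p hp).1.le (by linarith [(g_lt p hp).2])

theorem sum_hh_le (q : ℕ) (hq : q.Prime) (hq2 : q ≠ 2) (B : Finset ℕ)
    (hB : ∀ p ∈ B, p.Prime ∧ jacobiSym p q = 1 ∧ 6 ≤ p) (X : ℝ) (hX : 1 ≤ X) :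
    ∑ T ∈ B.powerset with (prd T : ℝ) ≤ X, hh g T ≤
      Real.exp 12 * ((1 + Real.log X) * (2 + Real.log q)) := by
  have h1 := corr B (fun p hp => (hB p hp).1.one_lt.le) g (fun p => 6 * (1 / (p : ℝ) ^ 2))
    (fun p hp => (g_lt p (by have := (hB p hp).2.2; omega)).1.le) (fun p _ => by positivity) X
  have h2 := sum_gg_le q hq hq2 B (fun p hp => ⟨(hB p hp).1, (hB p hp).2.1⟩) X hX
  have h3 : Real.exp (∑ p ∈ B, 6 * (1 / (p : ℝ) ^ 2)) ≤ Real.exp 12 := by
    apply Real.exp_le_exp.2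
    rw [← Finset.mul_sum]
    have := Pool.Agent.Work.MP_2dba45_nt.Psum.sum_inv_sq_le B (fun n hn => (hB n hn).1.one_lt.le)
    linarith
  have hgg : 0 ≤ ∑ T ∈ B.powerset with (prd T : ℝ) ≤ X, gg g T := by
    refine Finset.sum_nonneg fun T hT => Finset.prod_nonneg fun p hp => ?_
    exact (g_lt p (by have := (hB p (Finset.mem_powerset.1 (Finset.mem_filter.1 hT).1 hp)).2.2; omega)).1.le
  calc ∑ T ∈ B.powerset with (prd T : ℝ) ≤ X, hh g T
      ≤ ∑ T ∈ B.powerset with (prd T : ℝ) ≤ X, ∏ p ∈ T, (g p + 6 * (1 / (p : ℝ) ^ 2)) := by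
        refine Finset.sum_le_sum fun T hT => ?_
        unfold hh
        apply Finset.prod_le_prod
        · intro p hp
          exact h_nonneg p (by have := (hB p (Finset.mem_powerset.1 (Finset.mem_filter.1 hT).1 hp)).2.2; omega)
        · intro p hp
          exact h_le p (hB p (Finset.mem_powerset.1 (Finset.mem_filter.1 hT).1 hp)).2.2
    _ ≤ _ := h1
    _ ≤ Real.exp 12 * ∑ T ∈ B.powerset with (prd T : ℝ) ≤ X, gg g T := by
        apply mul_le_mul_of_nonneg_right h3 hgg
    _ ≤ _ := mul_le_mul_of_nonneg_left h2 (Real.exp_pos _).le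

/-- the two-range product -/
theorem YG_le (q : ℕ) (hq : q.Prime) (hq2 : q ≠ 2) (S P : Finset ℕ) (z : ℕ) (hz : 2 ≤ z)
    (hS : ∀ p ∈ S, p.Prime ∧ jacobiSym p q = 1 ∧ 6 ≤ p ∧ p ≤ z)
    (hP : ∀ p ∈ P, p.Prime ∧ jacobiSym p q = 1 ∧ 6 ≤ p ∧ z < p) (R : ℝ) (hR : 1 ≤ R)
    (hsmall : Real.exp (3 * ∑ p ∈ S, g p / (1 - g p) - Real.log R / Real.log z) ≤ 1 / 2) :
    (∏ p ∈ S, (1 + g p / (1 - g p))) * GG g (P.powerset.filter (fun T => (prd T : ℝ) ≤ R)) ≤
      2 * (Real.exp 12 * ((1 + 2 * Real.log R) * (2 + Real.log q))) := by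
  set h : ℕ → ℝ := fun p => g p / (1 - g p) with hh'
  set D := P.powerset.filter (fun T => (prd T : ℝ) ≤ R) with hD
  have hdisj : Disjoint S P := by
    rw [Finset.disjoint_left]
    intro p h1 h2
    have := (hS p h1).2.2.2
    have := (hP p h2).2.2.2
    omega
  have hz1 : (0 : ℝ) < Real.log z := Real.log_pos (by exact_mod_cast (by omega : 1 < z))
  have hS0 : ∀ p ∈ S, 0 ≤ h p := fun p hp => h_nonneg p (by have := (hS p hp).2.2.1; omega)
  have hP0 : ∀ p ∈ P, 0 ≤ h p := fun p hp => h_nonneg p (by have := (hP p hp).2.2.1; omega)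
  have hhS : ∀ T ⊆ S, 0 ≤ hh g T := fun T hT => Finset.prod_nonneg fun p hp => hS0 p (hT hp)
  have hhP : ∀ T ⊆ P, 0 ≤ hh g T := fun T hT => Finset.prod_nonneg fun p hp => hP0 p (hT hp)
  have hY : ∏ p ∈ S, (1 + h p) = ∑ T ∈ S.powerset, hh g T := by
    rw [Finset.prod_one_add]; rfl
  have hY1 : 1 ≤ ∏ p ∈ S, (1 + h p) := by
    calc (1 : ℝ) = ∏ p ∈ S, 1 := by simp
      _ ≤ _ := Finset.prod_le_prod (fun _ _ => zero_le_one) (fun p hp => by linarith [hS0 p hp])
  have hG0 : 0 ≤ GG g D := by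
    refine Finset.sum_nonneg fun T hT => hhP T (Finset.mem_powerset.1 (Finset.mem_filter.1 hT).1)
  -- the large part
  have hlarge : ∑ T ∈ S.powerset.filter (fun T => ¬ (prd T : ℝ) ≤ R), hh g T ≤ 1 / 2 := by
    have e1 : ∀ T ∈ S.powerset.filter (fun T => ¬ (prd T : ℝ) ≤ R), hh g T ≤
        Real.exp (-(Real.log R / Real.log z)) * ∏ p ∈ T, (3 * h p) := by
      intro T hT
      rw [Finset.mem_filter, Finset.mem_powerset, not_le] at hT
      have hTpos : (0 : ℝ) < prd T := by exact_mod_cast prd_pos (fun p hp => (hS p (hT.1 hp)).1)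
      have h1 : Real.log R ≤ Real.log (prd T) := Real.log_le_log (by linarith) hT.2.le
      have h2 : Real.log (prd T) = ∑ p ∈ T, Real.log p := by
        unfold prd
        rw [Nat.cast_prod, Real.log_prod]
        intro p hp
        exact_mod_cast (hS p (hT.1 hp)).1.ne_zero
      have h3 : (1 : ℝ) ≤ Real.exp (-(Real.log R / Real.log z)) * ∏ p ∈ T, 3 := by
        calc (1 : ℝ) ≤ Real.exp (-(Real.log R / Real.log z) + ∑ p ∈ T, Real.log p / Real.log z) := by
              rw [← Finset.sum_div, ← h2]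
              apply Real.one_le_exp
              rw [neg_add_eq_sub, ← sub_div]
              apply div_nonneg (by linarith) hz1.le
          _ ≤ Real.exp (-(Real.log R / Real.log z)) * ∏ p ∈ T, 3 := by
              rw [Real.exp_add, Real.exp_sum]
              apply mul_le_mul_of_nonneg_left _ (Real.exp_pos _).le
              apply Finset.prod_le_prod (fun p _ => (Real.exp_pos _).le)
              intro p hp
              have hpz : Real.log p / Real.log z ≤ 1 := by
                rw [div_le_one hz1]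
                apply Real.log_le_log
                · exact_mod_cast (hS p (hT.1 hp)).1.pos
                · exact_mod_cast (hS p (hT.1 hp)).2.2.2
              calc Real.exp (Real.log p / Real.log z) ≤ Real.exp 1 := Real.exp_le_exp.2 hpz
                _ ≤ 3 := by linarith [Real.exp_one_lt_d9]
      rw [Finset.prod_mul_distrib, ← mul_assoc]
      calc hh g T = 1 * hh g T := (one_mul _).symm
        _ ≤ _ := mul_le_mul_of_nonneg_right h3 (hhS T hT.1)
    calc ∑ T ∈ S.powerset.filter (fun T => ¬ (prd T : ℝ) ≤ R), hh g T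
        ≤ ∑ T ∈ S.powerset.filter (fun T => ¬ (prd T : ℝ) ≤ R),
            Real.exp (-(Real.log R / Real.log z)) * ∏ p ∈ T, (3 * h p) := Finset.sum_le_sum e1
      _ ≤ ∑ T ∈ S.powerset, Real.exp (-(Real.log R / Real.log z)) * ∏ p ∈ T, (3 * h p) := by
          apply Finset.sum_le_sum_of_subset_of_nonneg (Finset.filter_subset _ _)
          intro T hT _
          apply mul_nonneg (Real.exp_pos _).le
          exact Finset.prod_nonneg fun p hp => by
            have := hS0 p (Finset.mem_powerset.1 hT hp); linarith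
      _ = Real.exp (-(Real.log R / Real.log z)) * ∏ p ∈ S, (1 + 3 * h p) := by
          rw [← Finset.mul_sum, Finset.prod_one_add]
      _ ≤ Real.exp (-(Real.log R / Real.log z)) * Real.exp (3 * ∑ p ∈ S, h p) := by
          apply mul_le_mul_of_nonneg_left _ (Real.exp_pos _).le
          rw [Finset.mul_sum, Real.exp_sum]
          apply Finset.prod_le_prod
          · intro p hp; linarith [hS0 p hp]
          · intro p _; linarith [Real.add_one_le_exp (3 * h p)]
      _ ≤ 1 / 2 := by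
          rw [← Real.exp_add]
          refine le_trans (le_of_eq ?_) hsmall
          congr 1
          ring
  -- the small part
  have hsm : (∑ T ∈ S.powerset.filter (fun T => (prd T : ℝ) ≤ R), hh g T) * GG g D ≤
      Real.exp 12 * ((1 + 2 * Real.log R) * (2 + Real.log q)) := by
    have h1 := sum_hh_le q hq hq2 (S ∪ P) (fun p hp => by
      rcases Finset.mem_union.1 hp with h | h
      · exact ⟨(hS p h).1, (hS p h).2.1, (hS p h).2.2.1⟩
      · exact ⟨(hP p h).1, (hP p h).2.1, (hP p h).2.2.1⟩) (R ^ 2) (by nlinarith)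
    rw [Real.log_pow] at h1
    push_cast at h1
    refine le_trans ?_ h1
    unfold GG
    rw [Finset.sum_mul_sum, ← Finset.sum_product']
    have h2 : ∀ x ∈ (S.powerset.filter (fun T => (prd T : ℝ) ≤ R)) ×ˢ D,
        hh g x.1 * hh g x.2 = hh g (x.1 ∪ x.2) := by
      intro x hx
      rw [Finset.mem_product, Finset.mem_filter, Finset.mem_powerset, hD, Finset.mem_filter,
        Finset.mem_powerset] at hx
      unfold hh
      rw [Finset.prod_union (Finset.disjoint_of_subset_left hx.1.1 (Finset.disjoint_of_subset_right hx.2.1 hdisj))]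
    rw [Finset.sum_congr rfl h2]
    have h3 : ∑ x ∈ (S.powerset.filter (fun T => (prd T : ℝ) ≤ R)) ×ˢ D, hh g (x.1 ∪ x.2) =
        ∑ T ∈ ((S.powerset.filter (fun T => (prd T : ℝ) ≤ R)) ×ˢ D).image (fun x => x.1 ∪ x.2), hh g T := by
      rw [Finset.sum_image]
      intro x hx y hy hxy
      rw [Finset.mem_coe, Finset.mem_product, Finset.mem_filter, Finset.mem_powerset, hD, Finset.mem_filter,
        Finset.mem_powerset] at hx hy
      simp only at hxy
      have key : ∀ u v : Finset ℕ, u ⊆ S → v ⊆ P → (u ∪ v) ∩ S = u ∧ (u ∪ v) ∩ P = v := by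
        intro u v hu hv
        constructor
        · ext p
          simp only [Finset.mem_inter, Finset.mem_union]
          constructor
          · rintro ⟨h1 | h1, h2⟩
            · exact h1
            · exact absurd (hv h1) (Finset.disjoint_left.1 hdisj h2)
          · intro h1; exact ⟨Or.inl h1, hu h1⟩
        · ext p
          simp only [Finset.mem_inter, Finset.mem_union]
          constructor
          · rintro ⟨h1 | h1, h2⟩
            · exact absurd h2 (Finset.disjoint_left.1 hdisj (hu h1))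
            · exact h1
          · intro h1; exact ⟨Or.inr h1, hv h1⟩
      have k1 := key x.1 x.2 hx.1.1 hx.2.1
      have k2 := key y.1 y.2 hy.1.1 hy.2.1
      refine Prod.ext ?_ ?_
      · rw [← k1.1, ← k2.1, hxy]
      · rw [← k1.2, ← k2.2, hxy]
    rw [h3]
    apply Finset.sum_le_sum_of_subset_of_nonneg
    · intro T hT
      rw [Finset.mem_image] at hT
      obtain ⟨x, hx, rfl⟩ := hT
      rw [Finset.mem_product, Finset.mem_filter, Finset.mem_powerset, hD, Finset.mem_filter,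
        Finset.mem_powerset] at hx
      rw [Finset.mem_filter, Finset.mem_powerset]
      refine ⟨Finset.union_subset_union hx.1.1 hx.2.1, ?_⟩
      have : prd (x.1 ∪ x.2) = prd x.1 * prd x.2 := by
        unfold prd
        rw [Finset.prod_union (Finset.disjoint_of_subset_left hx.1.1 (Finset.disjoint_of_subset_right hx.2.1 hdisj))]
      rw [this]
      push_cast
      rw [sq]
      exact mul_le_mul hx.1.2 hx.2.2 (by positivity) (by linarith)
    · intro T hT _
      refine Finset.prod_nonneg fun p hp => ?_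
      rcases Finset.mem_union.1 (Finset.mem_powerset.1 (Finset.mem_filter.1 hT).1 hp) with h' | h'
      · exact hS0 p h'
      · exact hP0 p h'
  have hsplit := Finset.sum_filter_add_sum_filter_not S.powerset (fun T => (prd T : ℝ) ≤ R) (fun T => hh g T)
  have hfin : (∏ p ∈ S, (1 + h p)) * GG g D ≤
      Real.exp 12 * ((1 + 2 * Real.log R) * (2 + Real.log q)) + 1 / 2 * GG g D := by
    rw [hY, ← hsplit, add_mul]
    exact add_le_add hsm (mul_le_mul_of_nonneg_right hlarge hG0)
  have : GG g D ≤ (∏ p ∈ S, (1 + h p)) * GG g D := by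
    nlinarith
  linarith

end Pool.Agent.Work.MP_73869e_nt.AP.VGa
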