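import Mathlib
import Pool.Agent.Work.MP_73869e_nt.AP.Defs
import Pool.Agent.Work.MP_73869e_nt.AP.Loc
import Pool.Agent.Work.MP_73869e_nt.AP.Sums
import Pool.Agent.Work.MP_73869e_nt.AP.VGa
import Pool.Agent.Work.Sieve.MeanPhi

set_option autoImplicit false

namespace Pool.Agent.Work.MP_73869e_nt.AP

open Finset Filter Pool.Agent.Work.MP_2dba45_nt.Sel

namespace VGb

open VGa

theorem tendsto_natLog : Tendsto (fun N : ℕ => Nat.log 2 N) atTop atTop := by
  rw [Filter.tendsto_atTop]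
  intro b
  filter_upwards [Filter.eventually_ge_atTop (2 ^ b)] with N hN
  exact (Nat.le_log_iff_pow_le (by norm_num) (by
    have : 0 < 2 ^ b := by positivity
    omega)).2 hN

theorem natLog_le (N : ℕ) (hN : 1 ≤ N) : (Nat.log 2 N : ℝ) * Real.log 2 ≤ Real.log N := by
  have h : 2 ^ Nat.log 2 N ≤ N := Nat.pow_log_le_self 2 (by omega)
  have h2 : ((2 : ℝ) ^ Nat.log 2 N) ≤ N := by exact_mod_cast h
  have := Real.log_le_log (by positivity) h2
  rwa [Real.log_pow] at this

theorem log_zN (N : ℕ) : Real.log (zN N) = 20 * Real.log (Nat.log 2 N) := by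
  unfold zN
  push_cast
  rw [Real.log_pow]
  norm_num

theorem sum_SS (w : ℕ) (hw : 4 ≤ w) : ∃ C : ℝ, 0 ≤ C ∧ ∀ᶠ N : ℕ in atTop,
    ∑ p ∈ SS w N, 1 / (p : ℝ) ≤ Real.log (Real.log (zN N)) + C := by
  obtain ⟨C, hC0, hC⟩ := Pool.Agent.Work.MP_2dba45_nt.Psum.psum_one
  refine ⟨C, hC0, ?_⟩
  filter_upwards [tendsto_natLog.eventually (Filter.eventually_ge_atTop w)] with N hN
  have hz : w ≤ zN N := by
    unfold zN
    calc w ≤ Nat.log 2 N := hN
      _ = (Nat.log 2 N) ^ 1 := (pow_one _).symm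
      _ ≤ (Nat.log 2 N) ^ 20 := Nat.pow_le_pow_right (by omega) (by norm_num)
  have h := hC w (zN N) (by omega) hz
  have h1 := (abs_le.1 h).2
  have h2 : 0 ≤ Real.log (Real.log w) := by
    apply Real.log_nonneg
    rw [Real.le_log_iff_exp_le (by positivity)]
    have : (4 : ℝ) ≤ w := by exact_mod_cast hw
    linarith [Real.exp_one_lt_d9]
  unfold SS
  linarith

theorem sum_SS_h (w : ℕ) (hw : 6 ≤ w) : ∃ C : ℝ, 0 ≤ C ∧ ∀ᶠ N : ℕ in atTop,
    ∑ p ∈ SS w N, g p / (1 - g p) ≤ 2 * Real.log (Real.log (zN N)) + C := by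
  obtain ⟨C, hC0, hC⟩ := sum_SS w (by omega)
  refine ⟨2 * C + 12, by linarith, ?_⟩
  filter_upwards [hC] with N hN
  have hmem : ∀ p ∈ SS w N, 6 ≤ p := fun p hp => by
    unfold SS at hp
    rw [Finset.mem_filter, Finset.mem_Ioc] at hp; omega
  have h1 : ∑ p ∈ SS w N, g p / (1 - g p) ≤ ∑ p ∈ SS w N, (2 * (1 / (p : ℝ)) + 6 * (1 / (p : ℝ) ^ 2)) := by
    refine Finset.sum_le_sum fun p hp => ?_
    have := h_le p (hmem p hp)
    have e : g p = 2 * (1 / (p : ℝ)) := by unfold g; ring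
    linarith
  rw [Finset.sum_add_distrib, ← Finset.mul_sum, ← Finset.mul_sum] at h1
  have h2 := Pool.Agent.Work.MP_2dba45_nt.Psum.sum_inv_sq_le (SS w N) (fun n hn => by
    have := hmem n hn; omega)
  linarith

theorem G_le_exp (q N : ℕ) (x : ℝ) (h6 : 6 ≤ zN N) :
    G q N x ≤ Real.exp (∑ p ∈ PP q N, g p + 12) := by
  have hmem : ∀ p ∈ PP q N, 6 ≤ p := fun p hp => by
    unfold PP at hp
    rw [Finset.mem_filter, Finset.mem_Ioc] at hp; omega
  have hh0 : ∀ p ∈ PP q N, 0 ≤ g p / (1 - g p) := fun p hp => h_nonneg p (by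
    have := hmem p hp; omega)
  unfold G GG
  calc ∑ T ∈ DD q N x, hh g T ≤ ∑ T ∈ (PP q N).powerset, hh g T := by
        apply Finset.sum_le_sum_of_subset_of_nonneg (Finset.filter_subset _ _)
        intro T hT _
        exact Finset.prod_nonneg fun p hp => hh0 p (Finset.mem_powerset.1 hT hp)
    _ = ∏ p ∈ PP q N, (1 + g p / (1 - g p)) := by rw [Finset.prod_one_add]; rfl
    _ ≤ Real.exp (∑ p ∈ PP q N, g p / (1 - g p)) := by
        rw [Real.exp_sum]
        apply Finset.prod_le_prod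
        · intro p hp; linarith [hh0 p hp]
        · intro p _; linarith [Real.add_one_le_exp (g p / (1 - g p))]
    _ ≤ _ := by
        apply Real.exp_le_exp.2
        calc ∑ p ∈ PP q N, g p / (1 - g p) ≤ ∑ p ∈ PP q N, (g p + 6 * (1 / (p : ℝ) ^ 2)) :=
              Finset.sum_le_sum fun p hp => h_le p (hmem p hp)
          _ = ∑ p ∈ PP q N, g p + 6 * ∑ p ∈ PP q N, (1 / (p : ℝ) ^ 2) := by
              rw [Finset.sum_add_distrib, Finset.mul_sum]
          _ ≤ _ := by
              have h2 := Pool.Agent.Work.MP_2dba45_nt.Psum.sum_inv_sq_le (PP q N) (fun n hn => by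
                have := hmem n hn; omega)
              linarith

theorem VV_ge (w N k : ℕ) (hw : 4 ≤ w) :
    Real.exp (-(2 * ∑ p ∈ SS w N, 1 / (p : ℝ)) - 16) ≤ VV {k} w N := by
  have hmem : ∀ p ∈ SS w N, 5 ≤ p ∧ p.Prime := fun p hp => by
    unfold SS at hp
    rw [Finset.mem_filter, Finset.mem_Ioc] at hp; exact ⟨by omega, hp.2⟩
  have h1 := Pool.Agent.Work.MP_2dba45_nt.Psum.prod_ge (SS w N) (fun n hn => by
    have := (hmem n hn).1; omega) (fun p => 2 / (p : ℝ)) (fun p _ => by positivity)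
    (fun p hp => by
      have : (5 : ℝ) ≤ p := by exact_mod_cast (hmem p hp).1
      rw [div_le_iff₀ (by linarith)]; linarith) 2 (by norm_num) (fun p _ => le_rfl)
  have e : ∑ p ∈ SS w N, 2 / (p : ℝ) = 2 * ∑ p ∈ SS w N, 1 / (p : ℝ) := by
    rw [Finset.mul_sum]
    exact Finset.sum_congr rfl fun p _ => by ring
  rw [e, show (4 : ℝ) * 2 ^ 2 = 16 by norm_num] at h1
  refine h1.trans ?_
  unfold VV
  apply Finset.prod_le_prod
  · intro p hp
    have : (5 : ℝ) ≤ p := by exact_mod_cast (hmem p hp).1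
    rw [sub_nonneg, div_le_one (by linarith)]; linarith
  · intro p hp
    have h2 : nu {k} p ≤ 2 := nu_le_two k p (hmem p hp).2 (by
      have := (hmem p hp).1; omega)
    have h3 : (nu {k} p : ℝ) ≤ 2 := by exact_mod_cast h2
    gcongr

theorem loglog_sq (K : ℝ) (hK : 0 < K) : ∀ᶠ N : ℕ in atTop,
    K * Real.log N * Real.log (zN N) ^ 2 ≤ Real.log N ^ ((3 : ℝ) / 2) := by
  have ht : Tendsto (fun N : ℕ => Real.log (N : ℝ)) atTop atTop :=
    Real.tendsto_log_atTop.comp tendsto_natCast_atTop_atTop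
  have ho := (isLittleO_log_rpow_rpow_atTop 2 (show (0 : ℝ) < 1 / 2 by norm_num)).bound
    (show (0 : ℝ) < 1 / (1600 * K) by positivity)
  filter_upwards [ht.eventually ho, ht.eventually (Filter.eventually_ge_atTop 2),
    Filter.eventually_ge_atTop 2] with N h1 h2 hN
  set t := Real.log (N : ℝ) with htdef
  have ht0 : 0 < t := by linarith
  have hL := natLog_le N (by omega)
  have hLt : (Nat.log 2 N : ℝ) ≤ t ^ 2 := by
    have h3 := Real.log_two_gt_d9
    have h4 : (0 : ℝ) ≤ Nat.log 2 N := by positivity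
    nlinarith
  have hL1 : 1 ≤ Nat.log 2 N := Nat.log_pos (by norm_num) hN
  have hlz : Real.log (zN N) ≤ 40 * Real.log t := by
    rw [log_zN]
    have : Real.log (Nat.log 2 N) ≤ Real.log (t ^ 2) :=
      Real.log_le_log (by exact_mod_cast hL1) hLt
    rw [Real.log_pow] at this
    push_cast at this
    linarith
  have hlz0 : 0 ≤ Real.log (zN N) := by
    rw [log_zN]
    have : 0 ≤ Real.log (Nat.log 2 N : ℝ) := Real.log_nonneg (by exact_mod_cast hL1)
    linarith
  have hlt0 : 0 ≤ Real.log t := Real.log_nonneg (by linarith)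
  rw [Real.norm_of_nonneg (by positivity), Real.norm_of_nonneg (by positivity), Real.rpow_two] at h1
  have h5 : Real.log (zN N) ^ 2 ≤ 1600 * Real.log t ^ 2 := by
    calc Real.log (zN N) ^ 2 ≤ (40 * Real.log t) ^ 2 := by gcongr
      _ = _ := by ring
  calc K * t * Real.log (zN N) ^ 2 ≤ K * t * (1600 * (1 / (1600 * K) * t ^ ((1 : ℝ) / 2))) := by
        gcongr
        linarith
    _ = t * t ^ ((1 : ℝ) / 2) := by field_simp
    _ = t ^ ((3 : ℝ) / 2) := by
        rw [← Real.rpow_one_add' ht0.le (by norm_num)]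
        norm_num

theorem small_exp (K : ℝ) : ∀ᶠ N : ℕ in atTop,
    Real.exp (3 * (2 * Real.log (Real.log (zN N)) + K) - Real.log (RR N) / Real.log (zN N)) ≤ 1 / 2 := by
  have ht : Tendsto (fun N : ℕ => ((Nat.log 2 N : ℕ) : ℝ)) atTop atTop :=
    tendsto_natCast_atTop_atTop.comp tendsto_natLog
  have ho := (Real.isLittleO_pow_log_id_atTop (n := 2)).bound
    (show (0 : ℝ) < 1 / (300 * 900) by norm_num)
  have hlog := Real.tendsto_log_atTop.comp ht
  filter_upwards [ht.eventually ho, hlog.eventually (Filter.eventually_ge_atTop (max 1 (3 * K + 1))),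
    ht.eventually (Filter.eventually_ge_atTop 1), Filter.eventually_ge_atTop 2] with N h1 h2 h3 hN
  simp only [Function.comp] at h2
  set L : ℝ := ((Nat.log 2 N : ℕ) : ℝ) with hL
  have hl1 : 1 ≤ Real.log L := le_trans (le_max_left _ _) h2
  have hlK : 3 * K + 1 ≤ Real.log L := le_trans (le_max_right _ _) h2
  have hz := log_zN N
  rw [← hL] at hz
  simp only [id, Real.norm_eq_abs] at h1
  rw [abs_of_nonneg (by positivity), abs_of_nonneg (by linarith)] at h1
  have hR : Real.log (RR N) = 1 / 21 * Real.log N := by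
    unfold RR
    rw [Real.log_rpow (by positivity)]
  have hN1 := natLog_le N (by omega)
  rw [← hL] at hN1
  have hlz : Real.log (Real.log (zN N)) ≤ 20 * Real.log L := by
    rw [hz]
    have := Real.log_le_sub_one_of_pos (show 0 < 20 * Real.log L by linarith)
    linarith
  have hfrac : 121 * Real.log L ≤ Real.log (RR N) / Real.log (zN N) := by
    rw [le_div_iff₀ (by rw [hz]; linarith), hz, hR]
    have h4 := Real.log_two_gt_d9
    nlinarith
  have hexp : 3 * (2 * Real.log (Real.log (zN N)) + K) - Real.log (RR N) / Real.log (zN N) ≤ -1 := by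
    linarith
  calc Real.exp (3 * (2 * Real.log (Real.log (zN N)) + K) - Real.log (RR N) / Real.log (zN N))
      ≤ Real.exp (-1) := Real.exp_le_exp.2 hexp
    _ ≤ 1 / 2 := by
        rw [Real.exp_neg, ← one_div]
        apply one_div_le_one_div_of_le (by norm_num)
        have := Real.add_one_le_exp (1 : ℝ)
        linarith

theorem inv_VV_le (q j w N : ℕ) (hq : q.Prime) (hq4 : q % 4 = 3) (hj : 1 ≤ j) (hw : 6 ≤ w) :
    (VV {q * j ^ 2} w N)⁻¹ ≤ (∏ p ∈ (SS w N).filter (fun p : ℕ => jacobiSym p q = 1), (1 + g p / (1 - g p))) *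
      (2 * ((j : ℝ) / Nat.totient j)) := by
  have hmem : ∀ p ∈ SS w N, 7 ≤ p ∧ p.Prime := fun p hp => by
    unfold SS at hp
    rw [Finset.mem_filter, Finset.mem_Ioc] at hp; exact ⟨by omega, hp.2⟩
  have h1 : (VV {q * j ^ 2} w N)⁻¹ = ∏ p ∈ SS w N, (1 - (nu {q * j ^ 2} p : ℝ) / p)⁻¹ := by
    unfold VV
    rw [Finset.prod_inv_distrib]
  have h2 : ∀ p ∈ SS w N, (1 - (nu {q * j ^ 2} p : ℝ) / p)⁻¹ ≤
      (if jacobiSym p q = 1 then 1 + g p / (1 - g p) else 1) *
      (if p ∣ q * j then (1 - (p : ℝ)⁻¹)⁻¹ else 1) := by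
    intro p hp
    obtain ⟨hp7, hpp⟩ := hmem p hp
    have hp7' : (7 : ℝ) ≤ p := by exact_mod_cast hp7
    have hhn := h_nonneg p (by omega)
    have hpi : 0 < 1 - (p : ℝ)⁻¹ := by
      rw [sub_pos]
      exact inv_lt_one_of_one_lt₀ (by linarith)
    by_cases hd : p ∣ q * j
    · rw [if_pos hd, nu_single_dvd q j p hpp hd]
      have e : (1 - ((1 : ℕ) : ℝ) / p)⁻¹ = (1 - (p : ℝ)⁻¹)⁻¹ := by
        rw [Nat.cast_one, one_div]
      rw [e]
      split_ifs
      · have : 0 < (1 - (p : ℝ)⁻¹)⁻¹ := by positivity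
        nlinarith
      · rw [one_mul]
    · rw [if_neg hd, mul_one]
      have hn := nu_single q j p hq hq4 hpp (by omega) hd
      split_ifs with hj1
      · rw [hj1] at hn
        have hn2 : nu {q * j ^ 2} p = 2 := by omega
        rw [hn2]
        apply le_of_eq
        unfold g
        have hne2 : (1 : ℝ) - 2 / p ≠ 0 := by
          apply ne_of_gt
          rw [sub_pos, div_lt_one (by linarith)]; linarith
        have key : ∀ x : ℝ, 1 - x ≠ 0 → (1 - x)⁻¹ = 1 + x / (1 - x) := by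
          intro x hx
          have h9 : 1 + x / (1 - x) = 1 / (1 - x) := by
            rw [eq_div_iff hx, add_mul, div_mul_cancel₀ _ hx]; ring
          rw [h9, one_div]
        push_cast
        exact key _ hne2
      · have hne : jacobiSym p q ≠ 0 := by
          intro h0
          have h5 : p ≠ q := by rintro rfl; exact hd (Dvd.intro _ rfl)
          have h4 : Nat.Coprime p q := (Nat.coprime_primes hpp hq).2 h5
          have : NeZero q := ⟨hq.ne_zero⟩
          rw [jacobiSym.eq_zero_iff_not_coprime] at h0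
          exact h0 (by rw [Int.gcd_natCast_natCast]; exact h4)
        have h3 : jacobiSym p q = -1 := by
          rcases jacobiSym.trichotomy (p : ℤ) q with h | h | h
          · exact absurd h hne
          · exact absurd h hj1
          · exact h
        rw [h3] at hn
        have hn0 : nu {q * j ^ 2} p = 0 := by omega
        rw [hn0]
        norm_num
  rw [h1]
  have hnn : ∀ p ∈ SS w N, 0 ≤ (1 - (nu {q * j ^ 2} p : ℝ) / p)⁻¹ := by
    intro p hp
    obtain ⟨hp7, hpp⟩ := hmem p hp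
    have hp7' : (7 : ℝ) ≤ p := by exact_mod_cast hp7
    have h3 : nu {q * j ^ 2} p ≤ 2 := nu_le_two _ p hpp (by omega)
    have h4 : (nu {q * j ^ 2} p : ℝ) ≤ 2 := by exact_mod_cast h3
    apply inv_nonneg.2
    rw [sub_nonneg, div_le_one (by linarith)]
    linarith
  refine (Finset.prod_le_prod hnn h2).trans ?_
  rw [Finset.prod_mul_distrib, ← Finset.prod_filter, ← Finset.prod_filter]
  have hY0 : 0 ≤ ∏ p ∈ (SS w N).filter (fun p : ℕ => jacobiSym p q = 1), (1 + g p / (1 - g p)) := by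
    refine Finset.prod_nonneg fun p hp => ?_
    have := h_nonneg p (by have := (hmem p (Finset.mem_filter.1 hp).1).1; omega)
    linarith
  apply mul_le_mul_of_nonneg_left _ hY0
  have hjpos : (0 : ℝ) < j := by exact_mod_cast hj
  have hqpos : (0 : ℝ) < q := by exact_mod_cast hq.pos
  have hqj : q * j ≠ 0 := Nat.mul_ne_zero hq.ne_zero (by omega)
  have hfac : ∀ p ∈ (q * j).primeFactors, 1 ≤ (1 - (p : ℝ)⁻¹)⁻¹ := by
    intro p hp
    have hp2 : (2 : ℝ) ≤ p := by exact_mod_cast (Nat.prime_of_mem_primeFactors hp).two_le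
    have h5 : (p : ℝ)⁻¹ ≤ 2⁻¹ := by gcongr
    have h6 : 0 < 1 - (p : ℝ)⁻¹ := by norm_num at h5 ⊢; linarith
    rw [one_le_inv₀ h6]
    have : 0 < (p : ℝ)⁻¹ := by positivity
    linarith
  have hsub : (SS w N).filter (fun p => p ∣ q * j) ⊆ (q * j).primeFactors := by
    intro p hp
    rw [Finset.mem_filter] at hp
    exact Nat.mem_primeFactors.2 ⟨(hmem p hp.1).2, hp.2, hqj⟩
  have htot : (Nat.totient (q * j) : ℝ) = (q * j : ℕ) * ∏ p ∈ (q * j).primeFactors, (1 - (p : ℝ)⁻¹) := by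
    have h2 := Nat.totient_eq_mul_prod_factors (q * j)
    have := congrArg (fun q : ℚ => (q : ℝ)) h2
    push_cast at this
    push_cast
    exact this
  have hprod : ∏ p ∈ (q * j).primeFactors, (1 - (p : ℝ)⁻¹)⁻¹ = ((q * j : ℕ) : ℝ) / Nat.totient (q * j) := by
    have h7 : (0 : ℝ) < Nat.totient (q * j) := by exact_mod_cast Nat.totient_pos.2 (Nat.pos_of_ne_zero hqj)
    rw [Finset.prod_inv_distrib, eq_div_iff h7.ne', htot, mul_comm]
    have h8 : ∏ p ∈ (q * j).primeFactors, (1 - (p : ℝ)⁻¹) ≠ 0 := by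
      intro h0
      rw [h0, mul_zero] at htot
      linarith
    rw [mul_assoc, mul_inv_cancel₀ h8, mul_one]
  calc ∏ p ∈ (SS w N).filter (fun p => p ∣ q * j), (1 - (p : ℝ)⁻¹)⁻¹
      ≤ ∏ p ∈ (q * j).primeFactors, (1 - (p : ℝ)⁻¹)⁻¹ := by
        apply Finset.prod_le_prod_of_subset_of_one_le hsub
        · intro p hp
          exact le_trans zero_le_one (hfac p (hsub hp))
        · intro p hp _
          exact hfac p hp
    _ = ((q * j : ℕ) : ℝ) / Nat.totient (q * j) := hprod
    _ ≤ ((q * j : ℕ) : ℝ) / (Nat.totient q * Nat.totient j : ℕ) := by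
        have h9 := Nat.totient_super_multiplicative q j
        have h10 : 0 < Nat.totient q * Nat.totient j :=
          Nat.mul_pos (Nat.totient_pos.2 hq.pos) (Nat.totient_pos.2 (by omega))
        gcongr
    _ = (q : ℝ) / Nat.totient q * ((j : ℝ) / Nat.totient j) := by
        push_cast
        rw [mul_div_mul_comm]
    _ ≤ 2 * ((j : ℝ) / Nat.totient j) := by
        apply mul_le_mul_of_nonneg_right _ (by positivity)
        rw [Nat.totient_prime hq]
        have hq3 : 3 ≤ q := by omega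
        have hq3' : (3 : ℝ) ≤ q := by exact_mod_cast hq3
        rw [Nat.cast_sub (by omega), div_le_iff₀ (by push_cast; linarith)]
        push_cast
        linarith

end VGb

theorem VG_crude (q : ℕ) (hq : q.Prime) (hq2 : q ≠ 2) (w : ℕ) (hw : 4 ≤ w) :
    ∀ᶠ N : ℕ in atTop, ∀ k : ℕ,
    G q N (RR N) / VV {k} w N ≤ Real.log N ^ ((3 : ℝ) / 2) := by
  obtain ⟨C, hC0, hC⟩ := sum_g_le q hq hq2
  obtain ⟨C1, hC10, hC1⟩ := VGb.sum_SS w hw
  filter_upwards [hC, hC1, VGb.loglog_sq (Real.exp (C + 2 * C1 + 28)) (Real.exp_pos _),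
    VGb.tendsto_natLog.eventually (Filter.eventually_ge_atTop 6), Filter.eventually_ge_atTop 3]
    with N h1 h2 h3 h4 h5 k
  have hN3 : (3 : ℝ) ≤ N := by exact_mod_cast h5
  have hlogN : 0 < Real.log N := Real.log_pos (by linarith)
  have hz6 : 6 ≤ zN N := by
    unfold zN
    calc 6 ≤ Nat.log 2 N := h4
      _ = (Nat.log 2 N) ^ 1 := (pow_one _).symm
      _ ≤ (Nat.log 2 N) ^ 20 := Nat.pow_le_pow_right (by omega) (by norm_num)
  have hlz : 0 < Real.log (zN N) := Real.log_pos (by exact_mod_cast (by omega : 1 < zN N))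
  have hG := VGb.G_le_exp q N (RR N) hz6
  have hV := VGb.VV_ge w N k hw
  have hVpos : 0 < VV {k} w N := lt_of_lt_of_le (Real.exp_pos _) hV
  have hG2 : G q N (RR N) ≤ Real.exp (C + 12) * Real.log N := by
    refine hG.trans ?_
    calc Real.exp (∑ p ∈ PP q N, g p + 12) ≤ Real.exp ((C + 12) + Real.log (Real.log N)) :=
          Real.exp_le_exp.2 (by linarith)
      _ = _ := by rw [Real.exp_add, Real.exp_log hlogN]
  have hV2 : 1 ≤ Real.exp (2 * C1 + 16) * Real.log (zN N) ^ 2 * VV {k} w N := by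
    have e : Real.exp (2 * C1 + 16) * Real.log (zN N) ^ 2 =
        Real.exp (2 * (Real.log (Real.log (zN N)) + C1) + 16) := by
      rw [show 2 * (Real.log (Real.log (zN N)) + C1) + 16 = (2 * C1 + 16) +
        (Real.log (Real.log (zN N)) + Real.log (Real.log (zN N))) by ring, Real.exp_add _ (_ + _),
        Real.exp_add (Real.log _), Real.exp_log hlz]
      ring
    rw [e]
    calc (1 : ℝ) ≤ Real.exp (2 * (Real.log (Real.log (zN N)) + C1) + 16 +
          (-(2 * ∑ p ∈ SS w N, 1 / (p : ℝ)) - 16)) := by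
          apply Real.one_le_exp
          linarith
      _ = Real.exp (2 * (Real.log (Real.log (zN N)) + C1) + 16) *
          Real.exp (-(2 * ∑ p ∈ SS w N, 1 / (p : ℝ)) - 16) := Real.exp_add _ _
      _ ≤ _ := mul_le_mul_of_nonneg_left hV (Real.exp_pos _).le
  rw [div_le_iff₀ hVpos]
  have hX : 0 ≤ Real.exp (C + 12) * Real.log N := by positivity
  calc G q N (RR N) ≤ Real.exp (C + 12) * Real.log N * 1 := by rw [mul_one]; exact hG2
    _ ≤ Real.exp (C + 12) * Real.log N *
        (Real.exp (2 * C1 + 16) * Real.log (zN N) ^ 2 * VV {k} w N) :=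
        mul_le_mul_of_nonneg_left hV2 hX
    _ = (Real.exp (C + 2 * C1 + 28) * Real.log N * Real.log (zN N) ^ 2) * VV {k} w N := by
        rw [show C + 2 * C1 + 28 = (C + 12) + (2 * C1 + 16) by ring,
          Real.exp_add (C + 12) (2 * C1 + 16)]
        ring
    _ ≤ _ := mul_le_mul_of_nonneg_right h3 hVpos.le

theorem VG_bound : ∃ C : ℝ, 0 < C ∧ ∀ q : ℕ, q.Prime → q % 4 = 3 → ∀ w : ℕ, 6 ≤ w → w < q →
    ∀ c : ℝ, 0 < c → ∀ᶠ N : ℕ in atTop,
    ∑ j ∈ Icc 1 (JJ c q N), G q N (RR N) / VV {q * j ^ 2} w N ≤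
      C * Real.log q * √(c / q) * Real.log N ^ 2 := by
  refine ⟨432 * Real.exp 12, by positivity, fun q hq hq4 w hw hwq c hc => ?_⟩
  have hq2 : q ≠ 2 := by omega
  obtain ⟨C1, hC10, hC1⟩ := VGb.sum_SS_h w hw
  filter_upwards [hC1, VGb.small_exp C1,
    VGb.tendsto_natLog.eventually (Filter.eventually_ge_atTop 6), Filter.eventually_ge_atTop 100]
    with N h1 h2 h4 h5
  have hN3 : (100 : ℝ) ≤ N := by exact_mod_cast h5
  have hlogN : 2 ≤ Real.log N := by
    rw [Real.le_log_iff_exp_le (by linarith)]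
    have : Real.exp 2 = Real.exp 1 * Real.exp 1 := by rw [← Real.exp_add]; norm_num
    rw [this]
    nlinarith [Real.exp_one_lt_d9, Real.exp_pos 1]
  have hz6 : 6 ≤ zN N := by
    unfold zN
    calc 6 ≤ Nat.log 2 N := h4
      _ = (Nat.log 2 N) ^ 1 := (pow_one _).symm
      _ ≤ (Nat.log 2 N) ^ 20 := Nat.pow_le_pow_right (by omega) (by norm_num)
  have hR1 : 1 ≤ RR N := by
    unfold RR
    exact Real.one_le_rpow (by linarith) (by norm_num)
  have hR : Real.log (RR N) = 1 / 21 * Real.log N := by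
    unfold RR
    rw [Real.log_rpow (by positivity)]
  have hSmem : ∀ p ∈ (SS w N).filter (fun p : ℕ => jacobiSym p q = 1),
      p.Prime ∧ jacobiSym p q = 1 ∧ 6 ≤ p ∧ p ≤ zN N := by
    intro p hp
    unfold SS at hp
    rw [Finset.mem_filter, Finset.mem_filter, Finset.mem_Ioc] at hp
    exact ⟨hp.1.2, hp.2, by omega, hp.1.1.2⟩
  have hPmem : ∀ p ∈ PP q N, p.Prime ∧ jacobiSym p q = 1 ∧ 6 ≤ p ∧ zN N < p := by
    intro p hp
    unfold PP at hp
    rw [Finset.mem_filter, Finset.mem_Ioc] at hp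
    exact ⟨hp.2.1, hp.2.2, by omega, hp.1.1⟩
  have hhSS : ∀ p ∈ SS w N, 0 ≤ g p / (1 - g p) := by
    intro p hp
    unfold SS at hp
    rw [Finset.mem_filter, Finset.mem_Ioc] at hp
    exact VGa.h_nonneg p (by omega)
  have hsmall : Real.exp (3 * ∑ p ∈ (SS w N).filter (fun p : ℕ => jacobiSym p q = 1), g p / (1 - g p) -
      Real.log (RR N) / Real.log (zN N)) ≤ 1 / 2 := by
    refine le_trans (Real.exp_le_exp.2 ?_) h2
    have : ∑ p ∈ (SS w N).filter (fun p : ℕ => jacobiSym p q = 1), g p / (1 - g p) ≤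
        ∑ p ∈ SS w N, g p / (1 - g p) :=
      Finset.sum_le_sum_of_subset_of_nonneg (Finset.filter_subset _ _) (fun p hp _ => hhSS p hp)
    linarith
  have hYG := VGa.YG_le q hq hq2 _ (PP q N) (zN N) (by omega) hSmem hPmem (RR N) hR1 hsmall
  have hGe : GG g ((PP q N).powerset.filter (fun T => (prd T : ℝ) ≤ RR N)) = G q N (RR N) := rfl
  rw [hGe] at hYG
  set Y := ∏ p ∈ (SS w N).filter (fun p : ℕ => jacobiSym p q = 1), (1 + g p / (1 - g p)) with hY
  have hG0 : 0 ≤ G q N (RR N) := by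
    unfold G GG
    refine Finset.sum_nonneg fun T hT => ?_
    unfold hh
    refine Finset.prod_nonneg fun p hp => ?_
    have := hPmem p (Finset.mem_powerset.1 (Finset.mem_filter.1 hT).1 hp)
    exact VGa.h_nonneg p (by omega)
  have hY0 : 0 ≤ Y := by
    refine Finset.prod_nonneg fun p hp => ?_
    have := hhSS p (Finset.mem_filter.1 hp).1
    linarith
  have hq1 : (1 : ℝ) ≤ Real.log q := by
    rw [Real.le_log_iff_exp_le (by exact_mod_cast hq.pos)]
    have : (7 : ℝ) ≤ q := by exact_mod_cast (by omega : 7 ≤ q)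
    linarith [Real.exp_one_lt_d9]
  have hterm : ∀ j ∈ Icc 1 (JJ c q N), G q N (RR N) / VV {q * j ^ 2} w N ≤
      (2 * (Y * G q N (RR N))) * ((j : ℝ) / Nat.totient j) ^ 2 := by
    intro j hj
    have hj1 : 1 ≤ j := (Finset.mem_Icc.1 hj).1
    have h6 := VGb.inv_VV_le q j w N hq hq4 hj1 hw
    rw [← hY] at h6
    have hjt : 1 ≤ (j : ℝ) / Nat.totient j := by
      have h7 : (0 : ℝ) < Nat.totient j := by exact_mod_cast Nat.totient_pos.2 (by omega)
      rw [le_div_iff₀ h7, one_mul]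
      exact_mod_cast Nat.totient_le j
    rw [div_eq_mul_inv]
    calc G q N (RR N) * (VV {q * j ^ 2} w N)⁻¹ ≤ G q N (RR N) * (Y * (2 * ((j : ℝ) / Nat.totient j))) :=
          mul_le_mul_of_nonneg_left h6 hG0
      _ = (2 * (Y * G q N (RR N))) * ((j : ℝ) / Nat.totient j) := by ring
      _ ≤ (2 * (Y * G q N (RR N))) * ((j : ℝ) / Nat.totient j) ^ 2 := by
          apply mul_le_mul_of_nonneg_left _ (by positivity)
          nlinarith
  have hJ : (JJ c q N : ℝ) ≤ √(c / q) * Real.log N := by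
    unfold JJ
    exact Nat.floor_le (by positivity)
  have hmean := Pool.Agent.Work.Sieve.sum_sq_div_totient_le (JJ c q N)
  calc ∑ j ∈ Icc 1 (JJ c q N), G q N (RR N) / VV {q * j ^ 2} w N
      ≤ ∑ j ∈ Icc 1 (JJ c q N), (2 * (Y * G q N (RR N))) * ((j : ℝ) / Nat.totient j) ^ 2 :=
        Finset.sum_le_sum hterm
    _ = (2 * (Y * G q N (RR N))) * ∑ j ∈ Icc 1 (JJ c q N), ((j : ℝ) / Nat.totient j) ^ 2 := by
        rw [Finset.mul_sum]
    _ ≤ (2 * (2 * (Real.exp 12 * (Real.log N * (3 * Real.log q))))) *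
        (36 * (√(c / q) * Real.log N)) := by
        apply mul_le_mul _ _ (Finset.sum_nonneg fun j _ => by positivity) (by positivity)
        · apply mul_le_mul_of_nonneg_left _ (by norm_num)
          refine hYG.trans ?_
          rw [hR]
          gcongr
          · linarith
          · linarith
        · exact hmean.trans (by gcongr)
    _ = 432 * Real.exp 12 * Real.log q * √(c / q) * Real.log N ^ 2 := by ring

end Pool.Agent.Work.MP_73869e_nt.AP
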