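import Mathlib
import Pool.Agent.Work.MP_73869e_nt.AP.Fam
import Pool.Agent.Work.MP_73869e_nt.AP.PairAvg
import Pool.Agent.Work.MP_73869e_nt.AP.VG

set_option autoImplicit false

namespace Pool.Agent.Work.MP_73869e_nt.AP

open Finset Filter Pool.Agent.Work.MP_2dba45_nt.Sel

theorem cw_nonneg {w N : ℕ} (hw : 4 ≤ w) (h : Ok N) (x : (_ : ℕ) × ℕ) : 0 ≤ cw w N x := by
  unfold cw
  exact div_nonneg (G_pos h).le (VV_pos _ w N hw).le

theorem ev_cw (K : Finset ℕ) (hK : ∀ q ∈ K, q.Prime ∧ q % 4 = 3) (w : ℕ) (hw : 4 ≤ w) :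
    ∀ᶠ N : ℕ in atTop, ∀ q ∈ K, ∀ j, cw w N ⟨q, j⟩ ≤ Real.log N ^ ((3 : ℝ) / 2) := by
  rw [Filter.eventually_all_finset]
  intro q hq
  have hq2 : q ≠ 2 := by rintro rfl; have := (hK 2 hq).2; norm_num at this
  filter_upwards [VG_crude q (hK q hq).1 hq2 w hw] with N hN
  intro j
  exact hN _

theorem first_moment (c α : ℝ) (hc : 0 < c) (K : Finset ℕ)
    (hK : ∀ q ∈ K, q.Prime ∧ q % 4 = 3) (w : ℕ) (hw : 16 ≤ w) (hwq : ∀ q ∈ K, w < q) :
    ∀ᶠ N : ℕ in atTop, ∀ a < primorial w, ∀ b : ℕ, ∀ (E : ℕ → Finset (Finset ℕ))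
      (om : ℕ → Finset ℕ → ℝ), HE α K N E om → ∀ x ∈ Fam c K N (primorial w) b,
    |cw w N x * ∑ n ∈ AA {x.1 * x.2 ^ 2} w N a, FE N E om x n -
      (N : ℝ) / primorial w * mu N E om x.1| ≤ N / Real.log N ^ 3 := by
  have h1 : ∀ᶠ N : ℕ in atTop, ∀ q ∈ K, ∀ a < primorial w, ∀ j ∈ Icc 1 (JJ c q N),
    ∀ (lam om : Finset ℕ → ℝ) (E : Finset (Finset ℕ)), (∀ T, |lam T| ≤ 1) → (∀ T, |om T| ≤ 1) →
    E ⊆ (PP q N).powerset → (∀ T ∈ E, #T ≤ 1) →
    |∑ n ∈ AA {q * j ^ 2} w N a, FF (DD q N (RR N)) lam E om (q * j ^ 2) n -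
      (N : ℝ) / primorial w * VV {q * j ^ 2} w N * MM (DD q N (RR N)) lam E om| ≤
      N / Real.log N ^ 5 := by
    rw [Filter.eventually_all_finset]
    intro q hq
    exact moment_single q (hK q hq).1 (hK q hq).2 w (by omega) (hwq q hq) c hc
  filter_upwards [h1, ev_cw K hK w (by omega), ev_ok] with N hN hcw hok
  intro a ha b E om hE x hx
  obtain ⟨hx1, hx2, -⟩ := mem_Fam.1 hx
  have h2 := hN x.1 hx1 a ha x.2 hx2 (lamq x.1 N) (om x.1) (E x.1) (abs_lamq_le hok)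
    (hE.om_le _ hx1) (hE.sub _ hx1) (hE.card _ hx1)
  have hV := VV_pos (x.1 * x.2 ^ 2) w N (by omega)
  have hc0 := cw_nonneg (w := w) (by omega) hok x
  have hL := hok.hL
  have hL0 : 0 < Real.log N := by linarith
  have hcwx : cw w N x ≤ Real.log N ^ ((3 : ℝ) / 2) := hcw x.1 hx1 x.2
  have e : cw w N x * ∑ n ∈ AA {x.1 * x.2 ^ 2} w N a, FE N E om x n -
      (N : ℝ) / primorial w * mu N E om x.1 = cw w N x *
      (∑ n ∈ AA {x.1 * x.2 ^ 2} w N a, FF (DD x.1 N (RR N)) (lamq x.1 N) (E x.1) (om x.1)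
        (x.1 * x.2 ^ 2) n -
      (N : ℝ) / primorial w * VV {x.1 * x.2 ^ 2} w N *
        MM (DD x.1 N (RR N)) (lamq x.1 N) (E x.1) (om x.1)) := by
    rw [mul_sub]
    congr 1
    unfold cw mu
    field_simp
  rw [e, abs_mul, abs_of_nonneg hc0]
  have hN0 : (0 : ℝ) ≤ N := by positivity
  calc cw w N x * _ ≤ Real.log N ^ ((3 : ℝ) / 2) * (N / Real.log N ^ 5) :=
        mul_le_mul hcwx h2 (abs_nonneg _) (by positivity)
    _ ≤ Real.log N ^ (2 : ℝ) * (N / Real.log N ^ 5) := by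
        gcongr
        norm_num
    _ = N / Real.log N ^ 3 := by
        rw [show (2 : ℝ) = ((2 : ℕ) : ℝ) by norm_num, Real.rpow_natCast]
        field_simp

open Classical in
noncomputable def tt (α : ℝ) (w N a : ℕ) (E : ℕ → Finset (Finset ℕ)) (om : ℕ → Finset ℕ → ℝ)
    (x : (_ : ℕ) × ℕ) (n : ℕ) : ℝ :=
  cw w N x * (if n ∈ AA {x.1 * x.2 ^ 2} w N a ∧ Th α x.1 N (x.1 * x.2 ^ 2) n
    then FE N E om x n else 0)

def NN (w N a : ℕ) : Finset ℕ := (Ioc N (2 * N)).filter (fun n => n % primorial w = a)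

theorem AA_sub (κ : Finset ℕ) (w N a : ℕ) : AA κ w N a ⊆ NN w N a := by
  intro n hn
  unfold AA at hn
  unfold NN
  rw [Finset.mem_filter] at hn ⊢
  exact ⟨hn.1, hn.2.1⟩

theorem mem_AA_pair {k k' w N a n : ℕ} (h : n ∈ AA {k} w N a) (h' : n ∈ AA {k'} w N a) :
    n ∈ AA {k, k'} w N a := by
  unfold AA at h h' ⊢
  rw [Finset.mem_filter] at h h' ⊢
  refine ⟨h.1, h.2.1, fun p hp k₀ hk₀ => ?_⟩
  rw [Finset.mem_insert, Finset.mem_singleton] at hk₀
  rcases hk₀ with rfl | rfl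
  · exact h.2.2 p hp _ (Finset.mem_singleton_self _)
  · exact h'.2.2 p hp _ (Finset.mem_singleton_self _)

theorem pair_sum (c : ℝ) (K : Finset ℕ) (N Q b : ℕ) (m : ℕ → ℝ) (R : ℕ → ℕ → ℝ)
    (C : ℝ) (hm : ∀ q ∈ K, 0 ≤ m q)
    (hR : ∀ q ∈ K, ∀ q' ∈ K, ∑ j ∈ js c q N Q b, ∑ j' ∈ js c q' N Q b,
      (if q * j ^ 2 = q' * j' ^ 2 then 0 else R (q * j ^ 2) (q' * j' ^ 2)) ≤
      C * #(js c q N Q b) * #(js c q' N Q b)) :
    ∑ x ∈ Fam c K N Q b, ∑ y ∈ Fam c K N Q b,
      (if x.1 * x.2 ^ 2 = y.1 * y.2 ^ 2 then 0 else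
        R (x.1 * x.2 ^ 2) (y.1 * y.2 ^ 2) * (m x.1 * m y.1)) ≤
      C * (∑ x ∈ Fam c K N Q b, m x.1) ^ 2 := by
  have e2 : ∑ x ∈ Fam c K N Q b, m x.1 = ∑ q ∈ K, m q * #(js c q N Q b) := by
    unfold Fam
    rw [Finset.sum_sigma]
    refine Finset.sum_congr rfl fun q _ => ?_
    simp only [Finset.sum_const, nsmul_eq_mul]
    rw [mul_comm]
  rw [e2, sq, Finset.sum_mul_sum, Finset.mul_sum]
  unfold Fam
  rw [Finset.sum_sigma]
  refine Finset.sum_le_sum fun q hq => ?_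
  rw [Finset.mul_sum]
  have e3 : ∑ j ∈ js c q N Q b, ∑ y ∈ K.sigma (fun q => js c q N Q b),
      (if q * j ^ 2 = y.1 * y.2 ^ 2 then 0 else
        R (q * j ^ 2) (y.1 * y.2 ^ 2) * (m q * m y.1)) =
      ∑ q' ∈ K, (m q * m q') * ∑ j ∈ js c q N Q b, ∑ j' ∈ js c q' N Q b,
        (if q * j ^ 2 = q' * j' ^ 2 then 0 else R (q * j ^ 2) (q' * j' ^ 2)) := by
    rw [Finset.sum_congr rfl fun j _ => Finset.sum_sigma _ _ _, Finset.sum_comm]
    refine Finset.sum_congr rfl fun q' _ => ?_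
    rw [Finset.mul_sum]
    refine Finset.sum_congr rfl fun j _ => ?_
    rw [Finset.mul_sum]
    refine Finset.sum_congr rfl fun j' _ => ?_
    split_ifs <;> ring
  simp only at e3 ⊢
  rw [e3]
  refine Finset.sum_le_sum fun q' hq' => ?_
  calc (m q * m q') * _ ≤ (m q * m q') * (C * #(js c q N Q b) * #(js c q' N Q b)) := by
        apply mul_le_mul_of_nonneg_left (hR q hq q' hq')
        exact mul_nonneg (hm q hq) (hm q' hq')
    _ = _ := by ring

theorem second_moment (c α η : ℝ) (hc : 0 < c) (hα : 0 < α) (hη : 0 < η) (K : Finset ℕ)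
    (hK : ∀ q ∈ K, q.Prime ∧ q % 4 = 3) (w : ℕ) (hw : 16 ≤ w) (hwq : ∀ q ∈ K, w < q)
    (C1 C2 : ℝ) (hC1 : 0 < C1) (hC2 : 0 < C2)
    (hpair : ∀ q q' : ℕ, q.Prime → q'.Prime →
      q % 4 = 3 → q' % 4 = 3 → w < q → w < q' → ∀ c : ℝ, 0 < c → ∀ᶠ N : ℕ in atTop, ∀ b : ℕ,
      ∑ j ∈ js c q N (primorial w) b, ∑ j' ∈ js c q' N (primorial w) b,
      (if q * j ^ 2 = q' * j' ^ 2 then 0 else
        VV {q * j ^ 2, q' * j' ^ 2} w N / (VV {q * j ^ 2} w N * VV {q' * j' ^ 2} w N)) ≤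
      (1 + C1 / w) * #(js c q N (primorial w) b) * #(js c q' N (primorial w) b))
    (hVG : ∀ q : ℕ, q.Prime → q % 4 = 3 → w < q →
      ∀ c : ℝ, 0 < c → ∀ᶠ N : ℕ in atTop,
      ∑ j ∈ Icc 1 (JJ c q N), G q N (RR N) / VV {q * j ^ 2} w N ≤
      C2 * Real.log q * √(c / q) * Real.log N ^ 2)
    (hw9 : 9 * C1 / w ≤ η / 3)
    (hS : 0 < ∑ q ∈ K, 1 / √(q : ℝ))
    (hKd : 48 * KB α * C2 * (primorial w) ^ 2 / (√c * η) * ∑ q ∈ K, Real.log q / √(q : ℝ) ≤
      (∑ q ∈ K, 1 / √(q : ℝ)) ^ 2) :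
    ∀ᶠ N : ℕ in atTop, ∀ a < primorial w, ∀ b : ℕ, ∀ (E : ℕ → Finset (Finset ℕ))
      (om : ℕ → Finset ℕ → ℝ), HE α K N E om → (∀ q ∈ K, 0 ≤ mu N E om q ∧ mu N E om q ≤ 3) →
    ∑ n ∈ NN w N a, (∑ x ∈ Fam c K N (primorial w) b, tt α w N a E om x n) ^ 2 ≤
      (N : ℝ) / primorial w * ((∑ x ∈ Fam c K N (primorial w) b, mu N E om x.1) ^ 2 +
        η * (#(Fam c K N (primorial w) b) : ℝ) ^ 2) := by
  classical
  set Q := primorial w with hQdef
  have hQpos : 0 < Q := primorial_pos w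
  have hQ0 : (0 : ℝ) < Q := by exact_mod_cast hQpos
  have ev1 : ∀ᶠ N : ℕ in atTop, ∀ q ∈ K, ∀ q' ∈ K, ∀ b : ℕ,
      ∑ j ∈ js c q N Q b, ∑ j' ∈ js c q' N Q b,
      (if q * j ^ 2 = q' * j' ^ 2 then 0 else
        VV {q * j ^ 2, q' * j' ^ 2} w N / (VV {q * j ^ 2} w N * VV {q' * j' ^ 2} w N)) ≤
      (1 + C1 / w) * #(js c q N Q b) * #(js c q' N Q b) := by
    rw [Filter.eventually_all_finset]
    intro q hq
    rw [Filter.eventually_all_finset]
    intro q' hq'
    exact hpair q q' (hK q hq).1 (hK q' hq').1 (hK q hq).2 (hK q' hq').2 (hwq q hq) (hwq q' hq') c hc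
  have ev2 : ∀ᶠ N : ℕ in atTop, ∀ q ∈ K,
      ∑ j ∈ Icc 1 (JJ c q N), G q N (RR N) / VV {q * j ^ 2} w N ≤
      C2 * Real.log q * √(c / q) * Real.log N ^ 2 := by
    rw [Filter.eventually_all_finset]
    intro q hq
    exact hVG q (hK q hq).1 (hK q hq).2 (hwq q hq) c hc
  have ev3 : ∀ᶠ N : ℕ in atTop, ∀ q ∈ K, ∀ q' ∈ K, ∀ a < primorial w, ∀ j ∈ Icc 1 (JJ c q N),
    ∀ j' ∈ Icc 1 (JJ c q' N), q * j ^ 2 ≠ q' * j' ^ 2 →
    ∀ (lam om lam' om' : Finset ℕ → ℝ) (E E' : Finset (Finset ℕ)), (∀ T, |lam T| ≤ 1) →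
    (∀ T, |om T| ≤ 1) → (∀ T, |lam' T| ≤ 1) → (∀ T, |om' T| ≤ 1) →
    E ⊆ (PP q N).powerset → (∀ T ∈ E, #T ≤ 1) → E' ⊆ (PP q' N).powerset → (∀ T ∈ E', #T ≤ 1) →
    |∑ n ∈ AA {q * j ^ 2, q' * j' ^ 2} w N a, FF (DD q N (RR N)) lam E om (q * j ^ 2) n *
        FF (DD q' N (RR N)) lam' E' om' (q' * j' ^ 2) n -
      (N : ℝ) / primorial w * VV {q * j ^ 2, q' * j' ^ 2} w N *
        (MM (DD q N (RR N)) lam E om * MM (DD q' N (RR N)) lam' E' om')| ≤
      N / Real.log N ^ 5 := by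
    rw [Filter.eventually_all_finset]
    intro q hq
    rw [Filter.eventually_all_finset]
    intro q' hq'
    exact moment_pair q q' (hK q hq).1 (hK q hq).2 (hK q' hq').1 (hK q' hq').2 w (by omega)
      (hwq q hq) (hwq q' hq') c hc
  have ev4 : ∀ᶠ N : ℕ in atTop, ∀ q ∈ K, ∀ j ∈ Icc 1 (JJ c q N), q * j ^ 2 ≤ N := by
    rw [Filter.eventually_all_finset]
    intro q hq
    filter_upwards [ev_rpow_small 0 (by norm_num) c 2, eventually_ge_atTop 8] with N hN h8
    intro j hj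
    have h1 := (jj_bound c hc q N j (hK q hq).1.pos hj).1
    have hl : 0 < Real.log N := Real.log_pos (by exact_mod_cast (by omega : 1 < N))
    rw [Real.rpow_zero, mul_one, le_div_iff₀ (by positivity)] at hN
    exact_mod_cast h1.trans hN
  filter_upwards [ev1, ev2, ev3, ev4, ev_cw K hK w (by omega), ev_ok,
    first_moment c α hc K hK w hw hwq,
    card_Fam_ge c hc K (fun q hq => (hK q hq).1) Q hQpos,
    ev_log_ge (max Q (3 * Q / η))] with N hN1 hN2 hN3 hN4 hcw hok hfm hcard hLm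
  intro a ha b E om hE hmu
  have hL1 := hok.hL
  have hL0 : 0 < Real.log N := by linarith
  have hLQ : (Q : ℝ) ≤ Real.log N := (le_max_left _ _).trans hLm
  have hLη : 3 * Q / η ≤ Real.log N := (le_max_right _ _).trans hLm
  have hN0 : (0 : ℝ) < N := by
    have := hok.hN
    exact_mod_cast (by omega : 0 < N)
  set F := Fam c K N Q b with hF
  set X := (N : ℝ) / Q with hX
  have hX0 : 0 < X := by positivity
  set m := mu N E om with hm
  have hcw0 : ∀ x, 0 ≤ cw w N x := fun x => cw_nonneg (by omega) hok x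
  have hFE0 : ∀ x ∈ F, ∀ n, 0 ≤ FE N E om x n := fun x hx n =>
    hE.nn x.1 (mem_Fam.1 hx).1 _ n
  have htt0 : ∀ x ∈ F, ∀ n, 0 ≤ tt α w N a E om x n := by
    intro x hx n
    unfold tt
    apply mul_nonneg (hcw0 x)
    split_ifs
    · exact hFE0 x hx n
    · exact le_rfl
  -- the pair bound
  have hpairb : ∀ x ∈ F, ∀ y ∈ F, ∑ n ∈ NN w N a, tt α w N a E om x n * tt α w N a E om y n ≤
      (if y = x then 4 * KB α * X * cw w N x else 0) +
      X * (if x.1 * x.2 ^ 2 = y.1 * y.2 ^ 2 then 0 else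
        VV {x.1 * x.2 ^ 2, y.1 * y.2 ^ 2} w N / (VV {x.1 * x.2 ^ 2} w N * VV {y.1 * y.2 ^ 2} w N) *
          (m x.1 * m y.1)) + N / Real.log N ^ 2 := by
    intro x hx y hy
    obtain ⟨hx1, hx2, -⟩ := mem_Fam.1 hx
    obtain ⟨hy1, hy2, -⟩ := mem_Fam.1 hy
    have hKB : 0 < KB α := by unfold KB; positivity
    by_cases hs : x.1 * x.2 ^ 2 = y.1 * y.2 ^ 2
    · obtain ⟨h1, h2⟩ := shift_inj (hK _ hx1).1 (hK _ hy1).1 (Finset.mem_Icc.1 hx2).1
        (Finset.mem_Icc.1 hy2).1 hs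
      have hxy : y = x := by
        obtain ⟨x1, x2⟩ := x
        obtain ⟨y1, y2⟩ := y
        simp only at h1 h2
        rw [h1, h2]
      subst hxy
      rw [if_pos rfl, if_pos rfl, mul_zero, add_zero]
      have hstep : ∑ n ∈ NN w N a, tt α w N a E om y n * tt α w N a E om y n ≤
          KB α * cw w N y * (cw w N y * ∑ n ∈ AA {y.1 * y.2 ^ 2} w N a, FE N E om y n) := by
        rw [Finset.mul_sum, Finset.mul_sum]
        rw [← Finset.sum_subset (AA_sub {y.1 * y.2 ^ 2} w N a)]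
        · refine Finset.sum_le_sum fun n hn => ?_
          unfold tt
          split_ifs with hc1
          · have hb : FE N E om y n ≤ KB α :=
              hE.bd y.1 hy1 _ n (by
                have := hc1.1
                unfold AA at this
                exact (Finset.mem_filter.1 this).1) (hN4 y.1 hy1 y.2 hy2) hc1.2
            have h0 := hFE0 y hy n
            have hc0 := hcw0 y
            calc cw w N y * FE N E om y n * (cw w N y * FE N E om y n)
                = cw w N y * (cw w N y * (FE N E om y n * FE N E om y n)) := by ring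
              _ ≤ cw w N y * (cw w N y * (KB α * FE N E om y n)) := by gcongr
              _ = _ := by ring
          · have h0 := hFE0 y hy n
            have hc0 := hcw0 y
            simp only [mul_zero]
            positivity
        · intro n _ hn
          unfold tt
          rw [if_neg (fun h => hn h.1)]
          simp
      refine hstep.trans ?_
      have hf := hfm a ha b E om hE y hy
      have hf2 : cw w N y * ∑ n ∈ AA {y.1 * y.2 ^ 2} w N a, FE N E om y n ≤ 4 * X := by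
        have h3 := (abs_le.1 hf).2
        have h4 : (N : ℝ) / Real.log N ^ 3 ≤ X := by
          rw [hX]
          apply div_le_div_of_nonneg_left hN0.le hQ0
          calc (Q : ℝ) ≤ Real.log N := hLQ
            _ ≤ Real.log N ^ 3 := le_self_pow₀ hL1 (by norm_num)
        have h5 := (hmu y.1 hy1).2
        have h6 : X * mu N E om y.1 ≤ X * 3 := by gcongr
        linarith
      have h7 : 0 ≤ (N : ℝ) / Real.log N ^ 2 := by positivity
      have hc0 := hcw0 y
      calc KB α * cw w N y * (cw w N y * ∑ n ∈ AA {y.1 * y.2 ^ 2} w N a, FE N E om y n)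
          ≤ KB α * cw w N y * (4 * X) := by gcongr
        _ = 4 * KB α * X * cw w N y := by ring
        _ ≤ _ := by linarith
    · have hxy : y ≠ x := by rintro rfl; exact hs rfl
      rw [if_neg hxy, if_neg hs, zero_add]
      have h3 := hN3 x.1 hx1 y.1 hy1 a ha x.2 hx2 y.2 hy2 hs (lamq x.1 N) (om x.1) (lamq y.1 N)
        (om y.1) (E x.1) (E y.1) (abs_lamq_le hok) (hE.om_le _ hx1) (abs_lamq_le hok)
        (hE.om_le _ hy1) (hE.sub _ hx1) (hE.card _ hx1) (hE.sub _ hy1) (hE.card _ hy1)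
      have hstep : ∑ n ∈ NN w N a, tt α w N a E om x n * tt α w N a E om y n ≤
          cw w N x * cw w N y * ∑ n ∈ AA {x.1 * x.2 ^ 2, y.1 * y.2 ^ 2} w N a,
            FE N E om x n * FE N E om y n := by
        rw [Finset.mul_sum, ← Finset.sum_subset (AA_sub {x.1 * x.2 ^ 2, y.1 * y.2 ^ 2} w N a)]
        · refine Finset.sum_le_sum fun n hn => ?_
          have a0 := hFE0 x hx n
          have b0 := hFE0 y hy n
          have c0 := hcw0 x
          have d0 := hcw0 y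
          have e1 : tt α w N a E om x n ≤ cw w N x * FE N E om x n := by
            unfold tt
            split_ifs
            · exact le_rfl
            · rw [mul_zero]; positivity
          have e2 : tt α w N a E om y n ≤ cw w N y * FE N E om y n := by
            unfold tt
            split_ifs
            · exact le_rfl
            · rw [mul_zero]; positivity
          calc tt α w N a E om x n * tt α w N a E om y n
              ≤ (cw w N x * FE N E om x n) * (cw w N y * FE N E om y n) :=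
                mul_le_mul e1 e2 (htt0 y hy n) (by positivity)
            _ = _ := by ring
        · intro n _ hn
          by_cases hA : n ∈ AA {x.1 * x.2 ^ 2} w N a
          · by_cases hB : n ∈ AA {y.1 * y.2 ^ 2} w N a
            · exact absurd (mem_AA_pair hA hB) hn
            · have : tt α w N a E om y n = 0 := by
                unfold tt
                rw [if_neg (fun h => hB h.1), mul_zero]
              rw [this, mul_zero]
          · have : tt α w N a E om x n = 0 := by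
              unfold tt
              rw [if_neg (fun h => hA h.1), mul_zero]
            rw [this, zero_mul]
      refine hstep.trans ?_
      have hVx := VV_pos (x.1 * x.2 ^ 2) w N (by omega)
      have hVy := VV_pos (y.1 * y.2 ^ 2) w N (by omega)
      have h4 := (abs_le.1 h3).2
      have h5 : cw w N x * cw w N y * ∑ n ∈ AA {x.1 * x.2 ^ 2, y.1 * y.2 ^ 2} w N a,
            FE N E om x n * FE N E om y n ≤
          cw w N x * cw w N y * (X * VV {x.1 * x.2 ^ 2, y.1 * y.2 ^ 2} w N *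
            (MM (DD x.1 N (RR N)) (lamq x.1 N) (E x.1) (om x.1) *
              MM (DD y.1 N (RR N)) (lamq y.1 N) (E y.1) (om y.1)) + N / Real.log N ^ 5) := by
        apply mul_le_mul_of_nonneg_left _ (mul_nonneg (hcw0 x) (hcw0 y))
        unfold FE
        rw [hX]
        linarith
      refine h5.trans ?_
      rw [mul_add]
      apply add_le_add
      · apply le_of_eq
        rw [hm]
        unfold cw mu
        field_simp
      · have c1 := hcw x.1 hx1 x.2
        have c2 := hcw y.1 hy1 y.2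
        calc cw w N x * cw w N y * (N / Real.log N ^ 5)
            ≤ (Real.log N ^ ((3 : ℝ) / 2) * Real.log N ^ ((3 : ℝ) / 2)) * (N / Real.log N ^ 5) := by
              apply mul_le_mul_of_nonneg_right _ (by positivity)
              exact mul_le_mul c1 c2 (hcw0 y) (by positivity)
          _ = N / Real.log N ^ 2 := by
              rw [← Real.rpow_add hL0, show (3 : ℝ) / 2 + 3 / 2 = ((3 : ℕ) : ℝ) by norm_num,
                Real.rpow_natCast]
              field_simp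
  -- expansion
  have hexp : ∑ n ∈ NN w N a, (∑ x ∈ F, tt α w N a E om x n) ^ 2 =
      ∑ x ∈ F, ∑ y ∈ F, ∑ n ∈ NN w N a, tt α w N a E om x n * tt α w N a E om y n := by
    have : ∀ n ∈ NN w N a, (∑ x ∈ F, tt α w N a E om x n) ^ 2 =
        ∑ x ∈ F, ∑ y ∈ F, tt α w N a E om x n * tt α w N a E om y n := by
      intro n _
      rw [sq, Finset.sum_mul_sum]
    rw [Finset.sum_congr rfl this, Finset.sum_comm]
    refine Finset.sum_congr rfl fun x _ => ?_
    rw [Finset.sum_comm]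
  rw [hexp]
  have hbig : ∑ x ∈ F, ∑ y ∈ F, ∑ n ∈ NN w N a, tt α w N a E om x n * tt α w N a E om y n ≤
      4 * KB α * X * ∑ x ∈ F, cw w N x +
      X * ((1 + C1 / w) * (∑ x ∈ F, m x.1) ^ 2) + (#F : ℝ) ^ 2 * (N / Real.log N ^ 2) := by
    calc _ ≤ ∑ x ∈ F, ∑ y ∈ F, ((if y = x then 4 * KB α * X * cw w N x else 0) +
          X * (if x.1 * x.2 ^ 2 = y.1 * y.2 ^ 2 then 0 else
            VV {x.1 * x.2 ^ 2, y.1 * y.2 ^ 2} w N /
              (VV {x.1 * x.2 ^ 2} w N * VV {y.1 * y.2 ^ 2} w N) *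
              (m x.1 * m y.1)) + N / Real.log N ^ 2) :=
          Finset.sum_le_sum fun x hx => Finset.sum_le_sum fun y hy => hpairb x hx y hy
      _ = 4 * KB α * X * ∑ x ∈ F, cw w N x + X * (∑ x ∈ F, ∑ y ∈ F,
          (if x.1 * x.2 ^ 2 = y.1 * y.2 ^ 2 then 0 else
            VV {x.1 * x.2 ^ 2, y.1 * y.2 ^ 2} w N /
              (VV {x.1 * x.2 ^ 2} w N * VV {y.1 * y.2 ^ 2} w N) *
              (m x.1 * m y.1))) + (#F : ℝ) ^ 2 * (N / Real.log N ^ 2) := by
          simp_rw [Finset.sum_add_distrib]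
          congr 1
          · congr 1
            · rw [Finset.mul_sum]
              refine Finset.sum_congr rfl fun x hx => ?_
              rw [Finset.sum_ite_eq' F x, if_pos hx]
            · rw [Finset.mul_sum]
              refine Finset.sum_congr rfl fun x hx => ?_
              rw [Finset.mul_sum]
          · simp only [Finset.sum_const, nsmul_eq_mul]
            ring
      _ ≤ _ := by
          gcongr
          exact pair_sum c K N Q b m (fun k k' => VV {k, k'} w N / (VV {k} w N * VV {k'} w N))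
            (1 + C1 / w) (fun q hq => (hmu q hq).1) (fun q hq q' hq' => hN1 q hq q' hq' b)
  refine hbig.trans ?_
  -- final numerical estimates
  have hM3 : ∑ x ∈ F, m x.1 ≤ 3 * (#F : ℝ) := by
    calc ∑ x ∈ F, m x.1 ≤ ∑ x ∈ F, (3 : ℝ) :=
          Finset.sum_le_sum fun x hx => (hmu x.1 (mem_Fam.1 hx).1).2
      _ = _ := by rw [Finset.sum_const, nsmul_eq_mul]; ring
  have hM0 : 0 ≤ ∑ x ∈ F, m x.1 :=
    Finset.sum_nonneg fun x hx => (hmu x.1 (mem_Fam.1 hx).1).1
  have hw0 : (0 : ℝ) < w := by exact_mod_cast (by omega : 0 < w)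
  have f1 : C1 / w * (∑ x ∈ F, m x.1) ^ 2 ≤ η / 3 * (#F : ℝ) ^ 2 := by
    calc C1 / w * (∑ x ∈ F, m x.1) ^ 2 ≤ C1 / w * (3 * (#F : ℝ)) ^ 2 := by gcongr
      _ = 9 * C1 / w * (#F : ℝ) ^ 2 := by ring
      _ ≤ _ := by gcongr
  have f2 : (#F : ℝ) ^ 2 * (N / Real.log N ^ 2) ≤ X * (η / 3 * (#F : ℝ) ^ 2) := by
    have h1 : (N : ℝ) / Real.log N ^ 2 ≤ X * (η / 3) := by
      rw [hX, div_mul_div_comm, div_le_div_iff₀ (by positivity) (by positivity)]
      have h2 : 3 * Q ≤ Real.log N * η := by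
        rw [div_le_iff₀ hη] at hLη
        exact hLη
      have h3 : Real.log N ≤ Real.log N ^ 2 := le_self_pow₀ hL1 (by norm_num)
      have h4 : (Q : ℝ) * 3 ≤ η * Real.log N ^ 2 := by nlinarith
      nlinarith
    calc (#F : ℝ) ^ 2 * (N / Real.log N ^ 2) ≤ (#F : ℝ) ^ 2 * (X * (η / 3)) := by gcongr
      _ = _ := by ring
  have hKB : 0 < KB α := by unfold KB; positivity
  have f3 : 4 * KB α * X * ∑ x ∈ F, cw w N x ≤ X * (η / 3 * (#F : ℝ) ^ 2) := by
    have h1 : ∑ x ∈ F, cw w N x ≤ C2 * √c * Real.log N ^ 2 * ∑ q ∈ K, Real.log q / √(q : ℝ) := by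
      rw [hF]
      unfold Fam
      rw [Finset.sum_sigma, Finset.mul_sum]
      refine Finset.sum_le_sum fun q hq => ?_
      have h2 : ∑ j ∈ js c q N Q b, cw w N ⟨q, j⟩ ≤
          ∑ j ∈ Icc 1 (JJ c q N), G q N (RR N) / VV {q * j ^ 2} w N := by
        apply Finset.sum_le_sum_of_subset_of_nonneg (Finset.filter_subset _ _)
        intro j _ _
        exact hcw0 ⟨q, j⟩
      refine h2.trans ((hN2 q hq).trans (le_of_eq ?_))
      rw [Real.sqrt_div hc.le]
      ring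
    have h2 := hcard b
    set S1 := ∑ q ∈ K, 1 / √(q : ℝ)
    set S2 := ∑ q ∈ K, Real.log q / √(q : ℝ)
    have h3 : (√c * Real.log N / (2 * Q) * S1) ^ 2 ≤ (#F : ℝ) ^ 2 := by
      gcongr
    have h4 : c * Real.log N ^ 2 / (4 * Q ^ 2) * S1 ^ 2 ≤ (#F : ℝ) ^ 2 := by
      refine le_trans (le_of_eq ?_) h3
      rw [mul_pow, div_pow, mul_pow, Real.sq_sqrt hc.le]
      ring
    have hsc : 0 < √c := Real.sqrt_pos.2 hc
    have h5 : 48 * KB α * C2 * (Q : ℝ) ^ 2 * S2 ≤ √c * η * S1 ^ 2 := by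
      have := hKd
      rw [div_mul_eq_mul_div, div_le_iff₀ (by positivity)] at this
      linarith
    have h6 : 4 * KB α * (C2 * √c * Real.log N ^ 2 * S2) ≤
        η / 3 * (c * Real.log N ^ 2 / (4 * Q ^ 2) * S1 ^ 2) := by
      have e1 : η / 3 * (c * Real.log N ^ 2 / (4 * Q ^ 2) * S1 ^ 2) =
          (Real.log N ^ 2 * √c / (12 * Q ^ 2)) * (√c * η * S1 ^ 2) := by
        have : c = √c * √c := (Real.mul_self_sqrt hc.le).symm
        field_simp
        nlinarith
      have e2 : 4 * KB α * (C2 * √c * Real.log N ^ 2 * S2) =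
          (Real.log N ^ 2 * √c / (12 * Q ^ 2)) * (48 * KB α * C2 * (Q : ℝ) ^ 2 * S2) := by
        field_simp
        ring
      rw [e1, e2]
      gcongr
    calc 4 * KB α * X * ∑ x ∈ F, cw w N x
        ≤ 4 * KB α * X * (C2 * √c * Real.log N ^ 2 * S2) := by gcongr
      _ = X * (4 * KB α * (C2 * √c * Real.log N ^ 2 * S2)) := by ring
      _ ≤ X * (η / 3 * (c * Real.log N ^ 2 / (4 * Q ^ 2) * S1 ^ 2)) := by gcongr
      _ ≤ _ := by gcongr
  have f1' : X * (C1 / w * (∑ x ∈ F, m x.1) ^ 2) ≤ X * (η / 3 * (#F : ℝ) ^ 2) := by gcongr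
  have e : X * ((1 + C1 / w) * (∑ x ∈ F, m x.1) ^ 2) = X * (∑ x ∈ F, m x.1) ^ 2 +
      X * (C1 / w * (∑ x ∈ F, m x.1) ^ 2) := by ring
  have e' : X * ((∑ x ∈ F, m x.1) ^ 2 + η * (#F : ℝ) ^ 2) = X * (∑ x ∈ F, m x.1) ^ 2 +
      3 * (X * (η / 3 * (#F : ℝ) ^ 2)) := by ring
  rw [e, e']
  linarith

end Pool.Agent.Work.MP_73869e_nt.AP
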