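import Mathlib
import Pool.Agent.Work.MP_73869e_nt.AP.Mom2
import Pool.Agent.Work.MP_73869e_nt.AP.Beta
import Pool.Agent.Work.MP_73869e_nt.AP.Choose

set_option autoImplicit false

namespace Pool.Agent.Work.MP_73869e_nt.AP

open Finset Filter Pool.Agent.Work.MP_2dba45_nt.Sel

open Classical in
theorem cheb_low (S : Finset ℕ) (f : ℕ → ℝ) (X K0 η t : ℝ) (hX : 0 < X) (hK : 0 < K0) (ht : 0 < t)
    (hS : (#S : ℝ) ≤ (1 + η) * X) (h1 : (1 - η) * K0 * X ≤ ∑ n ∈ S, f n)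
    (h2 : ∑ n ∈ S, f n ^ 2 ≤ (1 + η) * K0 ^ 2 * X) :
    (#(S.filter (fun n => f n ≤ (1 - t) * K0)) : ℝ) ≤ 4 * η / t ^ 2 * X := by
  have h3 : (#(S.filter (fun n => f n ≤ (1 - t) * K0)) : ℝ) * (t * K0) ^ 2 ≤
      ∑ n ∈ S, (f n - K0) ^ 2 := by
    rw [← nsmul_eq_mul, ← Finset.sum_const]
    calc ∑ n ∈ S.filter (fun n => f n ≤ (1 - t) * K0), (t * K0) ^ 2
        ≤ ∑ n ∈ S.filter (fun n => f n ≤ (1 - t) * K0), (f n - K0) ^ 2 := by
          refine Finset.sum_le_sum fun n hn => ?_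
          rw [Finset.mem_filter] at hn
          have := hn.2
          have h0 : 0 < t * K0 := by positivity
          nlinarith
      _ ≤ _ := Finset.sum_le_sum_of_subset_of_nonneg (Finset.filter_subset _ _)
          fun _ _ _ => sq_nonneg _
  have h4 : ∑ n ∈ S, (f n - K0) ^ 2 = ∑ n ∈ S, f n ^ 2 - 2 * K0 * ∑ n ∈ S, f n + K0 ^ 2 * #S := by
    have : ∀ n ∈ S, (f n - K0) ^ 2 = f n ^ 2 - 2 * K0 * f n + K0 ^ 2 := fun n _ => by ring
    rw [Finset.sum_congr rfl this, Finset.sum_add_distrib, Finset.sum_sub_distrib,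
      ← Finset.mul_sum, Finset.sum_const, nsmul_eq_mul]
    ring
  have h5 : ∑ n ∈ S, (f n - K0) ^ 2 ≤ 4 * η * K0 ^ 2 * X := by
    rw [h4]
    have a1 : 2 * K0 * ((1 - η) * K0 * X) ≤ 2 * K0 * ∑ n ∈ S, f n := by gcongr
    have a2 : K0 ^ 2 * (#S : ℝ) ≤ K0 ^ 2 * ((1 + η) * X) := by gcongr
    nlinarith
  have h6 := h3.trans h5
  rw [div_mul_eq_mul_div, le_div_iff₀ (by positivity)]
  have hK2 : 0 < K0 ^ 2 := by positivity
  have h7 : (#(S.filter (fun n => f n ≤ (1 - t) * K0)) : ℝ) * t ^ 2 * K0 ^ 2 ≤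
      4 * η * X * K0 ^ 2 := by
    nlinarith
  exact le_of_mul_le_mul_right h7 hK2

open Classical in
theorem cheb_up (S : Finset ℕ) (f : ℕ → ℝ) (X K0 M η t : ℝ) (hX : 0 < X) (hK : 0 < K0) (ht : 0 < t)
    (hη : 0 < η) (hM0 : 0 ≤ M) (hM : M ≤ 3 * K0)
    (hS : (#S : ℝ) ≤ (1 + η) * X) (h1 : M * X - η * K0 * X ≤ ∑ n ∈ S, f n)
    (h2 : ∑ n ∈ S, f n ^ 2 ≤ X * (M ^ 2 + η * K0 ^ 2)) :
    (#(S.filter (fun n => M + t * K0 ≤ f n)) : ℝ) ≤ 16 * η / t ^ 2 * X := by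
  have h3 : (#(S.filter (fun n => M + t * K0 ≤ f n)) : ℝ) * (t * K0) ^ 2 ≤
      ∑ n ∈ S, (f n - M) ^ 2 := by
    rw [← nsmul_eq_mul, ← Finset.sum_const]
    calc ∑ n ∈ S.filter (fun n => M + t * K0 ≤ f n), (t * K0) ^ 2
        ≤ ∑ n ∈ S.filter (fun n => M + t * K0 ≤ f n), (f n - M) ^ 2 := by
          refine Finset.sum_le_sum fun n hn => ?_
          rw [Finset.mem_filter] at hn
          have := hn.2
          have h0 : 0 < t * K0 := by positivity
          nlinarith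
      _ ≤ _ := Finset.sum_le_sum_of_subset_of_nonneg (Finset.filter_subset _ _)
          fun _ _ _ => sq_nonneg _
  have h4 : ∑ n ∈ S, (f n - M) ^ 2 = ∑ n ∈ S, f n ^ 2 - 2 * M * ∑ n ∈ S, f n + M ^ 2 * #S := by
    have : ∀ n ∈ S, (f n - M) ^ 2 = f n ^ 2 - 2 * M * f n + M ^ 2 := fun n _ => by ring
    rw [Finset.sum_congr rfl this, Finset.sum_add_distrib, Finset.sum_sub_distrib,
      ← Finset.mul_sum, Finset.sum_const, nsmul_eq_mul]
    ring
  have h5 : ∑ n ∈ S, (f n - M) ^ 2 ≤ η * X * (K0 + M) ^ 2 := by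
    rw [h4]
    have a1 : 2 * M * (M * X - η * K0 * X) ≤ 2 * M * ∑ n ∈ S, f n := by gcongr
    have a2 : M ^ 2 * (#S : ℝ) ≤ M ^ 2 * ((1 + η) * X) := by gcongr
    nlinarith
  have h5' : η * X * (K0 + M) ^ 2 ≤ 16 * η * X * K0 ^ 2 := by
    have : (K0 + M) ^ 2 ≤ (4 * K0) ^ 2 := by gcongr; linarith
    calc η * X * (K0 + M) ^ 2 ≤ η * X * (4 * K0) ^ 2 := by gcongr
      _ = _ := by ring
  have h6 := (h3.trans h5).trans h5'
  rw [div_mul_eq_mul_div, le_div_iff₀ (by positivity)]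
  have hK2 : 0 < K0 ^ 2 := by positivity
  have h7 : (#(S.filter (fun n => M + t * K0 ≤ f n)) : ℝ) * t ^ 2 * K0 ^ 2 ≤
      16 * η * X * K0 ^ 2 := by
    nlinarith
  exact le_of_mul_le_mul_right h7 hK2

open Classical in
theorem markov (S : Finset ℕ) (f : ℕ → ℝ) (X K0 η t : ℝ) (hK : 0 < K0) (ht : 0 < t)
    (hf : ∀ n ∈ S, 0 ≤ f n) (h1 : ∑ n ∈ S, f n ≤ η * K0 * X) :
    (#(S.filter (fun n => t * K0 ≤ f n)) : ℝ) ≤ η / t * X := by
  have h3 : (#(S.filter (fun n => t * K0 ≤ f n)) : ℝ) * (t * K0) ≤ ∑ n ∈ S, f n := by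
    rw [← nsmul_eq_mul, ← Finset.sum_const]
    calc ∑ n ∈ S.filter (fun n => t * K0 ≤ f n), (t * K0)
        ≤ ∑ n ∈ S.filter (fun n => t * K0 ≤ f n), f n :=
          Finset.sum_le_sum fun n hn => (Finset.mem_filter.1 hn).2
      _ ≤ _ := Finset.sum_le_sum_of_subset_of_nonneg (Finset.filter_subset _ _)
          fun n hn _ => hf n hn
  have h4 := h3.trans h1
  rw [div_mul_eq_mul_div, le_div_iff₀ ht]
  have h5 : (#(S.filter (fun n => t * K0 ≤ f n)) : ℝ) * t * K0 ≤ η * X * K0 := by nlinarith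
  exact le_of_mul_le_mul_right h5 hK

/-- weight of a prime -/
noncomputable def wt (N p : ℕ) : ℝ :=
  if (p : ℝ) ≤ yR N then 1 - Real.log p / Real.log (yR N) else 0

theorem wt_nonneg {N : ℕ} (h : Ok N) (p : ℕ) : 0 ≤ wt N p := by
  unfold wt
  split_ifs with hp
  · have hy : 1 < yR N := by
      unfold yR
      apply Real.one_lt_rpow _ (by norm_num)
      exact_mod_cast (by have := h.hN; omega : 1 < N)
    have hly : 0 < Real.log (yR N) := Real.log_pos hy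
    rw [sub_nonneg, div_le_one hly]
    rcases Nat.eq_zero_or_pos p with h0 | h0
    · rw [h0]; simp; exact hly.le
    · exact Real.log_le_log (by exact_mod_cast h0) hp
  · exact le_rfl

theorem wt_le_one {N : ℕ} (h : Ok N) (p : ℕ) : wt N p ≤ 1 := by
  unfold wt
  split_ifs with hp
  · have hy : 1 < yR N := by
      unfold yR
      apply Real.one_lt_rpow _ (by norm_num)
      exact_mod_cast (by have := h.hN; omega : 1 < N)
    have hly : 0 < Real.log (yR N) := Real.log_pos hy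
    have := Real.log_natCast_nonneg p
    have : 0 ≤ Real.log p / Real.log (yR N) := by positivity
    linarith
  · norm_num

theorem wt_PP {N q p : ℕ} (hp : p ∈ PP q N) : wt N p = 1 - Real.log p / Real.log (yR N) := by
  unfold wt
  rw [if_pos (mem_PP hp).2.2]

noncomputable def P1 (α α₀ : ℝ) (q N : ℕ) : Finset ℕ :=
  (PP q N).filter (fun p : ℕ => (N : ℝ) ^ α < p ∧ (p : ℝ) ≤ (N : ℝ) ^ α₀)

noncomputable def P2 (α₀ : ℝ) (q N : ℕ) : Finset ℕ :=
  (PP q N).filter (fun p : ℕ => (N : ℝ) ^ α₀ < p)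

theorem G_gap_nonneg {q N p : ℕ} (h : Ok N) (hp : p ∈ PP q N) :
    0 ≤ G q N (RR N) - G q N (RR N / p) := by
  rw [sub_nonneg]
  have hp1 : (1 : ℝ) ≤ p := by exact_mod_cast (mem_PP hp).1.one_lt.le
  unfold G GG
  apply Finset.sum_le_sum_of_subset_of_nonneg
  · intro T hT
    unfold DD at hT ⊢
    rw [Finset.mem_filter] at hT ⊢
    refine ⟨hT.1, hT.2.trans (div_le_self ?_ hp1)⟩
    linarith [RR_ge_one h]
  · intro T hT _
    exact (hh_pos (P := PP q N) (fun _ hp => g_pos_of_mem hp) (fun _ hp => g_lt_one_of_mem h hp)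
      (Finset.mem_powerset.1 (DD_sub q N _ hT))).le

theorem mu_T {q N : ℕ} (h : Ok N) (α B : ℝ)
    (hs : ∑ p ∈ (PP q N).filter (fun p : ℕ => (p : ℝ) ≤ (N : ℝ) ^ α), g p *
      (G q N (RR N) - G q N (RR N / p)) ≤ B * G q N (RR N)) :
    0 ≤ mu N (fun q => sing (Psm α q N)) (fun _ => omw (fun _ => 1)) q ∧
    mu N (fun q => sing (Psm α q N)) (fun _ => omw (fun _ => 1)) q ≤ B := by
  have h1 := MM_sing (q := q) h (P' := Psm α q N) (Finset.filter_subset _ _) (fun _ => 1)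
    (fun _ => zero_le_one)
  refine ⟨h1.1, h1.2.trans ?_⟩
  rw [div_le_iff₀ (G_pos h)]
  simp only [mul_one]
  exact hs

theorem mu_1 {q N : ℕ} (h : Ok N) (α α₀ B : ℝ)
    (hs : ∑ p ∈ (PP q N).filter (fun p : ℕ => (p : ℝ) ≤ (N : ℝ) ^ α₀), g p *
      (G q N (RR N) - G q N (RR N / p)) ≤ B * G q N (RR N)) :
    0 ≤ mu N (fun q => sing (P1 α α₀ q N)) (fun _ => omw (wt N)) q ∧
    mu N (fun q => sing (P1 α α₀ q N)) (fun _ => omw (wt N)) q ≤ B := by
  have h1 := MM_sing (q := q) h (P' := P1 α α₀ q N) (Finset.filter_subset _ _) (wt N)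
    (wt_nonneg h)
  refine ⟨h1.1, h1.2.trans ?_⟩
  rw [div_le_iff₀ (G_pos h)]
  refine le_trans ?_ hs
  have hsub : P1 α α₀ q N ⊆ (PP q N).filter (fun p : ℕ => (p : ℝ) ≤ (N : ℝ) ^ α₀) := by
    intro p hp
    unfold P1 at hp
    rw [Finset.mem_filter] at hp ⊢
    exact ⟨hp.1, hp.2.2⟩
  calc ∑ p ∈ P1 α α₀ q N, g p * wt N p * (G q N (RR N) - G q N (RR N / p))
      ≤ ∑ p ∈ P1 α α₀ q N, g p * (G q N (RR N) - G q N (RR N / p)) := by
        refine Finset.sum_le_sum fun p hp => ?_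
        have h2 := G_gap_nonneg h (Finset.mem_filter.1 hp).1
        have h3 := g_nonneg p
        have h4 := wt_le_one h p
        have h5 := wt_nonneg h p
        calc g p * wt N p * (G q N (RR N) - G q N (RR N / p))
            ≤ g p * 1 * (G q N (RR N) - G q N (RR N / p)) := by gcongr
          _ = _ := by ring
    _ ≤ _ := by
        apply Finset.sum_le_sum_of_subset_of_nonneg hsub
        intro p hp _
        exact mul_nonneg (g_nonneg p) (G_gap_nonneg h (Finset.mem_filter.1 hp).1)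

theorem mu_2 {q N : ℕ} (h : Ok N) (α₀ B : ℝ)
    (hs : ∑ p ∈ PP q N, g p * (1 - Real.log p / Real.log (yR N)) *
      (G q N (RR N) - G q N (RR N / p)) ≤ B * G q N (RR N)) :
    0 ≤ mu N (fun q => sing (P2 α₀ q N)) (fun _ => omw (wt N)) q ∧
    mu N (fun q => sing (P2 α₀ q N)) (fun _ => omw (wt N)) q ≤ B := by
  have h1 := MM_sing (q := q) h (P' := P2 α₀ q N) (Finset.filter_subset _ _) (wt N)
    (wt_nonneg h)
  refine ⟨h1.1, h1.2.trans ?_⟩
  rw [div_le_iff₀ (G_pos h)]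
  refine le_trans ?_ hs
  calc ∑ p ∈ P2 α₀ q N, g p * wt N p * (G q N (RR N) - G q N (RR N / p))
      ≤ ∑ p ∈ PP q N, g p * wt N p * (G q N (RR N) - G q N (RR N / p)) := by
        apply Finset.sum_le_sum_of_subset_of_nonneg (Finset.filter_subset _ _)
        intro p hp _
        exact mul_nonneg (mul_nonneg (g_nonneg p) (wt_nonneg h p)) (G_gap_nonneg h hp)
    _ = _ := by
        refine Finset.sum_congr rfl fun p hp => ?_
        rw [wt_PP hp]

theorem mu_A {q N : ℕ} (h : Ok N) : mu N (fun _ => {∅}) (fun _ _ => 1) q = 1 := MM_zero h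

open Classical in
theorem tt_sum (α : ℝ) (w N a : ℕ) (E : ℕ → Finset (Finset ℕ)) (om : ℕ → Finset ℕ → ℝ)
    (x : (_ : ℕ) × ℕ) : ∑ n ∈ NN w N a, tt α w N a E om x n =
    cw w N x * ∑ n ∈ AA {x.1 * x.2 ^ 2} w N a,
      (if Th α x.1 N (x.1 * x.2 ^ 2) n then FE N E om x n else 0) := by
  rw [Finset.mul_sum, ← Finset.sum_subset (AA_sub {x.1 * x.2 ^ 2} w N a)]
  · refine Finset.sum_congr rfl fun n hn => ?_
    unfold tt
    by_cases h : Th α x.1 N (x.1 * x.2 ^ 2) n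
    · rw [if_pos ⟨hn, h⟩, if_pos h]
    · rw [if_neg (fun h' => h h'.2), if_neg h]
  · intro n _ hn
    unfold tt
    rw [if_neg (fun h' => hn h'.1), mul_zero]

theorem FE_A (N : ℕ) (x : (_ : ℕ) × ℕ) (n : ℕ) :
    FE N (fun _ => {∅}) (fun _ _ => 1) x n = FA x.1 N (x.1 * x.2 ^ 2) n := rfl

theorem FE_S (N : ℕ) (P' : ℕ → Finset ℕ) (v : ℕ → ℝ) (x : (_ : ℕ) × ℕ) (n : ℕ) :
    FE N (fun q => sing (P' q)) (fun _ => omw v) x n = FS (P' x.1) v x.1 N (x.1 * x.2 ^ 2) n := rfl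

theorem card_NN (w N a : ℕ) (ha : a < primorial w) :
    (#(NN w N a) : ℝ) ≤ (N : ℝ) / primorial w + 2 := by
  have h := crt_Ioc N ∅ (by simp) (primorial w) a (primorial_pos w) ha (by simp) (fun _ => ∅)
    (by simp)
  simp only [Finset.notMem_empty, false_imp_iff, implies_true, and_true, Finset.prod_empty,
    mul_one] at h
  have := (abs_le.1 h).2
  unfold NN
  linarith

end Pool.Agent.Work.MP_73869e_nt.AP
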