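import Mathlib
import Pool.Agent.Work.MP_73869e_nt.AP.Cls

set_option autoImplicit false

namespace Pool.Agent.Work.MP_73869e_nt.AP

open Finset Filter Pool.Agent.Work.MP_2dba45_nt.Sel

/-- the conclusion wanted for `n` -/
def GoodN (c α : ℝ) (K : Finset ℕ) (w N a n : ℕ) : Prop :=
  ∃ x ∈ Fam c K N (primorial w) (primorial w / Nat.gcd a (primorial w)),
    n ∈ AA {x.1 * x.2 ^ 2} w N a ∧ Th α x.1 N (x.1 * x.2 ^ 2) n ∧
    ∑ p ∈ (PP x.1 N).filter (fun p : ℕ => (N : ℝ) ^ α < p ∧ p ∣ n ^ 2 + x.1 * x.2 ^ 2), wt N p < 2.74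

theorem ev_small (η : ℝ) (hη : 0 < η) (Q : ℕ) (hQ : 0 < Q) : ∀ᶠ N : ℕ in atTop,
    (N : ℝ) / Real.log N ^ 3 ≤ η * ((N : ℝ) / Q) := by
  filter_upwards [ev_log_ge (max 1 (Q / η))] with N hN
  have hL1 : 1 ≤ Real.log N := (le_max_left _ _).trans hN
  have hL2 : Q / η ≤ Real.log N := (le_max_right _ _).trans hN
  have hQ0 : (0 : ℝ) < Q := by exact_mod_cast hQ
  have hL0 : 0 < Real.log N := by linarith
  have h1 : (Q : ℝ) ≤ η * Real.log N ^ 3 := by
    have h2 : (Q : ℝ) ≤ Real.log N * η := by rwa [div_le_iff₀ hη] at hL2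
    have h3 : Real.log N ≤ Real.log N ^ 3 := le_self_pow₀ hL1 (by norm_num)
    nlinarith
  rw [div_le_iff₀ (by positivity)]
  have hN0 : (0 : ℝ) ≤ N := by positivity
  calc (N : ℝ) = N / Q * Q := by field_simp
    _ ≤ N / Q * (η * Real.log N ^ 3) := by gcongr
    _ = _ := by ring

open Classical in
theorem class_bound (c ε : ℝ) (hc : 0 < c) (hε : 0 < ε) (hε1 : ε ≤ 1) :
    ∃ α : ℝ, 0 < α ∧ α ≤ 1 / 50 ∧ ∃ (K : Finset ℕ) (w : ℕ), 16 ≤ w ∧
    (∀ q ∈ K, q.Prime ∧ q % 4 = 3 ∧ w < q) ∧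
    ∀ᶠ N : ℕ in atTop, ∀ a < primorial w,
      (#((NN w N a).filter (fun n => ¬ GoodN c α K w N a n)) : ℝ) ≤
        ε / 2 * ((N : ℝ) / primorial w) := by
  obtain ⟨C1, hC1, hpair⟩ := pair_avg
  obtain ⟨C2, hC2, hVG⟩ := VG_bound
  set η : ℝ := ε / 10 ^ 6 with hηdef
  have hη : 0 < η := by positivity
  have hη1 : η ≤ 1 / 10 ^ 6 := by rw [hηdef]; gcongr
  set α₀ : ℝ := η / 100 with hα₀def
  have hα₀ : 0 < α₀ := by positivity
  have hα₀1 : α₀ ≤ 1 / 50 := by rw [hα₀def]; linarith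
  set α : ℝ := η * α₀ / 600 with hαdef
  have hα : 0 < α := by positivity
  have hα1 : α ≤ 1 / 50 := by
    rw [hαdef]; nlinarith
  set w : ℕ := max 16 (⌈27 * C1 / η⌉₊) with hwdef
  have hw : 16 ≤ w := le_max_left _ _
  have hw9 : 9 * C1 / w ≤ η / 3 := by
    have h1 : 27 * C1 / η ≤ w := by
      calc 27 * C1 / η ≤ (⌈27 * C1 / η⌉₊ : ℝ) := Nat.le_ceil _
        _ ≤ w := by exact_mod_cast le_max_right _ _
    have hw0 : (0 : ℝ) < w := by exact_mod_cast (by omega : 0 < w)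
    rw [div_le_iff₀ hη] at h1
    rw [div_le_div_iff₀ hw0 (by norm_num)]
    linarith
  set Q := primorial w with hQdef
  have hQpos : 0 < Q := primorial_pos w
  have hQ0 : (0 : ℝ) < Q := by exact_mod_cast hQpos
  obtain ⟨K, hKall, hS, hKd⟩ := choose_K w (48 * KB α * C2 * (Q : ℝ) ^ 2 / (√c * η))
  refine ⟨α, hα, hα1, K, w, hw, hKall, ?_⟩
  have hK : ∀ q ∈ K, q.Prime ∧ q % 4 = 3 := fun q hq => ⟨(hKall q hq).1, (hKall q hq).2.1⟩
  have hwq : ∀ q ∈ K, w < q := fun q hq => (hKall q hq).2.2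
  have hq2 : ∀ q ∈ K, q ≠ 2 := by
    rintro q hq rfl
    have := (hK 2 hq).2
    norm_num at this
  have hsm := second_moment c α η hc hα hη K hK w hw hwq C1 C2 hC1 hC2 (hpair w hw)
    (fun q hq hq4 hwq => hVG q hq hq4 w (by omega) hwq) hw9 hS hKd
  have evT : ∀ᶠ N : ℕ in atTop, ∀ q ∈ K,
      ∑ p ∈ (PP q N).filter (fun p : ℕ => (p : ℝ) ≤ (N : ℝ) ^ α), g p *
      (G q N (RR N) - G q N (RR N / p)) ≤ 50 * α * G q N (RR N) := by
    rw [Filter.eventually_all_finset]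
    exact fun q hq => small_bound q (hK q hq).1 (hq2 q hq) α hα hα1
  have ev1 : ∀ᶠ N : ℕ in atTop, ∀ q ∈ K,
      ∑ p ∈ (PP q N).filter (fun p : ℕ => (p : ℝ) ≤ (N : ℝ) ^ α₀), g p *
      (G q N (RR N) - G q N (RR N / p)) ≤ 50 * α₀ * G q N (RR N) := by
    rw [Filter.eventually_all_finset]
    exact fun q hq => small_bound q (hK q hq).1 (hq2 q hq) α₀ hα₀ hα₀1
  have ev2 : ∀ᶠ N : ℕ in atTop, ∀ q ∈ K,
      ∑ p ∈ PP q N, g p * (1 - Real.log p / Real.log (yR N)) *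
      (G q N (RR N) - G q N (RR N / p)) ≤ 2.65 * G q N (RR N) := by
    rw [Filter.eventually_all_finset]
    exact fun q hq => beta_bound q (hK q hq).1 (hq2 q hq)
  have ev4 : ∀ᶠ N : ℕ in atTop, ∀ q ∈ K, ∀ j ∈ Icc 1 (JJ c q N), q * j ^ 2 ≤ N := by
    rw [Filter.eventually_all_finset]
    intro q hq
    filter_upwards [ev_rpow_small 0 (by norm_num) c 2, eventually_ge_atTop 8] with N hN h8
    intro j hj
    have h1 := (jj_bound c hc q N j (hK q hq).1.pos hj).1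
    have hl : 0 < Real.log N := Real.log_pos (by exact_mod_cast (by omega : 1 < N))
    rw [Real.rpow_zero, mul_one, le_div_iff₀ (by positivity)] at hN
    exact_mod_cast h1.trans hN
  set δ1 : ℝ := η / (4 * (3 / α₀ + 2)) with hδ1
  have h3α : 0 < 3 / α₀ := by positivity
  have hδ1pos : 0 < δ1 := by positivity
  have hδ1a : δ1 * (1 + 3 / α₀) ≤ η / 4 := by
    rw [hδ1, div_mul_eq_mul_div, div_le_div_iff₀ (by positivity) (by norm_num)]
    nlinarith
  have hδ1b : 2 * δ1 ≤ η / 4 := by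
    rw [hδ1, mul_div_assoc', div_le_div_iff₀ (by positivity) (by norm_num)]
    nlinarith
  filter_upwards [hsm, evT, ev1, ev2, ev4, ev_ok, first_moment c α hc K hK w hw hwq,
    card_Fam_ge c hc K (fun q hq => (hK q hq).1) Q hQpos, ev_small δ1 hδ1pos Q hQpos,
    eventually_ge_atTop (⌈2 * (Q : ℝ) / η⌉₊ + 1)]
    with N hsmN hT h1 h2 h4 hok hfm hcard hsml hNbig
  intro a ha
  set b := Q / Nat.gcd a Q with hb
  set F := Fam c K N Q b with hF
  set X := (N : ℝ) / Q with hX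
  have hN0 : (0 : ℝ) < N := by
    have := hok.hN
    exact_mod_cast (by omega : 0 < N)
  have hX0 : 0 < X := by positivity
  set K0 : ℝ := (#F : ℝ) with hK0def
  have hL1 := hok.hL
  have hK0 : 0 < K0 := by
    have := hcard b
    have h5 : 0 < √c * Real.log N / (2 * Q) * ∑ q ∈ K, 1 / √(q : ℝ) := by
      have : 0 < √c := Real.sqrt_pos.2 hc
      positivity
    linarith
  -- the three systems
  set EA : ℕ → Finset (Finset ℕ) := fun _ => {∅}
  set oA : ℕ → Finset ℕ → ℝ := fun _ _ => 1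
  set E1 : ℕ → Finset (Finset ℕ) := fun q => sing (P1 α α₀ q N)
  set E2 : ℕ → Finset (Finset ℕ) := fun q => sing (P2 α₀ q N)
  set ET : ℕ → Finset (Finset ℕ) := fun q => sing (Psm α q N)
  set oW : ℕ → Finset ℕ → ℝ := fun _ => omw (wt N)
  set oT : ℕ → Finset ℕ → ℝ := fun _ => omw (fun _ => 1)
  have HA : HE α K N EA oA := HE_zero hα K hok
  have H1 : HE α K N E1 oW := HE_sing hα K hok (fun q => P1 α α₀ q N)
    (fun q _ => Finset.filter_subset _ _) (wt N) (wt_nonneg hok) (wt_le_one hok)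
  have H2 : HE α K N E2 oW := HE_sing hα K hok (fun q => P2 α₀ q N)
    (fun q _ => Finset.filter_subset _ _) (wt N) (wt_nonneg hok) (wt_le_one hok)
  have HT : HE α K N ET oT := HE_sing hα K hok (fun q => Psm α q N)
    (fun q _ => Finset.filter_subset _ _) (fun _ => 1) (fun _ => zero_le_one) (fun _ => le_rfl)
  have muA : ∀ q ∈ K, mu N EA oA q = 1 := fun q _ => mu_A hok
  have mu1 : ∀ q ∈ K, 0 ≤ mu N E1 oW q ∧ mu N E1 oW q ≤ 50 * α₀ := fun q hq =>
    mu_1 hok α α₀ (50 * α₀) (h1 q hq)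
  have mu2 : ∀ q ∈ K, 0 ≤ mu N E2 oW q ∧ mu N E2 oW q ≤ 2.65 := fun q hq =>
    mu_2 hok α₀ 2.65 (h2 q hq)
  have muT : ∀ q ∈ K, 0 ≤ mu N ET oT q ∧ mu N ET oT q ≤ 50 * α := fun q hq =>
    mu_T hok α (50 * α) (hT q hq)
  set fA : ℕ → ℝ := fun n => ∑ x ∈ F, tt α w N a EA oA x n with hfA
  set f1 : ℕ → ℝ := fun n => ∑ x ∈ F, tt α w N a E1 oW x n with hf1
  set f2 : ℕ → ℝ := fun n => ∑ x ∈ F, tt α w N a E2 oW x n with hf2
  set M := ∑ x ∈ F, mu N E2 oW x.1 with hM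
  have hcw0 : ∀ x, 0 ≤ cw w N x := fun x => cw_nonneg (by omega) hok x
  set e0 := (N : ℝ) / Real.log N ^ 3 with he0
  have he0X : e0 ≤ δ1 * X := hsml
  have he00 : 0 ≤ e0 := by positivity
  have hFm : ∀ x ∈ F, x.1 ∈ K := fun x hx => (mem_Fam.1 hx).1
  -- loss term
  have hTx : ∀ x ∈ F, cw w N x * ∑ n ∈ AA {x.1 * x.2 ^ 2} w N a, FE N ET oT x n ≤
      50 * α * X + e0 := by
    intro x hx
    have h := (abs_le.1 (hfm a ha b ET oT HT x hx)).2
    have h' := (muT x.1 (hFm x hx)).2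
    have : X * mu N ET oT x.1 ≤ X * (50 * α) := by gcongr
    linarith
  -- first moment of fA
  have hMA : (1 - η) * K0 * X ≤ ∑ n ∈ NN w N a, fA n := by
    rw [hfA, Finset.sum_comm]
    have hx : ∀ x ∈ F, (1 - η) * X ≤ ∑ n ∈ NN w N a, tt α w N a EA oA x n := by
      intro x hx
      rw [tt_sum]
      have h5 := (abs_le.1 (hfm a ha b EA oA HA x hx)).1
      rw [muA x.1 (hFm x hx), mul_one] at h5
      have h6 : cw w N x * ∑ n ∈ AA {x.1 * x.2 ^ 2} w N a, FE N EA oA x n -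
          cw w N x * ∑ n ∈ AA {x.1 * x.2 ^ 2} w N a, FE N ET oT x n ≤
          cw w N x * ∑ n ∈ AA {x.1 * x.2 ^ 2} w N a,
            (if Th α x.1 N (x.1 * x.2 ^ 2) n then FE N EA oA x n else 0) := by
        rw [← mul_sub, ← Finset.sum_sub_distrib]
        apply mul_le_mul_of_nonneg_left _ (hcw0 x)
        refine Finset.sum_le_sum fun n _ => ?_
        have := FA_loss α x.1 N (x.1 * x.2 ^ 2) n
        have e1 : FE N EA oA x n = FA x.1 N (x.1 * x.2 ^ 2) n := rfl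
        have e2 : FE N ET oT x n = FS (Psm α x.1 N) (fun _ => 1) x.1 N (x.1 * x.2 ^ 2) n := rfl
        rw [e1, e2]
        linarith
      have h7 := hTx x hx
      have h8 : 50 * α ≤ η / 4 := by
        rw [hαdef]; nlinarith
      have h9 : 50 * α * X ≤ η / 4 * X := by gcongr
      have h10 : 2 * (δ1 * X) ≤ η / 4 * X := by
        rw [← mul_assoc]; gcongr
      nlinarith
    calc (1 - η) * K0 * X = ∑ x ∈ F, (1 - η) * X := by
          rw [Finset.sum_const, nsmul_eq_mul]; ring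
      _ ≤ _ := Finset.sum_le_sum hx
  have hMA2 : ∑ n ∈ NN w N a, fA n ^ 2 ≤ (1 + η) * K0 ^ 2 * X := by
    have h5 := hsmN a ha b EA oA HA (fun q hq => by rw [muA q hq]; norm_num)
    have h6 : ∑ x ∈ F, mu N EA oA x.1 = K0 := by
      rw [Finset.sum_congr rfl fun x hx => muA x.1 (hFm x hx)]
      simp [hK0def]
    rw [h6] at h5
    refine h5.trans (le_of_eq ?_)
    ring
  -- first moment of f2
  have hM2 : M * X - η * K0 * X ≤ ∑ n ∈ NN w N a, f2 n := by
    rw [hf2, Finset.sum_comm]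
    have hx : ∀ x ∈ F, mu N E2 oW x.1 * X - η * X ≤ ∑ n ∈ NN w N a, tt α w N a E2 oW x n := by
      intro x hx
      rw [tt_sum]
      have h5 := (abs_le.1 (hfm a ha b E2 oW H2 x hx)).1
      have h6 : cw w N x * ∑ n ∈ AA {x.1 * x.2 ^ 2} w N a, FE N E2 oW x n -
          3 / α₀ * (cw w N x * ∑ n ∈ AA {x.1 * x.2 ^ 2} w N a, FE N ET oT x n) ≤
          cw w N x * ∑ n ∈ AA {x.1 * x.2 ^ 2} w N a,
            (if Th α x.1 N (x.1 * x.2 ^ 2) n then FE N E2 oW x n else 0) := by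
        rw [mul_left_comm, ← mul_sub, Finset.mul_sum (s := AA {x.1 * x.2 ^ 2} w N a),
          ← Finset.sum_sub_distrib]
        apply mul_le_mul_of_nonneg_left _ (hcw0 x)
        refine Finset.sum_le_sum fun n hn => ?_
        have hn' : n ∈ Ioc N (2 * N) := by
          unfold AA at hn
          exact (Finset.mem_filter.1 hn).1
        have := FS_loss hok α α₀ hα₀ (P2 α₀ x.1 N) (fun p hp => Finset.mem_filter.1 hp) (wt N)
          (wt_nonneg hok) (wt_le_one hok) (x.1 * x.2 ^ 2) n hn'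
          (h4 x.1 (hFm x hx) x.2 (mem_Fam.1 hx).2.1)
        have e1 : FE N E2 oW x n = FS (P2 α₀ x.1 N) (wt N) x.1 N (x.1 * x.2 ^ 2) n := rfl
        have e2 : FE N ET oT x n = FS (Psm α x.1 N) (fun _ => 1) x.1 N (x.1 * x.2 ^ 2) n := rfl
        rw [e1, e2]
        linarith
      have h7 := hTx x hx
      have h8 : 3 / α₀ * (cw w N x * ∑ n ∈ AA {x.1 * x.2 ^ 2} w N a, FE N ET oT x n) ≤
          3 / α₀ * (50 * α * X + e0) := by gcongr
      have h9 : 3 / α₀ * (50 * α) = η / 4 := by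
        rw [hαdef]; field_simp; ring
      have h10 : e0 * (1 + 3 / α₀) ≤ η / 4 * X := by
        calc e0 * (1 + 3 / α₀) ≤ δ1 * X * (1 + 3 / α₀) := by gcongr
          _ = δ1 * (1 + 3 / α₀) * X := by ring
          _ ≤ η / 4 * X := by gcongr
      have h11 : 3 / α₀ * (50 * α * X + e0) = η / 4 * X + 3 / α₀ * e0 := by
        rw [mul_add, ← mul_assoc, h9]
      have h12 : 0 < η * X := by positivity
      nlinarith
    calc M * X - η * K0 * X = ∑ x ∈ F, (mu N E2 oW x.1 * X - η * X) := by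
          rw [Finset.sum_sub_distrib, ← Finset.sum_mul, Finset.sum_const, nsmul_eq_mul]; ring
      _ ≤ _ := Finset.sum_le_sum hx
  have hM22 : ∑ n ∈ NN w N a, f2 n ^ 2 ≤ X * (M ^ 2 + η * K0 ^ 2) :=
    hsmN a ha b E2 oW H2 (fun q hq => ⟨(mu2 q hq).1, (mu2 q hq).2.trans (by norm_num)⟩)
  -- first moment of f1
  have hM1 : ∑ n ∈ NN w N a, f1 n ≤ η * K0 * X := by
    rw [hf1, Finset.sum_comm]
    have hx : ∀ x ∈ F, ∑ n ∈ NN w N a, tt α w N a E1 oW x n ≤ η * X := by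
      intro x hx
      rw [tt_sum]
      have h5 := (abs_le.1 (hfm a ha b E1 oW H1 x hx)).2
      have h6 : cw w N x * ∑ n ∈ AA {x.1 * x.2 ^ 2} w N a,
            (if Th α x.1 N (x.1 * x.2 ^ 2) n then FE N E1 oW x n else 0) ≤
          cw w N x * ∑ n ∈ AA {x.1 * x.2 ^ 2} w N a, FE N E1 oW x n := by
        apply mul_le_mul_of_nonneg_left _ (hcw0 x)
        refine Finset.sum_le_sum fun n _ => ?_
        split_ifs
        · exact le_rfl
        · exact H1.nn x.1 (hFm x hx) _ n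
      have h7 : X * mu N E1 oW x.1 ≤ X * (50 * α₀) := by
        have := (mu1 x.1 (hFm x hx)).2
        gcongr
      have h8 : X * (50 * α₀) = η / 2 * X := by rw [hα₀def]; ring
      have h9 : 2 * (δ1 * X) ≤ η / 4 * X := by
        rw [← mul_assoc]; gcongr
      have h10 : 0 < η * X := by positivity
      have h11 : 0 ≤ δ1 * X := by positivity
      linarith
    calc _ ≤ ∑ x ∈ F, η * X := Finset.sum_le_sum hx
      _ = η * K0 * X := by rw [Finset.sum_const, nsmul_eq_mul]; ring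
  have hNN : (#(NN w N a) : ℝ) ≤ (1 + η) * X := by
    have h5 := card_NN w N a ha
    have h6 : 2 ≤ η * X := by
      have h7 : 2 * (Q : ℝ) / η ≤ N := by
        calc 2 * (Q : ℝ) / η ≤ (⌈2 * (Q : ℝ) / η⌉₊ : ℝ) := Nat.le_ceil _
          _ ≤ N := by
              have : ⌈2 * (Q : ℝ) / η⌉₊ ≤ N := by omega
              exact_mod_cast this
      rw [div_le_iff₀ hη] at h7
      rw [hX, mul_div_assoc', le_div_iff₀ hQ0]
      linarith
    have e : (N : ℝ) / primorial w = X := rfl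
    rw [e] at h5
    linarith
  have hM0 : 0 ≤ M := Finset.sum_nonneg fun x hx => (mu2 x.1 (hFm x hx)).1
  have hM265 : M ≤ 2.65 * K0 := by
    calc M ≤ ∑ x ∈ F, (2.65 : ℝ) := Finset.sum_le_sum fun x hx => (mu2 x.1 (hFm x hx)).2
      _ = _ := by rw [Finset.sum_const, nsmul_eq_mul]; ring
  have b1 := cheb_low (NN w N a) fA X K0 η (1 / 100) hX0 hK0 (by norm_num) hNN hMA hMA2
  have b2 := cheb_up (NN w N a) f2 X K0 M η (1 / 100) hX0 hK0 (by norm_num) hη hM0 (by linarith)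
    hNN hM2 hM22
  have hf1nn : ∀ n ∈ NN w N a, 0 ≤ f1 n := by
    intro n _
    refine Finset.sum_nonneg fun x hx => ?_
    unfold tt
    apply mul_nonneg (hcw0 x)
    split_ifs
    · exact H1.nn x.1 (hFm x hx) _ n
    · exact le_rfl
  have b3 := markov (NN w N a) f1 X K0 η (1 / 100) hK0 (by norm_num) hf1nn hM1
  have hsub : (NN w N a).filter (fun n => ¬ GoodN c α K w N a n) ⊆
      ((NN w N a).filter (fun n => fA n ≤ (1 - 1 / 100) * K0)) ∪
      (((NN w N a).filter (fun n => M + 1 / 100 * K0 ≤ f2 n)) ∪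
      ((NN w N a).filter (fun n => 1 / 100 * K0 ≤ f1 n))) := by
    intro n hn
    rw [Finset.mem_filter] at hn
    by_contra hcon
    simp only [Finset.mem_union, Finset.mem_filter, hn.1, true_and, not_or, not_le] at hcon
    obtain ⟨g1, g2, g3⟩ := hcon
    apply hn.2
    have hpos : 0 < ∑ x ∈ F, (2.74 * tt α w N a EA oA x n - tt α w N a E1 oW x n -
        tt α w N a E2 oW x n) := by
      rw [Finset.sum_sub_distrib, Finset.sum_sub_distrib, ← Finset.mul_sum]
      have e1 : ∑ x ∈ F, tt α w N a EA oA x n = fA n := rfl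
      have e2 : ∑ x ∈ F, tt α w N a E1 oW x n = f1 n := rfl
      have e3 : ∑ x ∈ F, tt α w N a E2 oW x n = f2 n := rfl
      rw [e1, e2, e3]
      nlinarith
    obtain ⟨x, hx, hxpos⟩ : ∃ x ∈ F, 0 < 2.74 * tt α w N a EA oA x n - tt α w N a E1 oW x n -
        tt α w N a E2 oW x n := by
      by_contra hno
      push Not at hno
      exact absurd (Finset.sum_nonpos hno) (not_le.2 hpos)
    refine ⟨x, hx, ?_⟩
    by_cases hcond : n ∈ AA {x.1 * x.2 ^ 2} w N a ∧ Th α x.1 N (x.1 * x.2 ^ 2) n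
    · refine ⟨hcond.1, hcond.2, ?_⟩
      unfold tt at hxpos
      rw [if_pos hcond, if_pos hcond, if_pos hcond] at hxpos
      have e1 : FE N EA oA x n = FA x.1 N (x.1 * x.2 ^ 2) n := rfl
      have e2 : FE N E1 oW x n = FA x.1 N (x.1 * x.2 ^ 2) n *
          ∑ p ∈ (P1 α α₀ x.1 N).filter (fun p => p ∣ n ^ 2 + x.1 * x.2 ^ 2), wt N p :=
        FS_eq _ _ _ _ _ _
      have e3 : FE N E2 oW x n = FA x.1 N (x.1 * x.2 ^ 2) n *
          ∑ p ∈ (P2 α₀ x.1 N).filter (fun p => p ∣ n ^ 2 + x.1 * x.2 ^ 2), wt N p :=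
        FS_eq _ _ _ _ _ _
      rw [e1, e2, e3] at hxpos
      set s1 := ∑ p ∈ (P1 α α₀ x.1 N).filter (fun p => p ∣ n ^ 2 + x.1 * x.2 ^ 2), wt N p
      set s2 := ∑ p ∈ (P2 α₀ x.1 N).filter (fun p => p ∣ n ^ 2 + x.1 * x.2 ^ 2), wt N p
      have hp : 0 < cw w N x * FA x.1 N (x.1 * x.2 ^ 2) n * (2.74 - s1 - s2) := by
        linarith
      have hc' := hcw0 x
      have hF0 := FA_nonneg x.1 N (x.1 * x.2 ^ 2) n
      have hs : 0 < 2.74 - s1 - s2 := by
        by_contra hneg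
        push Not at hneg
        have := mul_nonneg hc' hF0
        nlinarith
      have hle : ∑ p ∈ (PP x.1 N).filter (fun p : ℕ => (N : ℝ) ^ α < p ∧
          p ∣ n ^ 2 + x.1 * x.2 ^ 2), wt N p ≤ s1 + s2 := by
        rw [← Finset.sum_union]
        · apply Finset.sum_le_sum_of_subset_of_nonneg
          · intro p hp
            rw [Finset.mem_filter] at hp
            rw [Finset.mem_union, Finset.mem_filter, Finset.mem_filter]
            unfold P1 P2
            rw [Finset.mem_filter, Finset.mem_filter]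
            by_cases h5 : (p : ℝ) ≤ (N : ℝ) ^ α₀
            · exact Or.inl ⟨⟨hp.1, hp.2.1, h5⟩, hp.2.2⟩
            · exact Or.inr ⟨⟨hp.1, not_le.1 h5⟩, hp.2.2⟩
          · intro p _ _
            exact wt_nonneg hok p
        · rw [Finset.disjoint_left]
          intro p h5 h6
          unfold P1 at h5
          unfold P2 at h6
          simp only [Finset.mem_filter] at h5 h6
          linarith [h5.1.2.2, h6.1.2]
      linarith
    · unfold tt at hxpos
      rw [if_neg hcond, if_neg hcond, if_neg hcond] at hxpos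
      simp at hxpos
  have hcardle : (#((NN w N a).filter (fun n => ¬ GoodN c α K w N a n)) : ℝ) ≤
      (#((NN w N a).filter (fun n => fA n ≤ (1 - 1 / 100) * K0)) : ℝ) +
      ((#((NN w N a).filter (fun n => M + 1 / 100 * K0 ≤ f2 n)) : ℝ) +
      (#((NN w N a).filter (fun n => 1 / 100 * K0 ≤ f1 n)) : ℝ)) := by
    have h5 := (Finset.card_le_card hsub).trans ((Finset.card_union_le _ _).trans
      (Nat.add_le_add_left (Finset.card_union_le _ _) _))
    exact_mod_cast h5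
  refine hcardle.trans ?_
  have e : ε / 2 * ((N : ℝ) / primorial w) = ε / 2 * X := rfl
  rw [e]
  have hfin : 4 * η / (1 / 100) ^ 2 * X + (16 * η / (1 / 100) ^ 2 * X + η / (1 / 100) * X) ≤
      ε / 2 * X := by
    rw [← add_mul, ← add_mul]
    apply mul_le_mul_of_nonneg_right _ hX0.le
    rw [hηdef]
    have : 4 * (ε / 10 ^ 6) / (1 / 100) ^ 2 + (16 * (ε / 10 ^ 6) / (1 / 100) ^ 2 +
        ε / 10 ^ 6 / (1 / 100)) = ε * 0.2001 := by ring
    rw [this]
    nlinarith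
  linarith

end Pool.Agent.Work.MP_73869e_nt.AP
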