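import Mathlib
import Pool.Agent.Work.MP_73869e_nt.AP.Cls2

set_option autoImplicit false

namespace Pool.Agent.Work.MP_73869e_nt.AP

open Finset Filter Pool.Agent.Work.MP_2dba45_nt.Sel

/-- conclusion for `n` at scale `N` -/
def Nice (c α : ℝ) (N n : ℕ) : Prop :=
  ∃ k : ℕ, 0 < k ∧ (k : ℝ) ≤ c * Real.log N ^ 2 ∧ ArithmeticFunction.cardFactors (n ^ 2 + k) ≤ 7 ∧
    ∀ p : ℕ, p.Prime → p ∣ n ^ 2 + k → (N : ℝ) ^ α < p

open Classical in
theorem dyadic (c ε : ℝ) (hc : 0 < c) (hε : 0 < ε) (hε1 : ε ≤ 1) : ∃ α : ℝ, 0 < α ∧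
    ∀ᶠ N : ℕ in atTop, (#((Ioc N (2 * N)).filter (fun n => ¬ Nice c α N n)) : ℝ) ≤ ε * N := by
  obtain ⟨α, hα, hα1, K, w, hw, hKall, hcls⟩ := class_bound c ε hc hε hε1
  refine ⟨α, hα, ?_⟩
  set Q := primorial w with hQdef
  have hQpos : 0 < Q := primorial_pos w
  have hQ0 : (0 : ℝ) < Q := by exact_mod_cast hQpos
  have evs : ∀ᶠ N : ℕ in atTop, ∀ q ∈ K, ∀ j ∈ Icc 1 (JJ c q N),
      q * j ^ 2 < zN N ∧ j < zN N ∧ q < zN N := by
    rw [Filter.eventually_all_finset]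
    exact fun q hq => ev_shift_lt c hc q (hKall q hq).1.pos
  filter_upwards [hcls, evs, sq_count c α (ε / 2) hc hα (by positivity) K (fun q hq => (hKall q hq).1),
    omega_le c α hc hα, ev_ok, ev_zN_ge (w + 3)] with N hclsN hs hsq hom hok hzw
  have hN1 : (1 : ℝ) ≤ N := by exact_mod_cast (by have := hok.hN; omega : 1 ≤ N)
  have hN0 : (0 : ℝ) < N := by linarith
  have hzw' : w + 3 ≤ zN N := by exact_mod_cast hzw
  have hyα : (N : ℝ) ^ α ≤ yR N := by
    unfold yR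
    apply Real.rpow_le_rpow_of_exponent_le hN1
    linarith
  set Sq := (Ioc N (2 * N)).filter (fun n => ∃ q ∈ K, ∃ j ∈ Icc 1 (JJ c q N), ∃ p : ℕ, p.Prime ∧
      (N : ℝ) ^ α < p ∧ (p : ℝ) ≤ yR N ∧ p ^ 2 ∣ n ^ 2 + q * j ^ 2) with hSq
  have hsub : (Ioc N (2 * N)).filter (fun n => ¬ Nice c α N n) ⊆
      Sq ∪ (range Q).biUnion (fun a => (NN w N a).filter (fun n => ¬ GoodN c α K w N a n)) := by
    intro n hn
    rw [Finset.mem_filter] at hn
    by_contra hcon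
    rw [Finset.mem_union, not_or] at hcon
    obtain ⟨hnS, hnC⟩ := hcon
    have hgood : GoodN c α K w N (n % Q) n := by
      by_contra hg
      apply hnC
      rw [Finset.mem_biUnion]
      refine ⟨n % Q, Finset.mem_range.2 (Nat.mod_lt _ hQpos), ?_⟩
      rw [Finset.mem_filter]
      refine ⟨?_, hg⟩
      unfold NN
      rw [Finset.mem_filter]
      exact ⟨hn.1, rfl⟩
    obtain ⟨x, hx, hAA, hTh, hsum⟩ := hgood
    obtain ⟨hx1, hx2, hx3⟩ := mem_Fam.1 hx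
    apply hn.2
    obtain ⟨hs1, hs2, hs3⟩ := hs x.1 hx1 x.2 hx2
    have hj1 : 1 ≤ x.2 := (Finset.mem_Icc.1 hx2).1
    have hqp := (hKall x.1 hx1).1
    have hkc : ((x.1 * x.2 ^ 2 : ℕ) : ℝ) ≤ c * Real.log N ^ 2 :=
      (jj_bound c hc x.1 N x.2 hqp.pos hx2).1
    have hndvd : ∀ p : ℕ, p.Prime → zN N < p → ¬ p ∣ x.1 * x.2 := by
      intro p hp hpz h
      rcases (Nat.Prime.dvd_mul hp).1 h with h | h
      · have := Nat.le_of_dvd hqp.pos h; omega
      · have := Nat.le_of_dvd (by omega) h; omega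
    have hbig : ∀ p : ℕ, p.Prime → p ∣ n ^ 2 + x.1 * x.2 ^ 2 → zN N < p := by
      intro p hp hpd
      by_contra hpz
      push Not at hpz
      rcases Nat.lt_or_ge w p with h | h
      · have hpS : p ∈ SS w N := by
          unfold SS
          rw [Finset.mem_filter, Finset.mem_Ioc]
          exact ⟨⟨h, hpz⟩, hp⟩
        unfold AA at hAA
        exact (Finset.mem_filter.1 hAA).2.2 p hpS _ (Finset.mem_singleton_self _) hpd
      · exact cop_small w x.1 x.2 n p hp h hqp (hKall x.1 hx1).2.2 hx3 hpd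
    have hPP : ∀ p : ℕ, p.Prime → p ∣ n ^ 2 + x.1 * x.2 ^ 2 → (p : ℝ) ≤ yR N → p ∈ PP x.1 N := by
      intro p hp hpd hpy
      have hz := hbig p hp hpd
      have hj := jac_of_dvd x.1 x.2 p n hqp (hKall x.1 hx1).2.1 hp (by omega) (hndvd p hp hz) hpd
      unfold PP
      rw [Finset.mem_filter, Finset.mem_Ioc]
      exact ⟨⟨hz, Nat.le_floor hpy⟩, hp, hj⟩
    have hrough : ∀ p : ℕ, p.Prime → p ∣ n ^ 2 + x.1 * x.2 ^ 2 → (N : ℝ) ^ α < p := by
      intro p hp hpd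
      by_contra hpα
      push Not at hpα
      exact hTh p (hPP p hp hpd (hpα.trans hyα)) hpα hpd
    refine ⟨x.1 * x.2 ^ 2, Nat.mul_pos hqp.pos (by positivity), hkc, ?_, hrough⟩
    apply hom n hn.1 _ hkc hrough
    · intro p hp hpα hpy hdvd
      apply hnS
      rw [hSq, Finset.mem_filter]
      exact ⟨hn.1, x.1, hx1, x.2, hx2, p, hp, hpα, hpy, hdvd⟩
    · refine lt_of_le_of_lt ?_ hsum
      have hX0 : n ^ 2 + x.1 * x.2 ^ 2 ≠ 0 := by
        have : 0 < x.1 * x.2 ^ 2 := Nat.mul_pos hqp.pos (by positivity)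
        omega
      calc ∑ p ∈ (n ^ 2 + x.1 * x.2 ^ 2).primeFactors.filter (fun p : ℕ => (p : ℝ) ≤ yR N),
            (1 - Real.log p / Real.log (yR N))
          = ∑ p ∈ (n ^ 2 + x.1 * x.2 ^ 2).primeFactors.filter (fun p : ℕ => (p : ℝ) ≤ yR N),
            wt N p := by
            refine Finset.sum_congr rfl fun p hp => ?_
            rw [Finset.mem_filter] at hp
            unfold wt
            rw [if_pos hp.2]
        _ ≤ _ := by
            apply Finset.sum_le_sum_of_subset_of_nonneg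
            · intro p hp
              rw [Finset.mem_filter, Nat.mem_primeFactors] at hp
              rw [Finset.mem_filter]
              exact ⟨hPP p hp.1.1 hp.1.2.1 hp.2, hrough p hp.1.1 hp.1.2.1, hp.1.2.1⟩
            · intro p _ _
              exact wt_nonneg hok p
  have h1 : (#((Ioc N (2 * N)).filter (fun n => ¬ Nice c α N n)) : ℝ) ≤
      (#Sq : ℝ) + ∑ a ∈ range Q, (#((NN w N a).filter (fun n => ¬ GoodN c α K w N a n)) : ℝ) := by
    have h2 := (Finset.card_le_card hsub).trans ((Finset.card_union_le _ _).trans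
      (Nat.add_le_add_left Finset.card_biUnion_le _))
    exact_mod_cast h2
  refine h1.trans ?_
  have h3 : ∑ a ∈ range Q, (#((NN w N a).filter (fun n => ¬ GoodN c α K w N a n)) : ℝ) ≤
      ε / 2 * N := by
    calc _ ≤ ∑ a ∈ range Q, ε / 2 * ((N : ℝ) / Q) :=
          Finset.sum_le_sum fun a ha => hclsN a (Finset.mem_range.1 ha)
      _ = ε / 2 * N := by
          rw [Finset.sum_const, Finset.card_range, nsmul_eq_mul]
          field_simp
  linarith

/-- passing from dyadic blocks to initial segments -/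
theorem from_dyadic (B : ℕ → Prop) (ε : ℝ) (hε : 0 < ε)
    (h : ∀ᶠ N : ℕ in atTop, ({n : ℕ | N < n ∧ n ≤ 2 * N ∧ B n}.ncard : ℝ) ≤ ε * N) :
    ∀ᶠ N : ℕ in atTop, ({n : ℕ | 1 ≤ n ∧ n ≤ N ∧ B n}.ncard : ℝ) ≤ 3 * ε * N := by
  obtain ⟨N1, hN1⟩ := Filter.eventually_atTop.1 h
  set N0 := max (max N1 1) ⌈1 / ε⌉₊ with hN0
  set a : ℕ → ℝ := fun N => ({n : ℕ | 1 ≤ n ∧ n ≤ N ∧ B n}.ncard : ℝ) with ha
  have hfin : ∀ N, ({n : ℕ | 1 ≤ n ∧ n ≤ N ∧ B n}).Finite := fun N =>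
    (Set.finite_Icc 1 N).subset fun n hn => ⟨hn.1, hn.2.1⟩
  have htriv : ∀ N, a N ≤ N := by
    intro N
    have h1 : {n : ℕ | 1 ≤ n ∧ n ≤ N ∧ B n}.ncard ≤ (Set.Icc 1 N).ncard :=
      Set.ncard_le_ncard (fun n hn => ⟨hn.1, hn.2.1⟩) (Set.finite_Icc 1 N)
    have h2 : (Set.Icc 1 N).ncard = N := by
      rw [← Finset.coe_Icc, Set.ncard_coe_finset, Nat.card_Icc]; omega
    rw [h2] at h1
    simp only [ha]
    exact_mod_cast h1
  have hstep : ∀ N, N0 ≤ N → ∀ M, 2 * N ≤ M → M ≤ 2 * N + 1 → a M ≤ a N + ε * N + 1 := by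
    intro N hN M hM1 hM2
    have hb := hN1 N (le_trans ((le_max_left _ _).trans (le_max_left _ _)) hN)
    have hfin2 : ({n : ℕ | N < n ∧ n ≤ 2 * N ∧ B n}).Finite :=
      (Set.finite_Icc N (2 * N)).subset fun n hn => ⟨hn.1.le, hn.2.1⟩
    have hsub : {n : ℕ | 1 ≤ n ∧ n ≤ M ∧ B n} ⊆
        ({n : ℕ | 1 ≤ n ∧ n ≤ N ∧ B n} ∪ {n : ℕ | N < n ∧ n ≤ 2 * N ∧ B n}) ∪ {2 * N + 1} := by
      intro n hn
      simp only [Set.mem_ofPred_eq, Set.mem_union, Set.mem_singleton_iff] at hn ⊢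
      by_cases h1 : n ≤ N
      · exact Or.inl (Or.inl ⟨hn.1, h1, hn.2.2⟩)
      · by_cases h2 : n ≤ 2 * N
        · exact Or.inl (Or.inr ⟨by omega, h2, hn.2.2⟩)
        · exact Or.inr (by omega)
    have h1 : {n : ℕ | 1 ≤ n ∧ n ≤ M ∧ B n}.ncard ≤ {n : ℕ | 1 ≤ n ∧ n ≤ N ∧ B n}.ncard +
        {n : ℕ | N < n ∧ n ≤ 2 * N ∧ B n}.ncard + 1 := by
      refine (Set.ncard_le_ncard hsub (((hfin N).union hfin2).union (Set.finite_singleton _))).trans ?_
      refine (Set.ncard_union_le _ _).trans ?_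
      rw [Set.ncard_singleton]
      exact Nat.add_le_add_right (Set.ncard_union_le _ _) 1
    have h2 : a M ≤ a N + ({n : ℕ | N < n ∧ n ≤ 2 * N ∧ B n}.ncard : ℝ) + 1 := by
      simp only [ha]
      exact_mod_cast h1
    linarith
  have hN0ε : ∀ N, N0 ≤ N → 1 ≤ ε * N := by
    intro N hN
    have h1 : 1 / ε ≤ N := by
      calc 1 / ε ≤ (⌈1 / ε⌉₊ : ℝ) := Nat.le_ceil _
        _ ≤ N := by
            have : ⌈1 / ε⌉₊ ≤ N := (le_max_right _ _).trans hN
            exact_mod_cast this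
    rw [div_le_iff₀ hε] at h1
    linarith
  have hclaim : ∀ M : ℕ, a M ≤ 2 * ε * M + 2 * N0 := by
    intro M
    induction M using Nat.strong_induction_on with
    | _ M ih =>
      rcases Nat.lt_or_ge M (2 * N0) with h1 | h1
      · have h2 := htriv M
        have h3 : (M : ℝ) ≤ 2 * N0 := by exact_mod_cast h1.le
        have h4 : 0 ≤ 2 * ε * M := by positivity
        linarith
      · have hN : N0 ≤ M / 2 := by omega
        have hN01 : 1 ≤ N0 := (le_max_right _ _).trans (le_max_left _ _)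
        have h2 := ih (M / 2) (by omega)
        have h3 := hstep (M / 2) hN M (by omega) (by omega)
        have h4 := hN0ε (M / 2) hN
        have h5 : 2 * ((M / 2 : ℕ) : ℝ) ≤ M := by
          have : 2 * (M / 2) ≤ M := by omega
          exact_mod_cast this
        nlinarith
  filter_upwards [eventually_ge_atTop ⌈2 * N0 / ε⌉₊] with M hM
  have h1 : 2 * N0 / ε ≤ M := by
    calc 2 * N0 / ε ≤ (⌈2 * N0 / ε⌉₊ : ℝ) := Nat.le_ceil _
      _ ≤ M := by exact_mod_cast hM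
  rw [div_le_iff₀ hε] at h1
  have h2 := hclaim M
  simp only [ha] at h2
  linarith

theorem almost_all (c ε : ℝ) (hc : 0 < c) (hε : 0 < ε) : ∃ δ : ℝ, 0 < δ ∧ ∀ᶠ N : ℕ in atTop,
    ({n : ℕ | 1 ≤ n ∧ n ≤ N ∧ ¬ ∃ m : ℕ, n ^ 2 < m ∧ (m : ℝ) ≤ (n : ℝ) ^ 2 + c * Real.log n ^ 2 ∧
      ArithmeticFunction.cardFactors m ≤ 7 ∧
      ∀ p : ℕ, p.Prime → p ∣ m → (n : ℝ) ^ δ < p}.ncard : ℝ) ≤ ε * N := by
  classical
  obtain ⟨α, hα, hdy⟩ := dyadic c (min (ε / 3) 1) hc (by positivity) (min_le_right _ _)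
  refine ⟨α / 2, by positivity, ?_⟩
  have h := from_dyadic (fun n => ¬ ∃ m : ℕ, n ^ 2 < m ∧ (m : ℝ) ≤ (n : ℝ) ^ 2 + c * Real.log n ^ 2 ∧
      ArithmeticFunction.cardFactors m ≤ 7 ∧
      ∀ p : ℕ, p.Prime → p ∣ m → (n : ℝ) ^ (α / 2) < p) (ε / 3) (by positivity) ?_
  · filter_upwards [h] with N hN
    refine hN.trans (le_of_eq ?_)
    ring
  · filter_upwards [hdy, eventually_ge_atTop 2] with N hN h2
    have hsub : {n : ℕ | N < n ∧ n ≤ 2 * N ∧ ¬ ∃ m : ℕ, n ^ 2 < m ∧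
        (m : ℝ) ≤ (n : ℝ) ^ 2 + c * Real.log n ^ 2 ∧
        ArithmeticFunction.cardFactors m ≤ 7 ∧
        ∀ p : ℕ, p.Prime → p ∣ m → (n : ℝ) ^ (α / 2) < p} ⊆
        ((Ioc N (2 * N)).filter (fun n => ¬ Nice c α N n) : Finset ℕ) := by
      intro n hn
      simp only [Set.mem_ofPred_eq] at hn
      simp only [Finset.coe_filter, Finset.mem_Ioc, Set.mem_ofPred_eq]
      refine ⟨⟨hn.1, hn.2.1⟩, ?_⟩
      rintro ⟨k, hk0, hkc, hom, hr⟩
      apply hn.2.2
      have hN0 : (0 : ℝ) < N := by exact_mod_cast (by omega : 0 < N)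
      have hn0 : (0 : ℝ) < n := by exact_mod_cast (by omega : 0 < n)
      have hNn : (N : ℝ) ≤ n := by exact_mod_cast hn.1.le
      refine ⟨n ^ 2 + k, by omega, ?_, hom, fun p hp hpd => ?_⟩
      · push_cast
        have h3 : Real.log N ≤ Real.log n := Real.log_le_log hN0 hNn
        have h4 : 0 ≤ Real.log N := Real.log_natCast_nonneg N
        have h5 : c * Real.log N ^ 2 ≤ c * Real.log n ^ 2 := by gcongr
        linarith
      · refine lt_of_le_of_lt ?_ (hr p hp hpd)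
        have h3 : (n : ℝ) ≤ (N : ℝ) ^ (2 : ℝ) := by
          rw [show (2 : ℝ) = ((2 : ℕ) : ℝ) by norm_num, Real.rpow_natCast]
          have : n ≤ N ^ 2 := by nlinarith [hn.2.1]
          exact_mod_cast this
        calc (n : ℝ) ^ (α / 2) ≤ ((N : ℝ) ^ (2 : ℝ)) ^ (α / 2) := by gcongr
          _ = (N : ℝ) ^ α := by
              rw [← Real.rpow_mul hN0.le]
              congr 1
              ring
    have h3 : ({n : ℕ | N < n ∧ n ≤ 2 * N ∧ ¬ ∃ m : ℕ, n ^ 2 < m ∧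
        (m : ℝ) ≤ (n : ℝ) ^ 2 + c * Real.log n ^ 2 ∧
        ArithmeticFunction.cardFactors m ≤ 7 ∧
        ∀ p : ℕ, p.Prime → p ∣ m → (n : ℝ) ^ (α / 2) < p}).ncard ≤
        #((Ioc N (2 * N)).filter (fun n => ¬ Nice c α N n)) := by
      rw [← Set.ncard_coe_finset]
      exact Set.ncard_le_ncard hsub (Finset.finite_toSet _)
    calc _ ≤ (#((Ioc N (2 * N)).filter (fun n => ¬ Nice c α N n)) : ℝ) := by exact_mod_cast h3
      _ ≤ min (ε / 3) 1 * N := hN
      _ ≤ ε / 3 * N := by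
          gcongr
          exact min_le_left _ _

end Pool.Agent.Work.MP_73869e_nt.AP
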